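import Mathlib

/-!
# Exponentials of nilpotent matrices over commutative `ℂ`-algebras; spans of columns
-/

namespace Pool.Agent.LibZE25

/-- `exp (x n)` for `n ^ d = 0` -/
noncomputable def expn {ι : Type} [Fintype ι] [DecidableEq ι] {B : Type} [CommRing B]
    [Algebra ℂ B] (d : ℕ) (n : Matrix ι ι ℂ) (x : B) : Matrix ι ι B :=
  ∑ r ∈ Finset.range d, x ^ r • (((r.factorial : ℂ)⁻¹ • n ^ r).map (algebraMap ℂ B))

/-- the span of the columns `j` of `A` with `a ≤ p j` -/
def colSp {K : Type} [Field K] {ι : Type} (p : ι → ℤ) (A : Matrix ι ι K) (a : ℤ) :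
    Submodule K (ι → K) :=
  Submodule.span K {v | ∃ j, a ≤ p j ∧ v = fun i => A i j}

end Pool.Agent.LibZE25
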