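import Pool.Agent.LibZE25.ADefs
import Pool.Agent.LibZE25.EDefs

/-!
# The formal part of the argument: definitions
-/

open PowerSeries
open scoped ComplexConjugate

namespace Pool.Agent.LibZE25

variable {ι : Type} [Fintype ι] [DecidableEq ι]

/-- Formal data of a variation at a puncture: the filtration is given by the matrix
`exp (log z · n) A(z)` (columns with index `≥ a` span `F^a`); `wt` are the weights. -/
structure FData (wt p : ι → ℤ) (d : ℕ) (n : Matrix ι ι ℂ) (A : Matrix ι ι (PowerSeries ℂ)) :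
    Prop where
  nil : n ^ d = 0
  cnj : n.map (starRingEnd ℂ) = -n
  trin : ∀ i j, wt j < wt i → n i j = 0
  triA : ∀ i j, wt j < wt i → A i j = 0
  unit : IsUnit A
  tr : ∃ T : Matrix ι ι (PowerSeries ℂ), (∀ i j, p i < p j - 1 → T i j = 0) ∧
    n.map (C : ℂ →+* PowerSeries ℂ) * A + (A.map fun f => X * derivative ℂ f) = A * T

/-- the period matrix `exp (Y/2 n) A(z)` over `RR` -/
noncomputable def rz (d : ℕ) (n : Matrix ι ι ℂ) (A : Matrix ι ι (PowerSeries ℂ)) :
    Matrix ι ι RR := expn d n ((1 / 2 : ℂ) • YR) * A.map jz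

/-- its conjugate -/
noncomputable def rw' (d : ℕ) (n : Matrix ι ι ℂ) (A : Matrix ι ι (PowerSeries ℂ)) :
    Matrix ι ι RR := expn d (-n) ((1 / 2 : ℂ) • YR) *
      A.map fun f => jw (f.map (starRingEnd ℂ))

/-- the two frames side by side, columns of index `≥ a` -/
def cat {B : Type} {κ : Type} (p : κ → ℤ) (a : ℤ) (M M' : Matrix κ κ B) :
    Matrix κ ({j // a ≤ p j} ⊕ {j // a ≤ p j}) B :=
  fun i c => Sum.elim (fun j : {j // a ≤ p j} => M i j) (fun j : {j // a ≤ p j} => M' i j) c

/-- block of weight `l` -/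
def bk {B : Type} (wt : ι → ℤ) (l : ℤ) (M : Matrix ι ι B) : Matrix {i // wt i = l} {i // wt i = l} B :=
  fun i j => M i j

namespace DF

variable (F : DF)

/-- the period matrix over the differential field, in the flat frame -/
noncomputable def fz (d : ℕ) (n : Matrix ι ι ℂ) (A : Matrix ι ι (PowerSeries ℂ)) :
    Matrix ι ι F.K := expn d n F.lz * A.map F.iz

/-- its conjugate -/
noncomputable def fw (d : ℕ) (n : Matrix ι ι ℂ) (A : Matrix ι ι (PowerSeries ℂ)) :
    Matrix ι ι F.K := expn d (-n) F.lw * A.map fun f => F.iw (f.map (starRingEnd ℂ))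

/-- the subspaces `N_j = F^{-j} ∩ conj F^{-j}` -/
noncomputable def NN (p : ι → ℤ) (d : ℕ) (n : Matrix ι ι ℂ) (A : Matrix ι ι (PowerSeries ℂ))
    (j : ℕ) : Submodule F.K (ι → F.K) :=
  colSp p (F.fz d n A) (-(j : ℤ)) ⊓ colSp p (F.fw d n A) (-(j : ℤ))

end DF

end Pool.Agent.LibZE25
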