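import Pool.Agent.LibMW38.Gen2
import Pool.Agent.LibMW38.LDefs
import Pool.Agent.LibMW38.Blk
import Pool.Agent.LibSP38.Mon1
import Pool.Agent.LibSP38.Glo3
import Pool.Agent.LibZE25.FDefs

/-!
# Real Hodge classes of mixed variations (MP_eeb1a4_ag): local data at a puncture
-/

open Matrix Complex
open scoped ComplexConjugate

namespace Pool.Agent.LibZE25

open MW38 SP38

variable {ι : Type} [Fintype ι] [DecidableEq ι]

/-- the period matrix in the coordinate `ζ` -/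
noncomputable def GZ (N : Matrix ι ι ℝ) (Ψ : ℂ → Matrix ι ι ℂ) (ζ : ℂ) : Matrix ι ι ℂ :=
  IsNilpotent.exp (ζ • cm N) * Ψ (qq ζ)

/-- the same without the real part of the twist -/
noncomputable def RZ (N : Matrix ι ι ℝ) (Ψ : ℂ → Matrix ι ι ℂ) (ζ : ℂ) : Matrix ι ι ℂ :=
  IsNilpotent.exp ((I * (ζ.im : ℂ)) • cm N) * Ψ (qq ζ)

/-- a variation of mixed Hodge structure on a punctured disc with unipotent monodromy (or on a
disc, `N = 0`) -/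
structure Loc (wt p : ι → ℤ) (Q N : Matrix ι ι ℝ) (Ψ : ℂ → Matrix ι ι ℂ) (ε : ℝ) : Prop where
  eps : 0 < ε
  nil : IsNilpotent N
  tri : Tri wt N
  isom : Isom wt Q (IsNilpotent.exp N)
  hol : ∀ i j, DifferentiableOn ℂ (fun q => Ψ q i j) (Metric.ball 0 ε)
  inv : ∀ q ∈ Metric.ball (0 : ℂ) ε, IsUnit (Ψ q) ∧ Tri wt (Ψ q)
  mhs : ∀ ζ, ‖qq ζ‖ < ε → MHS wt p Q (GZ N Ψ ζ)
  tr : ∀ ζ, ‖qq ζ‖ < ε → ∀ j,
    (fun i => deriv (fun ζ => GZ N Ψ ζ i j) ζ) ∈ Fl p (GZ N Ψ ζ) (p j - 1)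

/-- `N / 2 π i` -/
noncomputable def nn (N : Matrix ι ι ℝ) : Matrix ι ι ℂ := (2 * Real.pi * I : ℂ)⁻¹ • cm N

/-- the matrix of Taylor series -/
noncomputable def tA (Ψ : ℂ → Matrix ι ι ℂ) : Matrix ι ι (PowerSeries ℂ) :=
  Matrix.of fun i j => tay fun q => Ψ q i j

/-- a real vector in `F^a` -/
def RC (p : ι → ℤ) (G : Matrix ι ι ℂ) (a : ℤ) : Prop := ∃ u : ι → ℝ, u ≠ 0 ∧ tC u ∈ Fl p G a

end Pool.Agent.LibZE25
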