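import Pool.Agent.LibMW38.BlkE
import Pool.Agent.LibZE25.ALoc

/-!
# Transversality in the coordinate `q`
-/

open Matrix Complex

namespace Pool.Agent.LibZE25

open MW38 SP38

variable {ι : Type} [Fintype ι] [DecidableEq ι] {wt p : ι → ℤ} {Q N : Matrix ι ι ℝ}
  {Ψ : ℂ → Matrix ι ι ℂ} {ε : ℝ}

private theorem Z30_hasDeriv (h : Loc wt p Q N Ψ ε) {ζ : ℂ} (hζ : ‖qq ζ‖ < ε) (i j : ι) :
    HasDerivAt (fun z => GZ N Ψ z i j)
      ((cm N * IsNilpotent.exp (ζ • cm N) * Ψ (qq ζ) + (2 * Real.pi * I * qq ζ) •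
        (IsNilpotent.exp (ζ • cm N) * Matrix.of fun a b => deriv (fun q => Ψ q a b) (qq ζ))) i j)
      ζ := by
  have hnil : IsNilpotent (cm N) := cus1_cm_nil h.nil
  have hmem : qq ζ ∈ Metric.ball (0 : ℂ) ε := by
    rw [mem_ball_zero_iff]; exact hζ
  have h1 : ∀ l, HasDerivAt (fun z => IsNilpotent.exp (z • cm N) i l)
      ((cm N * IsNilpotent.exp (ζ • cm N)) i l) ζ := fun l => cus3_hasDerivAt_exp hnil ζ i l
  have h2 : ∀ l, HasDerivAt (fun z => Ψ (qq z) l j)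
      (deriv (fun q => Ψ q l j) (qq ζ) * (2 * Real.pi * I * qq ζ)) ζ := by
    intro l
    have h3 : HasDerivAt (fun q => Ψ q l j) (deriv (fun q => Ψ q l j) (qq ζ)) (qq ζ) :=
      ((h.hol l j).differentiableAt (Metric.isOpen_ball.mem_nhds hmem)).hasDerivAt
    exact h3.comp ζ (hasDerivAt_qq ζ)
  have h4 := HasDerivAt.fun_sum (u := Finset.univ) fun l (_ : l ∈ Finset.univ) => (h1 l).mul (h2 l)
  have e1 : (fun z => GZ N Ψ z i j) =
      fun z => ∑ l, IsNilpotent.exp (z • cm N) i l * Ψ (qq z) l j := by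
    funext z
    rw [GZ, Matrix.mul_apply]
  rw [e1]
  refine h4.congr_deriv ?_
  rw [Matrix.add_apply, Matrix.smul_apply, Matrix.mul_apply, Matrix.mul_apply, Finset.sum_add_distrib,
    smul_eq_mul, Finset.mul_sum]
  congr 1
  refine Finset.sum_congr rfl fun l _ => ?_
  rw [Matrix.of_apply]
  ring

theorem Loc.tr_q (h : Loc wt p Q N Ψ ε) {i j : ι} (hij : p i < p j - 1) {q : ℂ} (hq : ‖q‖ < ε)
    (hq0 : q ≠ 0) :
    ((Ψ q)⁻¹ * (nn N * Ψ q + Matrix.of fun a b => q * deriv (fun q => Ψ q a b) q)) i j = 0 := by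
  obtain ⟨ζ, rfl, -, -⟩ := glo1_qq_surj hq0
  have hmem : qq ζ ∈ Metric.ball (0 : ℂ) ε := by
    rw [mem_ball_zero_iff]; exact hq
  set E := IsNilpotent.exp (ζ • cm N) with hE
  set D : Matrix ι ι ℂ := Matrix.of fun a b => deriv (fun q => Ψ q a b) (qq ζ) with hD
  set Y : Matrix ι ι ℂ := Matrix.of fun a b => qq ζ * deriv (fun q => Ψ q a b) (qq ζ) with hY
  have hYD : Y = qq ζ • D := by
    ext a b
    rw [hY, hD, Matrix.smul_apply, Matrix.of_apply, Matrix.of_apply, smul_eq_mul]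
  have hpi : (2 * Real.pi * I : ℂ) ≠ 0 := by
    simp [Real.pi_ne_zero]
  have hnn : cm N = (2 * Real.pi * I : ℂ) • nn N := by
    rw [nn, smul_smul, mul_inv_cancel₀ hpi, one_smul]
  have hcomm : cm N * E = E * cm N := by
    have h1 : Commute (cm N) (ζ • cm N) := (Commute.refl (cm N)).smul_right ζ
    have hnil : IsNilpotent (ζ • cm N) := by
      obtain ⟨k, hk⟩ := cus1_cm_nil h.nil
      exact ⟨k, by rw [smul_pow, hk, smul_zero]⟩
    obtain ⟨k, hk⟩ := hnil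
    rw [hE, IsNilpotent.exp_eq_sum hk, Finset.mul_sum, Finset.sum_mul]
    refine Finset.sum_congr rfl fun l _ => ?_
    rw [mul_smul_comm, smul_mul_assoc, (h1.pow_right l).eq]
  have hU1 : IsUnit (GZ N Ψ ζ) := (h.mhs ζ hq).unit
  have hU2 : IsUnit (Ψ (qq ζ)) := (h.inv _ hmem).1
  have hUE : IsUnit E := by
    have h1 : IsUnit (E * Ψ (qq ζ)) := hU1
    rw [Matrix.isUnit_iff_isUnit_det, Matrix.det_mul] at h1
    rw [Matrix.isUnit_iff_isUnit_det]
    exact isUnit_of_mul_isUnit_left h1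
  have hUE' := (Matrix.isUnit_iff_isUnit_det E).mp hUE
  have htr := (mem_Fl_iff hU1 _).1 (h.tr ζ hq j) i hij
  have hcol : (fun i => deriv (fun ζ => GZ N Ψ ζ i j) ζ) =
      fun a => ((2 * Real.pi * I : ℂ) • (E * (nn N * Ψ (qq ζ) + Y))) a j := by
    funext a
    rw [(Z30_hasDeriv h hq a j).deriv, ← hE, ← hD, hcomm, hYD, mul_add, smul_add, ← mul_assoc E (nn N),
      Matrix.mul_smul, smul_smul]
    rw [hnn]
    simp only [Matrix.mul_smul, Matrix.smul_mul]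
  rw [hcol] at htr
  have hinv : (GZ N Ψ ζ)⁻¹ = (Ψ (qq ζ))⁻¹ * E⁻¹ := by
    rw [GZ, Matrix.mul_inv_rev]
  have h5 : ((GZ N Ψ ζ)⁻¹ *ᵥ fun a => ((2 * Real.pi * I : ℂ) • (E * (nn N * Ψ (qq ζ) + Y))) a j) i =
      ((GZ N Ψ ζ)⁻¹ * ((2 * Real.pi * I : ℂ) • (E * (nn N * Ψ (qq ζ) + Y)))) i j := rfl
  rw [h5, hinv, Matrix.mul_smul, Matrix.mul_assoc, ← Matrix.mul_assoc E⁻¹ E,
    Matrix.nonsing_inv_mul E hUE', Matrix.one_mul, Matrix.smul_apply, smul_eq_mul] at htr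
  exact (mul_eq_zero.1 htr).resolve_left hpi

end Pool.Agent.LibZE25
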