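import Pool.Agent.LibZE25.Z18
import Pool.Agent.LibZE25.Z30

/-!
# The formal data of a local variation
-/

open Matrix Complex
open scoped ComplexConjugate

namespace Pool.Agent.LibZE25

open MW38 SP38

variable {ι : Type} [Fintype ι] [DecidableEq ι] {wt p : ι → ℤ} {Q N : Matrix ι ι ℝ}
  {Ψ : ℂ → Matrix ι ι ℂ} {ε : ℝ}

theorem Z31_tay_sum {κ : Type} (s : Finset κ) (f : κ → ℂ → ℂ)
    (hf : ∀ k ∈ s, AnalyticAt ℂ (f k) 0) :
    AnalyticAt ℂ (fun z => ∑ k ∈ s, f k z) 0 ∧
      tay (fun z => ∑ k ∈ s, f k z) = ∑ k ∈ s, tay (f k) := by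
  classical
  induction s using Finset.induction_on with
  | empty =>
    simp only [Finset.sum_empty]
    exact ⟨analyticAt_const, by rw [tay_const, map_zero]⟩
  | insert a s ha ih =>
    obtain ⟨h1, h2⟩ := ih fun k hk => hf k (Finset.mem_insert_of_mem hk)
    have h3 := hf a (Finset.mem_insert_self a s)
    simp only [Finset.sum_insert ha]
    exact ⟨h3.add h1, by rw [tay_add h3 h1, h2]⟩

theorem Loc.Z31_an (h : Loc wt p Q N Ψ ε) (i j : ι) : AnalyticAt ℂ (fun q => Ψ q i j) 0 :=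
  (h.hol i j).analyticAt (Metric.ball_mem_nhds 0 h.eps)

/-- the right hand side of the transversality equation -/
noncomputable def Z31_B (N : Matrix ι ι ℝ) (Ψ : ℂ → Matrix ι ι ℂ) :
    Matrix ι ι (PowerSeries ℂ) :=
  (nn N).map (PowerSeries.C : ℂ →+* PowerSeries ℂ) * tA Ψ +
    (tA Ψ).map fun f => PowerSeries.X * PowerSeries.derivative ℂ f

theorem Loc.Z31_tr (h : Loc wt p Q N Ψ ε) {i j : ι} (hij : p i < p j - 1) :
    ((tA Ψ).adjugate * Z31_B N Ψ) i j = 0 := by
  have hA : ∀ i j, AnalyticAt ℂ (fun q => Ψ q i j) 0 := h.Z31_an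
  -- the entries of the right factor
  have hM : ∀ a b : ι, AnalyticAt ℂ (fun q => (∑ l, nn N a l * Ψ q l b) +
      q * deriv (fun q => Ψ q a b) q) 0 ∧
      tay (fun q => (∑ l, nn N a l * Ψ q l b) + q * deriv (fun q => Ψ q a b) q) =
        Z31_B N Ψ a b := by
    intro a b
    have h1 := Z31_tay_sum Finset.univ (fun l q => nn N a l * Ψ q l b)
      fun l _ => analyticAt_const.mul (hA l b)
    have h2 : AnalyticAt ℂ (fun q : ℂ => q * deriv (fun q => Ψ q a b) q) 0 :=
      analyticAt_id.mul (hA a b).deriv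
    refine ⟨h1.1.add h2, ?_⟩
    rw [tay_add h1.1 h2, h1.2, tay_deriv (hA a b), Z31_B, Matrix.add_apply, Matrix.mul_apply]
    congr 1
    refine Finset.sum_congr rfl fun l _ => ?_
    rw [tay_mul analyticAt_const (hA l b), tay_const]
    rfl
  have hF := Z31_tay_sum Finset.univ (fun a q => (Ψ q).adjugate i a *
    ((∑ l, nn N a l * Ψ q l j) + q * deriv (fun q => Ψ q a j) q))
    fun a _ => (tay_adjugate hA i a).1.mul (hM a j).1
  have hF2 : tay (fun q => ∑ a, (Ψ q).adjugate i a *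
      ((∑ l, nn N a l * Ψ q l j) + q * deriv (fun q => Ψ q a j) q)) =
      ((tA Ψ).adjugate * Z31_B N Ψ) i j := by
    rw [hF.2, Matrix.mul_apply]
    refine Finset.sum_congr rfl fun a _ => ?_
    rw [tay_mul (tay_adjugate hA i a).1 (hM a j).1, (hM a j).2, (tay_adjugate hA i a).2]
    rfl
  rw [← hF2, tay_eq_zero hF.1]
  have hz : ∀ᶠ q in nhdsWithin (0 : ℂ) {0}ᶜ, (∑ a, (Ψ q).adjugate i a *
      ((∑ l, nn N a l * Ψ q l j) + q * deriv (fun q => Ψ q a j) q)) = 0 := by
    have hb : ∀ᶠ q in nhdsWithin (0 : ℂ) {0}ᶜ, q ∈ Metric.ball (0 : ℂ) ε :=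
      nhdsWithin_le_nhds (Metric.ball_mem_nhds 0 h.eps)
    filter_upwards [hb, self_mem_nhdsWithin] with q hq hq0
    have hq1 : ‖q‖ < ε := by simpa using hq
    have h1 := h.tr_q hij hq1 hq0
    have hdet : IsUnit (Ψ q).det := (Matrix.isUnit_iff_isUnit_det _).1 (h.inv q hq).1
    have hadj : (Ψ q).adjugate = (Ψ q).det • (Ψ q)⁻¹ := by
      rw [Matrix.inv_def, smul_smul, Ring.mul_inverse_cancel _ hdet, one_smul]
    have e : (∑ a, (Ψ q).adjugate i a *
        ((∑ l, nn N a l * Ψ q l j) + q * deriv (fun q => Ψ q a j) q)) =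
        ((Ψ q).adjugate * (nn N * Ψ q + Matrix.of fun a b => q * deriv (fun q => Ψ q a b) q)) i j := by
      rw [Matrix.mul_apply]
      refine Finset.sum_congr rfl fun a _ => ?_
      rw [Matrix.add_apply, Matrix.mul_apply]
      rfl
    rw [e, hadj, Matrix.smul_mul, Matrix.smul_apply, h1, smul_zero]
  rcases hF.1.eventually_eq_zero_or_eventually_ne_zero with h0 | h0
  · exact h0
  · obtain ⟨q, hq1, hq2⟩ := (hz.and h0).exists
    exact absurd hq1 hq2

theorem Loc.fdata (h : Loc wt p Q N Ψ ε) {d : ℕ} (hd : N ^ d = 0) :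
    FData wt p d (nn N) (tA Ψ) := by
  have hA : ∀ i j, AnalyticAt ℂ (fun q => Ψ q i j) 0 := h.Z31_an
  have hunit : IsUnit (tA Ψ) := by
    rw [Matrix.isUnit_iff_isUnit_det]
    have h1 : (tA Ψ).det = tay (fun q => (Ψ q).det) := (tay_det hA).2.symm
    rw [h1, PowerSeries.isUnit_iff_constantCoeff, tay_coeff_zero]
    exact (Matrix.isUnit_iff_isUnit_det _).1 (h.inv 0 (Metric.mem_ball_self h.eps)).1
  refine ⟨?_, ?_, ?_, ?_, hunit, ?_⟩
  · unfold nn
    rw [smul_pow, ← SP38.cus1_cm_pow, hd]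
    ext i j
    simp [cm]
  · ext i j
    unfold nn
    simp only [Matrix.map_apply, Matrix.smul_apply, cm, smul_eq_mul, map_mul, Matrix.neg_apply,
      map_inv₀, Complex.conj_ofReal, Complex.conj_I, map_ofNat]
    ring
  · intro i j hij
    unfold nn
    simp [cm, h.tri i j hij]
  · intro i j hij
    change tay (fun q => Ψ q i j) = 0
    rw [tay_eq_zero (hA i j)]
    filter_upwards [Metric.ball_mem_nhds (0 : ℂ) h.eps] with q hq
    exact (h.inv q hq).2 i j hij
  · have hdet := (Matrix.isUnit_iff_isUnit_det _).1 hunit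
    refine ⟨(tA Ψ)⁻¹ * Z31_B N Ψ, ?_, ?_⟩
    · intro i j hij
      have h1 := h.Z31_tr hij
      rw [Matrix.inv_def, Matrix.smul_mul, Matrix.smul_apply, h1, smul_zero]
    · rw [Matrix.mul_nonsing_inv_cancel_left _ _ hdet]
      rfl

end Pool.Agent.LibZE25
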