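import Pool.Agent.LibZE25.Z13

/-!
# Products and determinants
-/

open PowerSeries Filter Topology

namespace Pool.Agent.LibZE25

variable {q : ℕ → ℂ}

/-- order at least `M` up to logarithms -/
def Z14_Big (q : ℕ → ℂ) (M : ℕ) (u : ℕ → ℂ) : Prop :=
  ∃ (C : ℝ) (D : ℕ), 0 ≤ C ∧ ∀ᶠ n in atTop, ‖u n‖ ≤ C * |Real.log ‖q n‖| ^ D * ‖q n‖ ^ M

theorem Z14_Big.of_bound {M : ℕ} {u : ℕ → ℂ} {C : ℝ} {D : ℕ}
    (h : ∀ᶠ n in atTop, ‖u n‖ ≤ C * |Real.log ‖q n‖| ^ D * ‖q n‖ ^ M) : Z14_Big q M u := by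
  refine ⟨|C|, D, abs_nonneg _, h.mono fun n hn => hn.trans ?_⟩
  have h1 : 0 ≤ |Real.log ‖q n‖| ^ D * ‖q n‖ ^ M := by positivity
  rw [mul_assoc, mul_assoc]
  exact mul_le_mul_of_nonneg_right (le_abs_self C) h1

theorem Z14_ev (hq : Tendsto q atTop (𝓝 0)) (hq0 : ∀ n, q n ≠ 0) :
    ∀ᶠ n in atTop, ‖q n‖ ≤ 1 ∧ 1 ≤ |Real.log ‖q n‖| := by
  have h1 : Tendsto (fun n => ‖q n‖) atTop (𝓝 0) := by
    have := hq.norm
    rwa [norm_zero] at this
  have h2 := h1.eventually (gt_mem_nhds (Real.exp_pos (-1)))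
  filter_upwards [h2] with n hn
  have h3 : 0 < ‖q n‖ := norm_pos_iff.2 (hq0 n)
  have h4 : Real.log ‖q n‖ < -1 := by
    rw [Real.log_lt_iff_lt_exp h3]
    exact hn
  have h5 : Real.exp (-1) ≤ 1 := Real.exp_le_one_iff.2 (by norm_num)
  refine ⟨hn.le.trans h5, ?_⟩
  rw [abs_of_neg (by linarith)]
  linarith

theorem Z14_Big.add (hq : Tendsto q atTop (𝓝 0)) (hq0 : ∀ n, q n ≠ 0) {M : ℕ} {u v : ℕ → ℂ}
    (hu : Z14_Big q M u) (hv : Z14_Big q M v) : Z14_Big q M fun n => u n + v n := by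
  obtain ⟨C, D, hC, h1⟩ := hu
  obtain ⟨C', D', hC', h2⟩ := hv
  refine ⟨C + C', D + D', add_nonneg hC hC', ?_⟩
  filter_upwards [h1, h2, Z14_ev hq hq0] with n h1 h2 h3
  have hl : 1 ≤ |Real.log ‖q n‖| := h3.2
  have e1 : |Real.log ‖q n‖| ^ D ≤ |Real.log ‖q n‖| ^ (D + D') :=
    pow_le_pow_right₀ hl (Nat.le_add_right _ _)
  have e2 : |Real.log ‖q n‖| ^ D' ≤ |Real.log ‖q n‖| ^ (D + D') :=
    pow_le_pow_right₀ hl (Nat.le_add_left _ _)
  calc ‖u n + v n‖ ≤ ‖u n‖ + ‖v n‖ := norm_add_le _ _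
    _ ≤ C * |Real.log ‖q n‖| ^ D * ‖q n‖ ^ M + C' * |Real.log ‖q n‖| ^ D' * ‖q n‖ ^ M :=
        add_le_add h1 h2
    _ ≤ C * |Real.log ‖q n‖| ^ (D + D') * ‖q n‖ ^ M +
        C' * |Real.log ‖q n‖| ^ (D + D') * ‖q n‖ ^ M := by gcongr
    _ = _ := by ring

theorem Z14_Big.mul {M M' : ℕ} {u v : ℕ → ℂ}
    (hu : Z14_Big q M u) (hv : Z14_Big q M' v) : Z14_Big q (M + M') fun n => u n * v n := by
  obtain ⟨C, D, hC, h1⟩ := hu
  obtain ⟨C', D', hC', h2⟩ := hv
  refine ⟨C * C', D + D', mul_nonneg hC hC', ?_⟩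
  filter_upwards [h1, h2] with n h1 h2
  rw [norm_mul]
  calc ‖u n‖ * ‖v n‖ ≤ (C * |Real.log ‖q n‖| ^ D * ‖q n‖ ^ M) *
        (C' * |Real.log ‖q n‖| ^ D' * ‖q n‖ ^ M') := by gcongr
    _ = _ := by ring

theorem Z14_Big.mono (hq : Tendsto q atTop (𝓝 0)) (hq0 : ∀ n, q n ≠ 0) {M M' : ℕ} {u : ℕ → ℂ}
    (hu : Z14_Big q M u) (h : M' ≤ M) : Z14_Big q M' u := by
  obtain ⟨C, D, hC, h1⟩ := hu
  refine ⟨C, D, hC, ?_⟩
  filter_upwards [h1, Z14_ev hq hq0] with n h1 h3
  refine h1.trans ?_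
  have : ‖q n‖ ^ M ≤ ‖q n‖ ^ M' := pow_le_pow_of_le_one (norm_nonneg _) h3.1 h
  gcongr

theorem Z14_Big.zero (M : ℕ) : Z14_Big q M fun _ => 0 :=
  ⟨0, 0, le_refl _, Eventually.of_forall fun n => by simp⟩

theorem Z14_Big.sum (hq : Tendsto q atTop (𝓝 0)) (hq0 : ∀ n, q n ≠ 0) {M : ℕ} {α : Type}
    (s : Finset α) {u : α → ℕ → ℂ} (h : ∀ a ∈ s, Z14_Big q M (u a)) :
    Z14_Big q M fun n => ∑ a ∈ s, u a n := by
  classical
  induction s using Finset.induction_on with
  | empty => simpa using Z14_Big.zero M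
  | insert a s ha ih =>
    have h1 := (h a (Finset.mem_insert_self _ _)).add hq hq0
      (ih fun b hb => h b (Finset.mem_insert_of_mem hb))
    simpa only [Finset.sum_insert ha] using h1

theorem Z14_Big.const (c : ℂ) : Z14_Big q 0 fun _ => c :=
  ⟨‖c‖, 0, norm_nonneg _, Eventually.of_forall fun n => by simp⟩

theorem Z14_Big.pow {u : ℕ → ℂ} (hu : Z14_Big q 0 u) (k : ℕ) : Z14_Big q 0 fun n => u n ^ k := by
  induction k with
  | zero => simpa using Z14_Big.const (q := q) 1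
  | succ k ih => simpa only [pow_succ] using ih.mul hu

theorem Z14_Big.yv : Z14_Big q 0 fun n => yy (q n) := by
  refine ⟨2, 1, by norm_num, Eventually.of_forall fun n => ?_⟩
  show ‖2 * (Real.log ‖q n‖ : ℂ)‖ ≤ _
  rw [norm_mul, Complex.norm_real, pow_one, pow_zero, mul_one,
    Real.norm_eq_abs]
  norm_num

theorem Z14_Big.poly (hq : Tendsto q atTop (𝓝 0)) (hq0 : ∀ n, q n ≠ 0) (p : Polynomial ℂ) :
    Z14_Big q 0 fun n => p.eval (yy (q n)) := by
  induction p using Polynomial.induction_on' with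
  | add p r hp hr => simpa only [Polynomial.eval_add] using hp.add hq hq0 hr
  | monomial k a =>
    simpa only [Polynomial.eval_monomial] using (Z14_Big.const a).mul (Z14_Big.yv.pow k)

theorem Z14_Big.mon (i j : ℕ) :
    Z14_Big q (i + j) fun n => (starRingEnd ℂ) (q n) ^ i * q n ^ j := by
  refine ⟨1, 0, by norm_num, Eventually.of_forall fun n => ?_⟩
  rw [norm_mul, norm_pow, norm_pow, RCLike.norm_conj, pow_zero, one_mul, one_mul, ← pow_add]

/-- evaluation at `Y = yy q`, `z = q`, `w = conj q` -/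
noncomputable def Z14_E (q : ℂ) : Polynomial (Polynomial (Polynomial ℂ)) →+* ℂ :=
  Polynomial.eval₂RingHom (Polynomial.eval₂RingHom (Polynomial.evalRingHom (yy q)) q)
    ((starRingEnd ℂ) q)

theorem Z14_E_eq (q : ℂ) (D : Polynomial (Polynomial (Polynomial ℂ))) :
    Z14_E q D = ∑ i ∈ Finset.range (D.natDegree + 1),
      ∑ j ∈ Finset.range ((D.coeff i).natDegree + 1),
        ((D.coeff i).coeff j).eval (yy q) * q ^ j * (starRingEnd ℂ) q ^ i := by
  rw [Z14_E, Polynomial.coe_eval₂RingHom, Polynomial.eval₂_eq_sum_range]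
  refine Finset.sum_congr rfl fun i _ => ?_
  rw [Polynomial.coe_eval₂RingHom, Polynomial.eval₂_eq_sum_range, Finset.sum_mul]
  refine Finset.sum_congr rfl fun j _ => ?_
  rw [Polynomial.coe_evalRingHom]

theorem Z14_big_of_coeff (hq : Tendsto q atTop (𝓝 0)) (hq0 : ∀ n, q n ≠ 0) {M : ℕ}
    (D : Polynomial (Polynomial (Polynomial ℂ)))
    (h : ∀ i j, i + j < M → (D.coeff i).coeff j = 0) : Z14_Big q M fun n => Z14_E (q n) D := by
  simp only [Z14_E_eq]
  refine Z14_Big.sum hq hq0 _ fun i _ => Z14_Big.sum hq hq0 _ fun j _ => ?_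
  by_cases hij : i + j < M
  · simp only [h i j hij, Polynomial.eval_zero, zero_mul]
    exact Z14_Big.zero M
  · have h1 := ((Z14_Big.poly hq hq0 ((D.coeff i).coeff j)).mul (Z14_Big.mon (q := q) i j)).mono
      hq hq0 (M' := M) (by omega)
    convert h1 using 2 with n
    ring

/-- the truncated polynomial -/
noncomputable def Z14_pp (P : ℕ → ℕ → Polynomial ℂ) (M : ℕ) :
    Polynomial (Polynomial (Polynomial ℂ)) :=
  ∑ i ∈ Finset.range M, Polynomial.monomial i
    (∑ j ∈ Finset.range (M - i), Polynomial.monomial j (P i j))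

theorem Z14_coeff_pp (P : ℕ → ℕ → Polynomial ℂ) (M i j : ℕ) :
    ((Z14_pp P M).coeff i).coeff j = if i + j < M then P i j else 0 := by
  rw [Z14_pp, Polynomial.finsetSum_coeff]
  simp only [Polynomial.coeff_monomial]
  rw [Finset.sum_ite_eq' (Finset.range M) i]
  by_cases hi : i < M
  · rw [if_pos (Finset.mem_range.2 hi), Polynomial.finsetSum_coeff]
    simp only [Polynomial.coeff_monomial]
    rw [Finset.sum_ite_eq' (Finset.range (M - i)) j]
    by_cases hj : i + j < M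
    · rw [if_pos (Finset.mem_range.2 (by omega)), if_pos hj]
    · rw [if_neg (fun h => hj (by have := Finset.mem_range.1 h; omega)), if_neg hj]
  · rw [if_neg (fun h => hi (Finset.mem_range.1 h)), Polynomial.coeff_zero, if_neg (by omega)]

theorem Z14_E_pp (P : ℕ → ℕ → Polynomial ℂ) (M : ℕ) (q : ℂ) : Z14_E q (Z14_pp P M) = trun P M q := by
  rw [Z14_pp, map_sum, trun]
  refine Finset.sum_congr rfl fun i _ => ?_
  rw [Z14_E, Polynomial.coe_eval₂RingHom, Polynomial.eval₂_monomial, map_sum, Finset.sum_mul]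
  refine Finset.sum_congr rfl fun j _ => ?_
  rw [Polynomial.coe_eval₂RingHom, Polynomial.eval₂_monomial, Polynomial.coe_evalRingHom]
  ring

theorem Z14_big_trun (hq : Tendsto q atTop (𝓝 0)) (hq0 : ∀ n, q n ≠ 0)
    (P : ℕ → ℕ → Polynomial ℂ) (M : ℕ) : Z14_Big q 0 fun n => trun P M (q n) := by
  have := Z14_big_of_coeff hq hq0 (M := 0) (Z14_pp P M) (fun i j h => absurd h (by omega))
  simpa only [Z14_E_pp] using this

theorem Asym.mul (hq : Tendsto q atTop (𝓝 0)) (hq0 : ∀ n, q n ≠ 0) {f g : RR} {F G : ℕ → ℂ}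
    (hf : Asym q f F) (hg : Asym q g G) : Asym q (f * g) fun n => F n * G n := by
  obtain ⟨P, hP, hPa⟩ := hf
  obtain ⟨P', hP', hPa'⟩ := hg
  refine ⟨fun i j => ∑ x ∈ Finset.HasAntidiagonal.antidiagonal i, ∑ y ∈ Finset.HasAntidiagonal.antidiagonal j,
    P x.1 y.1 * P' x.2 y.2, ?_, ?_⟩
  · intro i j
    rw [coeff_mul, map_sum, map_sum]
    refine Finset.sum_congr rfl fun x _ => ?_
    rw [coeff_mul, map_sum]
    refine Finset.sum_congr rfl fun y _ => ?_
    rw [hP, hP', map_mul]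
  · intro M
    set R : ℕ → ℕ → Polynomial ℂ := fun i j => ∑ x ∈ Finset.HasAntidiagonal.antidiagonal i,
      ∑ y ∈ Finset.HasAntidiagonal.antidiagonal j, P x.1 y.1 * P' x.2 y.2 with hR
    have hb1 : ∀ M, Z14_Big q M fun n => F n - trun P M (q n) := by
      intro M
      obtain ⟨C, D, h⟩ := hPa M
      exact Z14_Big.of_bound h
    have hb2 : ∀ M, Z14_Big q M fun n => G n - trun P' M (q n) := by
      intro M
      obtain ⟨C, D, h⟩ := hPa' M
      exact Z14_Big.of_bound h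
    have hG : Z14_Big q 0 G := by
      have h1 := (hb2 M).mono hq hq0 (Nat.zero_le M)
      have h2 := h1.add hq hq0 (Z14_big_trun hq hq0 P' M)
      simpa only [sub_add_cancel] using h2
    have h1 : Z14_Big q M fun n => (F n - trun P M (q n)) * G n := by
      simpa using (hb1 M).mul hG
    have h2 : Z14_Big q M fun n => trun P M (q n) * (G n - trun P' M (q n)) := by
      simpa using (Z14_big_trun hq hq0 P M).mul (hb2 M)
    have h3 : Z14_Big q M fun n => Z14_E (q n) (Z14_pp P M * Z14_pp P' M - Z14_pp R M) := by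
      refine Z14_big_of_coeff hq hq0 _ fun i j hij => ?_
      rw [Polynomial.coeff_sub, Polynomial.coeff_sub, Z14_coeff_pp, if_pos hij,
        Polynomial.coeff_mul, Polynomial.finsetSum_coeff, hR, sub_eq_zero]
      refine Finset.sum_congr rfl fun x hx => ?_
      rw [Polynomial.coeff_mul]
      refine Finset.sum_congr rfl fun y hy => ?_
      have e1 := Finset.HasAntidiagonal.mem_antidiagonal.1 hx
      have e2 := Finset.HasAntidiagonal.mem_antidiagonal.1 hy
      rw [Z14_coeff_pp, Z14_coeff_pp, if_pos (by omega), if_pos (by omega)]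
    have h4 := (h1.add hq hq0 h2).add hq hq0 h3
    obtain ⟨C, D, -, h5⟩ := h4
    refine ⟨C, D, h5.mono fun n hn => ?_⟩
    have e0 : Z14_E (q n) (Z14_pp P M * Z14_pp P' M - Z14_pp R M) =
        trun P M (q n) * trun P' M (q n) - trun R M (q n) := by
      have e1 := (Z14_E (q n)).map_sub (Z14_pp P M * Z14_pp P' M) (Z14_pp R M)
      have e2 := (Z14_E (q n)).map_mul (Z14_pp P M) (Z14_pp P' M)
      rw [e2, Z14_E_pp, Z14_E_pp, Z14_E_pp] at e1
      exact e1
    have e : (F n - trun P M (q n)) * G n + trun P M (q n) * (G n - trun P' M (q n)) +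
        (trun P M (q n) * trun P' M (q n) - trun R M (q n)) = F n * G n - trun R M (q n) := by
      ring
    have hn' : ‖(F n - trun P M (q n)) * G n + trun P M (q n) * (G n - trun P' M (q n)) +
        Z14_E (q n) (Z14_pp P M * Z14_pp P' M - Z14_pp R M)‖ ≤
        C * |Real.log ‖q n‖| ^ D * ‖q n‖ ^ M := hn
    rw [e0, e] at hn'
    exact hn'

theorem Z14_one : Asym q 1 fun _ => 1 := by
  have := Asym.const (q := q) 1
  rwa [map_one] at this

theorem Z14_prod (hq : Tendsto q atTop (𝓝 0)) (hq0 : ∀ n, q n ≠ 0) {α : Type} (s : Finset α)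
    {f : α → RR} {F : α → ℕ → ℂ} (h : ∀ a ∈ s, Asym q (f a) (F a)) :
    Asym q (∏ a ∈ s, f a) fun n => ∏ a ∈ s, F a n := by
  classical
  induction s using Finset.induction_on with
  | empty => simpa using Z14_one (q := q)
  | insert a s ha ih =>
    have h1 := (h a (Finset.mem_insert_self _ _)).mul hq hq0
      (ih fun b hb => h b (Finset.mem_insert_of_mem hb))
    simpa only [Finset.prod_insert ha] using h1

theorem Asym.det (hq : Tendsto q atTop (𝓝 0)) (hq0 : ∀ n, q n ≠ 0) {α : Type} [Fintype α]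
    [DecidableEq α] {f : Matrix α α RR} {F : ℕ → Matrix α α ℂ}
    (h : ∀ a b, Asym q (f a b) fun n => F n a b) : Asym q f.det fun n => (F n).det := by
  simp only [Matrix.det_apply]
  refine Asym.sum hq hq0 _ fun σ _ => ?_
  have h1 : Asym q (∏ i, f (σ i) i) fun n => ∏ i, F n (σ i) i :=
    Z14_prod hq hq0 _ fun i _ => h (σ i) i
  rcases Int.units_eq_one_or (Equiv.Perm.sign σ) with hs | hs
  · rw [hs]
    simpa only [one_smul] using h1
  · rw [hs]
    have h2 := (Asym.const (q := q) (-1)).mul hq hq0 h1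
    rw [map_neg, map_one, neg_one_mul] at h2
    simpa only [Units.neg_smul, one_smul, neg_one_mul] using h2

end Pool.Agent.LibZE25
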