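import Pool.Agent.LibZE25.Der

/-!
# Asymptotic expansions along a sequence, Taylor series: definitions
-/

open PowerSeries Filter Topology
open scoped ComplexConjugate

namespace Pool.Agent.LibZE25

/-- the value of `Y` at `q` -/
noncomputable def yy (q : ℂ) : ℂ := 2 * (Real.log ‖q‖ : ℂ)

/-- the truncation at total order `M` of the series with coefficients `P i j` (of `w^i z^j`),
evaluated at `z = q`, `w = conj q`, `Y = yy q` -/
noncomputable def trun (P : ℕ → ℕ → Polynomial ℂ) (M : ℕ) (q : ℂ) : ℂ :=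
  ∑ i ∈ Finset.range M, ∑ j ∈ Finset.range (M - i), (P i j).eval (yy q) * conj q ^ i * q ^ j

/-- `f` is the asymptotic expansion of `F` along the sequence `q`, where `z = q n`,
`w = conj (q n)`, `Y = 2 log |q n|`; the coefficients of `f` are polynomials in `Y` -/
def Asym (q : ℕ → ℂ) (f : RR) (F : ℕ → ℂ) : Prop :=
  ∃ P : ℕ → ℕ → Polynomial ℂ,
    (∀ i j, coeff j (coeff i f) = algebraMap (Polynomial ℂ) kk (P i j)) ∧
    ∀ M : ℕ, ∃ (C : ℝ) (D : ℕ), ∀ᶠ n in atTop,
      ‖F n - trun P M (q n)‖ ≤ C * |Real.log ‖q n‖| ^ D * ‖q n‖ ^ M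

/-- the Taylor series at `0` -/
noncomputable def tay (G : ℂ → ℂ) : PowerSeries ℂ :=
  PowerSeries.mk fun n => iteratedDeriv n G 0 / (n.factorial : ℂ)

/-- the Taylor series of the conjugate function -/
noncomputable def tayc (G : ℂ → ℂ) : PowerSeries ℂ := (tay G).map (starRingEnd ℂ)

end Pool.Agent.LibZE25
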