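import Pool.Agent.LibZE25.Z4

import Pool.Agent.LibZE25.ADefs

/-!
# The expansion of an analytic function of `z` (of `w`) is its Taylor series
-/

open PowerSeries Filter Topology
open scoped ComplexConjugate

namespace Pool.Agent.LibZE25

variable {f : ℂ → ℂ}

/-- Taylor's formula along a sequence -/
private theorem Z19_taylor {q : ℕ → ℂ} (hq : Tendsto q atTop (𝓝 0)) (hf : AnalyticAt ℂ f 0)
    (M : ℕ) : ∃ K : ℝ, ∀ᶠ n in atTop,
      ‖f (q n) - ∑ j ∈ Finset.range M, coeff j (tay f) * q n ^ j‖ ≤ K * ‖q n‖ ^ M := by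
  have h1 := (hf.hasFPowerSeriesAt).isBigO_sub_partialSum_pow M
  obtain ⟨K, hK⟩ := (h1.comp_tendsto hq).bound
  refine ⟨K, ?_⟩
  filter_upwards [hK] with n hn
  have h2 : (FormalMultilinearSeries.ofScalars ℂ
      (fun n ↦ iteratedDeriv n f 0 / (n.factorial : ℂ))).partialSum M (q n) =
      ∑ j ∈ Finset.range M, coeff j (tay f) * q n ^ j := by
    rw [FormalMultilinearSeries.partialSum]
    refine Finset.sum_congr rfl fun j _ => ?_
    rw [FormalMultilinearSeries.ofScalars_apply_eq, tay, PowerSeries.coeff_mk, smul_eq_mul]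
  simp only [Function.comp_apply, zero_add, norm_pow, norm_norm] at hn
  rw [h2] at hn
  exact hn

private theorem Z19_alg (c : ℂ) :
    algebraMap ℂ kk c = algebraMap (Polynomial ℂ) kk (Polynomial.C c) := by
  rw [IsScalarTower.algebraMap_apply ℂ (Polynomial ℂ) kk c, Polynomial.algebraMap_eq]

theorem asym_tay {q : ℕ → ℂ} (hq : Tendsto q atTop (𝓝 0)) (hf : AnalyticAt ℂ f 0) :
    Asym q (jz (tay f)) fun n => f (q n) := by
  refine ⟨fun i j => if i = 0 then Polynomial.C (coeff j (tay f)) else 0, ?_, ?_⟩
  · intro i j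
    rw [coeff_jz]
    by_cases hi : i = 0
    · simp only [hi, if_true]
      exact Z19_alg _
    · simp only [hi, if_false, map_zero]
  · intro M
    obtain ⟨K, hK⟩ := Z19_taylor hq hf M
    refine ⟨K, 0, ?_⟩
    filter_upwards [hK] with n hn
    have h2 : trun (fun i j => if i = 0 then Polynomial.C (coeff j (tay f)) else 0) M (q n) =
        ∑ j ∈ Finset.range M, coeff j (tay f) * q n ^ j := by
      rw [trun, Finset.sum_eq_single 0]
      · refine Finset.sum_congr (by rw [Nat.sub_zero]) fun j _ => ?_
        simp only [if_true, Polynomial.eval_C, pow_zero, mul_one]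
      · intro i _ hi
        refine Finset.sum_eq_zero fun j _ => ?_
        simp only [hi, if_false, Polynomial.eval_zero, zero_mul]
      · intro h
        rw [Finset.mem_range, not_lt, Nat.le_zero] at h
        simp [h]
    rw [h2, pow_zero, mul_one]
    exact hn

theorem asym_tayc {q : ℕ → ℂ} (hq : Tendsto q atTop (𝓝 0)) (hf : AnalyticAt ℂ f 0) :
    Asym q (jw (tayc f)) fun n => conj (f (q n)) := by
  refine ⟨fun i j => if j = 0 then Polynomial.C (conj (coeff i (tay f))) else 0, ?_, ?_⟩
  · intro i j
    rw [coeff_jw]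
    by_cases hj : j = 0
    · simp only [hj, if_true]
      rw [tayc, PowerSeries.coeff_map]
      exact Z19_alg _
    · simp only [hj, if_false, map_zero]
  · intro M
    obtain ⟨K, hK⟩ := Z19_taylor hq hf M
    refine ⟨K, 0, ?_⟩
    filter_upwards [hK] with n hn
    have h2 : trun (fun i j => if j = 0 then Polynomial.C (conj (coeff i (tay f))) else 0) M (q n) =
        conj (∑ j ∈ Finset.range M, coeff j (tay f) * q n ^ j) := by
      rw [trun, map_sum]
      refine Finset.sum_congr rfl fun i hi => ?_
      rw [Finset.mem_range] at hi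
      rw [Finset.sum_eq_single 0]
      · simp only [if_true, Polynomial.eval_C, pow_zero, mul_one, map_mul, map_pow]
      · intro j _ hj
        simp only [hj, if_false, Polynomial.eval_zero, zero_mul]
      · intro h
        rw [Finset.mem_range, not_lt] at h
        omega
    rw [h2, pow_zero, mul_one, ← map_sub, RCLike.norm_conj]
    exact hn

end Pool.Agent.LibZE25
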