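import Pool.Agent.LibZE25.EDefs

/-!
# Exponentials of nilpotent matrices
-/

namespace Pool.Agent.LibZE25

variable {ι : Type} [Fintype ι] [DecidableEq ι]

theorem Z20_term {B : Type} [CommRing B] [Algebra ℂ B] (n : Matrix ι ι ℂ) (c : ℂ) (r : ℕ) :
    (c • n ^ r).map (algebraMap ℂ B) = algebraMap ℂ B c • (n.map (algebraMap ℂ B)) ^ r := by
  have h1 : (n.map (algebraMap ℂ B)) ^ r = (n ^ r).map (algebraMap ℂ B) := by
    have := map_pow ((algebraMap ℂ B).mapMatrix (m := ι)) n r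
    simp only [RingHom.mapMatrix_apply] at this
    exact this.symm
  rw [h1]
  ext i j
  simp [Matrix.map_apply, Matrix.smul_apply]

theorem Z20_eq {B : Type} [CommRing B] [Algebra ℂ B] (d : ℕ) (n : Matrix ι ι ℂ) (x : B) :
    expn d n x = ∑ r ∈ Finset.range d,
      (x ^ r * algebraMap ℂ B ((r.factorial : ℂ)⁻¹)) • (n.map (algebraMap ℂ B)) ^ r := by
  unfold expn
  refine Finset.sum_congr rfl fun r _ => ?_
  rw [Z20_term, smul_smul]

theorem Z20_nil {B : Type} [CommRing B] [Algebra ℂ B] {d : ℕ} {n : Matrix ι ι ℂ}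
    (hn : n ^ d = 0) : (n.map (algebraMap ℂ B)) ^ d = 0 := by
  have h1 := Z20_term (B := B) n 1 d
  rw [one_smul, map_one, one_smul, hn] at h1
  rw [← h1]
  exact Matrix.map_zero _ (map_zero _)

theorem Z20_exp {B : Type} [CommRing B] [Algebra ℂ B] [Algebra ℚ B]
    (hq : ∀ q : ℚ, algebraMap ℚ B q = algebraMap ℂ B (q : ℂ)) {d : ℕ} {n : Matrix ι ι ℂ}
    (hn : n ^ d = 0) (x : B) :
    expn d n x = IsNilpotent.exp (x • n.map (algebraMap ℂ B)) := by
  have h0 : (x • n.map (algebraMap ℂ B)) ^ d = 0 := by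
    rw [smul_pow, Z20_nil hn, smul_zero]
  rw [IsNilpotent.exp_eq_sum h0, Z20_eq]
  refine Finset.sum_congr rfl fun r _ => ?_
  rw [smul_pow, ← algebraMap_smul B ((r.factorial : ℚ)⁻¹), hq, smul_smul]
  congr 1
  push_cast
  ring

theorem expn_zero {B : Type} [CommRing B] [Algebra ℂ B] {d : ℕ} {n : Matrix ι ι ℂ}
    (hn : n ^ d = 0) : expn d n (0 : B) = 1 := by
  letI : Algebra ℚ B := Algebra.compHom B (algebraMap ℚ ℂ)
  rw [Z20_exp (fun q => rfl) hn, zero_smul, IsNilpotent.exp_zero]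

theorem expn_add {B : Type} [CommRing B] [Algebra ℂ B] {d : ℕ} {n : Matrix ι ι ℂ}
    (hn : n ^ d = 0) (x y : B) : expn d n (x + y) = expn d n x * expn d n y := by
  letI : Algebra ℚ B := Algebra.compHom B (algebraMap ℚ ℂ)
  have h0 : ∀ z : B, IsNilpotent (z • n.map (algebraMap ℂ B)) := fun z =>
    ⟨d, by rw [smul_pow, Z20_nil hn, smul_zero]⟩
  rw [Z20_exp (fun q => rfl) hn, Z20_exp (fun q => rfl) hn, Z20_exp (fun q => rfl) hn, add_smul,
    IsNilpotent.exp_add_of_commute _ (h0 x) (h0 y)]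
  exact ((Commute.refl _).smul_left x).smul_right y

theorem expn_neg {B : Type} [CommRing B] [Algebra ℂ B] {d : ℕ} {n : Matrix ι ι ℂ}
    (x : B) : expn d (-n) x = expn d n (-x) := by
  rw [Z20_eq, Z20_eq]
  refine Finset.sum_congr rfl fun r _ => ?_
  have h1 : (-n).map (algebraMap ℂ B) = (-1 : B) • n.map (algebraMap ℂ B) := by
    ext i j
    simp
  rw [h1, smul_pow, smul_smul]
  congr 1
  rw [neg_pow x]
  ring

theorem expn_map {B B' : Type} [CommRing B] [Algebra ℂ B] [CommRing B'] [Algebra ℂ B']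
    (φ : B →+* B') (hφ : ∀ c : ℂ, φ (algebraMap ℂ B c) = algebraMap ℂ B' c) (d : ℕ)
    (n : Matrix ι ι ℂ) (x : B) : (expn d n x).map φ = expn d n (φ x) := by
  ext i j
  simp only [expn, Matrix.map_apply, Matrix.sum_apply, Matrix.smul_apply, smul_eq_mul, map_sum,
    map_mul, map_pow, hφ]

theorem Z20_apply {B : Type} [CommRing B] [Algebra ℂ B] (d : ℕ) (n : Matrix ι ι ℂ) (x : B)
    (i j : ι) : expn d n x i j = ∑ r ∈ Finset.range d,
      x ^ r * algebraMap ℂ B ((r.factorial : ℂ)⁻¹ * (n ^ r) i j) := by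
  simp only [expn, Matrix.map_apply, Matrix.sum_apply, Matrix.smul_apply, smul_eq_mul]

theorem expn_der {B : Type} [CommRing B] [Algebra ℂ B] (D : Derivation ℂ B B) {d : ℕ}
    {n : Matrix ι ι ℂ} (hn : n ^ d = 0) (x : B) :
    (expn d n x).map D = D x • (n.map (algebraMap ℂ B) * expn d n x) := by
  have hR : n.map (algebraMap ℂ B) * expn d n x = ∑ r ∈ Finset.range d,
      (x ^ r * algebraMap ℂ B ((r.factorial : ℂ)⁻¹)) • (n.map (algebraMap ℂ B)) ^ (r + 1) := by
    rw [Z20_eq, Finset.mul_sum]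
    refine Finset.sum_congr rfl fun r _ => ?_
    rw [Matrix.mul_smul, pow_succ']
  have hpow : ∀ r : ℕ, (n.map (algebraMap ℂ B)) ^ r = (n ^ r).map (algebraMap ℂ B) := by
    intro r
    have h1 := Z20_term (B := B) n 1 r
    rw [one_smul, map_one, one_smul] at h1
    exact h1.symm
  rw [hR]
  ext i j
  rw [Matrix.map_apply, Z20_apply, map_sum, Matrix.smul_apply, Matrix.sum_apply]
  have hL : ∀ r : ℕ, D (x ^ r * algebraMap ℂ B ((r.factorial : ℂ)⁻¹ * (n ^ r) i j)) =
      D x * ((r : B) * x ^ (r - 1) * algebraMap ℂ B ((r.factorial : ℂ)⁻¹ * (n ^ r) i j)) := by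
    intro r
    rw [Derivation.leibniz, Derivation.map_algebraMap, smul_zero, zero_add,
      Derivation.leibniz_pow]
    simp only [smul_eq_mul, nsmul_eq_mul]
    ring
  simp_rw [hL]
  rw [← Finset.mul_sum, smul_eq_mul]
  congr 1
  cases d with
  | zero => simp
  | succ e =>
    rw [Finset.sum_range_succ', Finset.sum_range_succ]
    have hz : ((x ^ e * algebraMap ℂ B ((e.factorial : ℂ)⁻¹)) •
        (n.map (algebraMap ℂ B)) ^ (e + 1)) i j = 0 := by
      rw [hpow, hn]
      simp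
    rw [hz, add_zero]
    have hz' : (((0 : ℕ) : B)) * x ^ (0 - 1) *
        algebraMap ℂ B (((0 : ℕ).factorial : ℂ)⁻¹ * (n ^ 0) i j) = 0 := by simp
    rw [hz', add_zero]
    refine Finset.sum_congr rfl fun r _ => ?_
    rw [hpow, Matrix.smul_apply, Matrix.map_apply, smul_eq_mul, Nat.add_sub_cancel, map_mul]
    have h3 : ((r + 1 : ℕ) : B) * algebraMap ℂ B (((r + 1).factorial : ℂ)⁻¹) =
        algebraMap ℂ B ((r.factorial : ℂ)⁻¹) := by
      rw [← map_natCast (algebraMap ℂ B) (r + 1), ← map_mul]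
      congr 1
      rw [Nat.factorial_succ]
      have h4 : ((r + 1 : ℕ) : ℂ) ≠ 0 := Nat.cast_ne_zero.2 (Nat.succ_ne_zero r)
      have h5 : (r.factorial : ℂ) ≠ 0 := Nat.cast_ne_zero.2 (Nat.factorial_ne_zero r)
      push_cast at h4 ⊢
      field_simp
    rw [← h3]
    ring

theorem expn_comm {B : Type} [CommRing B] [Algebra ℂ B] {d : ℕ} {n : Matrix ι ι ℂ} (x : B) :
    n.map (algebraMap ℂ B) * expn d n x = expn d n x * n.map (algebraMap ℂ B) := by
  rw [Z20_eq, Finset.mul_sum, Finset.sum_mul]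
  refine Finset.sum_congr rfl fun r _ => ?_
  rw [Matrix.mul_smul, Matrix.smul_mul, ← pow_succ', ← pow_succ]

theorem expn_eq_exp {d : ℕ} {n : Matrix ι ι ℂ} (hn : n ^ d = 0) (x : ℂ) :
    expn d n x = IsNilpotent.exp (x • n) := by
  rw [Z20_exp (fun q => rfl) hn]
  congr 1

theorem expn_tri {B : Type} [CommRing B] [Algebra ℂ B] {wt : ι → ℤ} {d : ℕ} {n : Matrix ι ι ℂ}
    (hn : ∀ i j, wt j < wt i → n i j = 0) (x : B) {i j : ι} (h : wt j < wt i) :
    expn d n x i j = 0 := by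
  have hp : ∀ r : ℕ, ∀ i j, wt j < wt i → (n ^ r) i j = 0 := by
    intro r
    induction r with
    | zero =>
      intro i j hij
      rw [pow_zero, Matrix.one_apply, if_neg]
      rintro rfl
      exact lt_irrefl _ hij
    | succ r ih =>
      intro i j hij
      rw [pow_succ, Matrix.mul_apply]
      refine Finset.sum_eq_zero fun m _ => ?_
      by_cases hm : wt m < wt i
      · rw [ih i m hm, zero_mul]
      · rw [hn m j (lt_of_lt_of_le hij (not_lt.1 hm)), mul_zero]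
  rw [Z20_apply]
  refine Finset.sum_eq_zero fun r _ => ?_
  rw [hp r i j h]
  simp

end Pool.Agent.LibZE25
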