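import Pool.Agent.LibZE25.ALoc
import Pool.Agent.LibZE25.Z14
import Pool.Agent.LibZE25.Z19
import Pool.Agent.LibZE25.Z20

/-!
# The asymptotic expansion of the untwisted period matrix
-/

open Matrix Complex Filter Topology
open scoped ComplexConjugate

namespace Pool.Agent.LibZE25

open MW38 SP38

variable {ι : Type} [Fintype ι] [DecidableEq ι] {N : Matrix ι ι ℝ} {Ψ : ℂ → Matrix ι ι ℂ}

private theorem Z32_pow {q : ℕ → ℂ} (hq : Tendsto q atTop (𝓝 0)) (hq0 : ∀ n, q n ≠ 0) (r : ℕ) :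
    Asym q (((1 / 2 : ℂ) • YR) ^ r) fun n => (yy (q n) / 2) ^ r := by
  induction r with
  | zero =>
    have h := Asym.const (q := q) 1
    simpa using h
  | succ r ih =>
    have h1 : Asym q ((1 / 2 : ℂ) • YR) fun n => yy (q n) / 2 := by
      have h2 := Asym.mul hq hq0 (Asym.const (q := q) (1 / 2 : ℂ)) (Asym.Y (q := q))
      rw [← Algebra.smul_def] at h2
      have h3 : (fun n => (1 / 2 : ℂ) * yy (q n)) = fun n => yy (q n) / 2 := by
        funext n; ring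
      rwa [h3] at h2
    have h4 := Asym.mul hq hq0 ih h1
    simpa only [pow_succ] using h4

private theorem Z32_expn_apply {B : Type} [CommRing B] [Algebra ℂ B] (d : ℕ) (m : Matrix ι ι ℂ)
    (x : B) (i a : ι) : expn d m x i a =
      ∑ r ∈ Finset.range d, x ^ r * algebraMap ℂ B (((r.factorial : ℂ)⁻¹ • m ^ r) i a) := by
  rw [expn, Matrix.sum_apply]
  rfl

private theorem Z32_expn {q : ℕ → ℂ} (hq : Tendsto q atTop (𝓝 0)) (hq0 : ∀ n, q n ≠ 0) (d : ℕ)
    (m : Matrix ι ι ℂ) (i a : ι) :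
    Asym q (expn d m ((1 / 2 : ℂ) • YR) i a) fun n => expn d m (yy (q n) / 2) i a := by
  simp only [Z32_expn_apply]
  refine Asym.sum hq hq0 _ fun r _ => ?_
  exact Asym.mul hq hq0 (Z32_pow hq hq0 r) (Asym.const _)

private theorem Z32_conj (d : ℕ) (m : Matrix ι ι ℂ) (x : ℂ) (i a : ι) :
    conj (expn d m x i a) = expn d (m.map (starRingEnd ℂ)) (conj x) i a := by
  rw [Z32_expn_apply, Z32_expn_apply, map_sum]
  refine Finset.sum_congr rfl fun r _ => ?_
  have h1 : (m.map (starRingEnd ℂ)) ^ r = (m ^ r).map (starRingEnd ℂ) :=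
    (Matrix.map_pow m (starRingEnd ℂ) r).symm
  rw [h1]
  simp only [map_mul, map_pow, Algebra.algebraMap_self, RingHom.id_apply, Matrix.smul_apply,
    Matrix.map_apply, smul_eq_mul, map_inv₀, map_natCast]

private theorem Z32_yy (ζ : ℂ) : yy (qq ζ) / 2 = -(2 * Real.pi * ζ.im : ℂ) := by
  rw [yy, norm_qq, Real.log_exp]
  push_cast
  ring

private theorem Z32_smul (N : Matrix ι ι ℝ) (ζ : ℂ) :
    (yy (qq ζ) / 2) • nn N = (I * (ζ.im : ℂ)) • cm N := by
  rw [Z32_yy, nn, smul_smul]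
  congr 1
  have h1 : (Real.pi : ℂ) ≠ 0 := by exact_mod_cast Real.pi_ne_zero
  have h2 : (2 * Real.pi * I : ℂ)⁻¹ = -I * (2 * Real.pi : ℂ)⁻¹ := by
    rw [mul_inv, Complex.inv_I]; ring
  rw [h2]
  field_simp

private theorem Z32_nn_conj (N : Matrix ι ι ℝ) : (nn N).map (starRingEnd ℂ) = -nn N := by
  ext i j
  simp only [nn, cm, Matrix.map_apply, Matrix.smul_apply, Matrix.neg_apply, smul_eq_mul, map_mul,
    map_inv₀, Complex.conj_ofReal, Complex.conj_I, map_ofNat]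
  rw [show (2 * (Real.pi : ℂ) * -I) = -(2 * Real.pi * I) by ring, inv_neg]
  ring

theorem asym_rz {d : ℕ} (hd : N ^ d = 0) (hΨ : ∀ i j, AnalyticAt ℂ (fun q => Ψ q i j) 0)
    {ζ : ℕ → ℂ} (hζ : Tendsto (fun n => qq (ζ n)) atTop (𝓝 0)) (i j : ι) :
    (Asym (fun n => qq (ζ n)) (rz d (nn N) (tA Ψ) i j) fun n => RZ N Ψ (ζ n) i j) ∧
    (Asym (fun n => qq (ζ n)) (rw' d (nn N) (tA Ψ) i j) fun n => conj (RZ N Ψ (ζ n) i j)) := by
  have hq0 : ∀ n, qq (ζ n) ≠ 0 := fun n => Complex.exp_ne_zero _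
  have hnil : (nn N) ^ d = 0 := by
    rw [nn, smul_pow, ← cus1_cm_pow, hd]
    have : cm (0 : Matrix ι ι ℝ) = 0 := by
      ext i j
      simp [cm]
    rw [this, smul_zero]
  have hRZ : ∀ n, RZ N Ψ (ζ n) i j =
      ∑ a, expn d (nn N) (yy (qq (ζ n)) / 2) i a * Ψ (qq (ζ n)) a j := by
    intro n
    rw [RZ, Matrix.mul_apply, expn_eq_exp hnil, Z32_smul]
  constructor
  · have h1 : Asym (fun n => qq (ζ n))
        (∑ a, expn d (nn N) ((1 / 2 : ℂ) • YR) i a * jz (tay fun q => Ψ q a j))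
        fun n => ∑ a, expn d (nn N) (yy (qq (ζ n)) / 2) i a * Ψ (qq (ζ n)) a j :=
      Asym.sum hζ hq0 _ fun a _ =>
        Asym.mul hζ hq0 (Z32_expn hζ hq0 d (nn N) i a) (asym_tay hζ (hΨ a j))
    have h2 : rz d (nn N) (tA Ψ) i j =
        ∑ a, expn d (nn N) ((1 / 2 : ℂ) • YR) i a * jz (tay fun q => Ψ q a j) := by
      rw [rz, Matrix.mul_apply]
      rfl
    rw [h2]
    simpa only [hRZ] using h1
  · have h1 : Asym (fun n => qq (ζ n))
        (∑ a, expn d (-nn N) ((1 / 2 : ℂ) • YR) i a * jw (tayc fun q => Ψ q a j))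
        fun n => ∑ a, expn d (-nn N) (yy (qq (ζ n)) / 2) i a * conj (Ψ (qq (ζ n)) a j) :=
      Asym.sum hζ hq0 _ fun a _ =>
        Asym.mul hζ hq0 (Z32_expn hζ hq0 d (-nn N) i a) (asym_tayc hζ (hΨ a j))
    have h2 : rw' d (nn N) (tA Ψ) i j =
        ∑ a, expn d (-nn N) ((1 / 2 : ℂ) • YR) i a * jw (tayc fun q => Ψ q a j) := by
      rw [rw', Matrix.mul_apply]
      rfl
    have h3 : ∀ n, conj (RZ N Ψ (ζ n) i j) =
        ∑ a, expn d (-nn N) (yy (qq (ζ n)) / 2) i a * conj (Ψ (qq (ζ n)) a j) := by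
      intro n
      rw [hRZ, map_sum]
      refine Finset.sum_congr rfl fun a _ => ?_
      rw [map_mul, Z32_conj, Z32_nn_conj]
      congr 2
      rw [Z32_yy, map_neg, map_mul, map_mul, Complex.conj_ofReal, Complex.conj_ofReal, map_ofNat]
    rw [h2]
    simpa only [h3] using h1

end Pool.Agent.LibZE25
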