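import Mathlib

/-!
# Linearly independent columns have a nonzero maximal minor
-/

namespace Pool.Agent.LibZE25

theorem exists_minor {K : Type} [Field K] {ι κ : Type} [Fintype ι] [Fintype κ] [DecidableEq κ]
    (M : Matrix ι κ K) (h : ∀ v : κ → K, M.mulVec v = 0 → v = 0) :
    ∃ e : κ → ι, (M.submatrix e id).det ≠ 0 := by
  have hinj : Function.Injective M.mulVecLin := by
    rw [← LinearMap.ker_eq_bot, LinearMap.ker_eq_bot']
    intro v hv
    exact h v (by rwa [Matrix.mulVecLin_apply] at hv)
  have hrank : M.rank = Fintype.card κ := by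
    unfold Matrix.rank
    rw [LinearMap.finrank_range_of_inj hinj, Module.finrank_fintype_fun_eq_card]
  rw [Matrix.rank_eq_finrank_span_row] at hrank
  have htop : Submodule.span K (Set.range M.row) = ⊤ := by
    apply Submodule.eq_top_of_finrank_eq
    rw [hrank, Module.finrank_fintype_fun_eq_card]
  obtain ⟨κ', a, -, hspan, hli⟩ := exists_linearIndependent' K M.row
  rw [htop] at hspan
  let b : Module.Basis κ' K (κ → K) := Module.Basis.mk hli hspan.ge
  let f : κ ≃ κ' := (Pi.basisFun K κ).indexEquiv b
  refine ⟨fun k => a (f k), ?_⟩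
  have hli' : LinearIndependent K (fun k => M.row (a (f k))) := hli.comp f f.injective
  have h1 : IsUnit (M.submatrix (fun k => a (f k)) id) := by
    rw [← Matrix.linearIndependent_rows_iff_isUnit]
    exact hli'
  exact ((Matrix.isUnit_iff_isUnit_det _).1 h1).ne_zero

theorem mulVec_inj_of_minor {K : Type} [Field K] {ι κ : Type} [Fintype ι] [Fintype κ]
    [DecidableEq κ] (M : Matrix ι κ K) {e : κ → ι} (he : (M.submatrix e id).det ≠ 0) (v : κ → K)
    (hv : M.mulVec v = 0) : v = 0 := by
  refine Matrix.eq_zero_of_mulVec_eq_zero he ?_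
  funext k
  have h1 := congrFun hv (e k)
  exact h1

end Pool.Agent.LibZE25
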