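import Pool.Agent.LibZE25.ALoc
import Pool.Agent.LibZE25.Z21

/-!
# A real Hodge class makes the minors vanish
-/

open Matrix Complex

namespace Pool.Agent.LibZE25

open MW38 SP38

variable {ι : Type} [Fintype ι] [DecidableEq ι] {p : ι → ℤ} {N : Matrix ι ι ℝ}
  {Ψ : ℂ → Matrix ι ι ℂ}

theorem Z33_real (hN : IsNilpotent N) (x : ℝ) :
    cm (IsNilpotent.exp (x • N)) = IsNilpotent.exp ((x : ℂ) • cm N) ∧
      IsUnit (IsNilpotent.exp (x • N)) := by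
  have hsn : IsNilpotent (x • N) := by
    obtain ⟨k, hk⟩ := hN
    exact ⟨k, by rw [smul_pow, hk, smul_zero]⟩
  refine ⟨?_, IsNilpotent.isUnit_exp hsn⟩
  have h := IsNilpotent.map_exp hsn (Complex.ofRealHom.mapMatrix (m := ι))
  have e : (Complex.ofRealHom.mapMatrix (m := ι)) (x • N) = (x : ℂ) • cm N := by
    ext i j
    simp [cm]
  rw [e] at h
  exact h

theorem Z33_GZ (hN : IsNilpotent N) (ζ : ℂ) :
    GZ N Ψ ζ = cm (IsNilpotent.exp (ζ.re • N)) * RZ N Ψ ζ := by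
  rw [(Z33_real hN ζ.re).1, GZ, RZ, ← Matrix.mul_assoc, ← cus1_exp_add (cus1_cm_nil hN)]
  have e : (ζ.re : ℂ) + I * (ζ.im : ℂ) = ζ := by
    rw [mul_comm]
    exact Complex.re_add_im ζ
  rw [e]

omit [DecidableEq ι] in
theorem Z33_sub (f : ι → ℂ) (hf : ∀ j, p j < 0 → f j = 0) :
    ∑ j : {j // (0 : ℤ) ≤ p j}, f j = ∑ j, f j := by
  rw [← Finset.sum_subtype (Finset.univ.filter fun j => (0 : ℤ) ≤ p j) (fun x => by simp) f]
  rw [Finset.sum_filter_of_ne]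
  intro j _ hj
  by_contra h
  exact hj (hf j (not_le.mp h))

omit [DecidableEq ι] in
theorem Z33_tC (A : Matrix ι ι ℝ) (u : ι → ℝ) : tC (A *ᵥ u) = cm A *ᵥ tC u := by
  funext i
  unfold tC cm
  rw [Matrix.mulVec, Matrix.mulVec, dotProduct, dotProduct]
  push_cast
  rfl

theorem minor_zero (hN : IsNilpotent N) {ζ : ℂ} (hu : RC p (GZ N Ψ ζ) 0)
    (e : {j // (0 : ℤ) ≤ p j} ⊕ {j // (0 : ℤ) ≤ p j} → ι) :
    ((cat p 0 (RZ N Ψ ζ) ((RZ N Ψ ζ).map (starRingEnd ℂ))).submatrix e id).det = 0 := by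
  obtain ⟨u, hu0, hu1⟩ := hu
  obtain ⟨c, hc, huc⟩ := (mem_Fl_iff_exists _).mp hu1
  by_contra hne
  have hT := (Z33_real hN ζ.re).2
  set T := IsNilpotent.exp (ζ.re • N) with hTd
  have hdet : IsUnit T.det := (Matrix.isUnit_iff_isUnit_det T).mp hT
  have h1 : tC (T⁻¹ *ᵥ u) = RZ N Ψ ζ *ᵥ c := by
    rw [Z33_tC, huc, Z33_GZ hN, Matrix.mulVec_mulVec, ← Matrix.mul_assoc]
    have h2 : cm T⁻¹ * cm T = 1 := by
      have h3 := map_mul (Complex.ofRealHom.mapMatrix (m := ι)) T⁻¹ T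
      rw [Matrix.nonsing_inv_mul T hdet, map_one] at h3
      exact h3.symm
    rw [← hTd, h2, Matrix.one_mul]
  have hv : (cat p 0 (RZ N Ψ ζ) ((RZ N Ψ ζ).map (starRingEnd ℂ))).mulVec
      (Sum.elim (fun j => c j) (fun j => -(starRingEnd ℂ) (c j))) = 0 := by
    funext i
    rw [Matrix.mulVec, dotProduct, Fintype.sum_sum_type]
    have e1 : ∑ j : {j // (0 : ℤ) ≤ p j}, cat p 0 (RZ N Ψ ζ) ((RZ N Ψ ζ).map (starRingEnd ℂ)) i
        (Sum.inl j) * Sum.elim (fun j : {j // (0 : ℤ) ≤ p j} => c j)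
          (fun j : {j // (0 : ℤ) ≤ p j} => -(starRingEnd ℂ) (c j)) (Sum.inl j) =
        ∑ j : {j // (0 : ℤ) ≤ p j}, RZ N Ψ ζ i j * c j := rfl
    have e2 : ∑ j : {j // (0 : ℤ) ≤ p j}, cat p 0 (RZ N Ψ ζ) ((RZ N Ψ ζ).map (starRingEnd ℂ)) i
        (Sum.inr j) * Sum.elim (fun j : {j // (0 : ℤ) ≤ p j} => c j)
          (fun j : {j // (0 : ℤ) ≤ p j} => -(starRingEnd ℂ) (c j)) (Sum.inr j) =
        ∑ j : {j // (0 : ℤ) ≤ p j}, -(starRingEnd ℂ) (RZ N Ψ ζ i j * c j) := by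
      refine Finset.sum_congr rfl fun j _ => ?_
      rw [map_mul, ← mul_neg]
      rfl
    rw [e1, e2]
    rw [Z33_sub (fun j => RZ N Ψ ζ i j * c j) (fun j hj => by rw [hc j hj, mul_zero])]
    rw [Z33_sub (fun j => -(starRingEnd ℂ) (RZ N Ψ ζ i j * c j))
      (fun j hj => by rw [hc j hj, mul_zero, map_zero, neg_zero])]
    rw [Finset.sum_neg_distrib, ← map_sum]
    have h4 : ∑ j, RZ N Ψ ζ i j * c j = ((T⁻¹ *ᵥ u) i : ℂ) := by
      have := congrFun h1 i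
      exact this.symm
    rw [h4, Complex.conj_ofReal, add_neg_cancel]
    rfl
  have hz := mulVec_inj_of_minor _ hne _ hv
  have hc0 : c = 0 := by
    funext j
    by_cases hj : p j < 0
    · exact hc j hj
    · exact congrFun hz (Sum.inl ⟨j, not_lt.mp hj⟩)
  apply hu0
  funext i
  rw [hc0, Matrix.mulVec_zero] at huc
  have h5 : tC u i = 0 := congrFun huc i
  unfold tC at h5
  exact_mod_cast h5

end Pool.Agent.LibZE25
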