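import Pool.Agent.LibMW38.BlkE
import Pool.Agent.LibZE25.ALoc

/-!
# The graded pieces of a local variation as `SP38.CuspData`
-/

open Matrix Complex

namespace Pool.Agent.LibZE25

open MW38 SP38

variable {ι : Type} [Fintype ι] [DecidableEq ι] {wt p : ι → ℤ} {Q N : Matrix ι ι ℝ}
  {Ψ : ℂ → Matrix ι ι ℂ} {ε : ℝ}

theorem Z34_htri (h : Loc wt p Q N Ψ ε) (ζ : ℂ) : Tri wt (ζ • cm N) := fun i j hij => by
  rw [Matrix.smul_apply, h.tri.cm i j hij, smul_zero]

theorem Z34_hnil (h : Loc wt p Q N Ψ ε) (ζ : ℂ) : IsNilpotent (ζ • cm N) :=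
  cus1_smul_nil (cus1_cm_nil h.nil) ζ

/-- restriction to a graded piece -/
theorem Z34_restrict {Φ : Matrix ι ι ℂ} (hu : IsUnit Φ) (ht : Tri wt Φ) {l a : ℤ} {v : ι → ℂ}
    (hv : v ∈ Fl p Φ a) (hv0 : ∀ i, l < wt i → v i = 0) :
    (fun i : {i // wt i = l} => v i) ∈ Fl (fun i : {i // wt i = l} => p i) (blk wt l l Φ) a := by
  rw [mem_Fl_iff hu] at hv
  rw [mem_Fl_iff (ht.isUnit_blk hu l)]
  intro j hj
  rw [← hv j.1 hj, ← ht.blk_inv hu l]
  have hti := ht.inv hu
  simp only [Matrix.mulVec, dotProduct, blk]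
  have h1 : ∑ x, Φ⁻¹ (j : ι) x * v x
      = ∑ x ∈ Finset.univ.filter (fun x => wt x = l), Φ⁻¹ (j : ι) x * v x := by
    symm
    refine Finset.sum_subset (Finset.filter_subset _ _) fun x _ hx => ?_
    have hx' : wt x ≠ l := fun h => hx (Finset.mem_filter.2 ⟨Finset.mem_univ _, h⟩)
    rcases lt_or_gt_of_ne hx' with h2 | h2
    · rw [hti j.1 x (by rw [j.2]; exact h2), zero_mul]
    · rw [hv0 x h2, mul_zero]
  rw [h1]
  symm
  exact Finset.sum_subtype _ (by simp) fun x => Φ⁻¹ (j : ι) x * v x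

theorem Z34_nhds {ζ : ℂ} (hζ : ‖qq ζ‖ < ε) : ∀ᶠ ξ in nhds ζ, ‖qq ξ‖ < ε := by
  have hc : Continuous fun ξ : ℂ => ‖qq ξ‖ := by
    unfold qq
    fun_prop
  exact hc.continuousAt.eventually_lt continuousAt_const hζ

theorem Z34_fromBlocks_pow {m : ℕ} (B : Matrix (Fin m) (Fin m) ℝ) (k : ℕ) :
    (Matrix.fromBlocks B 0 0 (0 : Matrix Unit Unit ℝ)) ^ (k + 1) =
      Matrix.fromBlocks (B ^ (k + 1)) 0 0 0 := by
  induction k with
  | zero => simp
  | succ k ih => rw [pow_succ, ih, Matrix.fromBlocks_multiply, pow_succ B (k + 1)]; simp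

theorem Z34_VV {m : ℕ} {M : Matrix (Fin m ⊕ Unit) (Fin m ⊕ Unit) ℝ} (hM : IsNilpotent M)
    (hc : ∀ i, M i (Sum.inr ()) = 0) (ζ : ℂ) : VV M (fun _ _ => 0) ζ = 0 := by
  obtain ⟨k, hk⟩ := cus1_cm_nil hM
  have h1 : ∀ n : ℕ, ∀ i : Fin m, ((cm M) ^ n) (Sum.inl i) (Sum.inr ()) = 0 := by
    intro n i
    cases n with
    | zero => simp [Matrix.one_apply]
    | succ n =>
      rw [pow_succ, Matrix.mul_apply]
      refine Finset.sum_eq_zero fun x _ => ?_
      have h2 : cm M x (Sum.inr ()) = 0 := by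
        unfold cm
        rw [Matrix.map_apply, hc]
        simp
      rw [h2, mul_zero]
  funext i
  unfold VV eV
  rw [cus1_exp_eq _ hk, Matrix.sum_mulVec, Finset.sum_apply]
  refine Finset.sum_eq_zero fun n _ => ?_
  rw [Matrix.smul_mulVec, Pi.smul_apply]
  have h3 : ((cm M ^ n) *ᵥ Sum.elim (fun _ : Fin m => (0 : ℂ)) 1) (Sum.inl i) = 0 := by
    simp only [Matrix.mulVec, dotProduct, Fintype.sum_sum_type, Sum.elim_inl, mul_zero,
      Finset.sum_const_zero, zero_add, Sum.elim_inr, Pi.one_apply, mul_one,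
      Finset.univ_unique, Finset.sum_singleton]
    exact h1 n i
  rw [h3, smul_zero]

theorem Loc.GG_blk (h : Loc wt p Q N Ψ ε) (l : ℤ) {m : ℕ} (e : {i // wt i = l} ≃ Fin m) {ζ : ℂ}
    (hζ : ‖qq ζ‖ < ε) :
    GG (Matrix.fromBlocks (Matrix.reindex e e (blk wt l l N)) 0 0 0)
      (fun q => Matrix.reindex e e (blk wt l l (Ψ q))) ζ =
    Matrix.reindex e e (blk wt l l (GZ N Ψ ζ)) := by
  have hq : qq ζ ∈ Metric.ball (0 : ℂ) ε := by simpa using hζ
  have h1 : hb (Matrix.fromBlocks (Matrix.reindex e e (blk wt l l N)) 0 0 0) =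
      Matrix.reindex e e (blk wt l l N) := rfl
  have h2 : ζ • cm (Matrix.reindex e e (blk wt l l N)) =
      Matrix.reindex e e (blk wt l l (ζ • cm N)) := rfl
  unfold GG eH GZ
  rw [h1, h2, gen2_exp, gen2_mul, ← blk_exp (Z34_hnil h ζ) (Z34_htri h ζ),
    blk_mul_diag (Tri.exp (Z34_hnil h ζ) (Z34_htri h ζ)) (h.inv _ hq).2]

theorem Loc.cuspData (h : Loc wt p Q N Ψ ε) (l : ℤ) {m : ℕ} (e : {i // wt i = l} ≃ Fin m) :
    CuspData l (fun i => p (e.symm i)) (Matrix.reindex e e (blk wt l l Q))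
      (Matrix.fromBlocks (Matrix.reindex e e (blk wt l l N)) 0 0 0)
      (fun q => Matrix.reindex e e (blk wt l l (Ψ q))) (fun _ _ => 0) ε := by
  have hbN : hb (Matrix.fromBlocks (Matrix.reindex e e (blk wt l l N)) 0 0 0) =
      Matrix.reindex e e (blk wt l l N) := rfl
  have hnil : IsNilpotent (Matrix.fromBlocks (Matrix.reindex e e (blk wt l l N)) 0 0
      (0 : Matrix Unit Unit ℝ)) := by
    obtain ⟨k, hk⟩ := blk_nil h.nil h.tri l
    have e1 := congrArg (Matrix.reindexAlgEquiv ℝ ℝ e) hk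
    rw [map_pow, map_zero] at e1
    have e2 : (Matrix.reindex e e (blk wt l l N)) ^ k = 0 := e1
    refine ⟨k + 1, ?_⟩
    rw [Z34_fromBlocks_pow, pow_succ, e2, zero_mul]
    exact Matrix.fromBlocks_zero
  refine
    { eps := h.eps
      nil := hnil
      row := ?_
      pres := ?_
      holP := fun i j => h.hol (e.symm i) (e.symm j)
      holb := fun i => differentiableOn_const _
      unit := fun q hq => gen2_isUnit e ((h.inv q hq).2.isUnit_blk (h.inv q hq).1 l)
      phs := ?_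
      trG := ?_
      trn := ?_ }
  · intro j
    rcases j with j | j <;> rfl
  · have h4 := h.isom.2.2 l
    rw [blk_exp_real h.nil h.tri l] at h4
    have e2 : ∀ X : Matrix {i // wt i = l} {i // wt i = l} ℝ,
      (Matrix.reindex e e X)ᵀ = Matrix.reindex e e Xᵀ := fun _ => rfl
    rw [hbN, gen2_exp, e2, gen2_mul, gen2_mul, h4]
  · intro ζ hζ
    rw [h.GG_blk l e hζ]
    exact ((h.mhs ζ hζ).gr l).reindex e
  · intro ζ hζ j
    rw [h.GG_blk l e hζ]
    have hd : ∀ i : Fin m, deriv (fun ζ => GG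
        (Matrix.fromBlocks (Matrix.reindex e e (blk wt l l N)) 0 0 0)
        (fun q => Matrix.reindex e e (blk wt l l (Ψ q))) ζ i j) ζ
        = deriv (fun ζ => GZ N Ψ ζ (e.symm i).1 (e.symm j).1) ζ := by
      intro i
      refine Filter.EventuallyEq.deriv_eq ?_
      filter_upwards [Z34_nhds hζ] with ξ hξ
      rw [h.GG_blk l e hξ]
      rfl
    have h5 : ∀ i, l < wt i → deriv (fun ζ => GZ N Ψ ζ i (e.symm j).1) ζ = 0 := by
      intro i hi
      have h0 : (fun ζ => GZ N Ψ ζ i (e.symm j).1) =ᶠ[nhds ζ] fun _ => 0 := by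
        filter_upwards [Z34_nhds hζ] with ξ hξ
        exact (h.mhs ξ hξ).tri i _ (by rw [(e.symm j).2]; exact hi)
      rw [h0.deriv_eq]
      exact deriv_const _ _
    have key := Z34_restrict (p := p) (h.mhs ζ hζ).unit (h.mhs ζ hζ).tri
      (v := fun i => deriv (fun ζ => GZ N Ψ ζ i (e.symm j).1) ζ) (h.tr ζ hζ (e.symm j).1) h5
    have key2 := (mem_Fl_reindex (p := fun i : {i // wt i = l} => p i)
      (G := blk wt l l (GZ N Ψ ζ)) (a := p (e.symm j).1 - 1) e
      (fun i : {i // wt i = l} => deriv (fun ζ => GZ N Ψ ζ i.1 (e.symm j).1) ζ)).1 key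
    have h6 : (fun i => deriv (fun ζ => GG
        (Matrix.fromBlocks (Matrix.reindex e e (blk wt l l N)) 0 0 0)
        (fun q => Matrix.reindex e e (blk wt l l (Ψ q))) ζ i j) ζ)
        = fun i => deriv (fun ζ => GZ N Ψ ζ (e.symm i).1 (e.symm j).1) ζ := funext hd
    rw [h6]
    exact key2
  · intro ζ _
    have h0 : ∀ ξ : ℂ, VV (Matrix.fromBlocks (Matrix.reindex e e (blk wt l l N)) 0 0 0)
        (fun _ _ => 0) ξ = 0 := Z34_VV hnil (by
      intro i
      rcases i with i | i <;> rfl)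
    have h1 : (fun i => deriv (fun ζ => VV
        (Matrix.fromBlocks (Matrix.reindex e e (blk wt l l N)) 0 0 0)
        (fun _ _ => 0) ζ i) ζ) = 0 := by
      funext i
      have h2 : (fun ζ => VV (Matrix.fromBlocks (Matrix.reindex e e (blk wt l l N)) 0 0 0)
        (fun _ _ => 0) ζ i) = fun _ => 0 := by
        funext ξ
        rw [h0]
        rfl
      rw [h2]
      exact deriv_const _ _
    rw [h1]
    exact Submodule.zero_mem _

end Pool.Agent.LibZE25
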