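import Pool.Agent.LibZE25.Z35
import Pool.Agent.LibSP38.Lim2

/-!
# The limit frames of `F^k` and of its conjugate are independent
-/

open Matrix Complex Filter Topology
open scoped ComplexOrder ContDiff

namespace Pool.Agent.LibZE25

open SP38

variable {m : ℕ} {w : ℤ} {p : Fin m → ℤ} {Q : Matrix (Fin m) (Fin m) ℝ}
  {N : Matrix (Fin m ⊕ Unit) (Fin m ⊕ Unit) ℝ} {Ψ : ℂ → Matrix (Fin m) (Fin m) ℂ}
  {β : ℂ → Fin m → ℂ} {ε : ℝ} {s : Equiv.Perm (Fin m)}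

theorem Z36_norm_cj (v : Fin m → ℂ) : ‖cj v‖ = ‖v‖ := by
  have h1 : ∀ i, ‖cj v i‖ = ‖v i‖ := fun i => by
    show ‖(starRingEnd ℂ) (v i)‖ = ‖v i‖
    exact RCLike.norm_conj _
  apply le_antisymm
  · refine (pi_norm_le_iff_of_nonneg (norm_nonneg _)).2 fun i => ?_
    rw [h1]
    exact norm_le_pi_norm v i
  · refine (pi_norm_le_iff_of_nonneg (norm_nonneg _)).2 fun i => ?_
    rw [← h1]
    exact norm_le_pi_norm (cj v) i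

theorem Z36_cj_add (v w : Fin m → ℂ) : cj (v + w) = cj v + cj w := by
  funext i
  show (starRingEnd ℂ) (v i + w i) = _
  rw [map_add]
  rfl

theorem nondeg (h : CuspData w p Q N Ψ β ε) (hs : ∀ j, p (s j) = w - p j) {k : ℤ}
    (hty : ∀ j, p j < k ∨ w - p j < k) :
    ∀ᶠ ζ in strip, ∀ x t : Fin m → ℂ, (∀ j, p j < k → x j = 0) → (∀ j, p j < k → t j = 0) →
      (eH N ζ * Ψ 0) *ᵥ x + cj ((eH N ζ * Ψ 0) *ᵥ t) = 0 → x = 0 ∧ t = 0 := by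
  obtain ⟨K, hK⟩ := glo1_exists_bound p
  obtain ⟨C1, hC1⟩ := h.exists_compare hs hK
  obtain ⟨C2, hC2⟩ := exists_eH_le h.nil h.row
  obtain ⟨C3, hC3⟩ := h.exists_GG_le
  obtain ⟨A, hA0, hA⟩ := Lim2_near h
  have hA1 : 0 < 1 / (2 * (A + 1)) := by positivity
  have hsmall := (tendsto_qq_mul_pow (C1 + C2 + C3)).eventually (gt_mem_nhds hA1)
  filter_upwards [hC1, hC2, hC3, tendsto_qq.eventually hA, hsmall, h.eventually,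
    cus2_eventually 1] with ζ h1 h2 h3 h4 h5 h6 h7 x t hx ht hxt
  obtain ⟨hy1, -⟩ := h7
  set y : ℝ := ζ.im with hy
  set q : ℂ := qq ζ with hq
  set G : Matrix (Fin m) (Fin m) ℂ := GG N Ψ ζ with hG
  set M : Matrix (Fin m) (Fin m) ℂ := metr w K Q (PP p s G) with hM
  set u : Fin m → ℂ := G *ᵥ x with hu
  set v : Fin m → ℂ := cj (G *ᵥ t) with hv
  have hufil : u ∈ Fil p G k := (proj1_mem_Fil k u).2 ⟨x, hx, rfl⟩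
  have hvfil : cj v ∈ Fil p G k := by
    rw [hv, hd1_cj_cj]
    exact (proj1_mem_Fil k _).2 ⟨t, ht, rfl⟩
  have hqf : qf M (u + v) = qf M u + qf M v :=
    qf_add_of_types (h.phs ζ h6) hs hK hty hufil hvfil
  have hy0 : 0 ≤ y := by linarith
  have hyC : 0 ≤ y ^ C1 := pow_nonneg hy0 _
  -- lower bound
  have hlow : ‖u‖ ^ 2 + ‖v‖ ^ 2 ≤ y ^ (2 * C1) * ‖u + v‖ ^ 2 := by
    have e1 := (h1 u).2
    have e2 := (h1 v).2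
    have e3 := (h1 (u + v)).1
    calc ‖u‖ ^ 2 + ‖v‖ ^ 2 ≤ y ^ C1 * qf M u + y ^ C1 * qf M v := add_le_add e1 e2
      _ = y ^ C1 * qf M (u + v) := by rw [hqf]; ring
      _ ≤ y ^ C1 * (y ^ C1 * ‖u + v‖ ^ 2) := mul_le_mul_of_nonneg_left e3 hyC
      _ = y ^ (2 * C1) * ‖u + v‖ ^ 2 := by ring
  have hxu : ‖x‖ ≤ y ^ C3 * ‖u‖ := (h3 x).2
  have htv : ‖t‖ ≤ y ^ C3 * ‖v‖ := by
    rw [hv, Z36_norm_cj]
    exact (h3 t).2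
  have hxt2 : ‖x‖ ^ 2 + ‖t‖ ^ 2 ≤ y ^ (2 * C3) * (‖u‖ ^ 2 + ‖v‖ ^ 2) := by
    have e1 := pow_le_pow_left₀ (norm_nonneg x) hxu 2
    have e2 := pow_le_pow_left₀ (norm_nonneg t) htv 2
    calc ‖x‖ ^ 2 + ‖t‖ ^ 2 ≤ (y ^ C3 * ‖u‖) ^ 2 + (y ^ C3 * ‖v‖) ^ 2 := add_le_add e1 e2
      _ = y ^ (2 * C3) * (‖u‖ ^ 2 + ‖v‖ ^ 2) := by ring
  -- upper bound
  have hsplit : ∀ z : Fin m → ℂ, G *ᵥ z = (eH N ζ * Ψ 0) *ᵥ z + (- (eH N ζ *ᵥ ((Ψ 0 - Ψ q) *ᵥ z))) := by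
    intro z
    rw [hG, GG, ← hq, Matrix.mulVec_mulVec, Matrix.mul_sub, Matrix.sub_mulVec]
    abel
  have huv : u + v = (- (eH N ζ *ᵥ ((Ψ 0 - Ψ q) *ᵥ x))) + cj (- (eH N ζ *ᵥ ((Ψ 0 - Ψ q) *ᵥ t))) := by
    rw [hu, hv, hsplit x, hsplit t, Z36_cj_add]
    have e : ((eH N ζ * Ψ 0) *ᵥ x + -(eH N ζ *ᵥ ((Ψ 0 - Ψ q) *ᵥ x)) +
        (cj ((eH N ζ * Ψ 0) *ᵥ t) + cj (-(eH N ζ *ᵥ ((Ψ 0 - Ψ q) *ᵥ t))))) =
        ((eH N ζ * Ψ 0) *ᵥ x + cj ((eH N ζ * Ψ 0) *ᵥ t)) +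
        (-(eH N ζ *ᵥ ((Ψ 0 - Ψ q) *ᵥ x)) + cj (-(eH N ζ *ᵥ ((Ψ 0 - Ψ q) *ᵥ t)))) := by abel
    rw [e, hxt, zero_add]
  have hbd : ∀ z : Fin m → ℂ, ‖eH N ζ *ᵥ ((Ψ 0 - Ψ q) *ᵥ z)‖ ≤ y ^ C2 * (A * ‖q‖ * ‖z‖) := by
    intro z
    exact (h2 _).1.trans (mul_le_mul_of_nonneg_left (h4 z) (pow_nonneg hy0 _))
  have hup : ‖u + v‖ ≤ (y ^ C2 * (A * ‖q‖)) * (‖x‖ + ‖t‖) := by
    rw [huv]
    refine (norm_add_le _ _).trans ?_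
    rw [norm_neg, Z36_norm_cj, norm_neg]
    calc _ ≤ y ^ C2 * (A * ‖q‖ * ‖x‖) + y ^ C2 * (A * ‖q‖ * ‖t‖) := add_le_add (hbd x) (hbd t)
      _ = (y ^ C2 * (A * ‖q‖)) * (‖x‖ + ‖t‖) := by ring
  set S : ℝ := ‖x‖ ^ 2 + ‖t‖ ^ 2 with hS
  have hS0 : 0 ≤ S := by positivity
  set δ : ℝ := A * (‖q‖ * y ^ (C1 + C2 + C3)) with hδ
  have hδ0 : 0 ≤ δ := mul_nonneg hA0 (mul_nonneg (norm_nonneg _) (pow_nonneg hy0 _))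
  have hδ1 : δ ≤ 1 / 2 := by
    calc δ ≤ A * (1 / (2 * (A + 1))) := mul_le_mul_of_nonneg_left h5.le hA0
      _ ≤ 1 / 2 := by
        rw [mul_one_div, div_le_div_iff₀ (by positivity) (by norm_num)]
        linarith
  have hfin : S ≤ δ ^ 2 * (2 * S) := by
    have e1 : ‖u + v‖ ^ 2 ≤ ((y ^ C2 * (A * ‖q‖)) * (‖x‖ + ‖t‖)) ^ 2 :=
      pow_le_pow_left₀ (norm_nonneg _) hup 2
    have e2 : (‖x‖ + ‖t‖) ^ 2 ≤ 2 * S := by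
      rw [hS]
      nlinarith [sq_nonneg (‖x‖ - ‖t‖)]
    calc S ≤ y ^ (2 * C3) * (‖u‖ ^ 2 + ‖v‖ ^ 2) := hxt2
      _ ≤ y ^ (2 * C3) * (y ^ (2 * C1) * ‖u + v‖ ^ 2) :=
          mul_le_mul_of_nonneg_left hlow (pow_nonneg hy0 _)
      _ ≤ y ^ (2 * C3) * (y ^ (2 * C1) * ((y ^ C2 * (A * ‖q‖)) * (‖x‖ + ‖t‖)) ^ 2) := by
          refine mul_le_mul_of_nonneg_left ?_ (pow_nonneg hy0 _)
          exact mul_le_mul_of_nonneg_left e1 (pow_nonneg hy0 _)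
      _ = δ ^ 2 * (‖x‖ + ‖t‖) ^ 2 := by
          rw [hδ]
          ring
      _ ≤ δ ^ 2 * (2 * S) := mul_le_mul_of_nonneg_left e2 (sq_nonneg _)
  have hSz : S ≤ 0 := by
    have e3 : δ ^ 2 ≤ 1 / 4 := by nlinarith
    nlinarith
  have hx0 : ‖x‖ ^ 2 = 0 := by
    have := sq_nonneg ‖t‖
    have := sq_nonneg ‖x‖
    linarith
  have ht0 : ‖t‖ ^ 2 = 0 := by
    have := sq_nonneg ‖t‖
    have := sq_nonneg ‖x‖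
    linarith
  exact ⟨norm_eq_zero.1 (pow_eq_zero_iff (two_ne_zero)|>.1 hx0),
    norm_eq_zero.1 (pow_eq_zero_iff (two_ne_zero)|>.1 ht0)⟩

end Pool.Agent.LibZE25
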