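import Pool.Agent.LibMW38.Rig
import Pool.Agent.LibZE25.Z34
import Pool.Agent.LibZE25.Z36

/-!
# The same for the weight `l` block, on the imaginary axis
-/

open Matrix Complex Filter Topology
open scoped ComplexConjugate

namespace Pool.Agent.LibZE25

open MW38 SP38

variable {ι : Type} [Fintype ι] [DecidableEq ι] {wt p : ι → ℤ} {Q N : Matrix ι ι ℝ}
  {Ψ : ℂ → Matrix ι ι ℂ} {ε : ℝ}

theorem Loc.z37_block (h : Loc wt p Q N Ψ ε) (l : ℤ) {m : ℕ} (e : {i // wt i = l} ≃ Fin m)
    (ζ : ℂ) :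
    eH (Matrix.fromBlocks (Matrix.reindex e e (blk wt l l N)) 0 0 0) ζ *
      Matrix.reindex e e (blk wt l l (Ψ 0)) =
    Matrix.reindex e e (blk wt l l (IsNilpotent.exp (ζ • cm N) * Ψ 0)) := by
  have hN0 : IsNilpotent (cm N) := by
    obtain ⟨n, hn⟩ := h.nil
    refine ⟨n, ?_⟩
    have h1 : (cm N) ^ n = cm (N ^ n) := by
      have := Matrix.map_pow N Complex.ofRealHom n
      exact this.symm
    rw [h1, hn]
    ext i j
    simp [cm]
  have hN : IsNilpotent (ζ • cm N) := by
    obtain ⟨n, hn⟩ := hN0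
    exact ⟨n, by rw [smul_pow, hn, smul_zero]⟩
  have ht : Tri wt (ζ • cm N) := by
    intro i j hij
    rw [Matrix.smul_apply, h.tri.cm i j hij, smul_zero]
  have h0 : (0 : ℂ) ∈ Metric.ball (0 : ℂ) ε := Metric.mem_ball_self h.eps
  have e1 : ζ • cm (hb (Matrix.fromBlocks (Matrix.reindex e e (blk wt l l N)) 0 0 0)) =
      Matrix.reindex e e (ζ • cm (blk wt l l N)) := rfl
  rw [eH, e1, gen2_exp, gen2_mul, blk_mul_diag (Tri.exp hN ht) (h.inv 0 h0).2, blk_exp hN ht]
  rfl

theorem Loc.nondeg_blk (h : Loc wt p Q N Ψ ε)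
    (hs : ∃ s : Equiv.Perm ι, ∀ j, wt (s j) = wt j ∧ p (s j) = wt j - p j) {l k : ℤ}
    (hty : ∀ i, wt i = l → p i < k ∨ l - p i < k) :
    ∃ y : ℝ, ∀ v : {j : {i // wt i = l} // k ≤ p j} ⊕ {j : {i // wt i = l} // k ≤ p j} → ℂ,
      (cat (fun i : {i // wt i = l} => p i) k
        (bk wt l (IsNilpotent.exp ((I * (y : ℂ)) • cm N) * Ψ 0))
        ((bk wt l (IsNilpotent.exp ((I * (y : ℂ)) • cm N) * Ψ 0)).map (starRingEnd ℂ))).mulVec v =
        0 → v = 0 := by
  obtain ⟨s, hs⟩ := symm_blk hs l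
  set e := Fintype.equivFin {i // wt i = l} with he
  set s' : Equiv.Perm (Fin (Fintype.card {i // wt i = l})) := (e.symm.trans s).trans e with hs'def
  have hs' : ∀ j, (fun i => p (e.symm i)) (s' j) = l - (fun i => p (e.symm i)) j := by
    intro j
    simp [hs'def, hs]
  have hn := nondeg (h.cuspData l e) hs' (k := k) (fun j => hty _ (e.symm j).2)
  obtain ⟨y, hy⟩ := glo2_strip hn
  refine ⟨y, fun v hv => ?_⟩
  have hy' := hy (I * (y : ℂ)) (by simp) (by simp) (by simp)
  rw [h.z37_block l e] at hy'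
  set M : Matrix ι ι ℂ := IsNilpotent.exp ((I * (y : ℂ)) • cm N) * Ψ 0 with hM
  set x : {i // wt i = l} → ℂ := fun j => if hj : k ≤ p j then v (Sum.inl ⟨j, hj⟩) else 0 with hx
  set t : {i // wt i = l} → ℂ := fun j => if hj : k ≤ p j then
    (starRingEnd ℂ) (v (Sum.inr ⟨j, hj⟩)) else 0 with ht
  have hxs : ∀ i : {i // wt i = l}, (∑ j : {i // wt i = l}, M i j * x j) =
      ∑ j : {j : {i // wt i = l} // k ≤ p j}, M i j * v (Sum.inl j) := by
    intro i
    rw [← Fintype.sum_subtype_add_sum_subtype (fun j : {i // wt i = l} => k ≤ p j)]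
    have e1 : ∑ j : {j : {i // wt i = l} // ¬ k ≤ p j}, M i j * x j = 0 := by
      refine Finset.sum_eq_zero fun j _ => ?_
      rw [hx]
      simp only
      rw [dif_neg j.2, mul_zero]
    rw [e1, add_zero]
    refine Finset.sum_congr rfl fun j _ => ?_
    rw [hx]
    simp only
    rw [dif_pos j.2]
  have hts : ∀ i : {i // wt i = l}, (starRingEnd ℂ) (∑ j : {i // wt i = l}, M i j * t j) =
      ∑ j : {j : {i // wt i = l} // k ≤ p j}, (starRingEnd ℂ) (M i j) * v (Sum.inr j) := by
    intro i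
    rw [← Fintype.sum_subtype_add_sum_subtype (fun j : {i // wt i = l} => k ≤ p j)]
    have e1 : ∑ j : {j : {i // wt i = l} // ¬ k ≤ p j}, M i j * t j = 0 := by
      refine Finset.sum_eq_zero fun j _ => ?_
      rw [ht]
      simp only
      rw [dif_neg j.2, mul_zero]
    rw [e1, add_zero, map_sum]
    refine Finset.sum_congr rfl fun j _ => ?_
    rw [ht]
    simp only
    rw [dif_pos j.2, map_mul, Complex.conj_conj]
  obtain ⟨h1, h2⟩ := hy' (fun i => x (e.symm i)) (fun i => t (e.symm i))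
    (fun j hj => by
      rw [hx]
      simp only
      rw [dif_neg (not_le.mpr hj)])
    (fun j hj => by
      rw [ht]
      simp only
      rw [dif_neg (not_le.mpr hj)])
    (by
      rw [gen1_mulVec, gen1_mulVec]
      funext i
      have h3 := congrFun hv (e.symm i)
      rw [Matrix.mulVec, dotProduct, Fintype.sum_sum_type, Pi.zero_apply] at h3
      rw [Pi.add_apply, Pi.zero_apply, ← h3]
      refine congrArg₂ (· + ·) ?_ ?_
      · exact hxs (e.symm i)
      · exact hts (e.symm i))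
  funext c
  rcases c with c | c
  · have h3 := congrFun h1 (e c)
    rw [hx] at h3
    simp only [Equiv.symm_apply_apply, Pi.zero_apply] at h3
    rw [dif_pos c.2] at h3
    exact h3
  · have h3 := congrFun h2 (e c)
    rw [ht] at h3
    simp only [Equiv.symm_apply_apply, Pi.zero_apply] at h3
    rw [dif_pos c.2] at h3
    rw [Pi.zero_apply]
    exact (map_eq_zero (starRingEnd ℂ)).1 h3

end Pool.Agent.LibZE25
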