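import Pool.Agent.LibZE25.ADefs

/-!
# Taylor series
-/

open PowerSeries Filter Topology

namespace Pool.Agent.LibZE25

variable {f g : ℂ → ℂ}

theorem tay_add (hf : AnalyticAt ℂ f 0) (hg : AnalyticAt ℂ g 0) :
    tay (fun z => f z + g z) = tay f + tay g := by
  ext n
  simp only [tay, coeff_mk, map_add]
  have h := iteratedDeriv_add (𝕜 := ℂ) (n := n) (x := 0) hf.contDiffAt hg.contDiffAt
  have h2 : iteratedDeriv n (fun z => f z + g z) 0 = iteratedDeriv n (f + g) 0 := rfl
  rw [h2, h, add_div]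

theorem tay_mul (hf : AnalyticAt ℂ f 0) (hg : AnalyticAt ℂ g 0) :
    tay (fun z => f z * g z) = tay f * tay g := by
  ext n
  have h := iteratedDeriv_mul (𝕜 := ℂ) (n := n) (x := 0) hf.contDiffAt hg.contDiffAt
  have h2 : iteratedDeriv n (fun z => f z * g z) 0 = iteratedDeriv n (f * g) 0 := rfl
  rw [coeff_mul]
  simp only [tay, coeff_mk]
  rw [h2, h, Finset.sum_div, Finset.Nat.sum_antidiagonal_eq_sum_range_succ_mk]
  apply Finset.sum_congr rfl
  intro i hi
  have hin : i ≤ n := Nat.lt_succ_iff.mp (Finset.mem_range.mp hi)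
  have hc : ((n.choose i : ℕ) : ℂ) * (i.factorial : ℂ) * ((n - i).factorial : ℂ) = (n.factorial : ℂ) := by
    exact_mod_cast Nat.choose_mul_factorial_mul_factorial hin
  have h1 : (i.factorial : ℂ) ≠ 0 := by exact_mod_cast Nat.factorial_ne_zero i
  have h3 : ((n - i).factorial : ℂ) ≠ 0 := by exact_mod_cast Nat.factorial_ne_zero (n - i)
  have h4 : ((n.choose i : ℕ) : ℂ) ≠ 0 := by exact_mod_cast (Nat.choose_pos hin).ne'
  rw [← hc]
  field_simp

theorem tay_const (c : ℂ) : tay (fun _ => c) = C c := by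
  ext n
  simp only [tay, coeff_mk, coeff_C]
  rw [iteratedDeriv_const]
  by_cases h : n = 0
  · subst h; simp
  · simp [h]

theorem tay_deriv (hf : AnalyticAt ℂ f 0) :
    tay (fun z => z * deriv f z) = X * derivative ℂ (tay f) := by
  have hid : tay (fun z : ℂ => z) = X := by
    ext n
    simp only [tay, coeff_mk, coeff_X]
    have := iteratedDeriv_id (𝕜 := ℂ) (n := n) (x := 0)
    have h2 : iteratedDeriv n (fun z : ℂ => z) 0 = iteratedDeriv n id 0 := rfl
    rw [h2, this]
    rcases n with _ | _ | n <;> simp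
  have hid' : AnalyticAt ℂ (fun z : ℂ => z) 0 := analyticAt_id
  rw [tay_mul hid' hf.deriv, hid]
  congr 1
  ext n
  rw [coeff_derivative]
  simp only [tay, coeff_mk]
  rw [← iteratedDeriv_succ', Nat.factorial_succ]
  have h4 : (n.factorial : ℂ) ≠ 0 := by exact_mod_cast Nat.factorial_ne_zero n
  have h5 : ((n : ℂ) + 1) ≠ 0 := by exact_mod_cast Nat.succ_ne_zero n
  push_cast
  field_simp

theorem tay_congr (h : f =ᶠ[𝓝 0] g) : tay f = tay g := by
  ext n
  simp only [tay, coeff_mk]
  rw [h.iteratedDeriv_eq n]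

theorem tay_eq_zero (hf : AnalyticAt ℂ f 0) : tay f = 0 ↔ ∀ᶠ z in 𝓝 0, f z = 0 := by
  constructor
  · intro h
    have hp := hf.hasFPowerSeriesAt
    have h0 : (FormalMultilinearSeries.ofScalars ℂ
        (fun n ↦ iteratedDeriv n f 0 / (n.factorial : ℂ)) : FormalMultilinearSeries ℂ ℂ ℂ) = 0 := by
      have hc : (fun n ↦ iteratedDeriv n f 0 / (n.factorial : ℂ)) = fun _ => 0 := by
        funext n
        have := congrArg (coeff n) h
        simpa [tay] using this
      rw [hc]
      ext n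
      simp [FormalMultilinearSeries.ofScalars]
    rw [h0] at hp
    exact hp.eventually_eq_zero
  · intro h
    have h1 : f =ᶠ[𝓝 0] (fun _ => (0 : ℂ)) := h
    rw [tay_congr h1, tay_const, map_zero]

theorem tay_coeff_zero : constantCoeff (tay f) = f 0 := by
  rw [← coeff_zero_eq_constantCoeff_apply]
  simp [tay]

end Pool.Agent.LibZE25
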