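import Pool.Agent.LibZE25.ALoc
import Pool.Agent.LibZE25.Z17
import Pool.Agent.LibZE25.Z20
import Pool.Agent.LibZE25.Z21

/-!
# A minor with nonzero constant coefficient
-/

open Matrix Complex PowerSeries
open scoped ComplexConjugate

namespace Pool.Agent.LibZE25

open MW38 SP38

variable {ι : Type} [Fintype ι] [DecidableEq ι] {wt p : ι → ℤ} {N : Matrix ι ι ℝ}
  {Ψ : ℂ → Matrix ι ι ℂ}

/-- the constant coefficient -/
noncomputable def Z38_c00 : RR →+* kk :=
  (PowerSeries.constantCoeff (R := kk)).comp (PowerSeries.constantCoeff (R := AA))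

theorem Z38_c00_eq (f : RR) :
    Z38_c00 f = PowerSeries.coeff 0 (PowerSeries.coeff 0 f) := by
  rw [PowerSeries.coeff_zero_eq_constantCoeff, PowerSeries.coeff_zero_eq_constantCoeff]
  rfl

theorem Z38_c00_alg (c : ℂ) : Z38_c00 (algebraMap ℂ RR c) = algebraMap ℂ kk c := by
  have h : algebraMap ℂ RR c = PowerSeries.C (PowerSeries.C (algebraMap ℂ kk c)) := by
    rw [PowerSeries.algebraMap_apply, PowerSeries.algebraMap_apply]
  rw [h]
  unfold Z38_c00
  rw [RingHom.comp_apply, PowerSeries.constantCoeff_C, PowerSeries.constantCoeff_C]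

theorem Z38_c00_YR : Z38_c00 YR = algebraMap (Polynomial ℂ) kk Polynomial.X := by
  unfold Z38_c00 YR
  rw [RingHom.comp_apply, PowerSeries.constantCoeff_C, PowerSeries.constantCoeff_C]

theorem Z38_c00_jz (f : PowerSeries ℂ) :
    Z38_c00 (jz f) = algebraMap ℂ kk (PowerSeries.constantCoeff f) := by
  unfold Z38_c00 jz
  rw [RingHom.comp_apply, RingHom.comp_apply, PowerSeries.constantCoeff_C,
    ← PowerSeries.coeff_zero_eq_constantCoeff, ← PowerSeries.coeff_zero_eq_constantCoeff,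
    PowerSeries.coeff_map]

theorem Z38_c00_jw (f : PowerSeries ℂ) :
    Z38_c00 (jw f) = algebraMap ℂ kk (PowerSeries.constantCoeff f) := by
  unfold Z38_c00 jw
  rw [RingHom.comp_apply, ← PowerSeries.coeff_zero_eq_constantCoeff (R := AA),
    PowerSeries.coeff_map, RingHom.comp_apply, PowerSeries.constantCoeff_C,
    PowerSeries.coeff_zero_eq_constantCoeff]

theorem Z38_half {B B' : Type} [CommRing B] [Algebra ℂ B] [CommRing B'] [Algebra ℂ B']
    (φ : B →+* B') (hφ : ∀ c : ℂ, φ (algebraMap ℂ B c) = algebraMap ℂ B' c) (c : ℂ) (x : B) :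
    φ (c • x) = c • φ x := by
  rw [Algebra.smul_def, map_mul, hφ, ← Algebra.smul_def]

/-- conjugate of the exponential -/
theorem Z38_conj (d : ℕ) (n : Matrix ι ι ℂ) (x : ℂ) :
    (expn d n x).map (starRingEnd ℂ) =
      expn d (n.map (starRingEnd ℂ)) (starRingEnd ℂ x) := by
  have hp : ∀ r : ℕ, (n ^ r).map (starRingEnd ℂ) = (n.map (starRingEnd ℂ)) ^ r := fun r =>
    map_pow (RingHom.mapMatrix (m := ι) (starRingEnd ℂ)) n r
  unfold expn
  have h1 := map_sum (RingHom.mapMatrix (m := ι) (starRingEnd ℂ))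
    (fun r => x ^ r • (((r.factorial : ℂ)⁻¹ • n ^ r).map (algebraMap ℂ ℂ))) (Finset.range d)
  rw [RingHom.mapMatrix_apply] at h1
  rw [h1]
  refine Finset.sum_congr rfl fun r _ => ?_
  rw [← hp]
  ext i j
  simp

/-- the polynomial matrix -/
noncomputable def Z38_P (d : ℕ) (n : Matrix ι ι ℂ) (A : Matrix ι ι ℂ) :
    Matrix ι ι (Polynomial ℂ) :=
  expn d n ((1 / 2 : ℂ) • (Polynomial.X : Polynomial ℂ)) * A.map (algebraMap ℂ (Polynomial ℂ))

theorem Z38_map {B : Type} [CommRing B] [Algebra ℂ B] (φ : Polynomial ℂ →+* B)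
    (hφ : ∀ c : ℂ, φ (algebraMap ℂ (Polynomial ℂ) c) = algebraMap ℂ B c) (d : ℕ)
    (n A : Matrix ι ι ℂ) :
    (Z38_P d n A).map φ =
      expn d n ((1 / 2 : ℂ) • φ Polynomial.X) * A.map (algebraMap ℂ B) := by
  unfold Z38_P
  rw [Matrix.map_mul, expn_map φ hφ, Z38_half φ hφ]
  congr 1
  ext i j
  simp only [Matrix.map_apply]
  exact hφ _

theorem Z38_rz (d : ℕ) (n : Matrix ι ι ℂ) (Ψ : ℂ → Matrix ι ι ℂ) :
    (rz d n (tA Ψ)).map Z38_c00 =
      (Z38_P d n (Ψ 0)).map (algebraMap (Polynomial ℂ) kk) := by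
  rw [Z38_map (algebraMap (Polynomial ℂ) kk)
    (fun c => (IsScalarTower.algebraMap_apply ℂ (Polynomial ℂ) kk c).symm)]
  unfold rz
  rw [Matrix.map_mul, expn_map Z38_c00 Z38_c00_alg, Z38_half Z38_c00 Z38_c00_alg, Z38_c00_YR]
  congr 1
  ext i j
  simp only [Matrix.map_apply]
  rw [Z38_c00_jz]
  congr 1
  exact tay_coeff_zero

theorem Z38_rw (d : ℕ) (n : Matrix ι ι ℂ) (Ψ : ℂ → Matrix ι ι ℂ) :
    (rw' d n (tA Ψ)).map Z38_c00 =
      (Z38_P d (-n) ((Ψ 0).map (starRingEnd ℂ))).map (algebraMap (Polynomial ℂ) kk) := by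
  rw [Z38_map (algebraMap (Polynomial ℂ) kk)
    (fun c => (IsScalarTower.algebraMap_apply ℂ (Polynomial ℂ) kk c).symm)]
  unfold rw'
  rw [Matrix.map_mul, expn_map Z38_c00 Z38_c00_alg, Z38_half Z38_c00 Z38_c00_alg, Z38_c00_YR]
  congr 1
  ext i j
  simp only [Matrix.map_apply]
  rw [Z38_c00_jw, ← PowerSeries.coeff_zero_eq_constantCoeff, PowerSeries.coeff_map,
    PowerSeries.coeff_zero_eq_constantCoeff]
  congr 2
  exact tay_coeff_zero

theorem Z38_cat {B B' : Type} (f : B → B') (l k : ℤ) (M M' : Matrix ι ι B) :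
    (cat (fun i : {i // wt i = l} => p i) k (bk wt l M) (bk wt l M')).map f =
      cat (fun i : {i // wt i = l} => p i) k (bk wt l (M.map f)) (bk wt l (M'.map f)) := by
  ext i c
  rcases c with c | c <;> rfl

theorem exists_minor_coeff {d : ℕ} (hd : N ^ d = 0) {l k : ℤ} {y : ℝ}
    (hker : ∀ v : {j : {i // wt i = l} // k ≤ p j} ⊕ {j : {i // wt i = l} // k ≤ p j} → ℂ,
      (cat (fun i : {i // wt i = l} => p i) k
        (bk wt l (IsNilpotent.exp ((I * (y : ℂ)) • cm N) * Ψ 0))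
        ((bk wt l (IsNilpotent.exp ((I * (y : ℂ)) • cm N) * Ψ 0)).map (starRingEnd ℂ))).mulVec v =
        0 → v = 0) :
    ∃ e : {j : {i // wt i = l} // k ≤ p j} ⊕ {j : {i // wt i = l} // k ≤ p j} → {i // wt i = l},
      PowerSeries.coeff 0 (PowerSeries.coeff 0 ((cat (fun i : {i // wt i = l} => p i) k
        (bk wt l (rz d (nn N) (tA Ψ))) (bk wt l (rw' d (nn N) (tA Ψ)))).submatrix e id).det) ≠ 0 := by
  obtain ⟨e, he⟩ := exists_minor _ hker
  refine ⟨e, ?_⟩
  have hnd : (nn N) ^ d = 0 := by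
    unfold nn
    rw [smul_pow, ← SP38.cus1_cm_pow, hd]
    ext i j
    simp [cm]
  have hncj : (nn N).map (starRingEnd ℂ) = -nn N := by
    ext i j
    unfold nn
    simp only [Matrix.map_apply, Matrix.smul_apply, cm, smul_eq_mul, map_mul, Matrix.neg_apply,
      map_inv₀, Complex.conj_ofReal, Complex.conj_I, map_ofNat]
    ring
  set Y₀ : ℂ := ((-4 * Real.pi * y : ℝ) : ℂ) with hY₀
  have hπ : (2 * Real.pi * I : ℂ) ≠ 0 := by
    simp [Real.pi_ne_zero, Complex.I_ne_zero]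
  have hsc : ((1 / 2 : ℂ) • Y₀) • nn N = (I * (y : ℂ)) • cm N := by
    unfold nn
    rw [smul_smul, hY₀]
    congr 1
    rw [smul_eq_mul, mul_inv_eq_iff_eq_mul₀ hπ]
    push_cast
    linear_combination (-2 * (Real.pi : ℂ) * (y : ℂ)) * Complex.I_sq
  -- evaluation at `Y₀`
  have hev : ∀ c : ℂ, (Polynomial.evalRingHom Y₀) (algebraMap ℂ (Polynomial ℂ) c) =
      algebraMap ℂ ℂ c := by
    intro c
    simp
  have hE1 : (Z38_P d (nn N) (Ψ 0)).map (Polynomial.evalRingHom Y₀) =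
      IsNilpotent.exp ((I * (y : ℂ)) • cm N) * Ψ 0 := by
    rw [Z38_map (Polynomial.evalRingHom Y₀) hev]
    rw [Polynomial.coe_evalRingHom, Polynomial.eval_X, expn_eq_exp hnd, hsc]
    congr 1
  have hE2 : (Z38_P d (-nn N) ((Ψ 0).map (starRingEnd ℂ))).map (Polynomial.evalRingHom Y₀) =
      (IsNilpotent.exp ((I * (y : ℂ)) • cm N) * Ψ 0).map (starRingEnd ℂ) := by
    rw [Z38_map (Polynomial.evalRingHom Y₀) hev]
    rw [Polynomial.coe_evalRingHom, Polynomial.eval_X, Matrix.map_mul, ← hsc, ← expn_eq_exp hnd,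
      Z38_conj, hncj]
    have h1 : (starRingEnd ℂ) ((1 / 2 : ℂ) • Y₀) = (1 / 2 : ℂ) • Y₀ := by
      have h2 : (1 / 2 : ℂ) • Y₀ = (((1 / 2) * (-4 * Real.pi * y) : ℝ) : ℂ) := by
        rw [hY₀, smul_eq_mul]
        push_cast
        ring
      rw [h2, Complex.conj_ofReal]
    rw [h1]
    congr 1
  set D : Polynomial ℂ := ((cat (fun i : {i // wt i = l} => p i) k
    (bk wt l (Z38_P d (nn N) (Ψ 0)))
    (bk wt l (Z38_P d (-nn N) ((Ψ 0).map (starRingEnd ℂ))))).submatrix e id).det with hD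
  have hD1 : (Polynomial.evalRingHom Y₀) D ≠ 0 := by
    rw [hD, RingHom.map_det, RingHom.mapMatrix_apply, ← Matrix.submatrix_map, Z38_cat, hE1, hE2]
    exact he
  have hD0 : D ≠ 0 := fun h => hD1 (by rw [h, map_zero])
  have hD2 : algebraMap (Polynomial ℂ) kk D ≠ 0 := by
    intro h
    exact hD0 (IsFractionRing.injective (Polynomial ℂ) kk (by rw [h, map_zero]))
  have hD3 : algebraMap (Polynomial ℂ) kk D = Z38_c00 ((cat (fun i : {i // wt i = l} => p i) k
        (bk wt l (rz d (nn N) (tA Ψ))) (bk wt l (rw' d (nn N) (tA Ψ)))).submatrix e id).det := by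
    rw [hD, RingHom.map_det, RingHom.mapMatrix_apply, ← Matrix.submatrix_map, Z38_cat,
      RingHom.map_det, RingHom.mapMatrix_apply, ← Matrix.submatrix_map, Z38_cat, Z38_rz, Z38_rw]
  rw [← Z38_c00_eq, ← hD3]
  exact hD2

end Pool.Agent.LibZE25
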