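import Pool.Agent.LibZE25.Z17

/-!
# Taylor series of determinants and adjugates
-/

open PowerSeries Filter Topology

namespace Pool.Agent.LibZE25

theorem Z18_sum {ι : Type*} (s : Finset ι) {f : ι → ℂ → ℂ} (hf : ∀ i ∈ s, AnalyticAt ℂ (f i) 0) :
    AnalyticAt ℂ (fun z => ∑ i ∈ s, f i z) 0 ∧
    tay (fun z => ∑ i ∈ s, f i z) = ∑ i ∈ s, tay (f i) := by
  classical
  induction s using Finset.induction_on with
  | empty =>
    constructor
    · simpa using (analyticAt_const : AnalyticAt ℂ (fun _ : ℂ => (0 : ℂ)) 0)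
    · simp only [Finset.sum_empty]
      rw [tay_const, map_zero]
  | insert a s ha ih =>
    obtain ⟨h1, h2⟩ := ih fun i hi => hf i (Finset.mem_insert_of_mem hi)
    have h3 := hf a (Finset.mem_insert_self a s)
    have e : (fun z => ∑ i ∈ insert a s, f i z) = fun z => f a z + ∑ i ∈ s, f i z := by
      funext z; rw [Finset.sum_insert ha]
    rw [e, Finset.sum_insert ha]
    exact ⟨h3.fun_add h1, by rw [tay_add h3 h1, h2]⟩

theorem Z18_prod {ι : Type*} (s : Finset ι) {f : ι → ℂ → ℂ} (hf : ∀ i ∈ s, AnalyticAt ℂ (f i) 0) :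
    AnalyticAt ℂ (fun z => ∏ i ∈ s, f i z) 0 ∧
    tay (fun z => ∏ i ∈ s, f i z) = ∏ i ∈ s, tay (f i) := by
  classical
  induction s using Finset.induction_on with
  | empty =>
    constructor
    · simpa using (analyticAt_const : AnalyticAt ℂ (fun _ : ℂ => (1 : ℂ)) 0)
    · simp only [Finset.prod_empty]
      rw [tay_const, map_one]
  | insert a s ha ih =>
    obtain ⟨h1, h2⟩ := ih fun i hi => hf i (Finset.mem_insert_of_mem hi)
    have h3 := hf a (Finset.mem_insert_self a s)
    have e : (fun z => ∏ i ∈ insert a s, f i z) = fun z => f a z * ∏ i ∈ s, f i z := by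
      funext z; rw [Finset.prod_insert ha]
    rw [e, Finset.prod_insert ha]
    exact ⟨h3.fun_mul h1, by rw [tay_mul h3 h1, h2]⟩

/-- the Taylor series of a determinant -/
theorem tay_det {α : Type} [Fintype α] [DecidableEq α] {A : ℂ → Matrix α α ℂ}
    (hA : ∀ i j, AnalyticAt ℂ (fun z => A z i j) 0) :
    AnalyticAt ℂ (fun z => (A z).det) 0 ∧
    tay (fun z => (A z).det) = (Matrix.of fun i j => tay fun z => A z i j).det := by
  have key : ∀ σ : Equiv.Perm α,
      AnalyticAt ℂ (fun z => ((Equiv.Perm.sign σ : ℤ) : ℂ) * ∏ i, A z (σ i) i) 0 ∧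
      tay (fun z => ((Equiv.Perm.sign σ : ℤ) : ℂ) * ∏ i, A z (σ i) i) =
        ((Equiv.Perm.sign σ : ℤ) : PowerSeries ℂ) *
          ∏ i, tay fun z => A z (σ i) i := by
    intro σ
    obtain ⟨h1, h2⟩ := Z18_prod Finset.univ (f := fun i z => A z (σ i) i)
      fun i _ => hA (σ i) i
    have hc : AnalyticAt ℂ (fun _ : ℂ => ((Equiv.Perm.sign σ : ℤ) : ℂ)) 0 := analyticAt_const
    refine ⟨hc.fun_mul h1, ?_⟩
    rw [tay_mul hc h1, h2, tay_const]
    simp
  obtain ⟨h1, h2⟩ := Z18_sum Finset.univ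
    (f := fun (σ : Equiv.Perm α) z => ((Equiv.Perm.sign σ : ℤ) : ℂ) * ∏ i, A z (σ i) i)
    fun σ _ => (key σ).1
  have e : (fun z => (A z).det) =
      fun z => ∑ σ : Equiv.Perm α, ((Equiv.Perm.sign σ : ℤ) : ℂ) * ∏ i, A z (σ i) i := by
    funext z
    rw [Matrix.det_apply']
  rw [e]
  refine ⟨h1, ?_⟩
  rw [h2, Matrix.det_apply']
  exact Finset.sum_congr rfl fun σ _ => by rw [(key σ).2]; rfl

/-- the Taylor series of the adjugate -/
theorem tay_adjugate {α : Type} [Fintype α] [DecidableEq α] {A : ℂ → Matrix α α ℂ}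
    (hA : ∀ i j, AnalyticAt ℂ (fun z => A z i j) 0) (i j : α) :
    AnalyticAt ℂ (fun z => (A z).adjugate i j) 0 ∧
    tay (fun z => (A z).adjugate i j) =
      (Matrix.of fun i j => tay fun z => A z i j).adjugate i j := by
  have hB : ∀ k l, AnalyticAt ℂ (fun z => ((A z).updateRow j (Pi.single i 1)) k l) 0 := by
    intro k l
    by_cases hk : k = j
    · subst hk
      simp only [Matrix.updateRow_self]
      exact analyticAt_const
    · simp only [Matrix.updateRow_ne hk]
      exact hA k l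
  obtain ⟨h1, h2⟩ := tay_det (A := fun z => (A z).updateRow j (Pi.single i 1)) hB
  have e : (fun z => (A z).adjugate i j) =
      fun z => ((A z).updateRow j (Pi.single i 1)).det := by
    funext z
    rw [Matrix.adjugate_apply]
  rw [e]
  refine ⟨h1, ?_⟩
  rw [h2, Matrix.adjugate_apply]
  congr 1
  ext1 k l
  rw [Matrix.of_apply]
  by_cases hk : k = j
  · subst hk
    simp only [Matrix.updateRow_self]
    rw [tay_const]
    by_cases hl : l = i
    · subst hl; simp
    · simp [Pi.single_apply, hl]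
  · simp only [Matrix.updateRow_ne hk, Matrix.of_apply]

end Pool.Agent.LibZE25
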