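import Pool.Agent.LibZE25.ALoc
import Pool.Agent.LibZE25.Z18

/-!
# From the formal statement back to the variation
-/

open Matrix Complex Filter Topology

namespace Pool.Agent.LibZE25

open MW38 SP38

variable {ι : Type} [Fintype ι] [DecidableEq ι] {wt p : ι → ℤ} {Q N : Matrix ι ι ℝ}
  {Ψ : ℂ → Matrix ι ι ℂ} {ε : ℝ}

theorem Z39_tay_sum {α : Type} (s : Finset α) (F : α → ℂ → ℂ)
    (h : ∀ a ∈ s, AnalyticAt ℂ (F a) 0) :
    AnalyticAt ℂ (fun z => ∑ a ∈ s, F a z) 0 ∧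
      tay (fun z => ∑ a ∈ s, F a z) = ∑ a ∈ s, tay (F a) := by
  classical
  induction s using Finset.induction_on with
  | empty =>
    refine ⟨by simpa using analyticAt_const, ?_⟩
    have h0 : (fun z : ℂ => ∑ a ∈ (∅ : Finset α), F a z) = fun _ => 0 := by
      funext z
      rw [Finset.sum_empty]
    rw [h0, tay_const, map_zero, Finset.sum_empty]
  | insert a s ha ih =>
    obtain ⟨h1, h2⟩ := ih fun b hb => h b (Finset.mem_insert_of_mem hb)
    have h3 := h a (Finset.mem_insert_self a s)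
    have h0 : (fun z : ℂ => ∑ b ∈ insert a s, F b z) = fun z => F a z + ∑ b ∈ s, F b z := by
      funext z
      rw [Finset.sum_insert ha]
    rw [h0]
    refine ⟨h3.add h1, ?_⟩
    rw [tay_add h3 h1, h2, Finset.sum_insert ha]

theorem Z39_nn (N : Matrix ι ι ℝ) (r : ℕ) : cm N ^ r = (2 * Real.pi * I : ℂ) ^ r • nn N ^ r := by
  unfold nn
  rw [smul_pow, smul_smul, ← mul_pow, mul_inv_cancel₀ Complex.two_pi_I_ne_zero, one_pow, one_smul]

theorem Loc.of_formal (h : Loc wt p Q N Ψ ε) {u : ι → ℂ} {a : ℤ}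
    (hu : ∀ (r : ℕ) (i : ι), p i < a →
      ((tA Ψ).adjugate.mulVec fun b => PowerSeries.C (((nn N) ^ r).mulVec u b)) i = 0) :
    ∃ c : ℝ, ∀ ζ : ℂ, c < ζ.im → u ∈ Fl p (GZ N Ψ ζ) a := by
  have hA : ∀ i j, AnalyticAt ℂ (fun z => Ψ z i j) 0 := fun i j =>
    (h.hol i j).analyticAt (Metric.ball_mem_nhds 0 h.eps)
  obtain ⟨d, hd⟩ := cus1_cm_nil h.nil
  have key : ∀ (r : ℕ) (i : ι), p i < a →
      ∀ᶠ z in 𝓝 (0 : ℂ), ((Ψ z).adjugate *ᵥ (nn N ^ r *ᵥ u)) i = 0 := by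
    intro r i hi
    have h1 := Z39_tay_sum Finset.univ (fun b z => (Ψ z).adjugate i b * (nn N ^ r *ᵥ u) b)
      (fun b _ => (tay_adjugate hA i b).1.mul analyticAt_const)
    have h2 : tay (fun z => ∑ b, (Ψ z).adjugate i b * (nn N ^ r *ᵥ u) b) = 0 := by
      rw [h1.2, ← hu r i hi, Matrix.mulVec, dotProduct]
      refine Finset.sum_congr rfl fun b _ => ?_
      rw [tay_mul (tay_adjugate hA i b).1 analyticAt_const, tay_const, (tay_adjugate hA i b).2]
      rfl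
    exact (tay_eq_zero h1.1).mp h2
  have hall : ∀ᶠ z in 𝓝 (0 : ℂ), ∀ r ∈ Finset.range d, ∀ i, p i < a →
      ((Ψ z).adjugate *ᵥ (nn N ^ r *ᵥ u)) i = 0 := by
    rw [Filter.eventually_all_finset]
    intro r _
    rw [Filter.eventually_all]
    intro i
    by_cases hi : p i < a
    · filter_upwards [key r i hi] with z hz _ using hz
    · exact Filter.Eventually.of_forall fun z hz => absurd hz hi
  obtain ⟨ε', hε', hb⟩ := Metric.eventually_nhds_iff.mp hall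
  have hε₁ : 0 < min ε ε' := lt_min h.eps hε'
  refine ⟨-Real.log (min ε ε') / (2 * Real.pi), fun ζ hζ => ?_⟩
  have hq : ‖qq ζ‖ < min ε ε' := by
    rw [norm_qq, ← Real.lt_log_iff_exp_lt hε₁]
    rw [div_lt_iff₀ (by positivity)] at hζ
    linarith
  have hq1 : ‖qq ζ‖ < ε := hq.trans_le (min_le_left _ _)
  have hq2 : dist (qq ζ) 0 < ε' := by
    rw [dist_zero_right]
    exact hq.trans_le (min_le_right _ _)
  have hz := hb hq2
  rw [mem_Fl_iff (h.mhs ζ hq1).unit]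
  intro j hj
  have e1 : IsNilpotent.exp ((-ζ) • cm N) * IsNilpotent.exp (ζ • cm N) = 1 := by
    rw [← cus1_exp_add (cus1_cm_nil h.nil), neg_add_cancel, zero_smul, IsNilpotent.exp_zero]
  have e2 : (GZ N Ψ ζ)⁻¹ *ᵥ u = (Ψ (qq ζ))⁻¹ *ᵥ (IsNilpotent.exp ((-ζ) • cm N) *ᵥ u) := by
    rw [GZ, Matrix.mul_inv_rev, Matrix.inv_eq_left_inv e1, Matrix.mulVec_mulVec]
  have e3 : IsNilpotent.exp ((-ζ) • cm N) *ᵥ u = ∑ r ∈ Finset.range d,
      (((-ζ) ^ r / (r.factorial : ℂ)) * (2 * Real.pi * I : ℂ) ^ r) • (nn N ^ r *ᵥ u) := by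
    rw [cus1_exp_eq _ hd, Matrix.sum_mulVec]
    refine Finset.sum_congr rfl fun r _ => ?_
    rw [Z39_nn, smul_smul, Matrix.smul_mulVec]
  rw [e2, Matrix.inv_def, Matrix.smul_mulVec, Pi.smul_apply, e3, Matrix.mulVec_sum,
    Finset.sum_apply, Finset.sum_eq_zero, smul_zero]
  intro r hr
  rw [Matrix.mulVec_smul, Pi.smul_apply, hz r hr j hj, smul_zero]

end Pool.Agent.LibZE25
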