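import Pool.Agent.LibZE25.Core
import Pool.Agent.LibZE25.Z31
import Pool.Agent.LibZE25.Z32
import Pool.Agent.LibZE25.Z33
import Pool.Agent.LibZE25.Z37
import Pool.Agent.LibZE25.Z38
import Pool.Agent.LibZE25.Z39

/-!
# The local theorem: Hodge classes accumulating at a puncture
-/

open Matrix Complex Filter Topology
open scoped ComplexConjugate

namespace Pool.Agent.LibZE25

open MW38 SP38

variable {ι : Type} [Fintype ι] [DecidableEq ι] {wt p : ι → ℤ} {Q N : Matrix ι ι ℝ}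
  {Ψ : ℂ → Matrix ι ι ℂ} {ε : ℝ}

theorem Loc.analyticAt (h : Loc wt p Q N Ψ ε) (i j : ι) : AnalyticAt ℂ (fun q => Ψ q i j) 0 :=
  (h.hol i j).analyticAt (Metric.isOpen_ball.mem_nhds (Metric.mem_ball_self h.eps))

/-- Hodge classes accumulating at a puncture come from a section of `F^{1-m}` -/
theorem Loc.main (h : Loc wt p Q N Ψ ε) (hwt : ∀ i, wt i ≤ 0)
    (hs : ∃ s : Equiv.Perm ι, ∀ j, wt (s j) = wt j ∧ p (s j) = wt j - p j)
    {m : ℕ} (hm : Fintype.card {i // wt i = 0} ≤ m)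
    (hty : ∀ i, wt i < 0 → p i < -(m : ℤ) ∨ wt i - p i < -(m : ℤ))
    (hfr : ∃ᶠ ζ in strip, RC p (GZ N Ψ ζ) 0) :
    ∃ u : ι → ℝ, u ≠ 0 ∧ ∃ c : ℝ, ∀ ζ : ℂ, c < ζ.im → tC u ∈ Fl p (GZ N Ψ ζ) (1 - m) := by
  have hcg : (strip : Filter ℂ).IsCountablyGenerated := by
    unfold strip
    infer_instance
  obtain ⟨ζ, hζ, hRC⟩ := Filter.exists_seq_forall_of_frequently hfr
  have hq : Tendsto (fun n => qq (ζ n)) atTop (𝓝 0) := tendsto_qq.comp hζ
  have hq0 : ∀ n, qq (ζ n) ≠ 0 := fun n => Complex.exp_ne_zero _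
  obtain ⟨d, hd⟩ := h.nil
  obtain ⟨F, hF⟩ := exists_DF_seq hq hq0
  have h0 : ∀ e : {j // (0 : ℤ) ≤ p j} ⊕ {j // (0 : ℤ) ≤ p j} → ι,
      F.φ ((cat p 0 (rz d (nn N) (tA Ψ)) (rw' d (nn N) (tA Ψ))).submatrix e id).det = 0 := by
    intro e
    apply hF
    have h1 := Asym.det hq hq0
      (f := (cat p 0 (rz d (nn N) (tA Ψ)) (rw' d (nn N) (tA Ψ))).submatrix e id)
      (F := fun n => (cat p 0 (RZ N Ψ (ζ n)) ((RZ N Ψ (ζ n)).map (starRingEnd ℂ))).submatrix e id)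
      (by
        intro a b
        rcases b with b | b
        · exact (asym_rz hd h.analyticAt hq (e a) b).1
        · exact (asym_rz hd h.analyticAt hq (e a) b).2)
    have h2 : (fun n => ((cat p 0 (RZ N Ψ (ζ n))
        ((RZ N Ψ (ζ n)).map (starRingEnd ℂ))).submatrix e id).det) = fun _ => 0 := by
      funext n
      exact minor_zero ⟨d, hd⟩ (hRC n) e
    rw [h2] at h1
    exact h1
  have h1 : ∀ l < 0, ∃ e : {j : {i // wt i = l} // -(m : ℤ) ≤ p j} ⊕
        {j : {i // wt i = l} // -(m : ℤ) ≤ p j} → {i // wt i = l},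
      F.φ ((cat (fun i : {i // wt i = l} => p i) (-(m : ℤ)) (bk wt l (rz d (nn N) (tA Ψ)))
        (bk wt l (rw' d (nn N) (tA Ψ)))).submatrix e id).det ≠ 0 := by
    intro l hl
    obtain ⟨y, hy⟩ := h.nondeg_blk hs (l := l) (k := -(m : ℤ)) (fun i hi => by
      have := hty i (by omega)
      rw [hi] at this
      exact this)
    obtain ⟨e, he⟩ := exists_minor_coeff (p := p) hd hy
    exact ⟨e, F.φ_ne_zero he⟩
  obtain ⟨j, hj, u, hu0, hu⟩ := F.core (h.fdata hd) hwt m hm h0 h1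
  obtain ⟨c₁, hc₁⟩ := h.of_formal (u := u) (a := -(j : ℤ)) (fun r i hi => (hu r i hi).1)
  obtain ⟨c₂, hc₂⟩ := h.of_formal (u := fun b => conj (u b)) (a := -(j : ℤ))
    (fun r i hi => (hu r i hi).2)
  have hre : ∀ ζ : ℂ, max c₁ c₂ < ζ.im → tC (fun b => (u b).re) ∈ Fl p (GZ N Ψ ζ) (1 - m) := by
    intro ζ hζ
    have e1 : tC (fun b => (u b).re) = (1 / 2 : ℂ) • (u + fun b => conj (u b)) := by
      funext b
      simp only [tC, Pi.smul_apply, Pi.add_apply, smul_eq_mul, Complex.add_conj]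
      push_cast
      ring
    rw [e1]
    refine Submodule.smul_mem _ _ (Fl_anti (by omega) (Submodule.add_mem _
      (hc₁ ζ (lt_of_le_of_lt (le_max_left _ _) hζ)) (hc₂ ζ (lt_of_le_of_lt (le_max_right _ _) hζ))))
  have him : ∀ ζ : ℂ, max c₁ c₂ < ζ.im → tC (fun b => (u b).im) ∈ Fl p (GZ N Ψ ζ) (1 - m) := by
    intro ζ hζ
    have e1 : tC (fun b => (u b).im) = (1 / (2 * I) : ℂ) • (u - fun b => conj (u b)) := by
      funext b
      simp only [tC, Pi.smul_apply, Pi.sub_apply, smul_eq_mul, Complex.sub_conj]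
      push_cast
      field_simp [Complex.I_ne_zero]
    rw [e1]
    refine Submodule.smul_mem _ _ (Fl_anti (by omega) (Submodule.sub_mem _
      (hc₁ ζ (lt_of_le_of_lt (le_max_left _ _) hζ)) (hc₂ ζ (lt_of_le_of_lt (le_max_right _ _) hζ))))
  by_cases hr : (fun b => (u b).re) = 0
  · refine ⟨fun b => (u b).im, fun hi => hu0 ?_, _, him⟩
    funext b
    exact Complex.ext (congrFun hr b) (congrFun hi b)
  · exact ⟨fun b => (u b).re, hr, _, hre⟩

end Pool.Agent.LibZE25
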