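import Pool.Agent.LibZE25.Y18
import Pool.Agent.LibZE25.Z33

/-!
# [ZE Y19] Several real Hodge classes make the smaller minors vanish

PLAN (35-50 min; cite Y18 `minors_of_ker`, Z33 `Z33_GZ`, `Z33_real`, `Z33_sub`, `Z33_tC`; the proof of `minor_zero` in Z33 is the case of one vector). By `minors_of_ker` (card of the sum type is
`2 * card`) it is enough that the kernel of `(cat p 0 RZ (RZ.map conj)).mulVecLin` has dimension `≥ s`. As in Z33: `T = exp (x • N)` real invertible, `tC (v b) = GZ *ᵥ c_b` with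
`c_b j = 0` for `p j < 0`, so `tC (T⁻¹ *ᵥ v b) = RZ *ᵥ c_b` and its conjugate `= (RZ.map conj) *ᵥ conj c_b`; the vector `k_b := Sum.elim c_b (- conj c_b)` is in the kernel. The `k_b` are linearly
independent over `ℂ`: `Σ λ_b k_b = 0` gives `Σ λ_b c_b = 0`, `Σ λ_b tC (v b) = 0`, real and imaginary parts: `Σ (re λ_b) v b = 0`, `Σ (im λ_b) v b = 0`, so `λ = 0` by `hv`
(`Fintype.linearIndependent_iff`). `LinearIndependent.fintype_card_le_finrank` in the kernel.
-/

open Matrix Complex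

namespace Pool.Agent.LibZE25

open MW38 SP38

variable {ι : Type} [Fintype ι] [DecidableEq ι] {p : ι → ℤ} {N : Matrix ι ι ℝ}
  {Ψ : ℂ → Matrix ι ι ℂ}

theorem minor_zero_rank (hN : IsNilpotent N) {ζ : ℂ} {s : ℕ} (v : Fin s → ι → ℝ)
    (hv : LinearIndependent ℝ v) (hmem : ∀ b, tC (v b) ∈ Fl p (GZ N Ψ ζ) 0) (k : ℕ)
    (hk : 2 * Fintype.card {j // (0 : ℤ) ≤ p j} < s + k) (e : Fin k → ι)
    (c : Fin k → {j // (0 : ℤ) ≤ p j} ⊕ {j // (0 : ℤ) ≤ p j}) :
    ((cat p 0 (RZ N Ψ ζ) ((RZ N Ψ ζ).map (starRingEnd ℂ))).submatrix e c).det = 0 := by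
  classical
  have hT := (Z33_real hN ζ.re).2
  obtain ⟨T, hTd⟩ : ∃ T, T = IsNilpotent.exp (ζ.re • N) := ⟨_, rfl⟩
  rw [← hTd] at hT
  have hdet : IsUnit T.det := (Matrix.isUnit_iff_isUnit_det T).mp hT
  have h2 : cm T⁻¹ * cm T = 1 := by
    have h3 := map_mul (Complex.ofRealHom.mapMatrix (m := ι)) T⁻¹ T
    rw [Matrix.nonsing_inv_mul T hdet, map_one] at h3
    exact h3.symm
  choose cc hcc hvc using fun b => (mem_Fl_iff_exists _).mp (hmem b)
  have h1 : ∀ b, tC (T⁻¹ *ᵥ v b) = RZ N Ψ ζ *ᵥ cc b := by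
    intro b
    rw [Z33_tC, hvc, Z33_GZ hN, Matrix.mulVec_mulVec, ← Matrix.mul_assoc, ← hTd, h2,
      Matrix.one_mul]
  obtain ⟨kb, hkb⟩ : ∃ kb : Fin s → ({j // (0 : ℤ) ≤ p j} ⊕ {j // (0 : ℤ) ≤ p j} → ℂ),
      kb = fun b => Sum.elim (fun j : {j // (0 : ℤ) ≤ p j} => cc b j)
        (fun j : {j // (0 : ℤ) ≤ p j} => -(starRingEnd ℂ) (cc b j)) := ⟨_, rfl⟩
  have hker : ∀ b, (cat p 0 (RZ N Ψ ζ) ((RZ N Ψ ζ).map (starRingEnd ℂ))).mulVec (kb b) = 0 := by
    intro b
    rw [hkb]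
    funext i
    rw [Matrix.mulVec, dotProduct, Fintype.sum_sum_type]
    have e1 : ∑ j : {j // (0 : ℤ) ≤ p j}, cat p 0 (RZ N Ψ ζ) ((RZ N Ψ ζ).map (starRingEnd ℂ)) i
        (Sum.inl j) * Sum.elim (fun j : {j // (0 : ℤ) ≤ p j} => cc b j)
          (fun j : {j // (0 : ℤ) ≤ p j} => -(starRingEnd ℂ) (cc b j)) (Sum.inl j) =
        ∑ j : {j // (0 : ℤ) ≤ p j}, RZ N Ψ ζ i j * cc b j := rfl
    have e2 : ∑ j : {j // (0 : ℤ) ≤ p j}, cat p 0 (RZ N Ψ ζ) ((RZ N Ψ ζ).map (starRingEnd ℂ)) i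
        (Sum.inr j) * Sum.elim (fun j : {j // (0 : ℤ) ≤ p j} => cc b j)
          (fun j : {j // (0 : ℤ) ≤ p j} => -(starRingEnd ℂ) (cc b j)) (Sum.inr j) =
        ∑ j : {j // (0 : ℤ) ≤ p j}, -(starRingEnd ℂ) (RZ N Ψ ζ i j * cc b j) := by
      refine Finset.sum_congr rfl fun j _ => ?_
      rw [map_mul, ← mul_neg]
      rfl
    rw [e1, e2]
    rw [Z33_sub (fun j => RZ N Ψ ζ i j * cc b j) (fun j hj => by rw [hcc b j hj, mul_zero])]
    rw [Z33_sub (fun j => -(starRingEnd ℂ) (RZ N Ψ ζ i j * cc b j))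
      (fun j hj => by rw [hcc b j hj, mul_zero, map_zero, neg_zero])]
    rw [Finset.sum_neg_distrib, ← map_sum]
    have h4 : ∑ j, RZ N Ψ ζ i j * cc b j = ((T⁻¹ *ᵥ v b) i : ℂ) := (congrFun (h1 b) i).symm
    rw [h4, Complex.conj_ofReal, add_neg_cancel]
    rfl
  have hli : LinearIndependent ℂ kb := by
    rw [Fintype.linearIndependent_iff]
    intro g hg
    have hj : ∀ j, ∑ b, g b * cc b j = 0 := by
      intro j
      by_cases hpj : (0 : ℤ) ≤ p j
      · have h5 := congrFun hg (Sum.inl ⟨j, hpj⟩)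
        rw [Finset.sum_apply] at h5
        rw [hkb] at h5
        exact h5
      · refine Finset.sum_eq_zero fun b _ => ?_
        rw [hcc b j (not_le.mp hpj), mul_zero]
    have hsum : ∀ i, ∑ b, g b * ((v b i : ℝ) : ℂ) = 0 := by
      intro i
      have h5 : ∀ b, ((v b i : ℝ) : ℂ) = ∑ j, GZ N Ψ ζ i j * cc b j := fun b =>
        congrFun (hvc b) i
      simp_rw [h5, Finset.mul_sum]
      rw [Finset.sum_comm]
      refine Finset.sum_eq_zero fun j _ => ?_
      have h6 : ∑ b, g b * (GZ N Ψ ζ i j * cc b j) = GZ N Ψ ζ i j * ∑ b, g b * cc b j := by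
        rw [Finset.mul_sum]
        exact Finset.sum_congr rfl fun b _ => by ring
      rw [h6, hj j, mul_zero]
    rw [Fintype.linearIndependent_iff] at hv
    have hre := hv (fun b => (g b).re) (by
      funext i
      have h5 := congrArg Complex.re (hsum i)
      rw [Complex.re_sum] at h5
      rw [Finset.sum_apply]
      simpa using h5)
    have him := hv (fun b => (g b).im) (by
      funext i
      have h5 := congrArg Complex.im (hsum i)
      rw [Complex.im_sum] at h5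
      rw [Finset.sum_apply]
      simpa using h5)
    intro b
    exact Complex.ext (hre b) (him b)
  have hli' : LinearIndependent ℂ (fun b => (⟨kb b, by
      rw [LinearMap.mem_ker, Matrix.mulVecLin_apply]
      exact hker b⟩ : LinearMap.ker
        (cat p 0 (RZ N Ψ ζ) ((RZ N Ψ ζ).map (starRingEnd ℂ))).mulVecLin)) :=
    LinearIndependent.of_comp (Submodule.subtype _) hli
  have hcard := hli'.fintype_card_le_finrank
  rw [Fintype.card_fin] at hcard
  apply minors_of_ker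
  rw [Fintype.card_sum]
  omega

end Pool.Agent.LibZE25
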