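import Pool.Agent.LibZE25.Z18

/-!
# Taylor series of the coefficients of a determinant of polynomials
-/

open PowerSeries Filter Topology

namespace Pool.Agent.LibZE25

theorem Y4_tay_sum {α : Type} (s : Finset α) (F : α → ℂ → ℂ)
    (h : ∀ a ∈ s, AnalyticAt ℂ (F a) 0) :
    AnalyticAt ℂ (fun z => ∑ a ∈ s, F a z) 0 ∧
      tay (fun z => ∑ a ∈ s, F a z) = ∑ a ∈ s, tay (F a) := by
  classical
  induction s using Finset.induction_on with
  | empty =>
    refine ⟨by simpa using analyticAt_const, ?_⟩
    have h0 : (fun z : ℂ => ∑ a ∈ (∅ : Finset α), F a z) = fun _ => 0 := by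
      funext z
      rw [Finset.sum_empty]
    rw [h0, tay_const, map_zero, Finset.sum_empty]
  | insert a s ha ih =>
    obtain ⟨h1, h2⟩ := ih fun b hb => h b (Finset.mem_insert_of_mem hb)
    have h3 := h a (Finset.mem_insert_self a s)
    have h0 : (fun z : ℂ => ∑ b ∈ insert a s, F b z) = fun z => F a z + ∑ b ∈ s, F b z := by
      funext z
      rw [Finset.sum_insert ha]
    rw [h0]
    refine ⟨h3.add h1, ?_⟩
    rw [tay_add h3 h1, h2, Finset.sum_insert ha]

/-- `F` is the Taylor expansion of the family of polynomials `f`, coefficient by coefficient -/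
def Y4_good (f : ℂ → Polynomial ℂ) (F : Polynomial (PowerSeries ℂ)) : Prop :=
  ∀ s, AnalyticAt ℂ (fun q => (f q).coeff s) 0 ∧ F.coeff s = tay fun q => (f q).coeff s

theorem Y4_const (c : ℂ) : Y4_good (fun _ => Polynomial.C c) (Polynomial.C (C c)) := by
  intro s
  refine ⟨analyticAt_const, ?_⟩
  rw [tay_const, Polynomial.coeff_C, Polynomial.coeff_C]
  split_ifs
  · rfl
  · rw [map_zero]

theorem Y4_add {f g : ℂ → Polynomial ℂ} {F G : Polynomial (PowerSeries ℂ)} (hf : Y4_good f F)
    (hg : Y4_good g G) : Y4_good (fun q => f q + g q) (F + G) := by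
  intro s
  have e : (fun q => (f q + g q).coeff s) = fun q => (f q).coeff s + (g q).coeff s := by
    funext q
    rw [Polynomial.coeff_add]
  rw [e]
  exact ⟨(hf s).1.add (hg s).1, by
    rw [tay_add (hf s).1 (hg s).1, Polynomial.coeff_add, (hf s).2, (hg s).2]⟩

theorem Y4_mul {f g : ℂ → Polynomial ℂ} {F G : Polynomial (PowerSeries ℂ)} (hf : Y4_good f F)
    (hg : Y4_good g G) : Y4_good (fun q => f q * g q) (F * G) := by
  intro s
  have e : (fun q => (f q * g q).coeff s) = fun q => ∑ x ∈ Finset.HasAntidiagonal.antidiagonal s,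
      (f q).coeff x.1 * (g q).coeff x.2 := by
    funext q
    rw [Polynomial.coeff_mul]
  rw [e]
  have h := Y4_tay_sum (Finset.HasAntidiagonal.antidiagonal s)
    (fun x q => (f q).coeff x.1 * (g q).coeff x.2) (fun x _ => (hf x.1).1.mul (hg x.2).1)
  refine ⟨h.1, ?_⟩
  rw [h.2, Polynomial.coeff_mul]
  refine Finset.sum_congr rfl fun x _ => ?_
  rw [(hf x.1).2, (hg x.2).2, ← tay_mul (hf x.1).1 (hg x.2).1]

theorem Y4_sum {α : Type} (s : Finset α) {f : α → ℂ → Polynomial ℂ}
    {F : α → Polynomial (PowerSeries ℂ)} (h : ∀ a ∈ s, Y4_good (f a) (F a)) :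
    Y4_good (fun q => ∑ a ∈ s, f a q) (∑ a ∈ s, F a) := by
  classical
  induction s using Finset.induction_on with
  | empty =>
    have h0 := Y4_const 0
    simpa only [Finset.sum_empty, map_zero] using h0
  | insert a s ha ih =>
    have h1 := Y4_add (h a (Finset.mem_insert_self a s))
      (ih fun b hb => h b (Finset.mem_insert_of_mem hb))
    simpa only [Finset.sum_insert ha] using h1

theorem Y4_prod {α : Type} (s : Finset α) {f : α → ℂ → Polynomial ℂ}
    {F : α → Polynomial (PowerSeries ℂ)} (h : ∀ a ∈ s, Y4_good (f a) (F a)) :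
    Y4_good (fun q => ∏ a ∈ s, f a q) (∏ a ∈ s, F a) := by
  classical
  induction s using Finset.induction_on with
  | empty =>
    have h0 := Y4_const 1
    simpa only [Finset.prod_empty, map_one] using h0
  | insert a s ha ih =>
    have h1 := Y4_mul (h a (Finset.mem_insert_self a s))
      (ih fun b hb => h b (Finset.mem_insert_of_mem hb))
    simpa only [Finset.prod_insert ha] using h1

theorem tay_polydet {κ : Type} [Fintype κ] [DecidableEq κ] {f : ℂ → Matrix κ κ (Polynomial ℂ)}
    {F : Matrix κ κ (Polynomial (PowerSeries ℂ))}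
    (h : ∀ i j s, AnalyticAt ℂ (fun q => (f q i j).coeff s) 0 ∧
      (F i j).coeff s = tay fun q => (f q i j).coeff s) (s : ℕ) :
    AnalyticAt ℂ (fun q => (f q).det.coeff s) 0 ∧
      F.det.coeff s = tay fun q => (f q).det.coeff s := by
  have key : Y4_good (fun q => (f q).det) F.det := by
    simp only [Matrix.det_apply']
    refine Y4_sum Finset.univ fun σ _ => Y4_mul ?_ (Y4_prod Finset.univ fun i _ => ?_)
    · have h0 := Y4_const ((Equiv.Perm.sign σ : ℤ) : ℂ)
      simpa only [map_intCast] using h0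
    · exact fun s => h (σ i) i s
  exact key s

end Pool.Agent.LibZE25
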