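import Pool.Agent.LibZE25.YDefs
import Pool.Agent.LibZE25.Y4
import Pool.Agent.LibZE25.Z21

/-!
# Independence modulo `F^a` at points near the puncture gives a nonzero formal minor
-/

open Matrix Complex Filter Topology

namespace Pool.Agent.LibZE25

open MW38 SP38

variable {ι : Type} [Fintype ι] [DecidableEq ι] {wt p : ι → ℤ} {Q N : Matrix ι ι ℝ}
  {Ψ : ℂ → Matrix ι ι ℂ} {ε : ℝ}

/-- the polynomial matrix at a point -/
private noncomputable def Y5_f (d : ℕ) (n : Matrix ι ι ℂ) (A : Matrix ι ι ℂ) {κ : Type}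
    (e : κ → ι → ℂ) : Matrix ι κ (Polynomial ℂ) := fun i b =>
  ∑ r ∈ Finset.range d, Polynomial.monomial r ((-1 : ℂ) ^ r / (r.factorial : ℂ) *
    (A.adjugate *ᵥ ((n ^ r) *ᵥ (e b))) i)

private theorem Y5_natDegree_entry (d : ℕ) (n A : Matrix ι ι ℂ) {κ : Type} (e : κ → ι → ℂ)
    (i : ι) (b : κ) : (Y5_f d n A e i b).natDegree ≤ d := by
  unfold Y5_f
  refine Polynomial.natDegree_sum_le_of_forall_le _ _ ?_
  intro r hr
  exact (Polynomial.natDegree_monomial_le _).trans (Finset.mem_range.1 hr).le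

private theorem Y5_natDegree_det {s d : ℕ} (M : Matrix (Fin s) (Fin s) (Polynomial ℂ))
    (hM : ∀ i j, (M i j).natDegree ≤ d) : M.det.natDegree ≤ s * d := by
  rw [Matrix.det_apply']
  refine Polynomial.natDegree_sum_le_of_forall_le _ _ ?_
  intro σ _
  refine Polynomial.natDegree_mul_le.trans ?_
  rw [Polynomial.natDegree_intCast, zero_add]
  refine (Polynomial.natDegree_prod_le _ _).trans ?_
  refine (Finset.sum_le_card_nsmul _ _ d fun i _ => hM _ _).trans ?_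
  simp

private theorem Y5_entry (h : Loc wt p Q N Ψ ε) (r : ℕ) (u : ι → ℂ) (i : ι) :
    AnalyticAt ℂ (fun q => (-1 : ℂ) ^ r / (r.factorial : ℂ) *
      ((Ψ q).adjugate *ᵥ ((nn N ^ r) *ᵥ u)) i) 0 ∧
    PowerSeries.C ((-1 : ℂ) ^ r / (r.factorial : ℂ)) *
      ((tA Ψ).adjugate.mulVec fun a => PowerSeries.C ((nn N ^ r).mulVec u a)) i =
    tay (fun q => (-1 : ℂ) ^ r / (r.factorial : ℂ) *
      ((Ψ q).adjugate *ᵥ ((nn N ^ r) *ᵥ u)) i) := by
  have hA : ∀ i j, AnalyticAt ℂ (fun q => Ψ q i j) 0 := fun i j =>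
    (h.hol i j).analyticAt (Metric.isOpen_ball.mem_nhds (Metric.mem_ball_self h.eps))
  have hc : ∀ c : ℂ, AnalyticAt ℂ (fun _ : ℂ => c) 0 := fun c => analyticAt_const
  have h1 : ∀ j, AnalyticAt ℂ (fun q => (Ψ q).adjugate i j * ((nn N ^ r) *ᵥ u) j) 0 ∧
      tay (fun q => (Ψ q).adjugate i j * ((nn N ^ r) *ᵥ u) j) =
        (tA Ψ).adjugate i j * PowerSeries.C (((nn N ^ r) *ᵥ u) j) := by
    intro j
    obtain ⟨h2, h3⟩ := tay_adjugate hA i j
    refine ⟨h2.fun_mul (hc _), ?_⟩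
    rw [tay_mul h2 (hc _), h3, tay_const]
    rfl
  obtain ⟨h4, h5⟩ := Z18_sum Finset.univ
    (f := fun j q => (Ψ q).adjugate i j * ((nn N ^ r) *ᵥ u) j) fun j _ => (h1 j).1
  have h6 : (fun q => ((Ψ q).adjugate *ᵥ ((nn N ^ r) *ᵥ u)) i) =
      fun q => ∑ j, (Ψ q).adjugate i j * ((nn N ^ r) *ᵥ u) j := by
    funext q
    rfl
  have h4' : AnalyticAt ℂ (fun q => ((Ψ q).adjugate *ᵥ ((nn N ^ r) *ᵥ u)) i) 0 := by
    rw [h6]; exact h4
  refine ⟨(hc _).fun_mul h4', ?_⟩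
  rw [tay_mul (hc _) h4', tay_const, h6, h5]
  congr 1
  refine (Finset.sum_congr rfl fun j _ => ?_ :
    ∑ j, (tA Ψ).adjugate i j * PowerSeries.C (((nn N ^ r) *ᵥ u) j) = _)
  exact (h1 j).2.symm

private theorem Y5_coeff (h : Loc wt p Q N Ψ ε) (d : ℕ) {κ : Type} (e : κ → ι → ℂ) (i : ι)
    (b : κ) (k : ℕ) :
    AnalyticAt ℂ (fun q => (Y5_f d (nn N) (Ψ q) e i b).coeff k) 0 ∧
    (PM d (nn N) (tA Ψ) e i b).coeff k = tay fun q => (Y5_f d (nn N) (Ψ q) e i b).coeff k := by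
  have h1 : ∀ q, (Y5_f d (nn N) (Ψ q) e i b).coeff k =
      if k < d then (-1 : ℂ) ^ k / (k.factorial : ℂ) *
        ((Ψ q).adjugate *ᵥ ((nn N ^ k) *ᵥ (e b))) i else 0 := by
    intro q
    unfold Y5_f
    rw [Polynomial.finsetSum_coeff]
    simp only [Polynomial.coeff_monomial]
    rw [Finset.sum_ite_eq' (Finset.range d) k]
    simp only [Finset.mem_range]
  have h2 : (PM d (nn N) (tA Ψ) e i b).coeff k =
      if k < d then PowerSeries.C ((-1 : ℂ) ^ k / (k.factorial : ℂ)) *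
        ((tA Ψ).adjugate.mulVec fun a => PowerSeries.C ((nn N ^ k).mulVec (e b) a)) i else 0 := by
    unfold PM
    rw [Polynomial.finsetSum_coeff]
    simp only [Polynomial.coeff_monomial]
    rw [Finset.sum_ite_eq' (Finset.range d) k]
    simp only [Finset.mem_range]
  have h3 : (fun q => (Y5_f d (nn N) (Ψ q) e i b).coeff k) = fun q =>
      if k < d then (-1 : ℂ) ^ k / (k.factorial : ℂ) *
        ((Ψ q).adjugate *ᵥ ((nn N ^ k) *ᵥ (e b))) i else 0 := funext h1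
  rw [h3, h2]
  by_cases hk : k < d
  · simp only [if_pos hk]
    exact Y5_entry h k (e b) i
  · simp only [if_neg hk]
    exact ⟨analyticAt_const, by rw [tay_const, map_zero]⟩

private theorem Y5_eval {d : ℕ} (hd : N ^ d = 0) (A : Matrix ι ι ℂ) {κ : Type} (e : κ → ι → ℂ)
    (ζ : ℂ) (i : ι) (b : κ) :
    (Y5_f d (nn N) A e i b).eval (2 * Real.pi * I * ζ) =
      (A.adjugate *ᵥ (IsNilpotent.exp ((-ζ) • cm N) *ᵥ e b)) i := by
  have hpi : (2 * Real.pi * I : ℂ) ≠ 0 := by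
    simp [Real.pi_ne_zero]
  have hnn : cm N = (2 * Real.pi * I : ℂ) • nn N := by
    rw [nn, smul_smul, mul_inv_cancel₀ hpi, one_smul]
  have hcd : cm N ^ d = 0 := by
    rw [← cus1_cm_pow, hd]
    unfold cm
    ext i j
    simp
  rw [cus1_exp_eq (cm N) hcd (-ζ), Matrix.sum_mulVec, Matrix.mulVec_sum, Finset.sum_apply]
  unfold Y5_f
  rw [Polynomial.eval_finsetSum]
  refine Finset.sum_congr rfl fun r _ => ?_
  rw [Polynomial.eval_monomial, Matrix.smul_mulVec, Matrix.mulVec_smul, Pi.smul_apply, smul_eq_mul]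
  have h1 : cm N ^ r = (2 * Real.pi * I : ℂ) ^ r • nn N ^ r := by
    rw [hnn, smul_pow]
  rw [h1, Matrix.smul_mulVec, Matrix.mulVec_smul, Pi.smul_apply, smul_eq_mul, mul_pow, neg_pow ζ]
  ring

theorem exists_PM_minor (h : Loc wt p Q N Ψ ε) {d : ℕ} (hd : N ^ d = 0) {a : ℤ} {s : ℕ}
    (e : Fin s → ι → ℂ)
    (hinj : ∀ y : ℝ, ∃ ζ : ℂ, y < ζ.im ∧ ∀ c : Fin s → ℂ,
      (∑ b, c b • e b) ∈ Fl p (GZ N Ψ ζ) a → c = 0) :
    ∃ e' : Fin s → {i // p i < a},
      ((PM d (nn N) (tA Ψ) e).submatrix (fun b => (e' b : ι)) id).det ≠ 0 := by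
  classical
  by_contra hcon
  push Not at hcon
  -- all minors vanish near `0`
  have hev : ∀ᶠ q in 𝓝 (0 : ℂ), ∀ e' : Fin s → {i // p i < a},
      ((Y5_f d (nn N) (Ψ q) e).submatrix (fun b => (e' b : ι)) id).det = 0 := by
    rw [Filter.eventually_all]
    intro e'
    have h1 : ∀ᶠ q in 𝓝 (0 : ℂ), ∀ k ∈ Finset.range (s * d + 1),
        ((Y5_f d (nn N) (Ψ q) e).submatrix (fun b => (e' b : ι)) id).det.coeff k = 0 := by
      rw [Filter.eventually_all_finset]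
      intro k _
      obtain ⟨h2, h3⟩ := tay_polydet
        (f := fun q => (Y5_f d (nn N) (Ψ q) e).submatrix (fun b => (e' b : ι)) id)
        (F := (PM d (nn N) (tA Ψ) e).submatrix (fun b => (e' b : ι)) id)
        (fun i j k => Y5_coeff h d e (e' i : ι) j k) k
      rw [hcon e', Polynomial.coeff_zero] at h3
      exact (tay_eq_zero h2).1 h3.symm
    filter_upwards [h1] with q hq
    ext k
    rw [Polynomial.coeff_zero]
    by_cases hk : k < s * d + 1
    · exact hq k (Finset.mem_range.2 hk)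
    · refine Polynomial.coeff_eq_zero_of_natDegree_lt ?_
      refine lt_of_le_of_lt (Y5_natDegree_det (d := d) _ fun i j => ?_) (by omega : s * d < k)
      exact Y5_natDegree_entry d (nn N) (Ψ q) e _ _
  obtain ⟨ε', hε', hball⟩ := Metric.eventually_nhds_iff_ball.1 hev
  -- choice of the point
  set δ := min ε' ε with hδ
  have hδ0 : 0 < δ := lt_min hε' h.eps
  obtain ⟨ζ, hζ, hζinj⟩ := hinj (-Real.log δ / (2 * Real.pi))
  have hq : ‖qq ζ‖ < δ := by
    rw [norm_qq]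
    have h2pi : (0 : ℝ) < 2 * Real.pi := by positivity
    have h1 : -Real.log δ < ζ.im * (2 * Real.pi) := (div_lt_iff₀ h2pi).1 hζ
    calc Real.exp (-(2 * Real.pi * ζ.im)) < Real.exp (Real.log δ) := by
          rw [Real.exp_lt_exp]; linarith
      _ = δ := Real.exp_log hδ0
  have hq1 : qq ζ ∈ Metric.ball (0 : ℂ) ε' := by
    rw [mem_ball_zero_iff]; exact lt_of_lt_of_le hq (min_le_left _ _)
  have hq2 : ‖qq ζ‖ < ε := lt_of_lt_of_le hq (min_le_right _ _)
  have hmin := hball _ hq1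
  -- the matrix `B`
  set E := IsNilpotent.exp ((-ζ) • cm N) with hE
  have hnil : IsNilpotent (cm N) := cus1_cm_nil h.nil
  have hEE : E * IsNilpotent.exp (ζ • cm N) = 1 := by
    rw [hE, ← cus1_exp_add hnil (-ζ) ζ, neg_add_cancel, zero_smul]
    exact IsNilpotent.exp_zero
  have hEinv : (IsNilpotent.exp (ζ • cm N))⁻¹ = E := Matrix.inv_eq_left_inv hEE
  let B : Matrix {i // p i < a} (Fin s) ℂ := fun i b =>
    ((Ψ (qq ζ)).adjugate *ᵥ (E *ᵥ e b)) (i : ι)
  obtain ⟨e', he'⟩ := exists_minor B (by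
    intro c hc
    apply hζinj c
    rw [mem_Fl_iff (h.mhs ζ hq2).unit]
    intro j hj
    have hinv : (GZ N Ψ ζ)⁻¹ = (Ψ (qq ζ))⁻¹ * E := by
      rw [GZ, Matrix.mul_inv_rev, hEinv]
    have h1 := congrFun hc ⟨j, hj⟩
    have h2 : ((Ψ (qq ζ)).adjugate *ᵥ (E *ᵥ ∑ b, c b • e b)) j = 0 := by
      rw [Matrix.mulVec_sum, Matrix.mulVec_sum, Finset.sum_apply]
      rw [Pi.zero_apply] at h1
      rw [← h1]
      unfold Matrix.mulVec dotProduct
      refine Finset.sum_congr rfl fun b _ => ?_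
      have h3 := congrFun (Matrix.mulVec_smul (Ψ (qq ζ)).adjugate (c b) (E *ᵥ e b)) j
      have h4 : (Ψ (qq ζ)).adjugate *ᵥ (E *ᵥ c b • e b) =
          (Ψ (qq ζ)).adjugate *ᵥ (c b • (E *ᵥ e b)) := by
        rw [Matrix.mulVec_smul]
      have h5 : ((Ψ (qq ζ)).adjugate *ᵥ (E *ᵥ c b • e b)) j =
          B ⟨j, hj⟩ b * c b := by
        rw [h4, h3, Pi.smul_apply, smul_eq_mul, mul_comm]
      exact h5
    rw [hinv, ← Matrix.mulVec_mulVec, Matrix.inv_def, Matrix.smul_mulVec, Pi.smul_apply, h2,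
      smul_zero])
  apply he'
  have h6 : (B.submatrix e' id) = (Polynomial.evalRingHom (2 * Real.pi * I * ζ)).mapMatrix
      ((Y5_f d (nn N) (Ψ (qq ζ)) e).submatrix (fun b => (e' b : ι)) id) := by
    ext i j
    rw [RingHom.mapMatrix_apply, Matrix.map_apply, Matrix.submatrix_apply, Matrix.submatrix_apply,
      Polynomial.coe_evalRingHom]
    exact (Y5_eval hd (Ψ (qq ζ)) e ζ (e' i : ι) j).symm
  rw [h6, ← RingHom.map_det, hmin e', map_zero]

end Pool.Agent.LibZE25
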