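import Pool.Agent.LibZE25.YDefs
import Pool.Agent.LibZE25.Z18

/-!
# A constant vector in `F^a` near the puncture satisfies the formal conditions
-/

open Matrix Complex Filter Topology

namespace Pool.Agent.LibZE25

open MW38 SP38

variable {ι : Type} [Fintype ι] [DecidableEq ι] {wt p : ι → ℤ} {Q N : Matrix ι ι ℝ}
  {Ψ : ℂ → Matrix ι ι ℂ} {ε : ℝ}

theorem Y9_tay_sum {α : Type} (s : Finset α) (F : α → ℂ → ℂ)
    (h : ∀ a ∈ s, AnalyticAt ℂ (F a) 0) :
    AnalyticAt ℂ (fun z => ∑ a ∈ s, F a z) 0 ∧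
      tay (fun z => ∑ a ∈ s, F a z) = ∑ a ∈ s, tay (F a) := by
  classical
  induction s using Finset.induction_on with
  | empty =>
    refine ⟨by simpa using analyticAt_const, ?_⟩
    have h0 : (fun z : ℂ => ∑ a ∈ (∅ : Finset α), F a z) = fun _ => 0 := by
      funext z
      rw [Finset.sum_empty]
    rw [h0, tay_const, map_zero, Finset.sum_empty]
  | insert a s ha ih =>
    obtain ⟨h1, h2⟩ := ih fun b hb => h b (Finset.mem_insert_of_mem hb)
    have h3 := h a (Finset.mem_insert_self a s)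
    have h0 : (fun z : ℂ => ∑ b ∈ insert a s, F b z) = fun z => F a z + ∑ b ∈ s, F b z := by
      funext z
      rw [Finset.sum_insert ha]
    rw [h0]
    refine ⟨h3.add h1, ?_⟩
    rw [tay_add h3 h1, h2, Finset.sum_insert ha]

theorem Y9_nn (N : Matrix ι ι ℝ) (r : ℕ) : cm N ^ r = (2 * Real.pi * I : ℂ) ^ r • nn N ^ r := by
  unfold nn
  rw [smul_pow, smul_smul, ← mul_pow, mul_inv_cancel₀ Complex.two_pi_I_ne_zero, one_pow, one_smul]

/-- a polynomial with infinitely many zeros `ζ₀ + k` -/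
theorem Y9_poly (d : ℕ) (c : ℕ → ℂ) (ζ₀ : ℂ)
    (h : ∀ k : ℕ, ∑ r ∈ Finset.range d, (ζ₀ + k) ^ r * c r = 0) (r : ℕ) (hr : r < d) : c r = 0 := by
  set P : Polynomial ℂ := ∑ r ∈ Finset.range d, Polynomial.monomial r (c r) with hP
  have h0 : P = 0 := by
    apply Polynomial.eq_zero_of_infinite_isRoot
    have hinj : Function.Injective fun k : ℕ => ζ₀ + (k : ℂ) := by
      intro k l hkl
      have : (k : ℂ) = l := add_left_cancel hkl
      exact_mod_cast this
    refine (Set.infinite_range_of_injective hinj).mono ?_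
    rintro x ⟨k, rfl⟩
    show P.IsRoot (ζ₀ + k)
    rw [Polynomial.IsRoot, hP, Polynomial.eval_finsetSum, ← h k]
    refine Finset.sum_congr rfl fun r _ => ?_
    rw [Polynomial.eval_monomial, mul_comm]
  have h1 : P.coeff r = c r := by
    rw [hP, Polynomial.finsetSum_coeff, Finset.sum_eq_single r]
    · rw [Polynomial.coeff_monomial, if_pos rfl]
    · intro b _ hb
      rw [Polynomial.coeff_monomial, if_neg hb]
    · intro hb
      exact absurd (Finset.mem_range.mpr hr) hb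
  rw [← h1, h0, Polynomial.coeff_zero]

theorem Loc.to_formal (h : Loc wt p Q N Ψ ε) {u : ι → ℂ} {a : ℤ}
    (hu : ∃ c : ℝ, ∀ ζ : ℂ, c < ζ.im → u ∈ Fl p (GZ N Ψ ζ) a) : FF p (nn N) (tA Ψ) a u := by
  obtain ⟨c, hc⟩ := hu
  obtain ⟨d, hd⟩ := cus1_cm_nil h.nil
  have hA : ∀ i j, AnalyticAt ℂ (fun z => Ψ z i j) 0 := fun i j =>
    (h.hol i j).analyticAt (Metric.ball_mem_nhds 0 h.eps)
  intro r i hi
  -- the function `f_r` vanishes for small `q ≠ 0`
  have key : ∀ q : ℂ, q ≠ 0 → ‖q‖ < min ε (Real.exp (-(2 * Real.pi * c))) →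
      ((Ψ q).adjugate *ᵥ (nn N ^ r *ᵥ u)) i = 0 := by
    intro q hq0 hq
    by_cases hr : r < d
    · obtain ⟨ζ₀, hζ₀, -, -⟩ := glo1_qq_surj hq0
      have hq1 : ‖q‖ < ε := hq.trans_le (min_le_left _ _)
      have him : c < ζ₀.im := by
        have h1 := hq.trans_le (min_le_right _ _)
        rw [← hζ₀, norm_qq, Real.exp_lt_exp] at h1
        have hpi := Real.pi_pos
        nlinarith
      have hunit : IsUnit (Ψ q) := (h.inv q (by simpa using hq1)).1
      have hdet : IsUnit (Ψ q).det := (Matrix.isUnit_iff_isUnit_det _).mp hunit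
      have hval : ∀ k : ℕ, ∑ s ∈ Finset.range d, (ζ₀ + k) ^ s *
          (((-1) ^ s / (s.factorial : ℂ)) * (2 * Real.pi * I : ℂ) ^ s *
            ((Ψ q).adjugate *ᵥ (nn N ^ s *ᵥ u)) i) = 0 := by
        intro k
        have hqq : qq (ζ₀ + k) = q := by rw [qq_add_nat, hζ₀]
        have him' : c < (ζ₀ + (k : ℂ)).im := by
          simpa using him
        have hm := hc (ζ₀ + k) him'
        have hn : ‖qq (ζ₀ + k)‖ < ε := by rw [hqq]; exact hq1
        have e1 : IsNilpotent.exp ((-(ζ₀ + k)) • cm N) * IsNilpotent.exp ((ζ₀ + k) • cm N) = 1 := by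
          rw [← cus1_exp_add (cus1_cm_nil h.nil), neg_add_cancel, zero_smul, IsNilpotent.exp_zero]
        have e2 : (GZ N Ψ (ζ₀ + k))⁻¹ *ᵥ u =
            (Ψ q)⁻¹ *ᵥ (IsNilpotent.exp ((-(ζ₀ + k)) • cm N) *ᵥ u) := by
          rw [GZ, Matrix.mul_inv_rev, Matrix.inv_eq_left_inv e1, Matrix.mulVec_mulVec, hqq]
        have e3 : IsNilpotent.exp ((-(ζ₀ + k)) • cm N) *ᵥ u = ∑ s ∈ Finset.range d,
            (((-(ζ₀ + k)) ^ s / (s.factorial : ℂ)) * (2 * Real.pi * I : ℂ) ^ s) •
              (nn N ^ s *ᵥ u) := by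
          rw [cus1_exp_eq _ hd, Matrix.sum_mulVec]
          refine Finset.sum_congr rfl fun s _ => ?_
          rw [Y9_nn, smul_smul, Matrix.smul_mulVec]
        have h2 := (mem_Fl_iff (h.mhs (ζ₀ + k) hn).unit u).mp hm i hi
        rw [e2, Matrix.inv_def, Matrix.smul_mulVec, Pi.smul_apply, e3, Matrix.mulVec_sum,
          Finset.sum_apply, smul_eq_mul] at h2
        have hinv : Ring.inverse (Ψ q).det ≠ 0 := by
          rw [Ring.inverse_eq_inv']
          exact inv_ne_zero hdet.ne_zero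
        have h3 := (mul_eq_zero.mp h2).resolve_left hinv
        rw [← h3]
        refine Finset.sum_congr rfl fun s _ => ?_
        rw [Matrix.mulVec_smul, Pi.smul_apply, smul_eq_mul, neg_pow (ζ₀ + (k : ℂ))]
        ring
      have h4 := Y9_poly d _ ζ₀ hval r hr
      have h5 : ((-1 : ℂ) ^ r / (r.factorial : ℂ)) * (2 * Real.pi * I : ℂ) ^ r ≠ 0 := by
        refine mul_ne_zero (div_ne_zero (pow_ne_zero _ (by norm_num)) ?_)
          (pow_ne_zero _ Complex.two_pi_I_ne_zero)
        exact_mod_cast Nat.factorial_ne_zero r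
      exact (mul_eq_zero.mp h4).resolve_left h5
    · have h0 : nn N ^ r = 0 := by
        have h1 : nn N ^ d = 0 := by
          unfold nn
          rw [smul_pow, hd, smul_zero]
        rw [← Nat.add_sub_cancel' (not_lt.mp hr), pow_add, h1, zero_mul]
      rw [h0, Matrix.zero_mulVec, Matrix.mulVec_zero]
      rfl
  have h1 := Y9_tay_sum Finset.univ (fun b z => (Ψ z).adjugate i b * (nn N ^ r *ᵥ u) b)
    (fun b _ => (tay_adjugate hA i b).1.mul analyticAt_const)
  have hev : ∀ᶠ z in 𝓝 (0 : ℂ), ∑ b, (Ψ z).adjugate i b * (nn N ^ r *ᵥ u) b = 0 := by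
    rcases h1.1.eventually_eq_zero_or_eventually_ne_zero with h2 | h2
    · exact h2
    · exfalso
      have hpos : 0 < min ε (Real.exp (-(2 * Real.pi * c))) :=
        lt_min h.eps (Real.exp_pos _)
      have h3 : ∀ᶠ z in 𝓝[≠] (0 : ℂ), ∑ b, (Ψ z).adjugate i b * (nn N ^ r *ᵥ u) b = 0 := by
        rw [eventually_nhdsWithin_iff]
        filter_upwards [Metric.ball_mem_nhds (0 : ℂ) hpos] with z hz hz0
        have hz' : ‖z‖ < min ε (Real.exp (-(2 * Real.pi * c))) := by simpa using hz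
        exact key z hz0 hz'
      obtain ⟨z, hz1, hz2⟩ := (h2.and h3).exists
      exact hz1 hz2
  have h2 := (tay_eq_zero h1.1).mpr hev
  rw [h1.2] at h2
  rw [← h2, Matrix.mulVec, dotProduct]
  refine Finset.sum_congr rfl fun b _ => ?_
  rw [tay_mul (tay_adjugate hA i b).1 analyticAt_const, tay_const, (tay_adjugate hA i b).2]
  rfl

end Pool.Agent.LibZE25
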