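import Pool.Agent.LibZE25.Core2
import Pool.Agent.LibZE25.LocMain
import Pool.Agent.LibZE25.Y5
import Pool.Agent.LibZE25.Y9
import Pool.Agent.LibZE25.Y19

/-!
# The local theorem: new Hodge classes do not accumulate at a puncture
-/

open Matrix Complex Filter Topology
open scoped ComplexConjugate

namespace Pool.Agent.LibZE25

open MW38 SP38

variable {ι : Type} [Fintype ι] [DecidableEq ι] {wt p : ι → ℤ} {Q N : Matrix ι ι ℝ}
  {Ψ : ℂ → Matrix ι ι ℂ} {ε : ℝ}

/-- the span of the real vectors -/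
theorem finrank_le_real (E : Submodule ℝ (ι → ℝ)) (U : Submodule ℂ (ι → ℂ))
    (h : ∀ u ∈ U, (fun b => (u b).re) ∈ E ∧ (fun b => (u b).im) ∈ E) :
    Module.finrank ℂ U ≤ Module.finrank ℝ E := by
  have hb := Module.finBasis ℝ E
  set s := Module.finrank ℝ E with hs
  have hle : U ≤ Submodule.span ℂ (Set.range fun b : Fin s => tC (hb b : ι → ℝ)) := by
    intro u hu
    obtain ⟨h1, h2⟩ := h u hu
    have h3 : ∀ v ∈ E, tC v ∈ Submodule.span ℂ (Set.range fun b : Fin s => tC (hb b : ι → ℝ)) := by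
      intro v hv
      have h4 := hb.sum_repr ⟨v, hv⟩
      have h5 : v = ∑ b, hb.repr ⟨v, hv⟩ b • (hb b : ι → ℝ) := by
        have := congrArg (fun x : E => (x : ι → ℝ)) h4
        simp only [AddSubmonoidClass.coe_finset_sum, SetLike.val_smul] at this
        exact this.symm
      have h6 : tC v = ∑ b, (hb.repr ⟨v, hv⟩ b : ℂ) • tC (hb b : ι → ℝ) := by
        funext i
        have h7 := congrFun h5 i
        simp only [tC, Finset.sum_apply, Pi.smul_apply, smul_eq_mul] at h7 ⊢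
        rw [h7]
        push_cast
        rfl
      rw [h6]
      exact Submodule.sum_mem _ fun b _ => Submodule.smul_mem _ _
        (Submodule.subset_span ⟨b, rfl⟩)
    have h8 : u = tC (fun b => (u b).re) + I • tC (fun b => (u b).im) := by
      funext b
      simp only [tC, Pi.add_apply, Pi.smul_apply, smul_eq_mul]
      rw [mul_comm]
      exact (Complex.re_add_im (u b)).symm
    rw [h8]
    exact Submodule.add_mem _ (h3 _ h1) (Submodule.smul_mem _ _ (h3 _ h2))
  calc Module.finrank ℂ U ≤ Module.finrank ℂ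
        (Submodule.span ℂ (Set.range fun b : Fin s => tC (hb b : ι → ℝ))) :=
        Submodule.finrank_mono hle
    _ ≤ s := by
        have := finrank_range_le_card (R := ℂ) (fun b : Fin s => tC (hb b : ι → ℝ))
        simpa [Set.finrank] using this

/-- new Hodge classes do not accumulate at a puncture -/
theorem Loc.main2 (h : Loc wt p Q N Ψ ε) (hwt : ∀ i, wt i ≤ 0)
    (hs : ∃ s : Equiv.Perm ι, ∀ j, wt (s j) = wt j ∧ p (s j) = wt j - p j)
    {m : ℕ} (hm : Fintype.card {i // wt i = 0} ≤ m)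
    (hty : ∀ i, wt i < 0 → p i < -(m : ℤ) ∨ wt i - p i < -(m : ℤ)) {c₀ : ℝ}
    (hFP : ∀ e : ι → ℂ, (∃ c : ℝ, ∀ ζ : ℂ, c < ζ.im → e ∈ Fl p (GZ N Ψ ζ) (1 - m)) →
      (∃ c : ℝ, ∀ ζ : ℂ, c < ζ.im → (fun b => conj (e b)) ∈ Fl p (GZ N Ψ ζ) (1 - m)) →
      ∀ ζ : ℂ, c₀ < ζ.im → e ∈ Fl p (GZ N Ψ ζ) 0 →
      ∃ c : ℝ, ∀ ζ : ℂ, c < ζ.im → e ∈ Fl p (GZ N Ψ ζ) 0)
    (E : Submodule ℝ (ι → ℝ))
    (hE : ∀ u : ι → ℝ, (∃ c : ℝ, ∀ ζ : ℂ, c < ζ.im → tC u ∈ Fl p (GZ N Ψ ζ) 0) → u ∈ E)
    (hE' : ∃ c : ℝ, ∀ u ∈ E, ∀ ζ : ℂ, c < ζ.im → tC u ∈ Fl p (GZ N Ψ ζ) 0)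
    (hfr : ∃ᶠ ζ in strip, ∃ u : ι → ℝ, u ∉ E ∧ tC u ∈ Fl p (GZ N Ψ ζ) 0) : False := by
  have hcg : (strip : Filter ℂ).IsCountablyGenerated := by
    unfold strip
    infer_instance
  obtain ⟨cE, hcE⟩ := hE'
  have hstr : ∀ᶠ ζ in strip, cE < ζ.im := by
    unfold strip
    rw [Filter.eventually_inf_principal, Filter.eventually_comap]
    filter_upwards [Filter.eventually_gt_atTop cE] with y hy ζ hζ _
    rw [hζ]
    exact hy
  obtain ⟨ζ, hζ, hRC⟩ := Filter.exists_seq_forall_of_frequently (hfr.and_eventually hstr)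
  have hq : Tendsto (fun n => qq (ζ n)) atTop (𝓝 0) := tendsto_qq.comp hζ
  have hq0 : ∀ n, qq (ζ n) ≠ 0 := fun n => Complex.exp_ne_zero _
  obtain ⟨d, hd⟩ := h.nil
  obtain ⟨F, hF⟩ := exists_DF_seq hq hq0
  set f := Fintype.card {j // (0 : ℤ) ≤ p j} with hf
  set s := Module.finrank ℝ E with hsE
  -- the minors of size `2 f - s` vanish at the points
  have hmin : ∀ (n : ℕ) (e : Fin (2 * f - s) → ι)
      (c : Fin (2 * f - s) → {j // (0 : ℤ) ≤ p j} ⊕ {j // (0 : ℤ) ≤ p j}),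
      ((cat p 0 (RZ N Ψ (ζ n)) ((RZ N Ψ (ζ n)).map (starRingEnd ℂ))).submatrix e c).det = 0 := by
    intro n e c
    obtain ⟨⟨u, hu, hu'⟩, hn⟩ := hRC n
    have hb := Module.finBasis ℝ E
    refine minor_zero_rank (s := s + 1) ⟨d, hd⟩ (Fin.cons u fun b => (hb b : ι → ℝ)) ?_ ?_ _
      (by omega) e c
    · rw [linearIndependent_fin_cons]
      refine ⟨hb.linearIndependent.map' E.subtype (Submodule.ker_subtype E), fun h1 => hu ?_⟩
      refine (Submodule.span_le.2 ?_) h1
      rintro _ ⟨b, rfl⟩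
      exact (hb b).2
    · intro b
      refine Fin.cases ?_ (fun b => ?_) b
      · exact hu'
      · exact hcE _ (hb b).2 _ hn
  have h0 : ∀ (e : Fin (2 * f - s) → ι)
      (c : Fin (2 * f - s) → {j // (0 : ℤ) ≤ p j} ⊕ {j // (0 : ℤ) ≤ p j}),
      F.φ ((cat p 0 (rz d (nn N) (tA Ψ)) (rw' d (nn N) (tA Ψ))).submatrix e c).det = 0 := by
    intro e c
    apply hF
    have h1 := Asym.det hq hq0
      (f := (cat p 0 (rz d (nn N) (tA Ψ)) (rw' d (nn N) (tA Ψ))).submatrix e c)
      (F := fun n => (cat p 0 (RZ N Ψ (ζ n)) ((RZ N Ψ (ζ n)).map (starRingEnd ℂ))).submatrix e c)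
      (by
        intro a b
        rw [Matrix.submatrix_apply]
        simp only [Matrix.submatrix_apply]
        rcases c b with b | b
        · exact (asym_rz hd h.analyticAt hq (e a) b).1
        · exact (asym_rz hd h.analyticAt hq (e a) b).2)
    have h2 : (fun n => ((cat p 0 (RZ N Ψ (ζ n))
        ((RZ N Ψ (ζ n)).map (starRingEnd ℂ))).submatrix e c).det) = fun _ => 0 := by
      funext n
      exact hmin n e c
    rw [h2] at h1
    exact h1
  have h1 : ∀ l < 0, ∃ e : {j : {i // wt i = l} // -(m : ℤ) ≤ p j} ⊕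
        {j : {i // wt i = l} // -(m : ℤ) ≤ p j} → {i // wt i = l},
      F.φ ((cat (fun i : {i // wt i = l} => p i) (-(m : ℤ)) (bk wt l (rz d (nn N) (tA Ψ)))
        (bk wt l (rw' d (nn N) (tA Ψ)))).submatrix e id).det ≠ 0 := by
    intro l hl
    obtain ⟨y, hy⟩ := h.nondeg_blk hs (l := l) (k := -(m : ℤ)) (fun i hi => by
      have := hty i (by omega)
      rw [hi] at this
      exact this)
    obtain ⟨e, he⟩ := exists_minor_coeff (p := p) hd hy
    exact ⟨e, F.φ_ne_zero he⟩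
  have hge := F.NN_finrank_ge (h.fdata hd) (2 * f - s) h0
  -- the complement
  set V := VF p (nn N) (tA Ψ) (1 - m) ⊓ VFc p (nn N) (tA Ψ) (1 - m) with hV
  set V0 := V ⊓ VF p (nn N) (tA Ψ) 0 with hV0
  obtain ⟨U', hU'⟩ := Submodule.exists_isCompl V0
  set U := U' ⊓ V with hU
  have hsup : V ≤ V0 ⊔ U := by
    intro v hv
    have h2 : v ∈ V0 ⊔ U' := by
      rw [hU'.sup_eq_top]
      trivial
    obtain ⟨x, hx, y, hy, rfl⟩ := Submodule.mem_sup.1 h2
    refine Submodule.mem_sup.2 ⟨x, hx, y, ⟨hy, ?_⟩, rfl⟩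
    have h3 := Submodule.sub_mem _ hv hx.1
    rwa [add_sub_cancel_left] at h3
  have hdisj : ∀ v ∈ U, v ∈ V0 → v = 0 := fun v hv hv0 =>
    Submodule.disjoint_def.1 hU'.disjoint v hv0 hv.1
  have hbU := Module.finBasis ℂ U
  set e : Fin (Module.finrank ℂ U) → ι → ℂ := fun b => (hbU b : ι → ℂ) with he
  have hspanU : Submodule.span ℂ (Set.range e) = U := by
    have h2 := hbU.span_eq
    have h3 := congrArg (Submodule.map U.subtype) h2
    rw [Submodule.map_span, Submodule.map_top, Submodule.range_subtype, ← Set.range_comp] at h3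
    exact h3
  have heind : LinearIndependent ℂ e :=
    hbU.linearIndependent.map' U.subtype (Submodule.ker_subtype U)
  have hmemV : ∀ v ∈ V, (∃ c : ℝ, ∀ ζ : ℂ, c < ζ.im → v ∈ Fl p (GZ N Ψ ζ) (1 - m)) ∧
      (∃ c : ℝ, ∀ ζ : ℂ, c < ζ.im → (fun b => conj (v b)) ∈ Fl p (GZ N Ψ ζ) (1 - m)) :=
    fun v hv => ⟨h.of_formal hv.1, h.of_formal hv.2⟩
  obtain ⟨e', he'⟩ := exists_PM_minor h hd (a := 0) e (by
    intro y
    refine ⟨((max y c₀ + 1 : ℝ) : ℂ) * I, ?_, ?_⟩
    · simp only [Complex.mul_im, Complex.ofReal_re, Complex.I_im, mul_one, Complex.ofReal_im,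
        Complex.I_re, mul_zero, add_zero]
      have := le_max_left y c₀
      linarith
    · intro c hc
      have hU1 : (∑ b, c b • e b) ∈ U := Submodule.sum_mem _ fun b _ =>
        Submodule.smul_mem _ _ (hbU b).2
      have h2 := hmemV _ hU1.2
      have h3 := hFP _ h2.1 h2.2 _ (by
        simp only [Complex.mul_im, Complex.ofReal_re, Complex.I_im, mul_one, Complex.ofReal_im,
          Complex.I_re, mul_zero, add_zero]
        have := le_max_right y c₀
        linarith) hc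
      have h4 : (∑ b, c b • e b) = 0 := hdisj _ hU1 ⟨hU1.2, h.to_formal h3⟩
      exact funext (Fintype.linearIndependent_iff.1 heind c h4))
  have hle := F.core2 (h.fdata hd) hwt m hm h1 e (by rw [hspanU]; exact hsup) he'
  have h2 : Module.finrank F.K (F.NN p d (nn N) (tA Ψ) 0) ≤ s := by
    refine (Submodule.finrank_mono hle).trans ?_
    rw [kSp_finrank]
    refine finrank_le_real E _ fun u hu => ?_
    obtain ⟨c₁, hc₁⟩ := h.of_formal hu.1
    obtain ⟨c₂, hc₂⟩ := h.of_formal hu.2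
    constructor
    · refine hE _ ⟨max c₁ c₂, fun ζ hζ => ?_⟩
      have e1 : tC (fun b => (u b).re) = (1 / 2 : ℂ) • (u + fun b => conj (u b)) := by
        funext b
        simp only [tC, Pi.smul_apply, Pi.add_apply, smul_eq_mul, Complex.add_conj]
        push_cast
        ring
      rw [e1]
      exact Submodule.smul_mem _ _ (Submodule.add_mem _
        (hc₁ ζ (lt_of_le_of_lt (le_max_left _ _) hζ))
        (hc₂ ζ (lt_of_le_of_lt (le_max_right _ _) hζ)))
    · refine hE _ ⟨max c₁ c₂, fun ζ hζ => ?_⟩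
      have e1 : tC (fun b => (u b).im) = (1 / (2 * I) : ℂ) • (u - fun b => conj (u b)) := by
        funext b
        simp only [tC, Pi.smul_apply, Pi.sub_apply, smul_eq_mul, Complex.sub_conj]
        push_cast
        field_simp [Complex.I_ne_zero]
      rw [e1]
      exact Submodule.smul_mem _ _ (Submodule.sub_mem _
        (hc₁ ζ (lt_of_le_of_lt (le_max_left _ _) hζ))
        (hc₂ ζ (lt_of_le_of_lt (le_max_right _ _) hζ)))
  rcases le_or_gt s (2 * f) with h3 | h3
  · omega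
  · have h4 : 2 * f - s = 0 := by omega
    have h5 := hmin 0 (fun i => (Fin.cast h4 i).elim0) (fun i => (Fin.cast h4 i).elim0)
    have h6 : IsEmpty (Fin (2 * f - s)) := by
      rw [h4]
      infer_instance
    rw [Matrix.det_isEmpty] at h5
    exact one_ne_zero h5

end Pool.Agent.LibZE25
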