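import Pool.Agent.LibZE25.YDefs

/-!
# Invariance and growth of `N0`
-/

open Matrix Complex Filter
open UpperHalfPlane hiding I
open scoped ComplexOrder ContDiff

namespace Pool.Agent.LibZE25

open SP38 US38

variable {m : ℕ} {w : ℤ} {K : ℕ} {p : Fin m → ℤ} {s : Equiv.Perm (Fin m)}
  {Q : Matrix (Fin m) (Fin m) ℝ} {G : ℂ → Matrix (Fin m) (Fin m) ℂ} {ν : ℂ → Fin m → ℂ}
  {Δ : Subgroup (Matrix.SpecialLinearGroup (Fin 2) ℝ)}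

theorem Y12_PP_Fil {G₀ : Matrix (Fin m) (Fin m) ℂ} (h : IsPHS w p Q G₀)
    (hs : ∀ j, p (s j) = w - p j) {x y : Fin m → ℂ} (hxy : x - y ∈ Fil p G₀ 0) :
    PP p s G₀ (-1) *ᵥ x = PP p s G₀ (-1) *ᵥ y := by
  have h1 := (h.mem_Fil_iff_PP hs 0 _).mp hxy (-1) (by norm_num)
  rw [Matrix.mulVec_sub] at h1
  exact sub_eq_zero.1 h1

theorem N0_mob (hv : IsVar w p Q G ν) (hs : ∀ j, p (s j) = w - p j) (hK : ∀ j, |p j| ≤ K)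
    (hd : Desc0 p Q G ν Δ) {δ : Matrix.SpecialLinearGroup (Fin 2) ℝ} (hδ : δ ∈ Δ) {z : ℂ}
    (hz : z ∈ Hc 0) : N0 w K Q p s G ν (mob δ z) = N0 w K Q p s G ν z := by
  obtain ⟨γ, hu, hγ, h⟩ := hd δ hδ
  obtain ⟨hF, hn⟩ := h z hz
  have hz1 : 0 < (mob δ z).im := mob_mem δ hz
  have hP : ∀ a, PP p s (G (mob δ z)) a * cm γ = cm γ * PP p s (G z) a :=
    fun a => PP_mob hv hs hu hγ hz hF a
  have h1 : PP p s (G (mob δ z)) (-1) *ᵥ ν (mob δ z) =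
      cm γ *ᵥ (PP p s (G z) (-1) *ᵥ ν z) := by
    rw [Y12_PP_Fil (hv.phs _ hz1) hs hn, Matrix.mulVec_mulVec, Matrix.mulVec_mulVec, hP]
  simp only [N0]
  rw [h1]
  exact hm_transport hγ hP _ _

/-- growth in the coordinate of the cusp -/
theorem Y12_growth {N : Matrix (Fin m ⊕ Unit) (Fin m ⊕ Unit) ℝ}
    {Ψ : ℂ → Matrix (Fin m) (Fin m) ℂ} {β : ℂ → Fin m → ℂ} {ε : ℝ}
    (h : CuspData w p Q N Ψ β ε) (hs : ∀ j, p (s j) = w - p j) (hK : ∀ j, |p j| ≤ K) :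
    ∃ C : ℕ, ∀ᶠ ζ in strip, qf (metr w K Q (PP p s (GG N Ψ ζ)))
      (PP p s (GG N Ψ ζ) (-1) *ᵥ VV N β ζ) ≤ ζ.im ^ C := by
  obtain ⟨C1, hC1⟩ := h.exists_compare hs hK
  obtain ⟨C2, hC2⟩ := exists_eV_le h.nil
  obtain ⟨B, hB, hβ⟩ := nex2_vec_bound (b := β) (fun i => nex2_cont h.eps (h.holb i))
  refine ⟨C1 + (C2 + 1) * 2, ?_⟩
  filter_upwards [hC1, hC2, tendsto_qq.eventually hβ, h.eventually, mon1_im (max B 1)]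
    with ζ h1 h2 h3 h4 h5
  have hy1 : 1 ≤ ζ.im := (le_max_right _ _).trans h5
  have hyB : B ≤ ζ.im := (le_max_left _ _).trans h5
  have hy0 : 0 ≤ ζ.im := zero_le_one.trans hy1
  have hd := (h.phs ζ h4).hd hs hK
  have hM : (metr w K Q (PP p s (GG N Ψ ζ))).PosDef := hd.posDef
  have e1 : ‖(Sum.elim (β (qq ζ)) 1 : Fin m ⊕ Unit → ℂ)‖ ≤ ζ.im := by
    refine (pi_norm_le_iff_of_nonneg hy0).mpr fun i => ?_
    rcases i with i | i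
    · simp only [Sum.elim_inl]
      exact (norm_le_pi_norm _ i).trans (h3.trans hyB)
    · simpa using hy1
  have e2 : ‖VV N β ζ‖ ≤ ζ.im ^ (C2 + 1) := by
    have e3 : ‖VV N β ζ‖ ≤ ‖eV N ζ *ᵥ Sum.elim (β (qq ζ)) 1‖ := by
      refine (pi_norm_le_iff_of_nonneg (norm_nonneg _)).mpr fun i => ?_
      exact norm_le_pi_norm (eV N ζ *ᵥ Sum.elim (β (qq ζ)) 1) (Sum.inl i)
    calc ‖VV N β ζ‖ ≤ ‖eV N ζ *ᵥ Sum.elim (β (qq ζ)) 1‖ := e3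
      _ ≤ ζ.im ^ C2 * ‖(Sum.elim (β (qq ζ)) 1 : Fin m ⊕ Unit → ℂ)‖ := (h2 _).1
      _ ≤ ζ.im ^ C2 * ζ.im := mul_le_mul_of_nonneg_left e1 (pow_nonneg hy0 _)
      _ = ζ.im ^ (C2 + 1) := by ring
  have hPP : PP p s (GG N Ψ ζ) (-1) * PP p s (GG N Ψ ζ) (-1) = PP p s (GG N Ψ ζ) (-1) := by
    rw [hd.mul, if_pos rfl]
  calc qf (metr w K Q (PP p s (GG N Ψ ζ))) (PP p s (GG N Ψ ζ) (-1) *ᵥ VV N β ζ)
      ≤ qf (metr w K Q (PP p s (GG N Ψ ζ))) (VV N β ζ) :=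
        grow_qf_proj_le hM (hd.adj_P (-1)) hPP _
    _ ≤ ζ.im ^ C1 * ‖VV N β ζ‖ ^ 2 := (h1 _).1
    _ ≤ ζ.im ^ C1 * (ζ.im ^ (C2 + 1)) ^ 2 := by
        refine mul_le_mul_of_nonneg_left ?_ (pow_nonneg hy0 _)
        exact pow_le_pow_left₀ (norm_nonneg _) e2 2
    _ = ζ.im ^ (C1 + (C2 + 1) * 2) := by rw [← pow_mul, ← pow_add]

theorem N0_growth (hv : IsVar w p Q G ν) (hs : ∀ j, p (s j) = w - p j) (hK : ∀ j, |p j| ≤ K)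
    (hd : Desc0 p Q G ν Δ) {σ : Matrix.SpecialLinearGroup (Fin 2) ℝ}
    (ha : AdmissibleAt p Q G ν Δ σ) :
    ∃ (C : ℕ) (Y₀ : ℝ), ∀ ζ : ℂ, 0 < ζ.im → Y₀ ≤ ζ.im →
      (N0 w K Q p s G ν (mob σ ζ)).re ≤ ζ.im ^ C := by
  obtain ⟨h, N, Ψ, β, ε, hh, hmem, -, hcd, hτ⟩ := hv.cuspData_cusp ha
  obtain ⟨C, hC⟩ := Y12_growth (K := K) hcd hs hK
  obtain ⟨y, hy⟩ := glo2_strip hC
  obtain ⟨y', hy'⟩ : ∃ y : ℝ, ∀ ζ : ℂ, y < ζ.im → ‖qq ζ‖ < ε := by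
    refine ⟨-Real.log ε / (2 * Real.pi), fun ζ hζ => ?_⟩
    rw [norm_qq, ← Real.lt_log_iff_exp_lt hcd.eps]
    rw [div_lt_iff₀ (by positivity)] at hζ
    nlinarith
  refine ⟨C + 1, max (max (y * h) ((y' + 1) * h)) (h⁻¹ ^ C), fun ζ hζ0 hζ => ?_⟩
  have hζ1 : y * h ≤ ζ.im := le_trans (le_trans (le_max_left _ _) (le_max_left _ _)) hζ
  have hζ2 : (y' + 1) * h ≤ ζ.im := le_trans (le_trans (le_max_right _ _) (le_max_left _ _)) hζ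
  have hζ3 : h⁻¹ ^ C ≤ ζ.im := le_trans (le_max_right _ _) hζ
  set τ : ℍ := ⟨ζ, hζ0⟩ with hτdef
  have hτim : τ.im = ζ.im := rfl
  obtain ⟨δ, τ', hδ, h3, h4, h5, h6⟩ := glo2_move hh hmem τ
  have e1 : mob σ ζ = ((σ • τ : ℍ) : ℂ) := mob_coe σ τ
  have hmemH : ((σ • τ : ℍ) : ℂ) ∈ Hc 0 := (σ • τ).im_pos
  have e2 := N0_mob (K := K) hv hs hK hd hδ hmemH
  rw [mob_coe, h3] at e2
  rw [e1, ← e2]
  set ξ : ℂ := (τ' : ℂ) / h with hξ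
  have hξim : ξ.im = ζ.im / h := by
    rw [hξ, Complex.div_ofReal_im, UpperHalfPlane.coe_im, h4, hτim]
  have hξ1 : y ≤ ξ.im := by
    rw [hξim, le_div_iff₀ hh]
    exact hζ1
  have hξ2 : y' < ξ.im := by
    rw [hξim, lt_div_iff₀ hh]
    nlinarith
  have hqq : ‖qq ξ‖ < ε := hy' ξ hξ2
  obtain ⟨h8, h9⟩ := hτ τ' hqq
  have hphs : IsPHS w p Q (G ((σ • τ' : ℍ) : ℂ)) := hv.phs _ (σ • τ').im_pos
  have hphs' : IsPHS w p Q (GG N Ψ ξ) := hcd.phs ξ hqq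
  have hPP : PP p s (G ((σ • τ' : ℍ) : ℂ)) = PP p s (GG N Ψ ξ) := by
    funext a
    exact hphs.PP_congr hphs' hs h8 a
  have hx := Y12_PP_Fil hphs hs h9
  have hval : (N0 w K Q p s G ν ((σ • τ' : ℍ) : ℂ)).re =
      qf (metr w K Q (PP p s (GG N Ψ ξ))) (PP p s (GG N Ψ ξ) (-1) *ᵥ VV N β ξ) := by
    rw [← hPP, ← hx]
    rfl
  rw [hval]
  have h10 := hy ξ hξ1 h5 h6
  refine h10.trans ?_
  rw [hξim, div_eq_mul_inv, mul_pow, pow_succ]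
  exact mul_le_mul_of_nonneg_left hζ3 (by positivity)

end Pool.Agent.LibZE25

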