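import Pool.Agent.LibZE25.Y11
import Pool.Agent.LibZE25.Y12

/-!
# No zeros
-/

open Matrix Complex Filter Topology MeasureTheory
open UpperHalfPlane hiding I
open scoped ComplexOrder ContDiff

namespace Pool.Agent.LibZE25

open SP38 US38

variable {κ : Type} [Fintype κ] {m : ℕ} {w : ℤ} {p : Fin m → ℤ} {s : Equiv.Perm (Fin m)}
  {Q : Matrix (Fin m) (Fin m) ℝ} {G : ℂ → Matrix (Fin m) (Fin m) ℂ} {ν : ℂ → Fin m → ℂ}
  {Δ : Subgroup (Matrix.SpecialLinearGroup (Fin 2) ℝ)}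
  {σ : κ → Matrix.SpecialLinearGroup (Fin 2) ℝ} {h : κ → ℝ} {D : Set ℍ}

theorem fp_fin (hc : IsCurve Δ σ h D) (hv : IsVar w p Q G ν) (hs : ∀ j, p (s j) = w - p j)
    (hν : ∀ z : ℂ, 0 < z.im → ν z ∈ Fil p (G z) (-1)) (hd : Desc0 p Q G ν Δ)
    (ha : ∀ i, AdmissibleAt p Q G ν Δ (σ i)) {z₀ : ℂ} (hz₀ : 0 < z₀.im)
    (h0 : ν z₀ ∈ Fil p (G z₀) 0) : ∀ z : ℂ, 0 < z.im → ν z ∈ Fil p (G z) 0 := by
  obtain ⟨K, hK⟩ := glo1_exists_bound p
  obtain ⟨hsm, hreal, hzero, hineq⟩ := N0_props hv hs hK hν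
  have hiff : ∀ z : ℂ, 0 < z.im → (ν z ∈ Fil p (G z) 0 ↔
      ∀ j, p j < 0 → ((G z).adjugate *ᵥ ν z) j = 0) := by
    intro z hz
    have hu := (hv.phs z hz).unit
    have hdet : IsUnit (G z).det := (Matrix.isUnit_iff_isUnit_det _).1 hu
    rw [mem_Fil_inv hu]
    have hrel : (G z).adjugate = (G z).det • (G z)⁻¹ := by
      rw [Matrix.inv_def, smul_smul, Ring.mul_inverse_cancel _ hdet, one_smul]
    have hd0 : (G z).det ≠ 0 := hdet.ne_zero
    constructor
    · intro h j hj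
      rw [hrel, Matrix.smul_mulVec, Pi.smul_apply, h j hj, smul_zero]
    · intro h j hj
      have := h j hj
      rw [hrel, Matrix.smul_mulVec, Pi.smul_apply, smul_eq_mul] at this
      exact (mul_eq_zero.1 this).resolve_left hd0
  by_contra hcon
  push Not at hcon
  obtain ⟨z₁, hz₁, hn₁⟩ := hcon
  have hex : ∃ j, p j < 0 ∧ ((G z₁).adjugate *ᵥ ν z₁) j ≠ 0 := by
    by_contra hh
    push Not at hh
    exact hn₁ ((hiff z₁ hz₁).2 hh)
  obtain ⟨j, hj, hne⟩ := hex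
  have hf : DifferentiableOn ℂ (fun z => ((G z).adjugate *ᵥ ν z) j) {z : ℂ | 0 < z.im} := by
    have h1 : (fun z => ((G z).adjugate *ᵥ ν z) j) = fun z =>
        ∑ k, (G z).adjugate j k * ν z k := by
      funext z
      simp [Matrix.mulVec, dotProduct]
    rw [h1]
    refine DifferentiableOn.fun_sum fun k _ => ?_
    exact DifferentiableOn.mul (glo1_adj_diff hv.holG j k) (hv.holn k)
  have han := hf.analyticOnNhd glo1_isOpen_uhp
  have hiso : ∀ z₂ : ℂ, 0 < z₂.im → ∀ᶠ z in 𝓝[≠] z₂, N0 w K Q p s G ν z ≠ 0 := by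
    intro z₂ hz₂
    have h1 : ∀ᶠ z in 𝓝[≠] z₂, ((G z).adjugate *ᵥ ν z) j ≠ 0 := by
      by_contra hh
      rw [Filter.not_eventually] at hh
      simp only [not_not] at hh
      exact hne (han.eqOn_zero_of_preconnected_of_frequently_eq_zero glo1_preconnected_uhp hz₂
        hh hz₁)
    have h2 : ∀ᶠ z in 𝓝[≠] z₂, 0 < z.im :=
      eventually_nhdsWithin_of_eventually_nhds (glo1_isOpen_uhp.mem_nhds hz₂)
    filter_upwards [h1, h2] with z hz hz' h3
    exact hz ((hiff z hz').1 ((hzero z hz').1 h3) j hj)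
  have hP : Pot Δ 0 (N0 w K Q p s G ν) (fun _ => 0) := by
    refine ⟨le_rfl, hsm, SmS_const 0, fun z hz => (hreal z hz).1, fun z hz => (hreal z hz).2,
      ?_, ?_, fun δ hδ z hz => N0_mob hv hs hK hd hδ hz, ?_⟩
    · intro z hz
      rw [Real.sqrt_zero, zero_div, zero_mul, norm_zero]
    · intro ε hε z hz
      rw [zero_div, neg_zero]
      exact hineq ε hε z hz
    · intro δ hδ z hz
      unfold pb
      rw [zero_mul]
  have hle := zeros_le hc hP (fun i => N0_growth hv hs hK hd (ha i)) hiso {(⟨z₀, hz₀⟩ : ℍ)}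
    (fun z hz => by
      rw [Finset.mem_singleton] at hz
      subst hz
      exact (hzero z₀ hz₀).2 h0)
    (fun z hz z' hz' δ _ _ => by
      rw [Finset.mem_singleton] at hz hz'
      rw [hz, hz'])
  rw [Finset.card_singleton, Nat.cast_one, one_mul, zero_mul] at hle
  exact absurd hle (not_le.2 Real.pi_pos)

end Pool.Agent.LibZE25
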