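import Pool.Agent.LibUS38.Hm2
import Pool.Agent.LibUS38.NPT
import Pool.Agent.LibUS38.WirtC2

/-!
# Plurisubharmonicity of `log |x|²`, `x` the lowest component of a holomorphic section
-/

open Matrix Complex
open scoped ComplexOrder ContDiff

namespace Pool.Agent.LibZE25

open SP38 US38

variable {m : ℕ} {w : ℤ} {K : ℕ} {Q : Matrix (Fin m) (Fin m) ℝ} {Ω : Set ℂ}
  {P : ℂ → ℤ → Matrix (Fin m) (Fin m) ℂ} {θ : ℂ → Matrix (Fin m) (Fin m) ℂ}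
  {v u : ℂ → Fin m → ℂ} {z : ℂ}

theorem Y10_u (hΩ : IsOpen Ω) (hv : SmV Ω v) (hD : ∀ z ∈ Ω, DV v z = u z)
    (hDb : ∀ z ∈ Ω, DVb v z = 0) (hz : z ∈ Ω) : DVb u z = 0 := by
  funext i
  have h1 : dzb (fun z => u z i) z = dzb (SP38.dz (fun z => v z i)) z :=
    dzb_congr (Filter.eventually_of_mem (hΩ.mem_nhds hz) fun x hx => by
      have := congrFun (hD x hx) i
      exact this.symm)
  have h2 : SP38.dz (SP38.dzb (fun z => v z i)) z = SP38.dz (fun _ => (0 : ℂ)) z :=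
    dz_congr (Filter.eventually_of_mem (hΩ.mem_nhds hz) fun x hx => congrFun (hDb x hx) i)
  change dzb (fun z => u z i) z = 0
  rw [h1, ← (hv i).dz_dzb hΩ hz, h2, dz_const]

theorem Y10_D2 (hΩ : IsOpen Ω) (h : PV w K Q Ω P θ) (hv : SmV Ω v)
    (hDb : ∀ z ∈ Ω, DVb v z = 0) {a : ℤ} (h1 : ∀ z ∈ Ω, P z (a - 1) *ᵥ v z = 0) (hz : z ∈ Ω) :
    D2 θ (fun z => P z a *ᵥ v z) z = 0 := by
  have e1 := DVb_mulVec hΩ hz (h.sm a) hv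
  have e2 := h.degB hz (a - 1)
  rw [sub_add_cancel] at e2
  have e3 : P z a *ᵥ ((θ z).map (starRingEnd ℂ) *ᵥ v z) = 0 := by
    rw [Matrix.mulVec_mulVec, ← e2, ← Matrix.mulVec_mulVec, h1 z hz, Matrix.mulVec_zero]
  unfold D2 tb
  rw [e1, h.derB hΩ hz a, hDb z hz, Matrix.mulVec_zero, add_zero, Matrix.sub_mulVec,
    ← Matrix.mulVec_mulVec, ← Matrix.mulVec_mulVec, e3, sub_zero, sub_self]

theorem Y10_D1 (hΩ : IsOpen Ω) (h : PV w K Q Ω P θ) (hv : SmV Ω v)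
    (hD : ∀ z ∈ Ω, DV v z = u z) {a : ℤ} (hz : z ∈ Ω) :
    D1 θ (fun z => P z a *ᵥ v z) z = P z a *ᵥ (u z - θ z *ᵥ v z) := by
  have e1 := DV_mulVec hΩ hz (h.sm a) hv
  unfold D1
  rw [e1, h.der z hz a, hD z hz, Matrix.sub_mulVec, Matrix.mulVec_sub, ← Matrix.mulVec_mulVec,
    ← Matrix.mulVec_mulVec]
  abel

theorem Y10_D2Y (hΩ : IsOpen Ω) (h : PV w K Q Ω P θ) (hv : SmV Ω v) (hu : SmV Ω u)
    (hD : ∀ z ∈ Ω, DV v z = u z) (hDb : ∀ z ∈ Ω, DVb v z = 0) {a : ℤ}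
    (h2 : ∀ z ∈ Ω, P z (a - 1) *ᵥ u z = 0) (hz : z ∈ Ω) :
    D2 θ (fun z => P z a *ᵥ (u z - θ z *ᵥ v z)) z =
      θ z *ᵥ (tb θ z *ᵥ (P z a *ᵥ v z)) := by
  have hs : SmV Ω (fun z => u z - θ z *ᵥ v z) := hu.sub (SmV.mulVec h.smθ hv)
  have e1 := DVb_mulVec hΩ hz (h.sm a) hs
  have e2 := DVb_sub hΩ hz hu (SmV.mulVec h.smθ hv)
  have e3 := DVb_mulVec hΩ hz h.smθ hv
  rw [hDb z hz, Matrix.mulVec_zero, add_zero, h.DB_θ hΩ hz] at e3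
  rw [Y10_u hΩ hv hD hDb hz, e3] at e2
  rw [e2, h.derB hΩ hz a] at e1
  have e4 := h.degB hz (a - 1)
  rw [sub_add_cancel] at e4
  have e5 : P z a *ᵥ ((θ z).map (starRingEnd ℂ) *ᵥ u z) = 0 := by
    rw [Matrix.mulVec_mulVec, ← e4, ← Matrix.mulVec_mulVec, h2 z hz, Matrix.mulVec_zero]
  have e6 := h.deg z hz (a + 1)
  rw [add_sub_cancel_right] at e6
  have e7 := h.degB hz a
  have e8 : P z a *ᵥ (θ z *ᵥ ((θ z).map (starRingEnd ℂ) *ᵥ v z)) =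
      θ z *ᵥ ((θ z).map (starRingEnd ℂ) *ᵥ (P z a *ᵥ v z)) := by
    rw [Matrix.mulVec_mulVec, ← e6, ← Matrix.mulVec_mulVec]
    congr 1
    rw [Matrix.mulVec_mulVec, ← e7, ← Matrix.mulVec_mulVec]
  unfold D2 tb
  rw [e1, ← e8]
  simp only [Matrix.sub_mulVec, Matrix.mulVec_sub, ← Matrix.mulVec_mulVec, zero_sub,
    Matrix.mulVec_neg, e5]
  abel

theorem Y10_real {q r N ε t : ℝ} (hε : 0 < ε) (hN : 0 ≤ N) (hr : 0 ≤ r) (hq : 0 ≤ q)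
    (ht : t ≤ r * N) : 0 ≤ (q + r) / (N + ε) - t / (N + ε) ^ 2 := by
  have hNe : 0 < N + ε := by linarith
  have e1 : (q + r) / (N + ε) - t / (N + ε) ^ 2 = ((q + r) * (N + ε) - t) / (N + ε) ^ 2 := by
    field_simp
  rw [e1]
  apply div_nonneg _ (by positivity)
  have h1 : 0 ≤ q * (N + ε) := mul_nonneg hq hNe.le
  have h2 : 0 ≤ r * ε := mul_nonneg hr hε.le
  nlinarith

theorem rho_hol (hΩ : IsOpen Ω) (h : PV w K Q Ω P θ) (hv : SmV Ω v) (hu : SmV Ω u)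
    (hD : ∀ z ∈ Ω, DV v z = u z) (hDb : ∀ z ∈ Ω, DVb v z = 0) {a : ℤ}
    (h1 : ∀ z ∈ Ω, P z (a - 1) *ᵥ v z = 0) (h2 : ∀ z ∈ Ω, P z (a - 1) *ᵥ u z = 0) {ε : ℝ}
    (hε : 0 < ε) (hz : z ∈ Ω) :
    0 ≤ rho (jj (fun z => hm (metr w K Q (P z)) (P z a *ᵥ v z) (P z a *ᵥ v z))
      (fun _ => 0) ε) z := by
  have hd := (h.hd z hz).posDef
  have hX : SmV Ω (fun z => P z a *ᵥ v z) := SmV.mulVec (h.sm a) hv
  have hY : SmV Ω (fun z => P z a *ᵥ (u z - θ z *ᵥ v z)) :=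
    SmV.mulVec (h.sm a) (hu.sub (SmV.mulVec h.smθ hv))
  obtain ⟨N, hN⟩ : ∃ N : ℂ → ℂ, N = fun z => hm (metr w K Q (P z)) (P z a *ᵥ v z)
    (P z a *ᵥ v z) := ⟨_, rfl⟩
  have hNs : SmS Ω N := by
    rw [hN]
    exact SmS_hm hΩ h hX hX
  have hNr : ∀ z ∈ Ω, N z = ((qf (metr w K Q (P z)) (P z a *ᵥ v z) : ℝ) : ℂ) := fun z hz => by
    rw [hN]
    exact hm_self (h.hd z hz).posDef _
  have hz0 : ∀ z ∈ Ω, ∀ x : Fin m → ℂ, hm (metr w K Q (P z)) x 0 = 0 := fun z _ x => by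
    unfold hm
    rw [star_zero, zero_dotProduct]
  have hz0' : ∀ z ∈ Ω, ∀ x : Fin m → ℂ, hm (metr w K Q (P z)) 0 x = 0 := fun z _ x => by
    unfold hm
    rw [Matrix.mulVec_zero, dotProduct_zero]
  have hdz : ∀ z ∈ Ω, dz N z = hm (metr w K Q (P z)) (P z a *ᵥ (u z - θ z *ᵥ v z))
      (P z a *ᵥ v z) := fun z hz => by
    have e1 := dz_hm hΩ h hX hX hz
    rw [Y10_D2 hΩ h hv hDb h1 hz, hz0 z hz, add_zero, Y10_D1 hΩ h hv hD hz] at e1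
    rw [hN]
    exact e1
  have hdzb : dzb N z = hm (metr w K Q (P z)) (P z a *ᵥ v z)
      (P z a *ᵥ (u z - θ z *ᵥ v z)) := by
    have e1 := dzb_hm hΩ h hX hX hz
    rw [Y10_D2 hΩ h hv hDb h1 hz, hz0' z hz, zero_add, Y10_D1 hΩ h hv hD hz] at e1
    rw [hN]
    exact e1
  have hdd : dzb (dz N) z = ((qf (metr w K Q (P z)) (tb θ z *ᵥ (P z a *ᵥ v z)) +
      qf (metr w K Q (P z)) (P z a *ᵥ (u z - θ z *ᵥ v z)) : ℝ) : ℂ) := by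
    have e1 := dzb_hm hΩ h hY hX hz
    rw [Y10_D2Y hΩ h hv hu hD hDb h2 hz, Y10_D1 hΩ h hv hD hz, hm_theta h hz, hm_self hd,
      hm_self hd, ← Complex.ofReal_add] at e1
    rw [← e1]
    exact dzb_congr (Filter.eventually_of_mem (hΩ.mem_nhds hz) fun x hx => hdz x hx)
  have h5 := dzb_jj (T := fun _ => (0 : ℂ)) hΩ hNs (SmS_const 0) (fun z hz => by
    rw [hNr z hz, Complex.ofReal_im]) (fun z hz => by
    rw [hNr z hz, Complex.ofReal_re]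
    exact qf_nonneg (h.hd z hz).posDef _) hε hz
  rw [← hN]
  rw [hdd, hdz z hz, hdzb, hNr z hz, dzb_const, mul_zero, add_zero, add_zero] at h5
  have h6 := norm_hm_le hd (P z a *ᵥ (u z - θ z *ᵥ v z)) (P z a *ᵥ v z)
  have h7 := hm_comm hd (P z a *ᵥ v z) (P z a *ᵥ (u z - θ z *ᵥ v z))
  rw [h7] at h5
  generalize hm (metr w K Q (P z)) (P z a *ᵥ (u z - θ z *ᵥ v z)) (P z a *ᵥ v z) = c at h5 h6
  have q0 := qf_nonneg hd (tb θ z *ᵥ (P z a *ᵥ v z))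
  have r0 := qf_nonneg hd (P z a *ᵥ (u z - θ z *ᵥ v z))
  have n0 := qf_nonneg hd (P z a *ᵥ v z)
  generalize qf (metr w K Q (P z)) (tb θ z *ᵥ (P z a *ᵥ v z)) = q at h5 q0
  generalize qf (metr w K Q (P z)) (P z a *ᵥ (u z - θ z *ᵥ v z)) = r at h5 h6 r0
  generalize qf (metr w K Q (P z)) (P z a *ᵥ v z) = n at h5 h6 n0
  have h8 : dzb (jj N (fun _ => 0) ε) z =
      ((((q + r) / (n + ε) - ‖c‖ ^ 2 / (n + ε) ^ 2) / 2 : ℝ) : ℂ) := by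
    rw [h5]
    have h9 : c / 2 * (starRingEnd ℂ) c = ((‖c‖ ^ 2 / 2 : ℝ) : ℂ) := by
      rw [div_mul_eq_mul_div, Complex.mul_conj, Complex.normSq_eq_norm_sq]
      push_cast
      ring
    rw [h9]
    push_cast
    ring
  rw [rho, h8, Complex.ofReal_re]
  have h10 := Y10_real (q := q) (r := r) (N := n) (ε := ε) (t := ‖c‖ ^ 2) hε n0 r0 q0 h6
  linarith

end Pool.Agent.LibZE25
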