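import Pool.Agent.LibZE25.Der

/-!
# Elements with nonzero constant term do not vanish in the field
-/

open PowerSeries

namespace Pool.Agent.LibZE25

theorem DF.φ_ne_zero (F : DF) {f : RR} (hf : coeff 0 (coeff 0 f) ≠ 0) : F.φ f ≠ 0 := by
  have h1 : IsUnit (coeff 0 (coeff 0 f)) := isUnit_iff_ne_zero.mpr hf
  rw [coeff_zero_eq_constantCoeff_apply, coeff_zero_eq_constantCoeff_apply] at h1
  have h2 : IsUnit (constantCoeff f) := PowerSeries.isUnit_iff_constantCoeff.mpr h1
  have h3 : IsUnit f := PowerSeries.isUnit_iff_constantCoeff.mpr h2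
  exact (h3.map F.φ).ne_zero

end Pool.Agent.LibZE25
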