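import Pool.Agent.LibZE25.EDefs

/-!
# Spans of columns; constant vectors; the chain argument
-/

namespace Pool.Agent.LibZE25

private theorem Z22_exists {K : Type} [Field K] {ι : Type} [Fintype ι] [DecidableEq ι]
    {p : ι → ℤ} {A : Matrix ι ι K} {a : ℤ} {v : ι → K} :
    v ∈ colSp p A a ↔ ∃ c : ι → K, (∀ j, p j < a → c j = 0) ∧ v = A.mulVec c := by
  constructor
  · intro hv
    rw [colSp] at hv
    induction hv using Submodule.span_induction with
    | mem x hx =>
      obtain ⟨j, hj, rfl⟩ := hx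
      refine ⟨Pi.single j 1, ?_, ?_⟩
      · intro i hi
        rw [Pi.single_apply, if_neg]
        rintro rfl
        exact absurd hj (not_le.mpr hi)
      · rw [Matrix.mulVec_single_one]
        rfl
    | zero => exact ⟨0, fun _ _ => rfl, (Matrix.mulVec_zero A).symm⟩
    | add x y _ _ hx hy =>
      obtain ⟨c, hc, rfl⟩ := hx
      obtain ⟨c', hc', rfl⟩ := hy
      refine ⟨c + c', ?_, (Matrix.mulVec_add A c c').symm⟩
      intro j hj
      rw [Pi.add_apply, hc j hj, hc' j hj, add_zero]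
    | smul r x _ hx =>
      obtain ⟨c, hc, rfl⟩ := hx
      refine ⟨r • c, ?_, (Matrix.mulVec_smul A r c).symm⟩
      intro j hj
      rw [Pi.smul_apply, hc j hj, smul_zero]
  · rintro ⟨c, hc, rfl⟩
    have h1 : A.mulVec c = ∑ j, c j • (fun i => A i j) := by
      ext i
      rw [Finset.sum_apply, Matrix.mulVec, dotProduct]
      refine Finset.sum_congr rfl fun j _ => ?_
      rw [Pi.smul_apply, smul_eq_mul, mul_comm]
    rw [h1]
    refine Submodule.sum_mem _ fun j _ => ?_
    by_cases hj : a ≤ p j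
    · exact Submodule.smul_mem _ _ (Submodule.subset_span ⟨j, hj, rfl⟩)
    · rw [hc j (not_le.mp hj), zero_smul]
      exact Submodule.zero_mem _

theorem mem_colSp_iff {K : Type} [Field K] {ι : Type} [Fintype ι] [DecidableEq ι] {p : ι → ℤ}
    {A : Matrix ι ι K} (hA : IsUnit A) {a : ℤ} {v : ι → K} :
    v ∈ colSp p A a ↔ ∀ i, p i < a → (A⁻¹.mulVec v) i = 0 := by
  have hdet : IsUnit A.det := (Matrix.isUnit_iff_isUnit_det A).mp hA
  rw [Z22_exists]
  constructor
  · rintro ⟨c, hc, rfl⟩ i hi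
    rw [Matrix.mulVec_mulVec, Matrix.nonsing_inv_mul A hdet, Matrix.one_mulVec]
    exact hc i hi
  · intro h
    refine ⟨A⁻¹.mulVec v, h, ?_⟩
    rw [Matrix.mulVec_mulVec, Matrix.mul_nonsing_inv A hdet, Matrix.one_mulVec]

theorem mem_colSp_iff_exists {K : Type} [Field K] {ι : Type} [Fintype ι] [DecidableEq ι]
    {p : ι → ℤ} {A : Matrix ι ι K} {a : ℤ} {v : ι → K} :
    v ∈ colSp p A a ↔ ∃ c : ι → K, (∀ j, p j < a → c j = 0) ∧ v = A.mulVec c :=
  Z22_exists

/-- a subspace stable under a derivation contains a nonzero constant vector -/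
theorem exists_const {K : Type} [Field K] [Algebra ℂ K] (D : Derivation ℂ K K) {ι : Type}
    [Fintype ι] (L : Submodule K (ι → K)) (hL : L ≠ ⊥)
    (hD : ∀ v ∈ L, (fun i => D (v i)) ∈ L) : ∃ e ∈ L, e ≠ 0 ∧ ∀ i, D (e i) = 0 := by
  classical
  have hex : ∃ n, ∃ v ∈ L, v ≠ 0 ∧ (Finset.univ.filter fun i => v i ≠ 0).card = n := by
    obtain ⟨v, hv, hv0⟩ := (Submodule.ne_bot_iff L).mp hL
    exact ⟨_, v, hv, hv0, rfl⟩
  obtain ⟨v, hv, hv0, hvn⟩ := Nat.find_spec hex
  have hmin : ∀ w ∈ L, w ≠ 0 → Nat.find hex ≤ (Finset.univ.filter fun i => w i ≠ 0).card :=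
    fun w hw hw0 => Nat.find_min' hex ⟨w, hw, hw0, rfl⟩
  obtain ⟨i₀, hi₀⟩ : ∃ i, v i ≠ 0 := by
    by_contra hc
    push Not at hc
    exact hv0 (funext hc)
  have he : (v i₀)⁻¹ • v ∈ L := L.smul_mem _ hv
  have he0 : ((v i₀)⁻¹ • v) i₀ = 1 := by
    rw [Pi.smul_apply, smul_eq_mul, inv_mul_cancel₀ hi₀]
  refine ⟨(v i₀)⁻¹ • v, he, ?_, ?_⟩
  · intro hc
    rw [hc] at he0
    exact zero_ne_one he0
  · by_contra hc
    push Not at hc
    obtain ⟨i₁, hi₁⟩ := hc
    have h1 := hmin _ (hD _ he) (by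
      intro h2
      exact hi₁ (congrFun h2 i₁))
    rw [← hvn] at h1
    refine absurd h1 (not_le.mpr ?_)
    refine Finset.card_lt_card ?_
    rw [Finset.ssubset_iff_of_subset]
    · refine ⟨i₀, ?_, ?_⟩
      · simp only [Finset.mem_filter, Finset.mem_univ, true_and]
        exact hi₀
      · simp only [Finset.mem_filter, Finset.mem_univ, true_and, not_not]
        rw [he0, D.map_one_eq_zero]
    · intro i
      simp only [Finset.mem_filter, Finset.mem_univ, true_and]
      intro h2 h3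
      apply h2
      rw [Pi.smul_apply, h3, smul_zero, map_zero]

/-- the chain argument -/
theorem exists_chain {K : Type} [Field K] [Algebra ℂ K] (D : Derivation ℂ K K) {ι : Type}
    [Fintype ι] (m : ℕ) (L : ℕ → Submodule K (ι → K)) (h0 : L 0 ≠ ⊥)
    (hmono : ∀ j, L j ≤ L (j + 1)) (hD : ∀ j, ∀ v ∈ L j, (fun i => D (v i)) ∈ L (j + 1))
    (hm : Module.finrank K (L m) ≤ m) :
    ∃ j < m, ∃ e ∈ L j, e ≠ 0 ∧ ∀ i, D (e i) = 0 := by
  have hge : ∀ j, L 0 ≤ L j := by
    intro j
    induction j with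
    | zero => exact le_refl _
    | succ j ih => exact ih.trans (hmono j)
  have hne : ∀ j, L j ≠ ⊥ := fun j hj => h0 (eq_bot_iff.mpr ((hge j).trans (le_of_eq hj)))
  by_contra hcon
  have hstep : ∀ j < m, Module.finrank K (L j) < Module.finrank K (L (j + 1)) := by
    intro j hj
    refine lt_of_le_of_ne (Submodule.finrank_mono (hmono j)) ?_
    intro heq
    have h1 : L j = L (j + 1) := Submodule.eq_of_le_of_finrank_eq (hmono j) heq
    refine hcon ⟨j, hj, exists_const D (L j) (hne j) ?_⟩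
    intro v hv
    have h2 := hD j v hv
    rw [← h1] at h2
    exact h2
  have hlow : ∀ j ≤ m, j + 1 ≤ Module.finrank K (L j) := by
    intro j
    induction j with
    | zero =>
      intro _
      have h1 : Module.finrank K (L 0) ≠ 0 := by
        rw [Ne, Submodule.finrank_eq_zero]
        exact h0
      omega
    | succ j ih =>
      intro hj
      have h1 := ih (by omega)
      have h2 := hstep j (by omega)
      omega
  have h1 := hlow m le_rfl
  omega

end Pool.Agent.LibZE25
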