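import Pool.Agent.LibZE25.FDefs
import Pool.Agent.LibZE25.Z20

/-!
# Comparison of the twisted and untwisted frames; they are invertible
-/

open PowerSeries

namespace Pool.Agent.LibZE25

variable {ι : Type} [Fintype ι] [DecidableEq ι]

namespace DF

variable (F : DF) {wt p : ι → ℤ} {d : ℕ} {n : Matrix ι ι ℂ} {A : Matrix ι ι (PowerSeries ℂ)}

private theorem Z25_half : F.φ ((1 / 2 : ℂ) • YR) = F.φ YR / 2 := by
  rw [Algebra.smul_def, map_mul, F.φ_alg, map_div₀, map_one, map_ofNat]
  ring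

private theorem Z25_neg (hn : n ^ d = 0) : (-n) ^ d = 0 := by
  rw [neg_pow, hn, mul_zero]

theorem fz_eq (hn : n ^ d = 0) :
    F.fz d n A = expn d n (F.U / 2) * (rz d n A).map F.φ ∧
    F.fw d n A = expn d n (F.U / 2) * (rw' d n A).map F.φ := by
  constructor
  · unfold DF.fz rz
    have h1 : F.lz = F.U / 2 + F.φ ((1 / 2 : ℂ) • YR) := by
      rw [Z25_half]
      unfold DF.lz
      ring
    rw [h1, expn_add hn, ← expn_map F.φ F.φ_alg, Matrix.map_mul, Matrix.mul_assoc]
    rfl
  · unfold DF.fw rw'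
    have h1 : F.lw = -(F.U / 2) + F.φ ((1 / 2 : ℂ) • YR) := by
      rw [Z25_half]
      unfold DF.lw
      ring
    rw [h1, expn_add (Z25_neg hn), expn_neg (-(F.U / 2)), neg_neg, ← expn_map F.φ F.φ_alg,
      Matrix.map_mul, Matrix.mul_assoc]
    rfl

theorem isUnit_expn (hn : n ^ d = 0) (x : F.K) : IsUnit (expn d n x) := by
  rw [Matrix.isUnit_iff_isUnit_det]
  refine Matrix.isUnit_det_of_right_inverse (B := expn d n (-x)) ?_
  rw [← expn_add hn, add_neg_cancel, expn_zero hn]

theorem isUnit_fz (h : FData wt p d n A) : IsUnit (F.fz d n A) ∧ IsUnit (F.fw d n A) := by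
  constructor
  · unfold DF.fz
    exact (F.isUnit_expn h.nil _).mul (h.unit.map (RingHom.mapMatrix F.iz))
  · unfold DF.fw
    exact (F.isUnit_expn (Z25_neg h.nil) _).mul
      (h.unit.map (RingHom.mapMatrix (F.iw.comp (PowerSeries.map (starRingEnd ℂ)))))

end DF

end Pool.Agent.LibZE25
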