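import Pool.Agent.LibZE25.Z11
import Pool.Agent.LibZE25.Z22
import Pool.Agent.LibZE25.Z25

/-!
# Transversality: `D N_j ⊆ N_{j+1}`
-/

open PowerSeries

namespace Pool.Agent.LibZE25

variable {ι : Type} [Fintype ι] [DecidableEq ι]

omit [DecidableEq ι] in
theorem Z26_map_mul {K : Type} [Field K] [Algebra ℂ K] (D : Derivation ℂ K K)
    (M N : Matrix ι ι K) : (M * N).map D = M.map D * N + M * N.map D := by
  ext i j
  simp only [Matrix.map_apply, Matrix.mul_apply, Matrix.add_apply, map_sum, D.leibniz,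
    smul_eq_mul]
  rw [← Finset.sum_add_distrib]
  exact Finset.sum_congr rfl fun k _ => by ring

omit [DecidableEq ι] in
theorem Z26_map_mulVec {K : Type} [Field K] [Algebra ℂ K] (D : Derivation ℂ K K)
    (M : Matrix ι ι K) (c : ι → K) :
    (fun i => D (M.mulVec c i)) = (M.map D).mulVec c + M.mulVec fun i => D (c i) := by
  funext i
  simp only [Matrix.mulVec, dotProduct, Pi.add_apply, Matrix.map_apply, map_sum, D.leibniz,
    smul_eq_mul]
  rw [← Finset.sum_add_distrib]
  exact Finset.sum_congr rfl fun k _ => by ring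

/-- the derivative of the frame -/
theorem Z26_frame {K : Type} [Field K] [Algebra ℂ K] (D : Derivation ℂ K K)
    (I : PowerSeries ℂ →+* K) (hI : ∀ c : ℂ, I (C c) = algebraMap ℂ K c) (t l : K)
    (hD : ∀ f, D (I f) = t * I (X * derivative ℂ f)) (hl : D l = t) {d : ℕ}
    {n : Matrix ι ι ℂ} (hn : n ^ d = 0) {A T : Matrix ι ι (PowerSeries ℂ)}
    (hT : n.map (C : ℂ →+* PowerSeries ℂ) * A + (A.map fun f => X * derivative ℂ f) = A * T) :
    (expn d n l * A.map I).map D = t • (expn d n l * A.map I * T.map I) := by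
  have h1 : (A.map I).map D = t • (A.map fun f => X * derivative ℂ f).map I := by
    ext i j
    simp only [Matrix.map_apply, Matrix.smul_apply, smul_eq_mul]
    exact hD _
  have h2 : n.map (algebraMap ℂ K) = (n.map (C : ℂ →+* PowerSeries ℂ)).map I := by
    ext i j
    simp only [Matrix.map_apply]
    exact (hI _).symm
  rw [Z26_map_mul, expn_der D hn, hl, expn_comm, h1, Matrix.smul_mul, Matrix.mul_smul,
    ← smul_add, h2, Matrix.mul_assoc, Matrix.mul_assoc, ← Matrix.mul_add]
  congr 2
  rw [← Matrix.map_mul, ← Matrix.map_mul, ← hT, Matrix.map_add _ (map_add I)]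

/-- transversality for one frame -/
theorem Z26_step {K : Type} [Field K] [Algebra ℂ K] (D : Derivation ℂ K K)
    (I : PowerSeries ℂ →+* K) (hI : ∀ c : ℂ, I (C c) = algebraMap ℂ K c) (t l : K)
    (hD : ∀ f, D (I f) = t * I (X * derivative ℂ f)) (hl : D l = t) {d : ℕ} {p : ι → ℤ}
    {n : Matrix ι ι ℂ} (hn : n ^ d = 0) {A T : Matrix ι ι (PowerSeries ℂ)}
    (hT0 : ∀ i j, p i < p j - 1 → T i j = 0)
    (hT : n.map (C : ℂ →+* PowerSeries ℂ) * A + (A.map fun f => X * derivative ℂ f) = A * T)
    (a : ℤ) (v : ι → K) (hv : v ∈ colSp p (expn d n l * A.map I) a) :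
    (fun i => D (v i)) ∈ colSp p (expn d n l * A.map I) (a - 1) := by
  obtain ⟨c, hc, rfl⟩ := mem_colSp_iff_exists.mp hv
  refine mem_colSp_iff_exists.mpr
    ⟨(fun i => D (c i)) + t • (T.map I).mulVec c, fun i hi => ?_, ?_⟩
  · rw [Pi.add_apply, Pi.smul_apply, hc i (by omega), map_zero, zero_add]
    have : (T.map I).mulVec c i = 0 := by
      rw [Matrix.mulVec, dotProduct]
      refine Finset.sum_eq_zero fun k _ => ?_
      by_cases hk : p k < a
      · rw [hc k hk, mul_zero]
      · rw [Matrix.map_apply, hT0 i k (by omega), map_zero, zero_mul]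
    rw [this, smul_zero]
  · rw [Z26_map_mulVec, Z26_frame D I hI t l hD hl hn hT, Matrix.mulVec_add, add_comm,
      Matrix.smul_mulVec, Matrix.mulVec_smul, Matrix.mulVec_mulVec]

namespace DF

variable (F : DF) {wt p : ι → ℤ} {d : ℕ} {n : Matrix ι ι ℂ} {A : Matrix ι ι (PowerSeries ℂ)}

theorem NN_step (h : FData wt p d n A) (j : ℕ) (v : ι → F.K) (hv : v ∈ F.NN p d n A j) :
    (fun i => F.D (v i)) ∈ F.NN p d n A (j + 1) := by
  obtain ⟨T, hT0, hT⟩ := h.tr
  have ha : -((j + 1 : ℕ) : ℤ) = -(j : ℤ) - 1 := by push_cast; ring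
  refine ⟨?_, ?_⟩
  · show _ ∈ colSp p (F.fz d n A) (-((j + 1 : ℕ) : ℤ))
    rw [ha]
    exact Z26_step F.D F.iz F.iz_C F.tz F.lz F.D_iz F.D_lz h.nil hT0 hT _ v hv.1
  · show _ ∈ colSp p (F.fw d n A) (-((j + 1 : ℕ) : ℤ))
    rw [ha]
    set cj : PowerSeries ℂ →+* PowerSeries ℂ := PowerSeries.map (starRingEnd ℂ) with hcj
    have e1 : F.fw d n A = expn d (-n) F.lw * (A.map cj).map F.iw := by
      rw [fw, Matrix.map_map]
      rfl
    have hn' : (-n) ^ d = 0 := by rw [neg_pow, h.nil, mul_zero]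
    have hT' : (-n).map (C : ℂ →+* PowerSeries ℂ) * A.map cj +
        ((A.map cj).map fun f => X * derivative ℂ f) = A.map cj * T.map cj := by
      have h1 := congrArg (fun M => Matrix.map M cj) hT
      simp only [Matrix.map_add _ (map_add cj), Matrix.map_mul] at h1
      rw [← h1]
      congr 1
      · congr 1
        rw [← h.cnj]
        ext i k : 2
        simp only [Matrix.map_apply, hcj, PowerSeries.map_C]
      · ext i k : 2
        simp only [Matrix.map_apply, hcj, map_mul, PowerSeries.map_X]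
        have hder : ∀ f : PowerSeries ℂ, derivative ℂ (PowerSeries.map (starRingEnd ℂ) f) =
            PowerSeries.map (starRingEnd ℂ) (derivative ℂ f) := by
          intro f
          ext m
          simp [PowerSeries.coeff_derivative]
        rw [hder]
    rw [e1]
    refine Z26_step F.D F.iw F.iw_C F.tw F.lw F.D_iw F.D_lw hn' (T := T.map cj) ?_ hT' _ v ?_
    · intro i k hik
      rw [Matrix.map_apply, hT0 i k hik, map_zero]
    · rw [← e1]
      exact hv.2

end DF

end Pool.Agent.LibZE25
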