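import Pool.Agent.LibZE25.Z21
import Pool.Agent.LibZE25.Z22
import Pool.Agent.LibZE25.Z25

/-!
# If all maximal minors of the frames of `F^0` vanish, then `N_0 ≠ 0`
-/

open PowerSeries

namespace Pool.Agent.LibZE25

variable {ι : Type} [Fintype ι] [DecidableEq ι]

private theorem Z27_sum {K : Type} [Field K] (P : ι → Prop) [DecidablePred P] (f : ι → K)
    (g : {j // P j} → K) :
    ∑ j, f j * (if hj : P j then g ⟨j, hj⟩ else 0) = ∑ j : {j // P j}, f j * g j := by
  rw [← Fintype.sum_subtype_add_sum_subtype P]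
  have h2 : ∑ i : {x // ¬ P x}, f i * (if hj : P i then g ⟨i, hj⟩ else 0) = 0 :=
    Fintype.sum_eq_zero _ fun i => by rw [dif_neg i.2, mul_zero]
  rw [h2, add_zero]
  exact Finset.sum_congr rfl fun i _ => by rw [dif_pos i.2]

namespace DF

variable (F : DF) {wt p : ι → ℤ} {d : ℕ} {n : Matrix ι ι ℂ} {A : Matrix ι ι (PowerSeries ℂ)}

theorem NN_zero (h : FData wt p d n A)
    (h0 : ∀ e : {j // (0 : ℤ) ≤ p j} ⊕ {j // (0 : ℤ) ≤ p j} → ι,
      F.φ ((cat p 0 (rz d n A) (rw' d n A)).submatrix e id).det = 0) : F.NN p d n A 0 ≠ ⊥ := by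
  classical
  have hv : ∃ v, ((cat p 0 (rz d n A) (rw' d n A)).map F.φ).mulVec v = 0 ∧ v ≠ 0 := by
    by_contra hc
    push Not at hc
    obtain ⟨e, he⟩ := exists_minor _ hc
    have h1 := h0 e
    rw [RingHom.map_det] at h1
    exact he h1
  obtain ⟨v, hv0, hv1⟩ := hv
  let s : ι → F.K := fun j => if hj : 0 ≤ p j then v (Sum.inl ⟨j, hj⟩) else 0
  let t : ι → F.K := fun j => if hj : 0 ≤ p j then v (Sum.inr ⟨j, hj⟩) else 0
  have hs : ∀ (B : Matrix ι ι F.K) (i : ι),
      (B.mulVec s) i = ∑ j : {j // (0 : ℤ) ≤ p j}, B i j * v (Sum.inl j) := by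
    intro B i
    exact Z27_sum (fun j => (0 : ℤ) ≤ p j) (B i) fun j => v (Sum.inl j)
  have ht : ∀ (B : Matrix ι ι F.K) (i : ι),
      (B.mulVec t) i = ∑ j : {j // (0 : ℤ) ≤ p j}, B i j * v (Sum.inr j) := by
    intro B i
    exact Z27_sum (fun j => (0 : ℤ) ≤ p j) (B i) fun j => v (Sum.inr j)
  have key : ((rz d n A).map F.φ).mulVec s = -(((rw' d n A).map F.φ).mulVec t) := by
    funext i
    have h1 := congrFun hv0 i
    simp only [Matrix.mulVec, dotProduct, Fintype.sum_sum_type, Matrix.map_apply, cat, Sum.elim_inl,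
      Sum.elim_inr, Pi.zero_apply] at h1
    rw [Pi.neg_apply, hs, ht]
    exact eq_neg_of_add_eq_zero_left h1
  have hx : (F.fz d n A).mulVec s = (F.fw d n A).mulVec (-t) := by
    rw [(F.fz_eq h.nil).1, (F.fz_eq h.nil).2, ← Matrix.mulVec_mulVec, ← Matrix.mulVec_mulVec, key,
      Matrix.mulVec_neg, Matrix.mulVec_neg, Matrix.mulVec_neg]
  have hU := F.isUnit_fz h
  intro hbot
  have hmem : (F.fz d n A).mulVec s ∈ F.NN p d n A 0 := by
    rw [NN, Submodule.mem_inf]
    refine ⟨mem_colSp_iff_exists.2 ⟨s, ?_, rfl⟩, mem_colSp_iff_exists.2 ⟨-t, ?_, hx⟩⟩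
    · intro j hj
      have : ¬ (0 : ℤ) ≤ p j := by simpa using hj
      simp [s, this]
    · intro j hj
      have : ¬ (0 : ℤ) ≤ p j := by simpa using hj
      simp [t, this]
  rw [hbot, Submodule.mem_bot] at hmem
  have hs0 : s = 0 := (Matrix.mulVec_injective_iff_isUnit.2 hU.1) (by rw [hmem, Matrix.mulVec_zero])
  have ht0 : -t = 0 := (Matrix.mulVec_injective_iff_isUnit.2 hU.2)
    (by rw [← hx, hmem, Matrix.mulVec_zero])
  apply hv1
  funext c
  rcases c with ⟨j, hj⟩ | ⟨j, hj⟩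
  · have := congrFun hs0 j
    simpa [s, hj] using this
  · have := congrFun ht0 j
    simpa [t, hj] using this

end DF

end Pool.Agent.LibZE25
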