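import Pool.Agent.LibZE25.Z21
import Pool.Agent.LibZE25.Z22
import Pool.Agent.LibZE25.Z25

/-!
# `N_m` injects in the quotient of weight `0`
-/

open PowerSeries

namespace Pool.Agent.LibZE25

variable {ι : Type} [Fintype ι] [DecidableEq ι]

omit [DecidableEq ι] in
private theorem Z28_mul {B : Type} [CommRing B] {wt : ι → ℤ} {M N : Matrix ι ι B}
    (hM : ∀ i j, wt j < wt i → M i j = 0) (hN : ∀ i j, wt j < wt i → N i j = 0) :
    ∀ i j, wt j < wt i → (M * N) i j = 0 := by
  intro i j hij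
  rw [Matrix.mul_apply]
  refine Finset.sum_eq_zero fun a _ => ?_
  by_cases h : wt a < wt i
  · rw [hM i a h, zero_mul]
  · rw [hN a j (by omega), mul_zero]

omit [DecidableEq ι] in
private theorem Z28_blk {K : Type} [Field K] {wt : ι → ℤ} {M : Matrix ι ι K}
    (hM : ∀ i j, wt j < wt i → M i j = 0) (l : ℤ) (v : ι → K) (hv : ∀ j, l < wt j → v j = 0)
    (i : ι) (hi : wt i = l) :
    (M.mulVec v) i = ∑ j : {j // wt j = l}, M i j * v j := by
  rw [Matrix.mulVec, dotProduct,
    ← Fintype.sum_subtype_add_sum_subtype (fun j => wt j = l) (fun j => M i j * v j)]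
  have h : ∑ j : {j // ¬ wt j = l}, M i j * v j = 0 := by
    refine Finset.sum_eq_zero fun j _ => ?_
    rcases lt_or_gt_of_ne j.2 with h1 | h1
    · rw [hM i j (by rw [hi]; exact h1), zero_mul]
    · rw [hv j h1, mul_zero]
  rw [h, add_zero]

private theorem Z28_unit {K : Type} [Field K] {wt : ι → ℤ} {M : Matrix ι ι K}
    (hM : ∀ i j, wt j < wt i → M i j = 0) (hwt : ∀ i, wt i ≤ 0) (hU : IsUnit M) (s : ι → K)
    (hs : ∀ i, wt i = 0 → (M.mulVec s) i = 0) : ∀ i, wt i = 0 → s i = 0 := by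
  have hv : ∀ v : ι → K, ∀ j, (0 : ℤ) < wt j → v j = 0 := fun v j hj =>
    absurd (hwt j) (not_le.2 hj)
  have hsurj : Function.Surjective (bk wt 0 M).mulVec := by
    intro c
    obtain ⟨v, hMv⟩ := Matrix.mulVec_surjective_iff_isUnit.2 hU
      (fun i => if h : wt i = 0 then c ⟨i, h⟩ else 0)
    refine ⟨fun j => v j, ?_⟩
    funext i
    have h1 := Z28_blk hM 0 v (hv v) i i.2
    have h2 : (M.mulVec v) i = c i := by
      rw [hMv]
      exact dif_pos i.2
    exact h1.symm.trans h2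
  have hinj := Matrix.mulVec_injective_iff_isUnit.2
    (Matrix.mulVec_surjective_iff_isUnit.1 hsurj)
  have h0 : (bk wt 0 M).mulVec (fun j => s j) = (bk wt 0 M).mulVec 0 := by
    rw [Matrix.mulVec_zero]
    funext i
    have h1 := Z28_blk hM 0 s (hv s) i i.2
    rw [hs i i.2] at h1
    exact h1.symm
  intro i hi
  exact congrFun (hinj h0) ⟨i, hi⟩

/-- the block of weight `l` -/
private theorem Z28_step {K : Type} [Field K] {B : Type} [CommRing B] (φ : B →+* K) {wt p : ι → ℤ}
    {M M' : Matrix ι ι B} (hM : ∀ i j, wt j < wt i → M i j = 0)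
    (hM' : ∀ i j, wt j < wt i → M' i j = 0) (l : ℤ) (a : ℤ) (s t : ι → K)
    (hs : ∀ j, l < wt j → s j = 0) (ht : ∀ j, l < wt j → t j = 0)
    (hsp : ∀ j, p j < a → s j = 0) (htp : ∀ j, p j < a → t j = 0)
    (heq : (M.map φ).mulVec s = (M'.map φ).mulVec t)
    (e : {j : {i // wt i = l} // a ≤ p j} ⊕ {j : {i // wt i = l} // a ≤ p j} → {i // wt i = l})
    (he : φ ((cat (fun i : {i // wt i = l} => p i) a (bk wt l M) (bk wt l M')).submatrix e
      id).det ≠ 0) : ∀ j, wt j = l → s j = 0 ∧ t j = 0 := by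
  have hMφ : ∀ i j, wt j < wt i → (M.map φ) i j = 0 := fun i j h => by
    rw [Matrix.map_apply, hM i j h, map_zero]
  have hMφ' : ∀ i j, wt j < wt i → (M'.map φ) i j = 0 := fun i j h => by
    rw [Matrix.map_apply, hM' i j h, map_zero]
  have hdet : (((cat (fun i : {i // wt i = l} => p i) a (bk wt l M)
      (bk wt l M')).map φ).submatrix e id).det ≠ 0 := by
    rw [RingHom.map_det] at he
    exact he
  have hz : ∀ (N : Matrix ι ι K) (v : ι → K), (∀ j, p j < a → v j = 0) → ∀ i : ι,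
      ∑ j : {j // wt j = l}, N i j * v j =
        ∑ j : {j : {i // wt i = l} // a ≤ p j}, N i j * v j := by
    intro N v hv i
    rw [← Fintype.sum_subtype_add_sum_subtype (fun j : {j // wt j = l} => a ≤ p j)
      (fun j => N i j * v j)]
    have h : ∑ j : {j : {j // wt j = l} // ¬ a ≤ p j}, N i j * v j = 0 := by
      refine Finset.sum_eq_zero fun j _ => ?_
      rw [hv _ (not_le.1 j.2), mul_zero]
    rw [h, add_zero]
  have hv := mulVec_inj_of_minor _ hdet
    (Sum.elim (fun j => s j) (fun j => -t j)) (by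
      funext i
      rw [Matrix.mulVec, dotProduct, Fintype.sum_sum_type]
      have h1 := Z28_blk hMφ l s hs i i.2
      have h2 := Z28_blk hMφ' l t ht i i.2
      rw [hz _ s hsp] at h1
      rw [hz _ t htp] at h2
      rw [heq, h2] at h1
      have h3 : ∑ x : {j : {i // wt i = l} // a ≤ p j}, (M'.map φ) i x * -t x =
          - ∑ x : {j : {i // wt i = l} // a ≤ p j}, (M'.map φ) i x * t x := by
        rw [← Finset.sum_neg_distrib]
        exact Finset.sum_congr rfl fun x _ => mul_neg _ _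
      change ∑ x : {j : {i // wt i = l} // a ≤ p j}, (M.map φ) i x * s x +
        ∑ x : {j : {i // wt i = l} // a ≤ p j}, (M'.map φ) i x * -t x = 0
      rw [h3, h1, add_neg_cancel])
  intro j hj
  by_cases hpj : a ≤ p j
  · have h1 := congrFun hv (Sum.inl ⟨⟨j, hj⟩, hpj⟩)
    have h2 := congrFun hv (Sum.inr ⟨⟨j, hj⟩, hpj⟩)
    exact ⟨h1, neg_eq_zero.1 h2⟩
  · exact ⟨hsp j (not_le.1 hpj), htp j (not_le.1 hpj)⟩

namespace DF

variable (F : DF) {wt p : ι → ℤ} {d : ℕ} {n : Matrix ι ι ℂ} {A : Matrix ι ι (PowerSeries ℂ)}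

private theorem Z28_zero (h : FData wt p d n A) (hwt : ∀ i, wt i ≤ 0) (m : ℕ)
    (h0 : ∀ l < 0, ∃ e : {j : {i // wt i = l} // -(m : ℤ) ≤ p j} ⊕
        {j : {i // wt i = l} // -(m : ℤ) ≤ p j} → {i // wt i = l},
      F.φ ((cat (fun i : {i // wt i = l} => p i) (-(m : ℤ)) (bk wt l (rz d n A))
        (bk wt l (rw' d n A))).submatrix e id).det ≠ 0)
    (x : ι → F.K) (hx : x ∈ F.NN p d n A m) (hx0 : ∀ i, wt i = 0 → x i = 0) : x = 0 := by
  obtain ⟨hx1, hx2⟩ := hx
  obtain ⟨s, hsp, hs⟩ := mem_colSp_iff_exists.1 hx1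
  obtain ⟨t, htp, ht⟩ := mem_colSp_iff_exists.1 hx2
  have hn : ∀ i j, wt j < wt i → (-n) i j = 0 := fun i j hij => by
    rw [Matrix.neg_apply, h.trin i j hij, neg_zero]
  have hfz : ∀ i j, wt j < wt i → F.fz d n A i j = 0 :=
    Z28_mul (fun i j hij => expn_tri h.trin F.lz hij)
      (fun i j hij => by rw [Matrix.map_apply, h.triA i j hij, map_zero])
  have hfw : ∀ i j, wt j < wt i → F.fw d n A i j = 0 :=
    Z28_mul (fun i j hij => expn_tri hn F.lw hij)
      (fun i j hij => by rw [Matrix.map_apply, h.triA i j hij, map_zero, map_zero])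
  have hrz : ∀ i j, wt j < wt i → rz d n A i j = 0 :=
    Z28_mul (fun i j hij => expn_tri h.trin _ hij)
      (fun i j hij => by rw [Matrix.map_apply, h.triA i j hij, map_zero])
  have hrw : ∀ i j, wt j < wt i → rw' d n A i j = 0 :=
    Z28_mul (fun i j hij => expn_tri hn _ hij)
      (fun i j hij => by rw [Matrix.map_apply, h.triA i j hij, map_zero, map_zero])
  obtain ⟨hUz, hUw⟩ := F.isUnit_fz h
  have hs0 := Z28_unit hfz hwt hUz s (fun i hi => by rw [← hs]; exact hx0 i hi)
  have ht0 := Z28_unit hfw hwt hUw t (fun i hi => by rw [← ht]; exact hx0 i hi)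
  obtain ⟨e1, e2⟩ := F.fz_eq (A := A) h.nil
  have heq : ((rz d n A).map F.φ).mulVec s = ((rw' d n A).map F.φ).mulVec t := by
    have hE := Matrix.mulVec_injective_iff_isUnit.2 (F.isUnit_expn h.nil (F.U / 2))
    apply hE
    rw [Matrix.mulVec_mulVec, Matrix.mulVec_mulVec, ← e1, ← e2, ← hs, ← ht]
  have hall : ∀ k : ℕ, ∀ j, -(k : ℤ) ≤ wt j → s j = 0 ∧ t j = 0 := by
    intro k
    induction k with
    | zero =>
      intro j hj
      have : wt j = 0 := le_antisymm (hwt j) (by simpa using hj)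
      exact ⟨hs0 j this, ht0 j this⟩
    | succ k ih =>
      intro j hj
      by_cases hk : -(k : ℤ) ≤ wt j
      · exact ih j hk
      · have hl : wt j = -((k + 1 : ℕ) : ℤ) := by
          push_cast at hj ⊢
          omega
        obtain ⟨e, he⟩ := h0 (-((k + 1 : ℕ) : ℤ)) (by push_cast; omega)
        refine Z28_step F.φ hrz hrw (-((k + 1 : ℕ) : ℤ)) (-(m : ℤ)) s t ?_ ?_ hsp htp heq e he
          j hl
        · intro j' hj'
          exact (ih j' (by push_cast at hj'; omega)).1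
        · intro j' hj'
          exact (ih j' (by push_cast at hj'; omega)).2
  have hs1 : s = 0 := by
    funext j
    exact (hall (wt j).natAbs j (by have := hwt j; omega)).1
  rw [hs, hs1, Matrix.mulVec_zero]

theorem NN_finrank (h : FData wt p d n A) (hwt : ∀ i, wt i ≤ 0) (m : ℕ)
    (h0 : ∀ l < 0, ∃ e : {j : {i // wt i = l} // -(m : ℤ) ≤ p j} ⊕
        {j : {i // wt i = l} // -(m : ℤ) ≤ p j} → {i // wt i = l},
      F.φ ((cat (fun i : {i // wt i = l} => p i) (-(m : ℤ)) (bk wt l (rz d n A))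
        (bk wt l (rw' d n A))).submatrix e id).det ≠ 0) :
    Module.finrank F.K (F.NN p d n A m) ≤ Fintype.card {i // wt i = 0} := by
  obtain ⟨f, hf⟩ : ∃ f : (F.NN p d n A m) →ₗ[F.K] ({i // wt i = 0} → F.K),
      ∀ x i, f x i = (x : ι → F.K) i :=
    ⟨(LinearMap.funLeft F.K F.K (Subtype.val : {i // wt i = 0} → ι)).comp
      (F.NN p d n A m).subtype, fun x i => rfl⟩
  have hinj : Function.Injective f := by
    rw [← LinearMap.ker_eq_bot, LinearMap.ker_eq_bot']
    intro x hx
    refine Subtype.ext ?_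
    refine Z28_zero F h hwt m h0 x x.2 fun i hi => ?_
    rw [← hf x ⟨i, hi⟩, hx]
    rfl
  have h1 := LinearMap.finrank_le_finrank_of_injective hinj
  rwa [Module.finrank_fintype_fun_eq_card] at h1

end DF

end Pool.Agent.LibZE25
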