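import Pool.Agent.LibZE25.Z4

/-!
# `log z` is transcendental over the power series in `z`
-/

open PowerSeries

namespace Pool.Agent.LibZE25

theorem Z12_inj {K : Type} [Field K] (g : PowerSeries ℂ →+* K) (hX : g X ≠ 0) :
    Function.Injective g := by
  rw [injective_iff_map_eq_zero]
  intro f hf
  by_contra hne
  have h1 := X_pow_order_mul_divXPowOrder (f := f)
  have h2 : IsUnit (divXPowOrder f) := isUnit_divided_by_X_pow_order hne
  have h3 : g f = g X ^ f.order.toNat * g (divXPowOrder f) := by
    conv_lhs => rw [← h1]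
    rw [map_mul, map_pow]
  rw [hf] at h3
  rcases mul_eq_zero.mp h3.symm with h4 | h4
  · exact pow_ne_zero _ hX h4
  · exact (h2.map g).ne_zero h4

/-- transcendence of an affine function of a transcendental element -/
theorem Z12_trans {R M K : Type} [CommRing R] [Algebra ℂ R] [CommRing M] [Field K] [Algebra ℂ K]
    (φ : R →+* K) (hφ : ∀ c : ℂ, φ (algebraMap ℂ R c) = algebraMap ℂ K c) (U : K)
    (htr : ∀ g : Polynomial R, Polynomial.eval₂ φ U g = 0 → ∀ i, φ (g.coeff i) = 0)
    (j : M →+* R) (hj : ∀ f, φ (j f) = 0 → f = 0) (y : R) (b : ℂ) (hb : b ≠ 0)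
    (g : Polynomial M) (l : K) (hl : l = φ y + algebraMap ℂ K b * U)
    (h : Polynomial.eval₂ (φ.comp j) l g = 0) : g = 0 := by
  classical
  set q : Polynomial R := Polynomial.C y + Polynomial.C (algebraMap ℂ R b) * Polynomial.X with hq
  have h1 : Polynomial.eval₂ φ U ((g.map j).comp q) = 0 := by
    rw [Polynomial.eval₂_comp]
    have : Polynomial.eval₂ φ U q = l := by
      rw [hq, Polynomial.eval₂_add, Polynomial.eval₂_mul, Polynomial.eval₂_C, Polynomial.eval₂_C,
        Polynomial.eval₂_X, hφ, hl]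
    rw [this, Polynomial.eval₂_map]
    exact h
  have h2 : ((g.map j).comp q).map φ = 0 := by
    ext i
    rw [Polynomial.coeff_map, htr _ h1 i, Polynomial.coeff_zero]
  rw [Polynomial.map_comp, Polynomial.map_map] at h2
  have h3 : (q.map φ).natDegree = 1 := by
    rw [hq, Polynomial.map_add, Polynomial.map_mul, Polynomial.map_C, Polynomial.map_C,
      Polynomial.map_X, hφ, add_comm]
    exact Polynomial.natDegree_linear ((map_ne_zero _).mpr hb)
  have h4 : g.map (φ.comp j) = 0 := by
    by_contra hne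
    rcases Polynomial.comp_eq_zero_iff.mp h2 with h5 | ⟨_, h5⟩
    · exact hne h5
    · rw [h5, Polynomial.natDegree_C] at h3
      exact zero_ne_one h3
  ext i
  rw [Polynomial.coeff_zero]
  apply hj
  have := congrArg (fun p => Polynomial.coeff p i) h4
  simpa [Polynomial.coeff_map] using this

theorem Z12_jzX : jz X = zR := by
  ext i j
  rw [coeff_jz, zR, coeff_C]
  split_ifs with h
  · rw [coeff_X, coeff_X]
    split_ifs <;> simp
  · simp

theorem Z12_jwX : jw X = wR := by
  ext i j
  rw [coeff_jw, wR, coeff_X, coeff_X]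
  by_cases hi : i = 1
  · rw [if_pos hi, if_pos hi, map_one, ← map_one (C (R := kk)), coeff_C]
  · rw [if_neg hi, if_neg hi, map_zero, map_zero]
    simp

namespace DF

variable (F : DF)

theorem iz_injective : Function.Injective F.iz := by
  apply Z12_inj
  show F.φ (jz X) ≠ 0
  rw [Z12_jzX]
  exact F.zR_ne

theorem iw_injective : Function.Injective F.iw := by
  apply Z12_inj
  show F.φ (jw X) ≠ 0
  rw [Z12_jwX]
  exact F.wR_ne

theorem Z12_half : F.φ (algebraMap ℂ RR (1 / 2)) = 1 / 2 := by
  rw [F.φ_alg, map_div₀, map_one, map_ofNat]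

theorem trans_z (g : Polynomial (PowerSeries ℂ)) (h : Polynomial.eval₂ F.iz F.lz g = 0) :
    g = 0 := by
  apply Z12_trans F.φ F.φ_alg F.U F.trans jz (fun f hf => F.iz_injective (by
    rw [map_zero]; exact hf)) (algebraMap ℂ RR (1 / 2) * YR) (1 / 2) (by norm_num) g F.lz _ h
  rw [map_mul, F.Z12_half, map_div₀, map_one, map_ofNat, lz]
  ring

theorem trans_w (g : Polynomial (PowerSeries ℂ)) (h : Polynomial.eval₂ F.iw F.lw g = 0) :
    g = 0 := by
  apply Z12_trans F.φ F.φ_alg F.U F.trans jw (fun f hf => F.iw_injective (by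
    rw [map_zero]; exact hf)) (algebraMap ℂ RR (1 / 2) * YR) (-(1 / 2)) (by norm_num) g F.lw _ h
  rw [map_mul, F.Z12_half, map_neg, map_div₀, map_one, map_ofNat, lw]
  ring

end DF

end Pool.Agent.LibZE25
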