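import Mathlib

/-!
# Constants and a differential ring with constants `ℂ` are linearly disjoint
-/

namespace Pool.Agent.LibZE25

theorem disjoint_of_wronskian {K : Type} [Field K] [Algebra ℂ K] (D : Derivation ℂ K K)
    {M : Type} [CommRing M] [Algebra ℂ M] (δ : M → M) (i : M →+* K)
    (hi : ∀ f, i f = 0 → f = 0) (hiC : ∀ c : ℂ, i (algebraMap ℂ M c) = algebraMap ℂ K c) {t : K}
    (ht : t ≠ 0) (hD : ∀ f, D (i f) = t * i (δ f))
    (hW : ∀ f g : M, f ≠ 0 → f * δ g = g * δ f → ∃ c : ℂ, g = algebraMap ℂ M c * f)
    {r : ℕ} (c : Fin r → K) (hc : LinearIndependent ℂ c) (hc0 : ∀ a, D (c a) = 0)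
    (f : Fin r → M) (h : ∑ a, i (f a) * c a = 0) : ∀ a, f a = 0 := by
  classical
  have hδ0 : δ 0 = 0 := by
    apply hi
    have h1 := hD 0
    rw [map_zero, map_zero] at h1
    rcases mul_eq_zero.1 h1.symm with h2 | h2
    · exact absurd h2 ht
    · exact h2
  have key : ∀ n : ℕ, ∀ f : Fin r → M, (Finset.univ.filter fun a => f a ≠ 0).card = n →
      ∑ a, i (f a) * c a = 0 → ∀ a, f a = 0 := by
    intro n
    induction n using Nat.strong_induction_on with
    | _ n ih =>
      intro f hn h
      by_contra hne
      push Not at hne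
      obtain ⟨a₀, ha₀⟩ := hne
      have h1 : ∑ a, i (δ (f a)) * c a = 0 := by
        have h2 := congrArg D h
        rw [map_zero, map_sum] at h2
        have h3 : ∀ a ∈ (Finset.univ : Finset (Fin r)), D (i (f a) * c a) =
            t * (i (δ (f a)) * c a) := by
          intro a _
          rw [Derivation.leibniz, hc0, smul_zero, zero_add, hD, smul_eq_mul]
          ring
        rw [Finset.sum_congr rfl h3, ← Finset.mul_sum] at h2
        rcases mul_eq_zero.1 h2 with h4 | h4
        · exact absurd h4 ht
        · exact h4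
      have hg : ∑ a, i (f a * δ (f a₀) - f a₀ * δ (f a)) * c a = 0 := by
        have h2 : ∀ a ∈ (Finset.univ : Finset (Fin r)), i (f a * δ (f a₀) - f a₀ * δ (f a)) * c a =
            i (δ (f a₀)) * (i (f a) * c a) - i (f a₀) * (i (δ (f a)) * c a) := by
          intro a _
          rw [map_sub, map_mul, map_mul]
          ring
        rw [Finset.sum_congr rfl h2, Finset.sum_sub_distrib, ← Finset.mul_sum, ← Finset.mul_sum, h, h1]
        ring
      have hcard : (Finset.univ.filter fun a => f a * δ (f a₀) - f a₀ * δ (f a) ≠ 0).card < n := by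
        rw [← hn]
        apply Finset.card_lt_card
        rw [Finset.ssubset_iff_of_subset]
        · refine ⟨a₀, ?_, ?_⟩
          · rw [Finset.mem_filter]
            exact ⟨Finset.mem_univ _, ha₀⟩
          · rw [Finset.mem_filter]
            rintro ⟨_, h2⟩
            exact h2 (sub_self _)
        · intro a ha
          rw [Finset.mem_filter] at ha ⊢
          refine ⟨Finset.mem_univ _, fun h2 => ha.2 ?_⟩
          rw [h2, hδ0]
          ring
      have hg0 := ih _ hcard (fun a => f a * δ (f a₀) - f a₀ * δ (f a)) rfl hg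
      have hγ : ∀ a, ∃ γ : ℂ, f a = algebraMap ℂ M γ * f a₀ := by
        intro a
        refine hW (f a₀) (f a) ha₀ ?_
        exact (sub_eq_zero.1 (hg0 a)).symm
      choose γ hγ using hγ
      have h5 : i (f a₀) * ∑ a, γ a • c a = 0 := by
        rw [Finset.mul_sum, ← h]
        refine Finset.sum_congr rfl fun a _ => ?_
        conv_rhs => rw [hγ a]
        rw [map_mul, hiC, Algebra.smul_def]
        ring
      have hi0 : i (f a₀) ≠ 0 := fun h6 => ha₀ (hi _ h6)
      have h6 : ∑ a, γ a • c a = 0 := by
        rcases mul_eq_zero.1 h5 with h7 | h7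
        · exact absurd h7 hi0
        · exact h7
      have h7 := Fintype.linearIndependent_iff.1 hc γ h6 a₀
      apply ha₀
      rw [hγ a₀, h7, map_zero, zero_mul]
  exact key _ f rfl h

end Pool.Agent.LibZE25
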