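import Mathlib

/-!
# The Wronskian property of `ℂ⟦z⟧[ℓ]` with the derivation `z d/dz + d/dℓ`
-/

namespace Pool.Agent.LibZE25

/-- the Euler operator -/
private noncomputable def Z24E (u : PowerSeries ℂ) : PowerSeries ℂ :=
  PowerSeries.X * PowerSeries.derivative ℂ u

private theorem Z24E_mul (u v : PowerSeries ℂ) : Z24E (u * v) = u * Z24E v + v * Z24E u := by
  simp only [Z24E, Derivation.leibniz, smul_eq_mul]
  ring

private theorem Z24E_coeff (u : PowerSeries ℂ) (n : ℕ) :
    PowerSeries.coeff n (Z24E u) = n * PowerSeries.coeff n u := by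
  rw [Z24E]
  cases n with
  | zero =>
    rw [PowerSeries.coeff_zero_X_mul]
    simp
  | succ n =>
    rw [PowerSeries.coeff_succ_X_mul, PowerSeries.coeff_derivative]
    push_cast
    ring

private theorem Z24E_X_pow (k : ℕ) :
    Z24E (PowerSeries.X ^ k) = (k : PowerSeries ℂ) * PowerSeries.X ^ k := by
  ext n
  have e : (k : PowerSeries ℂ) = PowerSeries.C (k : ℂ) := by
    simp
  rw [Z24E_coeff, e, PowerSeries.coeff_C_mul, PowerSeries.coeff_X_pow]
  split_ifs with h
  · rw [h]
  · simp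

/-- the key computation in the power series -/
private theorem Z24_key (u s : PowerSeries ℂ) (c' : ℂ) (hu : u ≠ 0)
    (h : u * Z24E s - s * Z24E u = PowerSeries.C c' * u ^ 2) :
    c' = 0 ∧ ∃ c : ℂ, s = PowerSeries.C c * u := by
  obtain ⟨k, u₀, hk⟩ := IsDiscreteValuationRing.eq_unit_mul_pow_irreducible hu
    (PowerSeries.X_prime (R := ℂ)).irreducible
  obtain ⟨t, ht⟩ : ∃ t, s = t * (u₀ : PowerSeries ℂ) :=
    ⟨s * ((u₀⁻¹ : (PowerSeries ℂ)ˣ) : PowerSeries ℂ), by rw [Units.inv_mul_cancel_right]⟩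
  have hne : (u₀ : PowerSeries ℂ) ^ 2 * PowerSeries.X ^ k ≠ 0 :=
    mul_ne_zero (pow_ne_zero _ u₀.ne_zero) (pow_ne_zero _ PowerSeries.X_ne_zero)
  have h1 : Z24E t - (k : PowerSeries ℂ) * t = PowerSeries.C c' * PowerSeries.X ^ k := by
    apply mul_left_cancel₀ hne
    have e1 : Z24E u = (u₀ : PowerSeries ℂ) * ((k : PowerSeries ℂ) * PowerSeries.X ^ k) +
        PowerSeries.X ^ k * Z24E (u₀ : PowerSeries ℂ) := by
      rw [hk, Z24E_mul, Z24E_X_pow]
    have e2 : Z24E s = t * Z24E (u₀ : PowerSeries ℂ) + u₀ * Z24E t := by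
      rw [ht, Z24E_mul]
    rw [e1, e2, hk, ht] at h
    linear_combination h
  have h2 : ∀ n : ℕ, ((n : ℂ) - k) * PowerSeries.coeff n t = if n = k then c' else 0 := by
    intro n
    have h3 := congrArg (PowerSeries.coeff n) h1
    have e : (k : PowerSeries ℂ) = PowerSeries.C (k : ℂ) := by
      simp
    rw [map_sub, Z24E_coeff, e, PowerSeries.coeff_C_mul, PowerSeries.coeff_C_mul,
      PowerSeries.coeff_X_pow] at h3
    rw [sub_mul, h3]
    split_ifs <;> simp
  constructor
  · have h3 := h2 k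
    rw [if_pos rfl, sub_self, zero_mul] at h3
    exact h3.symm
  · refine ⟨PowerSeries.coeff k t, ?_⟩
    have h3 : t = PowerSeries.C (PowerSeries.coeff k t) * PowerSeries.X ^ k := by
      ext n
      rw [PowerSeries.coeff_C_mul, PowerSeries.coeff_X_pow]
      by_cases hn : n = k
      · rw [if_pos hn, hn, mul_one]
      · rw [if_neg hn, mul_zero]
        have h4 := h2 n
        rw [if_neg hn] at h4
        refine (mul_eq_zero.mp h4).resolve_left ?_
        rw [sub_eq_zero]
        exact_mod_cast hn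
    rw [ht, hk]
    nth_rewrite 1 [h3]
    ring

/-- the two top coefficients of a product -/
private theorem Z24_coeff (F G : Polynomial (PowerSeries ℂ)) (a b : ℕ) (hF : F.natDegree ≤ a + 1)
    (hG : G.natDegree ≤ b + 1) : (F * G).coeff (a + b + 1) =
      F.coeff (a + 1) * G.coeff b + F.coeff a * G.coeff (b + 1) := by
  obtain ⟨F₁, hF₁⟩ : ∃ F₁ : Polynomial (PowerSeries ℂ),
      F = Polynomial.C (F.coeff (a + 1)) * Polynomial.X ^ (a + 1) + F₁ :=
    ⟨F - Polynomial.C (F.coeff (a + 1)) * Polynomial.X ^ (a + 1), by ring⟩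
  have h1 : ∀ n, F.coeff n = (if n = a + 1 then F.coeff (a + 1) else 0) + F₁.coeff n := by
    intro n
    have h2 := congrArg (fun p => Polynomial.coeff p n) hF₁
    simp only [Polynomial.coeff_add, Polynomial.coeff_C_mul, Polynomial.coeff_X_pow, mul_ite,
      mul_one, mul_zero] at h2
    exact h2
  have h3 : F₁.natDegree ≤ a := by
    rw [Polynomial.natDegree_le_iff_coeff_eq_zero]
    intro N hN
    have h4 := h1 N
    by_cases hN1 : N = a + 1
    · rw [if_pos hN1, hN1] at h4
      rw [hN1]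
      exact left_eq_add.mp h4
    · rw [if_neg hN1, zero_add] at h4
      rw [← h4]
      exact Polynomial.coeff_eq_zero_of_natDegree_lt (by omega)
  have h5 : F₁.coeff a = F.coeff a := by
    have h4 := h1 a
    rw [if_neg (by omega), zero_add] at h4
    exact h4.symm
  have h6 : (F₁ * G).coeff (a + (b + 1)) = F₁.coeff a * G.coeff (b + 1) :=
    Polynomial.coeff_mul_add_eq_of_natDegree_le h3 hG
  have h7 : F * G = Polynomial.C (F.coeff (a + 1)) * (Polynomial.X ^ (a + 1) * G) + F₁ * G := by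
    nth_rewrite 1 [hF₁]
    ring
  rw [h7, Polynomial.coeff_add, Polynomial.coeff_C_mul, ← h5]
  have h8 : (Polynomial.X ^ (a + 1) * G).coeff (a + b + 1) = G.coeff b := by
    have : a + b + 1 = b + (a + 1) := by ring
    rw [this, Polynomial.coeff_X_pow_mul]
  rw [h8, ← h6]
  rfl

private theorem Z24_degree (δ : Polynomial (PowerSeries ℂ) → Polynomial (PowerSeries ℂ))
    (hδ : ∀ f n, (δ f).coeff n =
      PowerSeries.X * PowerSeries.derivative ℂ (f.coeff n) + (n + 1 : ℕ) • f.coeff (n + 1))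
    (f g : Polynomial (PowerSeries ℂ)) (hf : f ≠ 0) (hg : g ≠ 0) (h : f * δ g = g * δ f) :
    f.natDegree = g.natDegree ∧
      ∃ c : ℂ, g.leadingCoeff = PowerSeries.C c * f.leadingCoeff := by
  have hδE : ∀ f n, (δ f).coeff n = Z24E (f.coeff n) + ((n + 1 : ℕ) : PowerSeries ℂ) *
      f.coeff (n + 1) := by
    intro f n
    rw [hδ, Z24E, nsmul_eq_mul]
  have hX : ∀ f, δ (Polynomial.X * f) = Polynomial.X * δ f + f := by
    intro f
    ext1 n
    rw [hδE, Polynomial.coeff_add]
    cases n with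
    | zero =>
      rw [Polynomial.coeff_X_mul_zero, Polynomial.coeff_X_mul_zero, Polynomial.coeff_X_mul]
      simp [Z24E]
    | succ n =>
      rw [Polynomial.coeff_X_mul, Polynomial.coeff_X_mul, Polynomial.coeff_X_mul, hδE]
      push_cast
      ring
  have hdeg : ∀ f n, f.natDegree ≤ n → (δ f).natDegree ≤ n := by
    intro f n hn
    rw [Polynomial.natDegree_le_iff_coeff_eq_zero] at hn ⊢
    intro N hN
    rw [hδE, hn N hN, hn (N + 1) (by omega)]
    simp [Z24E]
  set a := f.natDegree with ha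
  set b := g.natDegree with hb
  obtain ⟨F, hF⟩ : ∃ F, F = Polynomial.X * f := ⟨_, rfl⟩
  obtain ⟨G, hG⟩ : ∃ G, G = Polynomial.X * g := ⟨_, rfl⟩
  have hFG : F * δ G = G * δ F := by
    rw [hF, hG, hX, hX]
    linear_combination Polynomial.X ^ 2 * h
  have hFd : F.natDegree ≤ a + 1 := by
    rw [hF, Polynomial.natDegree_X_mul hf]
  have hGd : G.natDegree ≤ b + 1 := by
    rw [hG, Polynomial.natDegree_X_mul hg]
  have hF1 : F.coeff (a + 1) = f.leadingCoeff := by
    rw [hF, Polynomial.coeff_X_mul]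
    rfl
  have hG1 : G.coeff (b + 1) = g.leadingCoeff := by
    rw [hG, Polynomial.coeff_X_mul]
    rfl
  have hF2 : F.coeff (a + 1 + 1) = 0 := Polynomial.coeff_eq_zero_of_natDegree_lt (by omega)
  have hG2 : G.coeff (b + 1 + 1) = 0 := Polynomial.coeff_eq_zero_of_natDegree_lt (by omega)
  set u := f.leadingCoeff with hu
  set v := g.leadingCoeff with hv
  have hu0 : u ≠ 0 := by
    rw [hu]
    exact Polynomial.leadingCoeff_ne_zero.mpr hf
  have hv0 : v ≠ 0 := by
    rw [hv]
    exact Polynomial.leadingCoeff_ne_zero.mpr hg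
  have hFδ : (δ F).coeff (a + 1) = Z24E u := by
    rw [hδE, hF1, hF2, mul_zero, add_zero]
  have hGδ : (δ G).coeff (b + 1) = Z24E v := by
    rw [hδE, hG1, hG2, mul_zero, add_zero]
  have hFδ' : (δ F).coeff a = Z24E (F.coeff a) + ((a + 1 : ℕ) : PowerSeries ℂ) * u := by
    rw [hδE, hF1]
  have hGδ' : (δ G).coeff b = Z24E (G.coeff b) + ((b + 1 : ℕ) : PowerSeries ℂ) * v := by
    rw [hδE, hG1]
  -- the top coefficient
  have h1 : u * Z24E v = v * Z24E u := by
    have h2 := Polynomial.coeff_mul_add_eq_of_natDegree_le hFd (hdeg G _ hGd)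
    have h3 := Polynomial.coeff_mul_add_eq_of_natDegree_le hGd (hdeg F _ hFd)
    rw [hFG, add_comm (a + 1), h3, hF1, hG1, hFδ, hGδ] at h2
    exact h2.symm
  obtain ⟨-, c, hc⟩ := Z24_key u v 0 hu0 (by rw [h1]; simp)
  refine ⟨?_, c, hc⟩
  have hc0 : c ≠ 0 := by
    rintro rfl
    apply hv0
    rw [hc]
    simp
  -- the next one
  have h2 := Z24_coeff F (δ G) a b hFd (hdeg G _ hGd)
  have h3 := Z24_coeff G (δ F) b a hGd (hdeg F _ hFd)
  rw [hFG, add_comm a b, h3, hF1, hG1, hFδ, hGδ, hFδ', hGδ', hc] at h2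
  have e1 : Z24E (PowerSeries.C c * u) = PowerSeries.C c * Z24E u := by
    rw [Z24E_mul]
    simp [Z24E]
  have e2 : Z24E (G.coeff b - PowerSeries.C c * F.coeff a) =
      Z24E (G.coeff b) - PowerSeries.C c * Z24E (F.coeff a) := by
    have e3 : Z24E (PowerSeries.C c * F.coeff a) = PowerSeries.C c * Z24E (F.coeff a) := by
      rw [Z24E_mul]
      simp [Z24E]
    rw [← e3]
    simp only [Z24E, map_sub]
    ring
  rw [e1] at h2
  obtain ⟨h4, -⟩ := Z24_key u (G.coeff b - PowerSeries.C c * F.coeff a) (c * ((a : ℂ) - b)) hu0 (by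
    rw [e2]
    have e4 : PowerSeries.C (c * ((a : ℂ) - b)) =
        PowerSeries.C c * ((a : PowerSeries ℂ) - (b : PowerSeries ℂ)) := by
      rw [map_mul, map_sub, map_natCast, map_natCast]
    rw [e4]
    push_cast at h2
    linear_combination -h2)
  have h5 : (a : ℂ) - b = 0 := (mul_eq_zero.mp h4).resolve_left hc0
  rw [sub_eq_zero] at h5
  exact_mod_cast h5

theorem wronskian (δ : Polynomial (PowerSeries ℂ) → Polynomial (PowerSeries ℂ))
    (hδ : ∀ f n, (δ f).coeff n =
      PowerSeries.X * PowerSeries.derivative ℂ (f.coeff n) + (n + 1 : ℕ) • f.coeff (n + 1))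
    (f g : Polynomial (PowerSeries ℂ)) (hf : f ≠ 0) (h : f * δ g = g * δ f) :
    ∃ c : ℂ, g = algebraMap ℂ (Polynomial (PowerSeries ℂ)) c * f := by
  by_cases hg : g = 0
  · exact ⟨0, by rw [hg, map_zero, zero_mul]⟩
  obtain ⟨hdeg, c, hc⟩ := Z24_degree δ hδ f g hf hg h
  refine ⟨c, ?_⟩
  have ealg : algebraMap ℂ (Polynomial (PowerSeries ℂ)) c = Polynomial.C (PowerSeries.C c) := rfl
  rw [ealg]
  by_contra hne
  have hg1 : g - Polynomial.C (PowerSeries.C c) * f ≠ 0 := sub_ne_zero.mpr hne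
  have hδ1 : δ (g - Polynomial.C (PowerSeries.C c) * f) =
      δ g - Polynomial.C (PowerSeries.C c) * δ f := by
    ext1 n
    rw [hδ, Polynomial.coeff_sub, Polynomial.coeff_sub, Polynomial.coeff_sub,
      Polynomial.coeff_C_mul, Polynomial.coeff_C_mul, Polynomial.coeff_C_mul, hδ, hδ,
      nsmul_eq_mul, nsmul_eq_mul, nsmul_eq_mul, map_sub, Derivation.leibniz]
    simp only [smul_eq_mul, PowerSeries.derivative_C]
    ring
  obtain ⟨h1, -⟩ := Z24_degree δ hδ f (g - Polynomial.C (PowerSeries.C c) * f) hf hg1 (by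
    rw [hδ1]
    linear_combination h)
  have h2 : (g - Polynomial.C (PowerSeries.C c) * f).leadingCoeff = 0 := by
    rw [Polynomial.leadingCoeff, ← h1, Polynomial.coeff_sub, Polynomial.coeff_C_mul]
    nth_rewrite 1 [hdeg]
    change g.leadingCoeff - PowerSeries.C c * f.leadingCoeff = 0
    rw [hc, sub_self]
  exact hg1 (Polynomial.leadingCoeff_eq_zero.mp h2)

end Pool.Agent.LibZE25
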