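import Pool.Agent.LibZE25.Z11
import Pool.Agent.LibZE25.Z12
import Pool.Agent.LibZE25.Z22
import Pool.Agent.LibZE25.Z23
import Pool.Agent.LibZE25.Z24
import Pool.Agent.LibZE25.Z25

/-!
# Descent of constant vectors to `ℂ`
-/

open PowerSeries
open scoped ComplexConjugate

namespace Pool.Agent.LibZE25

/-- the derivation `z d/dz + d/dℓ` on `ℂ⟦z⟧[ℓ]` -/
noncomputable def Z29_δ (f : Polynomial (PowerSeries ℂ)) : Polynomial (PowerSeries ℂ) :=
  (∑ n ∈ Finset.range (f.natDegree + 1),
    Polynomial.monomial n (X * derivative ℂ (f.coeff n))) + Polynomial.derivative f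

theorem Z29_coeff_δ (f : Polynomial (PowerSeries ℂ)) (n : ℕ) :
    (Z29_δ f).coeff n = X * derivative ℂ (f.coeff n) + (n + 1 : ℕ) • f.coeff (n + 1) := by
  rw [Z29_δ, Polynomial.coeff_add, Polynomial.finsetSum_coeff, Polynomial.coeff_derivative]
  simp only [Polynomial.coeff_monomial]
  rw [Finset.sum_ite_eq' (Finset.range (f.natDegree + 1)) n]
  congr 1
  · by_cases h : n ∈ Finset.range (f.natDegree + 1)
    · rw [if_pos h]
    · rw [if_neg h, Polynomial.coeff_eq_zero_of_natDegree_lt
        (by rw [Finset.mem_range] at h; omega), map_zero, mul_zero]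
  · rw [nsmul_eq_mul, mul_comm]
    push_cast
    ring

theorem Z29_δ_add (f g : Polynomial (PowerSeries ℂ)) : Z29_δ (f + g) = Z29_δ f + Z29_δ g := by
  ext1 n
  rw [Polynomial.coeff_add, Z29_coeff_δ, Z29_coeff_δ, Z29_coeff_δ, Polynomial.coeff_add,
    Polynomial.coeff_add, map_add, smul_add]
  ring

theorem Z29_D_eval {K : Type} [Field K] [Algebra ℂ K] (D : Derivation ℂ K K)
    (i : PowerSeries ℂ →+* K) (l t : K) (hDi : ∀ f, D (i f) = t * i (X * derivative ℂ f))
    (hl : D l = t) (f : Polynomial (PowerSeries ℂ)) :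
    D (Polynomial.eval₂ i l f) = t * Polynomial.eval₂ i l (Z29_δ f) := by
  induction f using Polynomial.induction_on' with
  | add f g hf hg =>
    rw [Polynomial.eval₂_add, map_add, hf, hg, Z29_δ_add, Polynomial.eval₂_add]
    ring
  | monomial k a =>
    have h1 : Z29_δ (Polynomial.monomial k a) = Polynomial.monomial k (X * derivative ℂ a) +
        Polynomial.monomial (k - 1) (k • a) := by
      ext1 n
      rw [Z29_coeff_δ, Polynomial.coeff_add, Polynomial.coeff_monomial, Polynomial.coeff_monomial,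
        Polynomial.coeff_monomial, Polynomial.coeff_monomial]
      congr 1
      · split_ifs
        · rfl
        · rw [map_zero, mul_zero]
      · by_cases hk : k = n + 1
        · rw [if_pos hk, if_pos (by omega), hk]
        · rw [if_neg hk, smul_zero]
          by_cases hk' : k - 1 = n
          · rw [if_pos hk', show k = 0 by omega, zero_smul]
          · rw [if_neg hk']
    rw [h1, Polynomial.eval₂_add, Polynomial.eval₂_monomial, Polynomial.eval₂_monomial,
      Polynomial.eval₂_monomial, Derivation.leibniz, Derivation.leibniz_pow, hDi, hl,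
      smul_eq_mul, smul_eq_mul, smul_eq_mul, map_nsmul, nsmul_eq_mul, nsmul_eq_mul]
    ring

variable {ι : Type} [Fintype ι] [DecidableEq ι]

theorem Z29_gen {K : Type} [Field K] [Algebra ℂ K] (D : Derivation ℂ K K)
    (i : PowerSeries ℂ →+* K) (l t : K) (ht : t ≠ 0)
    (hDi : ∀ f, D (i f) = t * i (X * derivative ℂ f)) (hl : D l = t)
    (hiC : ∀ c : ℂ, i (C c) = algebraMap ℂ K c)
    (htr : ∀ g : Polynomial (PowerSeries ℂ), Polynomial.eval₂ i l g = 0 → g = 0)
    (B : Matrix ι ι (PowerSeries ℂ)) (N : Matrix ι ι ℂ) (d : ℕ) (hN : N ^ d = 0)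
    {s : ℕ} (c : Fin s → K) (hc : LinearIndependent ℂ c) (hc0 : ∀ a, D (c a) = 0)
    (γ : ι → Fin s → ℂ) (e : ι → K) (he : ∀ a, e a = ∑ b, algebraMap ℂ K (γ a b) * c b) (i0 : ι)
    (h0 : ((B.map i).adjugate.mulVec ((expn d N (-l)).mulVec e)) i0 = 0) (b : Fin s) (r : ℕ) :
    (B.adjugate.mulVec fun a => C ((N ^ r).mulVec (fun a => γ a b) a)) i0 = 0 := by
  set co : ℕ → ι → PowerSeries ℂ := fun r a => ∑ x, B.adjugate i0 x * C ((N ^ r) x a) with hco
  -- the goal in terms of `co`
  have hgoal : ∀ (r : ℕ) (b : Fin s),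
      (B.adjugate.mulVec fun a => C ((N ^ r).mulVec (fun a => γ a b) a)) i0 =
        ∑ a, C (γ a b) * co r a := by
    intro r b
    simp only [Matrix.mulVec, dotProduct, hco, map_sum, map_mul, Finset.mul_sum]
    rw [Finset.sum_comm]
    refine Finset.sum_congr rfl fun a _ => Finset.sum_congr rfl fun x _ => ?_
    ring
  rw [hgoal]
  by_cases hr : r < d
  swap
  · have hNr : N ^ r = 0 := by
      rw [show r = d + (r - d) by omega, pow_add, hN, zero_mul]
    refine Finset.sum_eq_zero fun a _ => ?_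
    simp only [hco, hNr, Matrix.zero_apply, map_zero, mul_zero, Finset.sum_const_zero]
  set f : Fin s → Polynomial (PowerSeries ℂ) := fun b => ∑ r ∈ Finset.range d,
    Polynomial.monomial r (C ((-1) ^ r * ((r.factorial : ℂ))⁻¹) * ∑ a, C (γ a b) * co r a) with hf
  have heval : ∀ b, Polynomial.eval₂ i l (f b) = ∑ r ∈ Finset.range d,
      algebraMap ℂ K ((-1) ^ r * ((r.factorial : ℂ))⁻¹) *
        (∑ a, algebraMap ℂ K (γ a b) * i (co r a)) * l ^ r := by
    intro b
    rw [hf, Polynomial.eval₂_finsetSum]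
    refine Finset.sum_congr rfl fun r _ => ?_
    rw [Polynomial.eval₂_monomial, map_mul, map_sum, hiC]
    simp only [map_mul, hiC]
  have hrel : ∑ b, Polynomial.eval₂RingHom i l (f b) * c b = 0 := by
    rw [← h0]
    have e1 : (B.map i).adjugate = B.adjugate.map i := (RingHom.map_adjugate i B).symm
    rw [e1]
    have e2 : ((B.adjugate.map i).mulVec ((expn d N (-l)).mulVec e)) i0 =
        ∑ r ∈ Finset.range d, algebraMap ℂ K ((-1) ^ r * ((r.factorial : ℂ))⁻¹) * l ^ r *
          ∑ a, i (co r a) * e a := by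
      have e3 : ∀ x, (expn d N (-l)).mulVec e x = ∑ r ∈ Finset.range d, ∑ a,
          algebraMap ℂ K ((-1) ^ r * ((r.factorial : ℂ))⁻¹) * l ^ r *
            (algebraMap ℂ K ((N ^ r) x a) * e a) := by
        intro x
        simp only [Matrix.mulVec, dotProduct, expn, Matrix.sum_apply, Matrix.smul_apply,
          Matrix.map_apply, smul_eq_mul, map_mul, map_pow, map_neg, map_one, map_inv₀,
          map_natCast, Finset.sum_mul]
        rw [Finset.sum_comm]
        refine Finset.sum_congr rfl fun r _ => Finset.sum_congr rfl fun a _ => ?_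
        rw [neg_pow]
        ring
      simp only [Matrix.mulVec, dotProduct] at e3 ⊢
      simp only [e3, Matrix.map_apply, Finset.mul_sum, hco, map_sum, map_mul, hiC,
        Finset.sum_mul]
      rw [Finset.sum_comm]
      refine Finset.sum_congr rfl fun r _ => ?_
      rw [Finset.sum_comm]
      refine Finset.sum_congr rfl fun a _ => Finset.sum_congr rfl fun x _ => ?_
      ring
    rw [e2]
    simp only [Polynomial.coe_eval₂RingHom, heval, he, Finset.sum_mul, Finset.mul_sum]
    rw [Finset.sum_comm]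
    refine Finset.sum_congr rfl fun r _ => ?_
    rw [Finset.sum_comm]
    refine Finset.sum_congr rfl fun a _ => Finset.sum_congr rfl fun b _ => ?_
    ring
  have hzero := disjoint_of_wronskian D Z29_δ (Polynomial.eval₂RingHom i l)
    (fun f hf => htr f hf)
    (fun c => by
      rw [Polynomial.coe_eval₂RingHom, Polynomial.algebraMap_apply, Polynomial.eval₂_C,
        PowerSeries.algebraMap_apply, Algebra.algebraMap_self_apply, hiC]) ht
    (fun f => by
      rw [Polynomial.coe_eval₂RingHom]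
      exact Z29_D_eval D i l t hDi hl f)
    (fun f g hf h => wronskian Z29_δ Z29_coeff_δ f g hf h) c hc hc0 f hrel b
  have h3 := congrArg (fun P : Polynomial (PowerSeries ℂ) => P.coeff r) hzero
  simp only [hf, Polynomial.finsetSum_coeff, Polynomial.coeff_monomial, Polynomial.coeff_zero] at h3
  rw [Finset.sum_ite_eq' (Finset.range d) r, if_pos (Finset.mem_range.2 hr)] at h3
  rcases mul_eq_zero.1 h3 with h4 | h4
  · exfalso
    have h5 := congrArg (constantCoeff (R := ℂ)) h4
    rw [constantCoeff_C, map_zero] at h5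
    have h6 : ((-1 : ℂ)) ^ r * ((r.factorial : ℂ))⁻¹ ≠ 0 :=
      mul_ne_zero (pow_ne_zero _ (by norm_num))
        (inv_ne_zero (by exact_mod_cast r.factorial_ne_zero))
    exact h6 h5
  · exact h4

/-- a vector in the span of the columns of `exp · B`, in terms of the adjugate -/
theorem Z29_adj {K : Type} [Field K] [Algebra ℂ K] {p : ι → ℤ} {d : ℕ} {N : Matrix ι ι ℂ}
    (hN : N ^ d = 0) (l : K) (B : Matrix ι ι K) (hB : IsUnit B) {a : ℤ} {e : ι → K}
    (he : e ∈ colSp p (expn d N l * B) a) (i : ι) (hi : p i < a) :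
    (B.adjugate.mulVec ((expn d N (-l)).mulVec e)) i = 0 := by
  obtain ⟨c, hc, rfl⟩ := mem_colSp_iff_exists.1 he
  have h1 : expn d N (-l) * expn d N l = 1 := by
    rw [← expn_add hN, neg_add_cancel, expn_zero hN]
  rw [Matrix.mulVec_mulVec c (expn d N (-l)) (expn d N l * B), ← Matrix.mul_assoc, h1,
    Matrix.one_mul, Matrix.mulVec_mulVec, Matrix.adjugate_mul, Matrix.smul_mulVec, Matrix.one_mulVec, Pi.smul_apply, hc i hi, smul_zero]

namespace DF

variable (F : DF) {wt p : ι → ℤ} {d : ℕ} {n : Matrix ι ι ℂ} {A : Matrix ι ι (PowerSeries ℂ)}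

theorem descent (h : FData wt p d n A) (j : ℕ) (e : ι → F.K) (he : e ∈ F.NN p d n A j)
    (he0 : e ≠ 0) (hD : ∀ i, F.D (e i) = 0) :
    ∃ u : ι → ℂ, u ≠ 0 ∧ ∀ (r : ℕ) (i : ι), p i < -(j : ℤ) →
      (A.adjugate.mulVec fun a => C ((n ^ r).mulVec u a)) i = 0 ∧
      (A.adjugate.mulVec fun a => C ((n ^ r).mulVec (fun b => conj (u b)) a)) i = 0 := by
  obtain ⟨he1, he2⟩ := he
  have hnd : n ^ d = 0 := h.nil
  have hnd' : (-n) ^ d = 0 := by rw [neg_pow, hnd, mul_zero]
  -- the conjugate matrix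
  set σ : PowerSeries ℂ →+* PowerSeries ℂ := PowerSeries.map (starRingEnd ℂ) with hσ
  set A' : Matrix ι ι (PowerSeries ℂ) := A.map σ with hA'
  have hσσ : ∀ f, σ (σ f) = f := by
    intro f
    ext k
    rw [hσ, PowerSeries.coeff_map, PowerSeries.coeff_map, Complex.conj_conj]
  have hA'A : A'.map σ = A := by
    ext a b : 2
    rw [hA', Matrix.map_apply, Matrix.map_apply, hσσ]
  have hfz : F.fz d n A = expn d n F.lz * A.map F.iz := rfl
  have hfw : F.fw d n A = expn d (-n) F.lw * A'.map F.iw := by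
    rw [DF.fw]
    congr 1
  have hu1 : IsUnit (A.map F.iz) := h.unit.map (RingHom.mapMatrix F.iz)
  have hu2 : IsUnit (A'.map F.iw) := (h.unit.map (RingHom.mapMatrix σ)).map (RingHom.mapMatrix F.iw)
  have hz := fun i hi => Z29_adj hnd F.lz (A.map F.iz) hu1 (a := -(j : ℤ)) (hfz ▸ he1) i hi
  have hw := fun i hi => Z29_adj hnd' F.lw (A'.map F.iw) hu2 (a := -(j : ℤ)) (hfw ▸ he2) i hi
  -- a basis of the span of the coordinates
  set V : Submodule ℂ F.K := Submodule.span ℂ (Set.range e) with hV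
  have hfd : FiniteDimensional ℂ V := FiniteDimensional.span_of_finite ℂ (Set.finite_range e)
  let b := Module.finBasis ℂ V
  have heV : ∀ a, e a ∈ V := fun a => Submodule.subset_span ⟨a, rfl⟩
  have hVD : V ≤ LinearMap.ker (F.D : F.K →ₗ[ℂ] F.K) := by
    rw [hV, Submodule.span_le]
    rintro _ ⟨a, rfl⟩
    exact hD a
  have hc : LinearIndependent ℂ fun t => ((b t : V) : F.K) :=
    b.linearIndependent.map' V.subtype (Submodule.ker_subtype V)
  have hc0 : ∀ t, F.D ((b t : V) : F.K) = 0 := fun t => hVD (b t).2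
  set γ : ι → Fin (Module.finrank ℂ V) → ℂ := fun a t => b.repr ⟨e a, heV a⟩ t with hγ
  have heγ : ∀ a, e a = ∑ t, algebraMap ℂ F.K (γ a t) * ((b t : V) : F.K) := by
    intro a
    have h1 := congrArg V.subtype (b.sum_repr ⟨e a, heV a⟩)
    rw [map_sum] at h1
    simp only [Submodule.subtype_apply, Submodule.coe_smul, Algebra.smul_def] at h1
    exact h1.symm
  obtain ⟨a0, ha0⟩ := Function.ne_iff.1 he0
  have hex : ∃ t, γ a0 t ≠ 0 := by
    by_contra hcon
    push Not at hcon
    apply ha0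
    rw [heγ a0]
    simp [hcon]
  obtain ⟨t0, ht0⟩ := hex
  refine ⟨fun a => γ a t0, fun hu => ht0 (congrFun hu a0), fun r i hi => ⟨?_, ?_⟩⟩
  · exact Z29_gen F.D F.iz F.lz F.tz F.tz_ne F.D_iz F.D_lz F.iz_C F.trans_z A n d hnd _ hc hc0 γ e
      heγ i (hz i hi) t0 r
  · have h1 := Z29_gen F.D F.iw F.lw F.tw F.tw_ne F.D_iw F.D_lw F.iw_C F.trans_w A' (-n) d hnd' _ hc
      hc0 γ e heγ i (hw i hi) t0 r
    have h2 := congrArg σ h1
    rw [map_zero] at h2
    rw [← h2]
    simp only [Matrix.mulVec, dotProduct, map_sum, map_mul]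
    refine Finset.sum_congr rfl fun x _ => ?_
    have h3 : A.adjugate i x = σ (A'.adjugate i x) := by
      have h4 := RingHom.map_adjugate σ A'
      rw [RingHom.mapMatrix_apply, RingHom.mapMatrix_apply, hA'A] at h4
      rw [← h4, Matrix.map_apply]
    rw [h3]
    congr 1
    refine Finset.sum_congr rfl fun y _ => ?_
    have h5 : (n ^ r) x y = conj (((-n) ^ r) x y) := by
      have h6 := map_pow (RingHom.mapMatrix (m := ι) (starRingEnd ℂ)) (-n) r
      have h7 : RingHom.mapMatrix (m := ι) (starRingEnd ℂ) (-n) = n := by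
        rw [map_neg, RingHom.mapMatrix_apply, h.cnj, neg_neg]
      rw [h7] at h6
      rw [← h6]
      rfl
    rw [h5, hσ, PowerSeries.map_C, PowerSeries.map_C]

end DF

end Pool.Agent.LibZE25
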