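import Pool.Agent.LibZE25.Z15
import Pool.Agent.LibZE25.Z16
import Pool.Agent.LibZE25.Z26
import Pool.Agent.LibZE25.Z27
import Pool.Agent.LibZE25.Z28
import Pool.Agent.LibZE25.Z29

/-!
# The formal part of the argument
-/

open PowerSeries Filter Topology
open scoped ComplexConjugate

namespace Pool.Agent.LibZE25

/-- the differential field of a sequence -/
theorem exists_DF_seq {q : ℕ → ℂ} (hq : Tendsto q atTop (𝓝 0)) (hq0 : ∀ n, q n ≠ 0) :
    ∃ F : DF, ∀ f : RR, (Asym q f fun _ => 0) → F.φ f = 0 := by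
  obtain ⟨F, hF⟩ := exists_DF (Ideal.span {f : RR | Asym q f fun _ => 0})
    (fun N => zw_pow_notMem_span hq hq0 _ (fun f hf => hf) N)
  exact ⟨F, fun f hf => hF f (Ideal.subset_span hf)⟩

variable {ι : Type} [Fintype ι] [DecidableEq ι]

namespace DF

variable (F : DF) {wt p : ι → ℤ} {d : ℕ} {n : Matrix ι ι ℂ} {A : Matrix ι ι (PowerSeries ℂ)}

/-- the formal part -/
theorem core (h : FData wt p d n A) (hwt : ∀ i, wt i ≤ 0) (m : ℕ)
    (hcard : Fintype.card {i // wt i = 0} ≤ m)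
    (h0 : ∀ e : {j // (0 : ℤ) ≤ p j} ⊕ {j // (0 : ℤ) ≤ p j} → ι,
      F.φ ((cat p 0 (rz d n A) (rw' d n A)).submatrix e id).det = 0)
    (h1 : ∀ l < 0, ∃ e : {j : {i // wt i = l} // -(m : ℤ) ≤ p j} ⊕
        {j : {i // wt i = l} // -(m : ℤ) ≤ p j} → {i // wt i = l},
      F.φ ((cat (fun i : {i // wt i = l} => p i) (-(m : ℤ)) (bk wt l (rz d n A))
        (bk wt l (rw' d n A))).submatrix e id).det ≠ 0) :
    ∃ j < m, ∃ u : ι → ℂ, u ≠ 0 ∧ ∀ (r : ℕ) (i : ι), p i < -(j : ℤ) →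
      (A.adjugate.mulVec fun a => C ((n ^ r).mulVec u a)) i = 0 ∧
      (A.adjugate.mulVec fun a => C ((n ^ r).mulVec (fun b => conj (u b)) a)) i = 0 := by
  obtain ⟨j, hj, e, he, he0, hD⟩ := exists_chain F.D m (F.NN p d n A) (F.NN_zero h h0)
    (fun j v hv => ⟨Submodule.span_mono (by
        rintro x ⟨i, hi, rfl⟩
        exact ⟨i, by push_cast; omega, rfl⟩) hv.1, Submodule.span_mono (by
        rintro x ⟨i, hi, rfl⟩
        exact ⟨i, by push_cast; omega, rfl⟩) hv.2⟩)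
    (fun j v hv => F.NN_step h j v hv) ((F.NN_finrank h hwt m h1).trans hcard)
  exact ⟨j, hj, F.descent h j e he he0 hD⟩

end DF

end Pool.Agent.LibZE25
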