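import Mathlib

/-!
# The stable hull of the first member of a chain
-/

namespace Pool.Agent.LibZE25

/-- the growing chain generated by `L 0` -/
private def Y1_T {K : Type} [Field K] [Algebra ℂ K] (D : Derivation ℂ K K) {ι : Type}
    (L : Submodule K (ι → K)) : ℕ → Submodule K (ι → K)
  | 0 => L
  | (i + 1) => Y1_T D L i ⊔
      Submodule.span K {w | ∃ v ∈ Y1_T D L i, w = fun x => D (v x)}

theorem exists_hull {K : Type} [Field K] [Algebra ℂ K] (D : Derivation ℂ K K) {ι : Type}
    [Fintype ι] (m : ℕ) (L : ℕ → Submodule K (ι → K)) (h0 : L 0 ≠ ⊥)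
    (hmono : ∀ j, L j ≤ L (j + 1)) (hD : ∀ j, ∀ v ∈ L j, (fun i => D (v i)) ∈ L (j + 1))
    (hm : Module.finrank K (L m) ≤ m) :
    ∃ j < m, ∃ S : Submodule K (ι → K), L 0 ≤ S ∧ S ≤ L j ∧
      ∀ v ∈ S, (fun i => D (v i)) ∈ S := by
  classical
  have hTL : ∀ i, Y1_T D (L 0) i ≤ L i := by
    intro i
    induction i with
    | zero => exact le_rfl
    | succ i ih =>
      refine sup_le (ih.trans (hmono i)) ?_
      refine Submodule.span_le.2 ?_
      rintro w ⟨v, hv, rfl⟩
      exact hD i v (ih hv)
  have hstep : ∀ i, Y1_T D (L 0) i ≤ Y1_T D (L 0) (i + 1) := fun i => le_sup_left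
  have h0T : ∀ i, L 0 ≤ Y1_T D (L 0) i := by
    intro i
    induction i with
    | zero => exact le_rfl
    | succ i ih => exact ih.trans (hstep i)
  by_cases hex : ∃ j, j < m ∧ Y1_T D (L 0) j = Y1_T D (L 0) (j + 1)
  · obtain ⟨j, hj, hjj⟩ := hex
    refine ⟨j, hj, Y1_T D (L 0) j, h0T j, hTL j, ?_⟩
    intro v hv
    rw [hjj]
    exact Submodule.mem_sup_right (Submodule.subset_span ⟨v, hv, rfl⟩)
  · exfalso
    push Not at hex
    have hrank : ∀ i, i ≤ m → i + 1 ≤ Module.finrank K (Y1_T D (L 0) i) := by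
      intro i
      induction i with
      | zero =>
        intro _
        have : Y1_T D (L 0) 0 = L 0 := rfl
        rw [this]
        have hne : Module.finrank K (L 0) ≠ 0 := by
          intro h
          exact h0 (Submodule.finrank_eq_zero.1 h)
        omega
      | succ i ih =>
        intro hi
        have h1 := ih (by omega)
        have h2 : Y1_T D (L 0) i < Y1_T D (L 0) (i + 1) :=
          lt_of_le_of_ne (hstep i) (hex i (by omega))
        have h3 := Submodule.finrank_lt_finrank_of_lt h2
        omega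
    have h1 := hrank m le_rfl
    have h2 : Module.finrank K (Y1_T D (L 0) m) ≤ Module.finrank K (L m) :=
      Submodule.finrank_mono (hTL m)
    omega

end Pool.Agent.LibZE25
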