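import Mathlib

/-!
# A subspace stable under a derivation is spanned by constant vectors

Proof: a nonzero vector `v` of `S` of minimal support among those with support contained in the support of `x`, scaled to
`v i₀ = 1`, satisfies `D v = 0`; subtract `x i₀ • v` from `x` and use induction on the size of the support.
-/

namespace Pool.Agent.LibZE25

theorem span_const {K : Type} [Field K] [Algebra ℂ K] (D : Derivation ℂ K K) {ι : Type}
    [Fintype ι] (S : Submodule K (ι → K)) (hD : ∀ v ∈ S, (fun i => D (v i)) ∈ S) :
    S ≤ Submodule.span K {e | e ∈ S ∧ ∀ i, D (e i) = 0} := by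
  classical
  obtain ⟨sp, hsp⟩ : ∃ sp : (ι → K) → Finset ι, ∀ v i, i ∈ sp v ↔ v i ≠ 0 :=
    ⟨fun v => Finset.univ.filter fun i => v i ≠ 0, fun v i => by simp⟩
  have key : ∀ N : ℕ, ∀ x ∈ S, (sp x).card ≤ N →
      x ∈ Submodule.span K {e | e ∈ S ∧ ∀ i, D (e i) = 0} := by
    intro N
    induction N with
    | zero =>
      intro x hx hc
      have h0 : x = 0 := by
        funext i
        by_contra hi
        have h1 : i ∈ sp x := (hsp x i).2 hi
        have h2 := Finset.card_pos.2 ⟨i, h1⟩
        omega
      rw [h0]
      exact Submodule.zero_mem _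
    | succ N ih =>
      intro x hx hc
      by_cases hx0 : x = 0
      · rw [hx0]
        exact Submodule.zero_mem _
      have hex : ∃ m, ∃ v ∈ S, v ≠ 0 ∧ sp v ⊆ sp x ∧ (sp v).card = m :=
        ⟨_, x, hx, hx0, Finset.Subset.refl _, rfl⟩
      obtain ⟨v, hv, hv0, hvx, hvm⟩ := Nat.find_spec hex
      have hmin : ∀ u ∈ S, sp u ⊆ sp x → (sp u).card < (sp v).card → u = 0 := by
        intro u hu hux huc
        by_contra hu0
        rw [hvm] at huc
        exact Nat.find_min hex huc ⟨u, hu, hu0, hux, rfl⟩
      obtain ⟨i0, hi0⟩ := Function.ne_iff.1 hv0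
      have hi0' : v i0 ≠ 0 := hi0
      have hw : (v i0)⁻¹ • v ∈ S := S.smul_mem _ hv
      have hwi : ((v i0)⁻¹ • v) i0 = 1 := by
        rw [Pi.smul_apply, smul_eq_mul, inv_mul_cancel₀ hi0']
      obtain ⟨w, hwdef⟩ : ∃ w : ι → K, w = (v i0)⁻¹ • v := ⟨_, rfl⟩
      rw [← hwdef] at hw hwi
      have hwsp : ∀ i, w i ≠ 0 → v i ≠ 0 := by
        intro i hi hvi
        apply hi
        rw [hwdef, Pi.smul_apply, hvi, smul_zero]
      have hDw : (fun i => D (w i)) = 0 := by
        apply hmin _ (hD w hw)
        · intro i hi
          apply hvx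
          rw [hsp] at hi ⊢
          apply hwsp
          intro h0
          apply hi
          rw [h0, map_zero]
        · apply Finset.card_lt_card
          rw [Finset.ssubset_iff_of_subset]
          · refine ⟨i0, (hsp v i0).2 hi0', ?_⟩
            rw [hsp]
            intro h
            apply h
            rw [hwi]
            exact D.map_one_eq_zero
          · intro i hi
            rw [hsp] at hi ⊢
            apply hwsp
            intro h0
            apply hi
            rw [h0, map_zero]
      have hwmem : w ∈ Submodule.span K {e | e ∈ S ∧ ∀ i, D (e i) = 0} :=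
        Submodule.subset_span ⟨hw, fun i => congrFun hDw i⟩
      have hxi : x i0 ≠ 0 := (hsp x i0).1 (hvx ((hsp v i0).2 hi0'))
      have hx' : x - x i0 • w ∈ Submodule.span K {e | e ∈ S ∧ ∀ i, D (e i) = 0} := by
        apply ih _ (S.sub_mem hx (S.smul_mem _ hw))
        have hlt : (sp (x - x i0 • w)).card < (sp x).card := by
          apply Finset.card_lt_card
          rw [Finset.ssubset_iff_of_subset]
          · refine ⟨i0, (hsp x i0).2 hxi, ?_⟩
            rw [hsp]
            intro h
            apply h
            rw [Pi.sub_apply, Pi.smul_apply, hwi, smul_eq_mul, mul_one, sub_self]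
          · intro i hi
            rw [hsp] at hi ⊢
            intro h0
            apply hi
            have h1 : w i = 0 := by
              by_contra h2
              exact (hsp x i).1 (hvx ((hsp v i).2 (hwsp i h2))) h0
            rw [Pi.sub_apply, Pi.smul_apply, h0, h1, smul_zero, sub_zero]
        omega
      have h := Submodule.add_mem _ hx' (Submodule.smul_mem _ (x i0) hwmem)
      rwa [sub_add_cancel] at h
  intro x hx
  exact key _ x hx le_rfl

end Pool.Agent.LibZE25
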