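import Pool.Agent.LibZE25.Y18
import Pool.Agent.LibZE25.Z27

/-!
# Vanishing of the minors of size `k` and the dimension of `N_0`
-/

open PowerSeries

namespace Pool.Agent.LibZE25

variable {ι : Type} [Fintype ι] [DecidableEq ι]

private theorem Y20_sum {K : Type} [Field K] (P : ι → Prop) [DecidablePred P] (f : ι → K)
    (g : {j // P j} → K) :
    ∑ j, f j * (if hj : P j then g ⟨j, hj⟩ else 0) = ∑ j : {j // P j}, f j * g j := by
  rw [← Fintype.sum_subtype_add_sum_subtype P]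
  have h2 : ∑ i : {x // ¬ P x}, f i * (if hj : P i then g ⟨i, hj⟩ else 0) = 0 :=
    Fintype.sum_eq_zero _ fun i => by rw [dif_neg i.2, mul_zero]
  rw [h2, add_zero]
  exact Finset.sum_congr rfl fun i _ => by rw [dif_pos i.2]

/-- extension by zero of the left half -/
private def Y20_ext (K : Type) [Field K] (p : ι → ℤ) :
    (({j // (0 : ℤ) ≤ p j} ⊕ {j // (0 : ℤ) ≤ p j}) → K) →ₗ[K] (ι → K) where
  toFun v := fun j => if hj : 0 ≤ p j then v (Sum.inl ⟨j, hj⟩) else 0
  map_add' v v' := by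
    funext j
    by_cases hj : 0 ≤ p j <;> simp [hj]
  map_smul' r v := by
    funext j
    by_cases hj : 0 ≤ p j <;> simp [hj]

namespace DF

variable (F : DF) {wt p : ι → ℤ} {d : ℕ} {n : Matrix ι ι ℂ} {A : Matrix ι ι (PowerSeries ℂ)}

private theorem Y20_mem (h : FData wt p d n A)
    (v : ({j // (0 : ℤ) ≤ p j} ⊕ {j // (0 : ℤ) ≤ p j}) → F.K)
    (hv0 : ((cat p 0 (rz d n A) (rw' d n A)).map F.φ).mulVec v = 0) :
    (F.fz d n A).mulVec (Y20_ext F.K p v) ∈ F.NN p d n A 0 ∧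
      ((F.fz d n A).mulVec (Y20_ext F.K p v) = 0 → v = 0) := by
  classical
  let t : ι → F.K := fun j => if hj : 0 ≤ p j then v (Sum.inr ⟨j, hj⟩) else 0
  have hs : ∀ (B : Matrix ι ι F.K) (i : ι),
      (B.mulVec (Y20_ext F.K p v)) i = ∑ j : {j // (0 : ℤ) ≤ p j}, B i j * v (Sum.inl j) := by
    intro B i
    exact Y20_sum (fun j => (0 : ℤ) ≤ p j) (B i) fun j => v (Sum.inl j)
  have ht : ∀ (B : Matrix ι ι F.K) (i : ι),
      (B.mulVec t) i = ∑ j : {j // (0 : ℤ) ≤ p j}, B i j * v (Sum.inr j) := by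
    intro B i
    exact Y20_sum (fun j => (0 : ℤ) ≤ p j) (B i) fun j => v (Sum.inr j)
  have key : ((rz d n A).map F.φ).mulVec (Y20_ext F.K p v) =
      -(((rw' d n A).map F.φ).mulVec t) := by
    funext i
    have h1 := congrFun hv0 i
    simp only [Matrix.mulVec, dotProduct, Fintype.sum_sum_type, Matrix.map_apply, cat, Sum.elim_inl,
      Sum.elim_inr, Pi.zero_apply] at h1
    rw [Pi.neg_apply, hs, ht]
    exact eq_neg_of_add_eq_zero_left h1
  have hx : (F.fz d n A).mulVec (Y20_ext F.K p v) = (F.fw d n A).mulVec (-t) := by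
    rw [(F.fz_eq h.nil).1, (F.fz_eq h.nil).2, ← Matrix.mulVec_mulVec, ← Matrix.mulVec_mulVec, key,
      Matrix.mulVec_neg, Matrix.mulVec_neg, Matrix.mulVec_neg]
  have hU := F.isUnit_fz h
  constructor
  · rw [NN, Submodule.mem_inf]
    refine ⟨mem_colSp_iff_exists.2 ⟨Y20_ext F.K p v, ?_, rfl⟩,
      mem_colSp_iff_exists.2 ⟨-t, ?_, hx⟩⟩
    · intro j hj
      have : ¬ (0 : ℤ) ≤ p j := by simpa using hj
      simp [Y20_ext, this]
    · intro j hj
      have : ¬ (0 : ℤ) ≤ p j := by simpa using hj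
      simp [t, this]
  · intro h0
    have hs0 : Y20_ext F.K p v = 0 :=
      (Matrix.mulVec_injective_iff_isUnit.2 hU.1) (by rw [h0, Matrix.mulVec_zero])
    have ht0 : -t = 0 := (Matrix.mulVec_injective_iff_isUnit.2 hU.2)
      (by rw [← hx, h0, Matrix.mulVec_zero])
    funext c
    rcases c with ⟨j, hj⟩ | ⟨j, hj⟩
    · have := congrFun hs0 j
      simpa [Y20_ext, hj] using this
    · have := congrFun ht0 j
      simpa [t, hj] using this

theorem NN_finrank_ge (h : FData wt p d n A) (k : ℕ)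
    (h0 : ∀ (e : Fin k → ι) (c : Fin k → {j // (0 : ℤ) ≤ p j} ⊕ {j // (0 : ℤ) ≤ p j}),
      F.φ ((cat p 0 (rz d n A) (rw' d n A)).submatrix e c).det = 0) :
    2 * Fintype.card {j // (0 : ℤ) ≤ p j} < Module.finrank F.K (F.NN p d n A 0) + k := by
  classical
  let M : Matrix ι ({j // (0 : ℤ) ≤ p j} ⊕ {j // (0 : ℤ) ≤ p j}) F.K :=
    (cat p 0 (rz d n A) (rw' d n A)).map F.φ
  have h1 := ker_of_minors M k (by
    intro e c
    have h2 := h0 e c
    rw [RingHom.map_det] at h2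
    exact h2)
  have hker : ∀ v : LinearMap.ker M.mulVecLin, M.mulVec v.1 = 0 := by
    intro v
    have h2 := v.2
    rwa [LinearMap.mem_ker, Matrix.mulVecLin_apply] at h2
  let L : LinearMap.ker M.mulVecLin →ₗ[F.K] F.NN p d n A 0 :=
    LinearMap.codRestrict (F.NN p d n A 0)
      (((F.fz d n A).mulVecLin ∘ₗ Y20_ext F.K p) ∘ₗ (LinearMap.ker M.mulVecLin).subtype)
      (fun v => (F.Y20_mem h v.1 (hker v)).1)
  have hL : Function.Injective L := by
    rw [injective_iff_map_eq_zero]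
    intro v hv
    have h3 : (F.fz d n A).mulVec (Y20_ext F.K p v.1) = 0 :=
      congrArg Subtype.val hv
    exact Subtype.ext ((F.Y20_mem h v.1 (hker v)).2 h3)
  have h2 := LinearMap.finrank_le_finrank_of_injective hL
  rw [Fintype.card_sum] at h1
  omega

end DF

end Pool.Agent.LibZE25
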