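import Pool.Agent.LibZE25.Y7
import Pool.Agent.LibZE25.Z21

/-!
# Spans over a larger field of complex subspaces
-/

namespace Pool.Agent.LibZE25

variable {ι : Type} [Fintype ι] [DecidableEq ι]

omit [DecidableEq ι] in
private theorem Y21_indep {K : Type} [Field K] [Algebra ℂ K] {d : ℕ} (f : Fin d → ι → ℂ)
    (hf : LinearIndependent ℂ f) :
    LinearIndependent K (fun (a : Fin d) (i : ι) => algebraMap ℂ K (f a i)) := by
  classical
  obtain ⟨M, hM⟩ : ∃ M : Matrix ι (Fin d) ℂ, M = Matrix.of fun i a => f a i := ⟨_, rfl⟩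
  have hMi : ∀ v : Fin d → ℂ, M.mulVec v = 0 → v = 0 := by
    intro v hv
    rw [Fintype.linearIndependent_iff] at hf
    funext a
    refine hf v ?_ a
    funext i
    have h1 := congrFun hv i
    rw [Finset.sum_apply]
    rw [hM, Matrix.mulVec, dotProduct] at h1
    rw [Pi.zero_apply] at h1 ⊢
    rw [← h1]
    refine Finset.sum_congr rfl fun b _ => ?_
    rw [Pi.smul_apply, smul_eq_mul, Matrix.of_apply, mul_comm]
  obtain ⟨e, he⟩ := exists_minor M hMi
  have he' : ((M.map (algebraMap ℂ K)).submatrix e id).det ≠ 0 := by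
    have h1 : ((M.map (algebraMap ℂ K)).submatrix e id) =
        (algebraMap ℂ K).mapMatrix (M.submatrix e id) := rfl
    have h2 : (((M.map (algebraMap ℂ K)).submatrix e id)).det =
        algebraMap ℂ K (M.submatrix e id).det := by
      rw [h1, ← RingHom.map_det]
    intro h3
    have h4 : algebraMap ℂ K (M.submatrix e id).det = 0 := by
      rw [← h2]
      exact h3
    rw [map_eq_zero] at h4
    exact he h4
  rw [Fintype.linearIndependent_iff]
  intro g hg
  have h5 : (M.map (algebraMap ℂ K)).mulVec g = 0 := by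
    funext i
    have h6 := congrFun hg i
    rw [Finset.sum_apply] at h6
    rw [Matrix.mulVec, dotProduct, ← h6]
    refine Finset.sum_congr rfl fun b _ => ?_
    rw [Pi.smul_apply, smul_eq_mul, Matrix.map_apply, hM, Matrix.of_apply, mul_comm]
  have h7 := mulVec_inj_of_minor (M.map (algebraMap ℂ K)) he' g h5
  intro a
  rw [h7]
  rfl

theorem kSp_finrank {K : Type} [Field K] [Algebra ℂ K] (U : Submodule ℂ (ι → ℂ)) :
    Module.finrank K (kSp K U) = Module.finrank ℂ U := by
  classical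
  obtain ⟨b⟩ : Nonempty (Module.Basis (Fin (Module.finrank ℂ U)) ℂ U) :=
    ⟨Module.finBasis ℂ U⟩
  have hf : LinearIndependent ℂ (fun a => ((b a : U) : ι → ℂ)) :=
    b.linearIndependent.map' U.subtype (Submodule.ker_subtype U)
  have hK := Y21_indep (K := K) (fun a => ((b a : U) : ι → ℂ)) hf
  have hspan : kSp K U = Submodule.span K
      (Set.range fun (a : Fin (Module.finrank ℂ U)) (i : ι) =>
        algebraMap ℂ K (((b a : U) : ι → ℂ) i)) := by
    apply le_antisymm
    · refine Submodule.span_le.2 ?_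
      rintro v ⟨u, hu, rfl⟩
      have h1 := b.sum_repr ⟨u, hu⟩
      have h2 : ∀ i, u i = ∑ a, b.repr ⟨u, hu⟩ a * ((b a : U) : ι → ℂ) i := by
        intro i
        have h3 := congrArg (fun t : U => ((t : U) : ι → ℂ) i) h1
        simp only [Submodule.coe_sum, Submodule.coe_smul, Finset.sum_apply, Pi.smul_apply,
          smul_eq_mul] at h3
        exact h3.symm
      have h4 : (fun i => algebraMap ℂ K (u i)) = ∑ a, algebraMap ℂ K (b.repr ⟨u, hu⟩ a) •
          (fun i : ι => algebraMap ℂ K (((b a : U) : ι → ℂ) i)) := by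
        funext i
        rw [h2 i, map_sum, Finset.sum_apply]
        refine Finset.sum_congr rfl fun a _ => ?_
        rw [map_mul, Pi.smul_apply, smul_eq_mul]
      rw [h4]
      exact Submodule.sum_mem _ fun a _ => Submodule.smul_mem _ _
        (Submodule.subset_span ⟨a, rfl⟩)
    · refine Submodule.span_le.2 ?_
      rintro v ⟨a, rfl⟩
      exact Submodule.subset_span ⟨((b a : U) : ι → ℂ), (b a).2, rfl⟩
  rw [hspan, finrank_span_eq_card hK, Fintype.card_fin]

theorem kSp_sup {K : Type} [Field K] [Algebra ℂ K] (U₁ U₂ : Submodule ℂ (ι → ℂ)) :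
    kSp K (U₁ ⊔ U₂) = kSp K U₁ ⊔ kSp K U₂ := by
  apply le_antisymm
  · refine Submodule.span_le.2 ?_
    rintro v ⟨u, hu, rfl⟩
    obtain ⟨u₁, h₁, u₂, h₂, rfl⟩ := Submodule.mem_sup.1 hu
    refine Submodule.mem_sup.2 ⟨fun i => algebraMap ℂ K (u₁ i),
      Submodule.subset_span ⟨u₁, h₁, rfl⟩, fun i => algebraMap ℂ K (u₂ i),
      Submodule.subset_span ⟨u₂, h₂, rfl⟩, ?_⟩
    funext i
    rw [Pi.add_apply, Pi.add_apply, map_add]
  · refine sup_le (Submodule.span_mono ?_) (Submodule.span_mono ?_)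
    · rintro v ⟨u, hu, rfl⟩
      exact ⟨u, Submodule.mem_sup_left hu, rfl⟩
    · rintro v ⟨u, hu, rfl⟩
      exact ⟨u, Submodule.mem_sup_right hu, rfl⟩

theorem kSp_inf {K : Type} [Field K] [Algebra ℂ K] (U₁ U₂ : Submodule ℂ (ι → ℂ)) :
    kSp K U₁ ⊓ kSp K U₂ = kSp K (U₁ ⊓ U₂) := by
  symm
  apply Submodule.eq_of_le_of_finrank_eq
  · refine le_inf (Submodule.span_mono ?_) (Submodule.span_mono ?_)
    · rintro v ⟨u, hu, rfl⟩
      exact ⟨u, hu.1, rfl⟩
    · rintro v ⟨u, hu, rfl⟩
      exact ⟨u, hu.2, rfl⟩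
  · have h1 := Submodule.finrank_sup_add_finrank_inf_eq (kSp K U₁) (kSp K U₂)
    have h2 := Submodule.finrank_sup_add_finrank_inf_eq U₁ U₂
    rw [← kSp_sup, kSp_finrank, kSp_finrank, kSp_finrank] at h1
    rw [kSp_finrank]
    omega

end Pool.Agent.LibZE25
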