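import Pool.Agent.LibZE25.YDefs
import Pool.Agent.LibZE25.Z29

/-!
# Descent of constant vectors, complete form
-/

open PowerSeries
open scoped ComplexConjugate

namespace Pool.Agent.LibZE25

variable {ι : Type} [Fintype ι] [DecidableEq ι]

namespace DF

variable (F : DF) {wt p : ι → ℤ} {d : ℕ} {n : Matrix ι ι ℂ} {A : Matrix ι ι (PowerSeries ℂ)}

theorem descent_all (h : FData wt p d n A) (j : ℕ) (e : ι → F.K) (he : e ∈ F.NN p d n A j)
    (hD : ∀ i, F.D (e i) = 0) :
    e ∈ Submodule.span F.K {v : ι → F.K | ∃ u : ι → ℂ, FF p n A (-(j : ℤ)) u ∧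
      FF p n A (-(j : ℤ)) (fun b => conj (u b)) ∧ v = fun i => algebraMap ℂ F.K (u i)} := by
  obtain ⟨he1, he2⟩ := he
  have hnd : n ^ d = 0 := h.nil
  have hnd' : (-n) ^ d = 0 := by rw [neg_pow, hnd, mul_zero]
  -- the conjugate matrix
  set σ : PowerSeries ℂ →+* PowerSeries ℂ := PowerSeries.map (starRingEnd ℂ) with hσ
  set A' : Matrix ι ι (PowerSeries ℂ) := A.map σ with hA'
  have hσσ : ∀ f, σ (σ f) = f := by
    intro f
    ext k
    rw [hσ, PowerSeries.coeff_map, PowerSeries.coeff_map, Complex.conj_conj]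
  have hA'A : A'.map σ = A := by
    ext a b : 2
    rw [hA', Matrix.map_apply, Matrix.map_apply, hσσ]
  have hfz : F.fz d n A = expn d n F.lz * A.map F.iz := rfl
  have hfw : F.fw d n A = expn d (-n) F.lw * A'.map F.iw := by
    rw [DF.fw]
    congr 1
  have hu1 : IsUnit (A.map F.iz) := h.unit.map (RingHom.mapMatrix F.iz)
  have hu2 : IsUnit (A'.map F.iw) := (h.unit.map (RingHom.mapMatrix σ)).map (RingHom.mapMatrix F.iw)
  have hz := fun i hi => Z29_adj hnd F.lz (A.map F.iz) hu1 (a := -(j : ℤ)) (hfz ▸ he1) i hi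
  have hw := fun i hi => Z29_adj hnd' F.lw (A'.map F.iw) hu2 (a := -(j : ℤ)) (hfw ▸ he2) i hi
  -- a basis of the span of the coordinates
  set V : Submodule ℂ F.K := Submodule.span ℂ (Set.range e) with hV
  have hfd : FiniteDimensional ℂ V := FiniteDimensional.span_of_finite ℂ (Set.finite_range e)
  let b := Module.finBasis ℂ V
  have heV : ∀ a, e a ∈ V := fun a => Submodule.subset_span ⟨a, rfl⟩
  have hVD : V ≤ LinearMap.ker (F.D : F.K →ₗ[ℂ] F.K) := by
    rw [hV, Submodule.span_le]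
    rintro _ ⟨a, rfl⟩
    exact hD a
  have hc : LinearIndependent ℂ fun t => ((b t : V) : F.K) :=
    b.linearIndependent.map' V.subtype (Submodule.ker_subtype V)
  have hc0 : ∀ t, F.D ((b t : V) : F.K) = 0 := fun t => hVD (b t).2
  set γ : ι → Fin (Module.finrank ℂ V) → ℂ := fun a t => b.repr ⟨e a, heV a⟩ t with hγ
  have heγ : ∀ a, e a = ∑ t, algebraMap ℂ F.K (γ a t) * ((b t : V) : F.K) := by
    intro a
    have h1 := congrArg V.subtype (b.sum_repr ⟨e a, heV a⟩)
    rw [map_sum] at h1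
    simp only [Submodule.subtype_apply, Submodule.coe_smul, Algebra.smul_def] at h1
    exact h1.symm
  have hFF : ∀ t0, FF p n A (-(j : ℤ)) (fun a => γ a t0) := by
    intro t0 r i hi
    exact Z29_gen F.D F.iz F.lz F.tz F.tz_ne F.D_iz F.D_lz F.iz_C F.trans_z A n d hnd _ hc hc0 γ e
      heγ i (hz i hi) t0 r
  have hFF' : ∀ t0, FF p n A (-(j : ℤ)) (fun a => conj (γ a t0)) := by
    intro t0 r i hi
    have h1 := Z29_gen F.D F.iw F.lw F.tw F.tw_ne F.D_iw F.D_lw F.iw_C F.trans_w A' (-n) d hnd' _ hc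
      hc0 γ e heγ i (hw i hi) t0 r
    have h2 := congrArg σ h1
    rw [map_zero] at h2
    rw [← h2]
    simp only [Matrix.mulVec, dotProduct, map_sum, map_mul]
    refine Finset.sum_congr rfl fun x _ => ?_
    have h3 : A.adjugate i x = σ (A'.adjugate i x) := by
      have h4 := RingHom.map_adjugate σ A'
      rw [RingHom.mapMatrix_apply, RingHom.mapMatrix_apply, hA'A] at h4
      rw [← h4, Matrix.map_apply]
    rw [h3]
    congr 1
    refine Finset.sum_congr rfl fun y _ => ?_
    have h5 : (n ^ r) x y = conj (((-n) ^ r) x y) := by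
      have h6 := map_pow (RingHom.mapMatrix (m := ι) (starRingEnd ℂ)) (-n) r
      have h7 : RingHom.mapMatrix (m := ι) (starRingEnd ℂ) (-n) = n := by
        rw [map_neg, RingHom.mapMatrix_apply, h.cnj, neg_neg]
      rw [h7] at h6
      rw [← h6]
      rfl
    rw [h5, hσ, PowerSeries.map_C, PowerSeries.map_C]
  have hsum : e = ∑ t, ((b t : V) : F.K) • (fun a => algebraMap ℂ F.K (γ a t)) := by
    funext a
    rw [heγ a, Finset.sum_apply]
    refine Finset.sum_congr rfl fun t _ => ?_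
    rw [Pi.smul_apply, smul_eq_mul, mul_comm]
  rw [hsum]
  refine Submodule.sum_mem _ fun t _ => Submodule.smul_mem _ _ (Submodule.subset_span ?_)
  exact ⟨fun a => γ a t, hFF t, hFF' t, rfl⟩

end DF

end Pool.Agent.LibZE25
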