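import Pool.Agent.LibZE25.Z2

/-!
# Adjoin a transcendental element with given derivative
-/

namespace Pool.Agent.LibZE25

set_option backward.isDefEq.respectTransparency false in
/-- the derivation `D` applied to the coefficients -/
noncomputable def Z10_mc {K : Type} [Field K] [Algebra ℂ K] (D : Derivation ℂ K K) :
    Derivation ℂ (Polynomial K) (Polynomial K) :=
  PolynomialModule.equivPolynomialSelf.compDer D.mapCoeffs

set_option backward.isDefEq.respectTransparency false in
theorem Z10_mc_C {K : Type} [Field K] [Algebra ℂ K] (D : Derivation ℂ K K) (a : K) :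
    Z10_mc D (Polynomial.C a) = Polynomial.C (D a) := by
  ext n
  have h : (Z10_mc D (Polynomial.C a)).coeff n = D ((Polynomial.C a).coeff n) := rfl
  rw [h, Polynomial.coeff_C, Polynomial.coeff_C]
  split_ifs
  · rfl
  · exact map_zero D

set_option backward.isDefEq.respectTransparency false in
theorem Z10_mc_X {K : Type} [Field K] [Algebra ℂ K] (D : Derivation ℂ K K) :
    Z10_mc D (Polynomial.X : Polynomial K) = 0 := by
  ext n
  have h : (Z10_mc D (Polynomial.X : Polynomial K)).coeff n =
      D ((Polynomial.X : Polynomial K).coeff n) := rfl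
  rw [h, Polynomial.coeff_X, Polynomial.coeff_zero]
  split_ifs
  · exact D.map_one_eq_zero
  · exact map_zero D

/-- the derivation of `K[U]` extending `D` with `U' = u` -/
noncomputable def Z10_der {K : Type} [Field K] [Algebra ℂ K] (D : Derivation ℂ K K) (u : K) :
    Derivation ℂ (Polynomial K) (Polynomial K) :=
  Z10_mc D + Polynomial.C u • (Polynomial.derivative' (R := K)).restrictScalars ℂ

theorem Z10_der_C {K : Type} [Field K] [Algebra ℂ K] (D : Derivation ℂ K K) (u a : K) :
    Z10_der D u (Polynomial.C a) = Polynomial.C (D a) := by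
  have h : Z10_der D u (Polynomial.C a) =
      Z10_mc D (Polynomial.C a) + Polynomial.C u • Polynomial.derivative (Polynomial.C a) := rfl
  rw [h, Z10_mc_C, Polynomial.derivative_C, smul_zero, add_zero]

theorem Z10_der_X {K : Type} [Field K] [Algebra ℂ K] (D : Derivation ℂ K K) (u : K) :
    Z10_der D u (Polynomial.X : Polynomial K) = Polynomial.C u := by
  have h : Z10_der D u (Polynomial.X : Polynomial K) =
      Z10_mc D (Polynomial.X : Polynomial K) +
        Polynomial.C u • Polynomial.derivative (Polynomial.X : Polynomial K) := rfl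
  rw [h, Z10_mc_X, Polynomial.derivative_X, smul_eq_mul, mul_one, zero_add]

theorem exists_adjoin {K : Type} [Field K] [Algebra ℂ K] (D : Derivation ℂ K K) (u : K) :
    ∃ (L : Type) (_ : Field L) (_ : Algebra ℂ L) (D' : Derivation ℂ L L) (ι : K →+* L) (U : L),
      (∀ c : ℂ, ι (algebraMap ℂ K c) = algebraMap ℂ L c) ∧ (∀ a, D' (ι a) = ι (D a)) ∧
      D' U = ι u ∧ ∀ g : Polynomial K, Polynomial.eval₂ ι U g = 0 → g = 0 := by
  obtain ⟨D', hD'⟩ := exists_fracDer (Z10_der D u)
  refine ⟨FractionRing (Polynomial K), inferInstance, inferInstance, D',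
    (algebraMap (Polynomial K) (FractionRing (Polynomial K))).comp Polynomial.C,
    algebraMap (Polynomial K) (FractionRing (Polynomial K)) Polynomial.X, ?_, ?_, ?_, ?_⟩
  · intro c
    have h1 : algebraMap ℂ (FractionRing (Polynomial K)) c =
        algebraMap (Polynomial K) (FractionRing (Polynomial K))
          (algebraMap ℂ (Polynomial K) c) :=
      IsScalarTower.algebraMap_apply ℂ (Polynomial K) (FractionRing (Polynomial K)) c
    rw [h1]
    rfl
  · intro a
    change D' (algebraMap (Polynomial K) (FractionRing (Polynomial K)) (Polynomial.C a)) =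
      algebraMap (Polynomial K) (FractionRing (Polynomial K)) (Polynomial.C (D a))
    rw [hD', Z10_der_C]
  · rw [hD', Z10_der_X]
    rfl
  · intro g hg
    have h1 : Polynomial.eval₂
        ((algebraMap (Polynomial K) (FractionRing (Polynomial K))).comp Polynomial.C)
        (algebraMap (Polynomial K) (FractionRing (Polynomial K)) Polynomial.X) g =
        algebraMap (Polynomial K) (FractionRing (Polynomial K)) g := by
      rw [← Polynomial.hom_eval₂, Polynomial.eval₂_C_X]
    rw [h1] at hg
    exact (FaithfulSMul.algebraMap_injective (Polynomial K) (FractionRing (Polynomial K)))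
      (hg.trans (map_zero _).symm)

end Pool.Agent.LibZE25
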