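import Pool.Agent.LibZE25.Z5

/-!
# A prime not containing `z` is generated by a distinguished polynomial
-/

open PowerSeries

namespace Pool.Agent.LibZE25

theorem exists_generator (𝔭 : Ideal RR) [𝔭.IsPrime] (hz : zR ∉ 𝔭) (h0 : 𝔭 ≠ ⊥) :
    ∃ P : Polynomial AA, P.IsDistinguishedAt (IsLocalRing.maximalIdeal AA) ∧
      𝔭 = Ideal.span {(P : RR)} ∧
      ∀ r : Polynomial AA, (r : RR) ∈ 𝔭 → r.degree < P.degree → r = 0 := by
  classical
  have hex : ∃ n, ∃ P : Polynomial AA, P.IsDistinguishedAt (IsLocalRing.maximalIdeal AA) ∧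
      (P : RR) ∈ 𝔭 ∧ P.natDegree = n := by
    obtain ⟨h, hh, h0'⟩ := Submodule.exists_mem_ne_zero_of_ne_bot h0
    obtain ⟨P, hP, hPm, -⟩ := exists_distinguished 𝔭 hz h0' hh
    exact ⟨_, P, hP, hPm, rfl⟩
  obtain ⟨P, hP, hPm, hPn⟩ := Nat.find_spec hex
  have hmin : ∀ P' : Polynomial AA, P'.IsDistinguishedAt (IsLocalRing.maximalIdeal AA) →
      (P' : RR) ∈ 𝔭 → P.natDegree ≤ P'.natDegree := by
    intro P' h1 h2
    rw [hPn]
    exact Nat.find_min' hex ⟨P', h1, h2, rfl⟩
  have star : ∀ r : Polynomial AA, (r : RR) ∈ 𝔭 → r.degree < P.degree → r = 0 := by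
    intro r hr hdeg
    by_contra hr0
    have hr1 : (r : RR) ≠ 0 := fun h => hr0 (Polynomial.coe_eq_zero_iff.1 h)
    obtain ⟨P', h1, h2, h3⟩ := exists_distinguished 𝔭 hz hr1 hr
    have h4 := h3 r rfl
    have h5 := hmin P' h1 h2
    have h6 : r.natDegree < P.natDegree := Polynomial.natDegree_lt_natDegree hr0 hdeg
    omega
  refine ⟨P, hP, ?_, star⟩
  have H : (P : RR).IsWeierstrassFactorization P 1 := ⟨hP, isUnit_one, (mul_one _).symm⟩
  apply le_antisymm
  · intro g hg
    obtain ⟨q, r, hqr⟩ := exists_isWeierstrassDivision g H.map_ne_zero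
    have hr : (r : RR) ∈ 𝔭 := by
      have h1 : (r : RR) = g - (P : RR) * q := by
        rw [hqr.eq_mul_add]
        ring
      rw [h1]
      exact sub_mem hg (Ideal.mul_mem_right _ _ hPm)
    have hdeg : r.degree < P.degree := by
      have h1 := hqr.degree_lt
      rw [← H.natDegree_eq_toNat_order_map_of_ne_top
        (IsLocalRing.maximalIdeal.isMaximal AA).ne_top] at h1
      rwa [Polynomial.degree_eq_natDegree hP.monic.ne_zero]
    have h2 := star r hr hdeg
    rw [Ideal.mem_span_singleton]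
    refine ⟨q, ?_⟩
    rw [hqr.eq_mul_add, h2, Polynomial.coe_zero, add_zero]
  · rw [Ideal.span_singleton_le_iff_mem]
    exact hPm

end Pool.Agent.LibZE25
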