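import Pool.Agent.LibZE25.Der

/-!
# Weierstrass preparation for an element of a prime not containing `z`
-/

open PowerSeries

namespace Pool.Agent.LibZE25

instance instAC : IsAdicComplete (IsLocalRing.maximalIdeal AA) AA := by
  rw [PowerSeries.maximalIdeal_eq_span_X]
  infer_instance

/-- the largest power of `z` dividing a nonzero series -/
private theorem Z5_split {h : RR} (h0 : h ≠ 0) : ∃ (a n : ℕ) (h₁ : RR), h = zR ^ a * h₁ ∧
    coeff n h ≠ 0 ∧ IsUnit (coeff n h₁) := by
  classical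
  have hex : ∃ m, ∃ n, coeff m (coeff n h) ≠ 0 := by
    by_contra hcon
    push Not at hcon
    refine h0 ?_
    ext n m
    rw [hcon m n]
    simp
  set a := Nat.find hex with ha
  obtain ⟨n, hn⟩ : ∃ n, coeff a (coeff n h) ≠ 0 := Nat.find_spec hex
  have hmin : ∀ m < a, ∀ k, coeff m (coeff k h) = 0 := by
    intro m hm k
    by_contra hcon
    exact Nat.find_min hex hm ⟨k, hcon⟩
  have hdvd : ∀ k, ∃ c : AA, coeff k h = X ^ a * c := fun k =>
    (PowerSeries.X_pow_dvd_iff (n := a) (φ := coeff k h)).2 fun m hm => hmin m hm k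
  choose c hc using hdvd
  refine ⟨a, n, PowerSeries.mk c, ?_, ?_, ?_⟩
  · refine PowerSeries.ext fun k => ?_
    rw [hc k, zR, ← map_pow, PowerSeries.coeff_C_mul, PowerSeries.coeff_mk]
  · intro hcon
    rw [hcon, map_zero] at hn
    exact hn rfl
  · rw [PowerSeries.coeff_mk, PowerSeries.isUnit_iff_constantCoeff, isUnit_iff_ne_zero]
    intro hcon
    apply hn
    have h2 := PowerSeries.coeff_X_pow_mul (c n) a 0
    rw [zero_add] at h2
    rw [hc n, h2, PowerSeries.coeff_zero_eq_constantCoeff_apply, hcon]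

/-- a prime not containing `z`, not zero, contains a distinguished polynomial -/
theorem exists_distinguished (𝔭 : Ideal RR) [𝔭.IsPrime] (hz : zR ∉ 𝔭) {h : RR} (h0 : h ≠ 0)
    (hh : h ∈ 𝔭) : ∃ P : Polynomial AA, P.IsDistinguishedAt (IsLocalRing.maximalIdeal AA) ∧
      (P : RR) ∈ 𝔭 ∧ ∀ r : Polynomial AA, h = (r : RR) → P.natDegree ≤ r.natDegree := by
  obtain ⟨a, n, h₁, hsp, hn, hu⟩ := Z5_split h0
  have h1 : h₁ ∈ 𝔭 := by
    rw [hsp] at hh
    rcases Ideal.IsPrime.mem_or_mem (inferInstance : 𝔭.IsPrime) hh with h2 | h2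
    · exact absurd (Ideal.IsPrime.mem_of_pow_mem (inferInstance : 𝔭.IsPrime) a h2) hz
    · exact h2
  have hcn : coeff n (h₁.map (IsLocalRing.residue AA)) ≠ 0 := by
    rw [PowerSeries.coeff_map]
    exact (hu.map (IsLocalRing.residue AA)).ne_zero
  have hne : h₁.map (IsLocalRing.residue AA) ≠ 0 := by
    intro hcon
    rw [hcon, map_zero] at hcn
    exact hcn rfl
  obtain ⟨P, u, H⟩ := PowerSeries.exists_isWeierstrassFactorization hne
  refine ⟨P, H.isDistinguishedAt, ?_, ?_⟩
  · obtain ⟨v, hv⟩ := H.isUnit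
    have h3 : (P : RR) = h₁ * (v⁻¹ : RRˣ) := by
      rw [H.eq_mul, ← hv, mul_assoc, Units.mul_inv, mul_one]
    rw [h3]
    exact Ideal.mul_mem_right _ _ h1
  · intro r hr
    have h4 : n ≤ r.natDegree := by
      by_contra hcon
      apply hn
      rw [hr, Polynomial.coeff_coe, Polynomial.coeff_eq_zero_of_natDegree_lt (not_le.1 hcon)]
    have h5 : P.natDegree = (h₁.map (IsLocalRing.residue AA)).order.toNat :=
      PowerSeries.IsWeierstrassFactorization.natDegree_eq_toNat_order_map H
    rw [h5]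
    exact (ENat.toNat_le_of_le_natCast (PowerSeries.order_le n hcn)).trans h4

end Pool.Agent.LibZE25
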