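import Pool.Agent.LibZE25.Z3
import Pool.Agent.LibZE25.Z5

/-!
# Neither `D_w P` nor `D_z P` lies in the prime
-/

open PowerSeries

namespace Pool.Agent.LibZE25

theorem Z7_zero {𝔭 : Ideal RR} {P : Polynomial AA} (hP : P.Monic)
    (hmin : ∀ r : Polynomial AA, (r : RR) ∈ 𝔭 → r.degree < P.degree → r = 0) {f : RR}
    (hf : f ∈ 𝔭) (h : ∀ i, P.natDegree ≤ i → coeff i f = 0) : f = 0 := by
  have h1 : ((trunc P.natDegree f : Polynomial AA) : RR) = f := by
    ext1 i
    rw [Polynomial.coeff_coe, coeff_trunc]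
    split_ifs with hi
    · rfl
    · exact (h i (not_lt.1 hi)).symm
  have h2 : (trunc P.natDegree f).degree < P.degree := by
    rw [Polynomial.degree_eq_natDegree hP.ne_zero]
    exact degree_trunc_lt f _
  have h3 := hmin _ (by rw [h1]; exact hf) h2
  rw [← h1, h3, Polynomial.coe_zero]

theorem Z7_one (j : ℕ) : dk (coeff j (1 : AA)) = 0 := by
  rw [coeff_one]
  split_ifs
  · exact dk.map_one_eq_zero
  · exact map_zero dk

theorem Z7_one' (j : ℕ) : j • (coeff j (1 : AA)) = 0 := by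
  rw [coeff_one]
  split_ifs with h
  · rw [h, zero_nsmul]
  · rw [nsmul_zero]

/-- `P` is not `X ^ n` -/
theorem Z7_X {𝔭 : Ideal RR} [𝔭.IsPrime] (hw : wR ∉ 𝔭) {P : Polynomial AA} (hP : P.Monic)
    (hp : (P : RR) ∈ 𝔭) (h : ∀ i < P.natDegree, P.coeff i = 0) : False := by
  have h1 : (P : RR) = wR ^ P.natDegree := by
    ext1 i
    rw [Polynomial.coeff_coe, wR, coeff_X_pow]
    split_ifs with hi
    · rw [hi, hP.coeff_natDegree]
    · rcases lt_or_gt_of_ne hi with h2 | h2
      · exact h i h2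
      · exact Polynomial.coeff_eq_zero_of_natDegree_lt h2
  rw [h1] at hp
  exact hw (Ideal.IsPrime.mem_of_pow_mem inferInstance _ hp)

theorem D_notMem (𝔭 : Ideal RR) [𝔭.IsPrime] (hw : wR ∉ 𝔭) {P : Polynomial AA}
    (hP : P.IsDistinguishedAt (IsLocalRing.maximalIdeal AA))
    (hp : 𝔭 = Ideal.span {(P : RR)})
    (hmin : ∀ r : Polynomial AA, (r : RR) ∈ 𝔭 → r.degree < P.degree → r = 0) :
    Dw (P : RR) ∉ 𝔭 ∧ Dz (P : RR) ∉ 𝔭 := by
  have hPm : P.Monic := hP.monic
  have hPp : (P : RR) ∈ 𝔭 := by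
    rw [hp]
    exact Ideal.subset_span rfl
  have hc0 : ∀ i < P.natDegree, coeff 0 (P.coeff i) = 0 := by
    intro i hi
    have h1 := hP.mem hi
    rw [PowerSeries.maximalIdeal_eq_span_X, Ideal.mem_span_singleton, X_dvd_iff] at h1
    rw [coeff_zero_eq_constantCoeff]
    exact h1
  have htop : ∀ i, P.natDegree ≤ i → ∀ j, dk (coeff j (P.coeff i)) = 0 ∧
      j • coeff j (P.coeff i) = 0 ∧ (i ≠ P.natDegree → coeff j (P.coeff i) = 0) := by
    intro i hi j
    rcases hi.eq_or_lt with h1 | h1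
    · rw [← h1, hPm.coeff_natDegree]
      exact ⟨Z7_one j, Z7_one' j, fun h2 => absurd rfl h2⟩
    · rw [Polynomial.coeff_eq_zero_of_natDegree_lt h1, map_zero, map_zero, nsmul_zero]
      exact ⟨rfl, rfl, fun _ => rfl⟩
  constructor
  · intro hD
    have hf : Dw (P : RR) - (P.natDegree : ℕ) • (P : RR) ∈ 𝔭 :=
      𝔭.sub_mem hD (𝔭.smul_of_tower_mem _ hPp)
    have hcoef : ∀ i j, coeff j (coeff i (Dw (P : RR) - (P.natDegree : ℕ) • (P : RR))) =
        dk (coeff j (P.coeff i)) + i • coeff j (P.coeff i) -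
          P.natDegree • coeff j (P.coeff i) := by
      intro i j
      rw [map_sub, map_sub, coeff_Dw, map_nsmul, map_nsmul, Polynomial.coeff_coe]
    have h0 := Z7_zero hPm hmin hf (fun i hi => by
      ext j
      obtain ⟨h1, -, h3⟩ := htop i hi j
      rw [hcoef, h1, map_zero, zero_add]
      by_cases h4 : i = P.natDegree
      · rw [h4, sub_self]
      · rw [h3 h4, nsmul_zero, nsmul_zero, sub_zero])
    refine Z7_X hw hPm hPp fun i hi => ?_
    ext j
    rw [map_zero]
    have h1 := hcoef i j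
    rw [h0, map_zero, map_zero] at h1
    refine dk_eq_smul (a := (P.natDegree : ℤ) - i) (by omega) ?_
    rw [sub_smul, natCast_zsmul, natCast_zsmul]
    have h2 : dk (coeff j (P.coeff i)) =
        P.natDegree • coeff j (P.coeff i) - i • coeff j (P.coeff i) := by
      rw [eq_sub_iff_add_eq]
      exact (sub_eq_zero.1 h1.symm)
    exact h2
  · intro hD
    have hcoef : ∀ i j, coeff j (coeff i (Dz (P : RR))) =
        dk (coeff j (P.coeff i)) + j • coeff j (P.coeff i) := by
      intro i j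
      rw [coeff_Dz, Polynomial.coeff_coe]
    have h0 := Z7_zero hPm hmin hD (fun i hi => by
      ext j
      obtain ⟨h1, h2, -⟩ := htop i hi j
      rw [hcoef, h1, h2, map_zero, add_zero])
    refine Z7_X hw hPm hPp fun i hi => ?_
    ext j
    rw [map_zero]
    have h1 := hcoef i j
    rw [h0, map_zero, map_zero] at h1
    rcases Nat.eq_zero_or_pos j with hj | hj
    · rw [hj]
      exact hc0 i hi
    · refine dk_eq_smul (a := -(j : ℤ)) (by omega) ?_
      rw [neg_smul, natCast_zsmul, eq_neg_iff_add_eq_zero]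
      exact h1.symm

end Pool.Agent.LibZE25
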