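import Pool.Agent.LibZE25.Z4
import Pool.Agent.LibZE25.Z6
import Pool.Agent.LibZE25.Z7

/-!
# The differential field of a prime

`P` a generator as in Z6. `D₀ := Dw P • Dz - Dz P • Dw` kills `P`, so maps `𝔭` to `𝔭` and induces a derivation
of the domain `RR ⧸ 𝔭` (`Z9_quot`), which extends to its fraction field `K`; `φ = algebraMap ∘ mk`,
`tz = φ (Dw P)`, `tw = -φ (Dz P)`.
-/

namespace Pool.Agent.LibZE25

/-- a derivation preserving an ideal induces one of the quotient ring -/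
theorem Z9_quot {A : Type} [CommRing A] [Algebra ℂ A] (d : Derivation ℂ A A) (I : Ideal A)
    (hI : ∀ x ∈ I, d x ∈ I) :
    ∃ d' : Derivation ℂ (A ⧸ I) (A ⧸ I),
      ∀ a, d' (Ideal.Quotient.mk I a) = Ideal.Quotient.mk I (d a) := by
  classical
  let f : (A ⧸ I) → (A ⧸ I) := fun x =>
    Ideal.Quotient.mk I (d (Function.surjInv Ideal.Quotient.mk_surjective x))
  have hf : ∀ a, f (Ideal.Quotient.mk I a) = Ideal.Quotient.mk I (d a) := by
    intro a
    show Ideal.Quotient.mk I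
      (d (Function.surjInv Ideal.Quotient.mk_surjective (Ideal.Quotient.mk I a))) = _
    rw [Ideal.Quotient.eq, ← map_sub]
    apply hI
    rw [← Ideal.Quotient.eq]
    exact Function.surjInv_eq Ideal.Quotient.mk_surjective (Ideal.Quotient.mk I a)
  let L : (A ⧸ I) →ₗ[ℂ] (A ⧸ I) :=
    { toFun := f
      map_add' := by
        intro x y
        obtain ⟨a, rfl⟩ := Ideal.Quotient.mk_surjective x
        obtain ⟨b, rfl⟩ := Ideal.Quotient.mk_surjective y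
        rw [← map_add, hf, hf, hf, map_add, map_add]
      map_smul' := by
        intro c x
        obtain ⟨a, rfl⟩ := Ideal.Quotient.mk_surjective x
        rw [RingHom.id_apply, hf]
        have h1 : c • Ideal.Quotient.mk I a = Ideal.Quotient.mk I (c • a) := rfl
        have h2 : c • Ideal.Quotient.mk I (d a) = Ideal.Quotient.mk I (c • d a) := rfl
        rw [h1, h2, hf, Derivation.map_smul] }
  refine ⟨Derivation.mk' L ?_, hf⟩
  intro x y
  obtain ⟨a, rfl⟩ := Ideal.Quotient.mk_surjective x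
  obtain ⟨b, rfl⟩ := Ideal.Quotient.mk_surjective y
  show f (Ideal.Quotient.mk I a * Ideal.Quotient.mk I b) =
    Ideal.Quotient.mk I a • f (Ideal.Quotient.mk I b) +
      Ideal.Quotient.mk I b • f (Ideal.Quotient.mk I a)
  rw [← map_mul, hf, hf, hf, Derivation.leibniz, map_add, smul_eq_mul, smul_eq_mul, smul_eq_mul,
    smul_eq_mul, map_mul, map_mul]

theorem exists_field (𝔭 : Ideal RR) [𝔭.IsPrime] (h0 : 𝔭 ≠ ⊥) (hz : zR ∉ 𝔭) (hw : wR ∉ 𝔭) :
    ∃ (K : Type) (_ : Field K) (_ : Algebra ℂ K) (D : Derivation ℂ K K) (φ : RR →+* K)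
      (tz tw : K), tz ≠ 0 ∧ tw ≠ 0 ∧ (∀ c : ℂ, φ (algebraMap ℂ RR c) = algebraMap ℂ K c) ∧
      (∀ f, φ f = 0 ↔ f ∈ 𝔭) ∧ ∀ f, D (φ f) = tz * φ (Dz f) + tw * φ (Dw f) := by
  obtain ⟨P, hP, hp, hmin⟩ := exists_generator 𝔭 hz h0
  obtain ⟨hDw, hDz⟩ := D_notMem 𝔭 hw hP hp hmin
  let D₀ : Derivation ℂ RR RR := Dw (P : RR) • Dz - Dz (P : RR) • Dw
  have hD₀ : ∀ f, D₀ f = Dw (P : RR) * Dz f - Dz (P : RR) * Dw f := by
    intro f
    rfl
  have hP0 : D₀ (P : RR) = 0 := by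
    rw [hD₀, mul_comm, sub_self]
  have hPm : (P : RR) ∈ 𝔭 := by
    rw [hp]
    exact Ideal.mem_span_singleton_self _
  have hI : ∀ x ∈ 𝔭, D₀ x ∈ 𝔭 := by
    intro x hx
    rw [hp] at hx
    obtain ⟨g, rfl⟩ := Ideal.mem_span_singleton'.1 hx
    rw [Derivation.leibniz, hP0, smul_zero, zero_add, smul_eq_mul]
    exact Ideal.mul_mem_right _ _ hPm
  obtain ⟨d1, hd1⟩ := Z9_quot D₀ 𝔭 hI
  obtain ⟨d2, hd2⟩ := exists_fracDer d1
  have hinj : Function.Injective (algebraMap (RR ⧸ 𝔭) (FractionRing (RR ⧸ 𝔭))) :=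
    IsFractionRing.injective _ _
  have hker : ∀ f : RR, algebraMap (RR ⧸ 𝔭) (FractionRing (RR ⧸ 𝔭)) (Ideal.Quotient.mk 𝔭 f) = 0 ↔
      f ∈ 𝔭 := by
    intro f
    rw [map_eq_zero_iff _ hinj, Ideal.Quotient.eq_zero_iff_mem]
  refine ⟨FractionRing (RR ⧸ 𝔭), inferInstance, inferInstance, d2,
    (algebraMap (RR ⧸ 𝔭) (FractionRing (RR ⧸ 𝔭))).comp (Ideal.Quotient.mk 𝔭),
    algebraMap (RR ⧸ 𝔭) (FractionRing (RR ⧸ 𝔭)) (Ideal.Quotient.mk 𝔭 (Dw (P : RR))),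
    -algebraMap (RR ⧸ 𝔭) (FractionRing (RR ⧸ 𝔭)) (Ideal.Quotient.mk 𝔭 (Dz (P : RR))),
    fun h => hDw ((hker _).1 h), fun h => hDz ((hker _).1 (neg_eq_zero.1 h)), ?_, hker, ?_⟩
  · intro c
    rfl
  · intro f
    rw [RingHom.comp_apply, RingHom.comp_apply, RingHom.comp_apply, hd2, hd1, hD₀, map_sub,
      map_sub, map_mul, map_mul, map_mul, map_mul]
    ring

end Pool.Agent.LibZE25
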