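import Pool.Agent.LibZE25.Z8
import Pool.Agent.LibZE25.Z9
import Pool.Agent.LibZE25.Z10

/-!
# The structure `DF` for an ideal; derivatives of `iz f`, `iw f`, `log z`, `log w`
-/

open PowerSeries

namespace Pool.Agent.LibZE25

/-- the differential field of an ideal containing no power of `z w` -/
theorem exists_DF (I : Ideal RR) (hI : ∀ N : ℕ, (zR * wR) ^ N ∉ I) :
    ∃ F : DF, ∀ f ∈ I, F.φ f = 0 := by
  obtain ⟨𝔭, hp, hIp, h0, hz, hw⟩ := exists_prime I hI
  obtain ⟨K, fK, aK, D, φ, tz, tw, htz, htw, hφa, hφ0, hDφ⟩ := exists_field 𝔭 h0 hz hw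
  obtain ⟨L, fL, aL, D', ι, U, hιa, hDι, hDU, htr⟩ := exists_adjoin D (tz - tw)
  have hφz : ∀ x, x ∉ 𝔭 → ι (φ x) ≠ 0 := by
    intro x hx h
    exact hx ((hφ0 x).1 ((map_eq_zero ι).1 h))
  exact ⟨{ K := L
           fld := fL
           alg := aL
           D := D'
           φ := ι.comp φ
           φ_alg := fun c => by
             rw [RingHom.comp_apply, hφa, hιa]
           tz := ι tz
           tw := ι tw
           tz_ne := fun h => htz ((map_eq_zero ι).1 h)
           tw_ne := fun h => htw ((map_eq_zero ι).1 h)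
           D_φ := fun f => by
             rw [RingHom.comp_apply, RingHom.comp_apply, RingHom.comp_apply, hDι, hDφ, map_add,
               map_mul, map_mul]
           U := U
           D_U := by rw [hDU, map_sub]
           trans := fun g hg i => by
             have h1 : g.map φ = 0 := htr _ (by rw [Polynomial.eval₂_map]; exact hg)
             have h2 : φ (g.coeff i) = 0 := by
               rw [← Polynomial.coeff_map, h1, Polynomial.coeff_zero]
             rw [RingHom.comp_apply, h2, map_zero]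
           zR_ne := hφz _ hz
           wR_ne := hφz _ hw },
    fun f hf => by
      show ι (φ f) = 0
      rw [(hφ0 f).2 (hIp hf), map_zero]⟩

namespace DF

variable (F : DF)

theorem iz_C (c : ℂ) : F.iz (C c) = algebraMap ℂ F.K c := by
  show F.φ (jz (C c)) = _
  rw [jz_C, F.φ_alg]

theorem iw_C (c : ℂ) : F.iw (C c) = algebraMap ℂ F.K c := by
  show F.φ (jw (C c)) = _
  rw [jw_C, F.φ_alg]

theorem D_iz (f : PowerSeries ℂ) : F.D (F.iz f) = F.tz * F.iz (X * derivative ℂ f) := by
  show F.D (F.φ (jz f)) = F.tz * F.φ (jz (X * derivative ℂ f))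
  rw [F.D_φ, Dz_jz, Dw_jz, map_zero, mul_zero, add_zero]

theorem D_iw (f : PowerSeries ℂ) : F.D (F.iw f) = F.tw * F.iw (X * derivative ℂ f) := by
  show F.D (F.φ (jw f)) = F.tw * F.φ (jw (X * derivative ℂ f))
  rw [F.D_φ, Dz_jw, Dw_jw, map_zero, mul_zero, zero_add]

private theorem Z11_two : (2 : F.K) ≠ 0 := by
  have h : (algebraMap ℂ F.K) 2 ≠ 0 := by
    intro h
    exact two_ne_zero ((map_eq_zero (algebraMap ℂ F.K)).1 h)
  rwa [map_ofNat] at h

private theorem Z11_half (a : F.K) : F.D (a / 2) = F.D a / 2 := by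
  have h1 : ∀ b : F.K, b / 2 = ((1 / 2 : ℂ)) • b := by
    intro b
    rw [Algebra.smul_def, map_div₀, map_one, map_ofNat]
    ring
  rw [h1, h1, Derivation.map_smul]

private theorem Z11_YR : F.D (F.φ YR) = F.tz + F.tw := by
  rw [F.D_φ, D_YR.1, D_YR.2, map_one, mul_one, mul_one]

theorem D_lz : F.D F.lz = F.tz := by
  show F.D ((F.φ YR + F.U) / 2) = F.tz
  rw [Z11_half, map_add, Z11_YR, F.D_U]
  have h2 := Z11_two F
  field_simp
  ring

theorem D_lw : F.D F.lw = F.tw := by
  show F.D ((F.φ YR - F.U) / 2) = F.tw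
  rw [Z11_half, map_sub, Z11_YR, F.D_U]
  have h2 := Z11_two F
  field_simp
  ring

end DF

end Pool.Agent.LibZE25
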