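import Pool.Agent.LibZE25.YDefs
import Pool.Agent.LibZE25.Z11
import Pool.Agent.LibZE25.Z12
import Pool.Agent.LibZE25.Z21
import Pool.Agent.LibZE25.Z22
import Pool.Agent.LibZE25.Z25

/-!
# A nonzero formal minor gives independence modulo `F^a` over the differential field

Both statements are instances of `Y6_core`, for `θ = iz` and for `θ = iw ∘ map conj` with the algebra
structure `algebraMap ∘ conj` of the field.
-/

open PowerSeries
open scoped ComplexConjugate

namespace Pool.Agent.LibZE25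

variable {ι : Type} [Fintype ι] [DecidableEq ι]

theorem Y6_expn_mulVec {K : Type} [Field K] [Algebra ℂ K] (d : ℕ) (n : Matrix ι ι ℂ) (x : K)
    (u : ι → ℂ) (i : ι) :
    ((expn d n x).mulVec fun j => algebraMap ℂ K (u j)) i =
      ∑ r ∈ Finset.range d,
        x ^ r * (algebraMap ℂ K ((r.factorial : ℂ)⁻¹) * algebraMap ℂ K ((n ^ r).mulVec u i)) := by
  simp only [Matrix.mulVec, dotProduct, Z20_apply, Finset.sum_mul]
  rw [Finset.sum_comm]
  refine Finset.sum_congr rfl fun r _ => ?_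
  rw [map_sum, Finset.mul_sum, Finset.mul_sum]
  refine Finset.sum_congr rfl fun j _ => ?_
  rw [map_mul, map_mul]
  ring

theorem Y6_eval {K : Type} [Field K] [Algebra ℂ K] (θ : PowerSeries ℂ →+* K)
    (hθ : ∀ c : ℂ, θ (C c) = algebraMap ℂ K c) (l : K) (d : ℕ) (n : Matrix ι ι ℂ)
    (A : Matrix ι ι (PowerSeries ℂ)) {κ : Type} (e : κ → ι → ℂ) (i : ι) (b : κ) :
    ((A.adjugate.map θ).mulVec ((expn d n (-l)).mulVec fun j => algebraMap ℂ K (e b j))) i =
      Polynomial.eval₂ θ l (PM d n A e i b) := by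
  unfold PM
  rw [Polynomial.eval₂_finsetSum]
  simp only [Polynomial.eval₂_monomial]
  have h1 : ∀ j, ((expn d n (-l)).mulVec fun j => algebraMap ℂ K (e b j)) j =
      ∑ r ∈ Finset.range d, (-l) ^ r * (algebraMap ℂ K ((r.factorial : ℂ)⁻¹) *
        algebraMap ℂ K ((n ^ r).mulVec (e b) j)) := fun j => Y6_expn_mulVec d n (-l) (e b) j
  have h2 : ((A.adjugate.map θ).mulVec
      ((expn d n (-l)).mulVec fun j => algebraMap ℂ K (e b j))) i =
      ∑ j, θ (A.adjugate i j) * ∑ r ∈ Finset.range d, (-l) ^ r *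
        (algebraMap ℂ K ((r.factorial : ℂ)⁻¹) * algebraMap ℂ K ((n ^ r).mulVec (e b) j)) := by
    rw [Matrix.mulVec, dotProduct]
    refine Finset.sum_congr rfl fun j _ => ?_
    rw [h1 j, Matrix.map_apply]
  rw [h2]
  simp only [Finset.mul_sum]
  rw [Finset.sum_comm]
  refine Finset.sum_congr rfl fun r _ => ?_
  rw [map_mul, hθ, Matrix.mulVec, dotProduct, map_sum, Finset.mul_sum, Finset.sum_mul]
  refine Finset.sum_congr rfl fun j _ => ?_
  rw [map_mul, hθ, map_div₀, map_pow, map_neg, map_one, map_inv₀, neg_pow l]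
  ring

theorem Y6_core {K : Type} [Field K] [Algebra ℂ K] (θ : PowerSeries ℂ →+* K)
    (hθ : ∀ c : ℂ, θ (C c) = algebraMap ℂ K c) (l : K)
    (htr : ∀ g : Polynomial (PowerSeries ℂ), Polynomial.eval₂ θ l g = 0 → g = 0)
    {p : ι → ℤ} {d : ℕ} {n : Matrix ι ι ℂ} {A : Matrix ι ι (PowerSeries ℂ)} (hn : n ^ d = 0)
    (hA : IsUnit A) {a : ℤ} {s : ℕ} (e : Fin s → ι → ℂ) {e' : Fin s → {i // p i < a}}
    (hdet : ((PM d n A e).submatrix (fun b => (e' b : ι)) id).det ≠ 0) (c : Fin s → K)
    (hc : (fun i => ∑ b, c b * algebraMap ℂ K (e b i)) ∈ colSp p (expn d n l * A.map θ) a) :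
    c = 0 := by
  have hexp : expn d n (-l) * expn d n l = 1 := by
    rw [← expn_add hn, neg_add_cancel, expn_zero hn]
  have hE : IsUnit (expn d n l) := by
    rw [Matrix.isUnit_iff_isUnit_det]
    exact Matrix.isUnit_det_of_left_inverse hexp
  have hAθ : IsUnit (A.map θ) := hA.map (RingHom.mapMatrix θ)
  have hM : IsUnit (expn d n l * A.map θ) := hE.mul hAθ
  have hMdet := (Matrix.isUnit_iff_isUnit_det _).1 hM
  rw [mem_colSp_iff hM] at hc
  have hadj : A.adjugate.map θ * A.map θ = (θ A.det) • (1 : Matrix ι ι K) := by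
    have h1 : A.adjugate.map θ * A.map θ = (A.adjugate * A).map θ := Matrix.map_mul.symm
    rw [h1, Matrix.adjugate_mul]
    ext i j
    rw [Matrix.map_apply, Matrix.smul_apply, Matrix.smul_apply, smul_eq_mul, smul_eq_mul, map_mul,
      Matrix.one_apply, Matrix.one_apply]
    split_ifs
    · rw [map_one]
    · rw [map_zero]
  have hN : A.adjugate.map θ * expn d n (-l) =
      (θ A.det) • (expn d n l * A.map θ)⁻¹ := by
    have h1 : A.adjugate.map θ * expn d n (-l) * (expn d n l * A.map θ) =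
        (θ A.det) • (1 : Matrix ι ι K) := by
      rw [Matrix.mul_assoc, ← Matrix.mul_assoc (expn d n (-l)), hexp, Matrix.one_mul, hadj]
    have h2 := congrArg (· * (expn d n l * A.map θ)⁻¹) h1
    rw [Matrix.mul_assoc _ _ (expn d n l * A.map θ)⁻¹, Matrix.mul_nonsing_inv _ hMdet,
      Matrix.mul_one, Matrix.smul_mul, Matrix.one_mul] at h2
    exact h2
  have hzero : ∀ i, p i < a → ∑ b, Polynomial.eval₂ θ l (PM d n A e i b) * c b = 0 := by
    intro i hi
    have h1 := hc i hi
    have h2 : ((A.adjugate.map θ * expn d n (-l)).mulVec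
        (fun i => ∑ b, c b * algebraMap ℂ K (e b i))) i = 0 := by
      rw [hN, Matrix.smul_mulVec, Pi.smul_apply, h1, smul_zero]
    rw [← h2]
    have h3 : (fun i => ∑ b, c b * algebraMap ℂ K (e b i)) =
        ∑ b, c b • (fun i => algebraMap ℂ K (e b i)) := by
      funext i
      rw [Finset.sum_apply]
      rfl
    rw [h3, Matrix.mulVec_sum, Finset.sum_apply]
    refine Finset.sum_congr rfl fun b _ => ?_
    rw [Matrix.mulVec_smul, Pi.smul_apply, ← Matrix.mulVec_mulVec, Y6_eval θ hθ, smul_eq_mul,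
      mul_comm]
  have hev : (((PM d n A e).submatrix (fun b => (e' b : ι)) id).map
      (Polynomial.eval₂RingHom θ l)).det ≠ 0 := by
    intro h
    apply hdet
    apply htr
    have h1 := RingHom.map_det (Polynomial.eval₂RingHom θ l)
      ((PM d n A e).submatrix (fun b => (e' b : ι)) id)
    rw [RingHom.mapMatrix_apply, h] at h1
    exact h1
  refine Matrix.eq_zero_of_mulVec_eq_zero hev ?_
  funext b'
  exact hzero _ (e' b').2

namespace DF

variable (F : DF) {wt p : ι → ℤ} {d : ℕ} {n : Matrix ι ι ℂ} {A : Matrix ι ι (PowerSeries ℂ)}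

theorem PM_inj_z (h : FData wt p d n A) {a : ℤ} {s : ℕ} (e : Fin s → ι → ℂ)
    {e' : Fin s → {i // p i < a}}
    (hdet : ((PM d n A e).submatrix (fun b => (e' b : ι)) id).det ≠ 0) (c : Fin s → F.K)
    (hc : (fun i => ∑ b, c b * algebraMap ℂ F.K (e b i)) ∈ colSp p (F.fz d n A) a) : c = 0 :=
  Y6_core F.iz F.iz_C F.lz F.trans_z h.nil h.unit e hdet c hc

theorem PM_inj_w (h : FData wt p d n A) {a : ℤ} {s : ℕ} (e : Fin s → ι → ℂ)
    {e' : Fin s → {i // p i < a}}
    (hdet : ((PM d n A e).submatrix (fun b => (e' b : ι)) id).det ≠ 0) (c : Fin s → F.K)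
    (hc : (fun i => ∑ b, c b * algebraMap ℂ F.K (conj (e b i))) ∈ colSp p (F.fw d n A) a) :
    c = 0 := by
  have hθ : ∀ c : ℂ, (F.iw.comp (PowerSeries.map (starRingEnd ℂ))) (C c) =
      algebraMap ℂ F.K (conj c) := by
    intro c
    rw [RingHom.comp_apply, PowerSeries.map_C, F.iw_C]
  have htr : ∀ g : Polynomial (PowerSeries ℂ), Polynomial.eval₂
      (F.iw.comp (PowerSeries.map (starRingEnd ℂ))) F.lw g = 0 → g = 0 := by
    intro g hg
    rw [← Polynomial.eval₂_map] at hg
    have h1 := F.trans_w _ hg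
    refine Polynomial.map_injective _ ?_ (h1.trans (Polynomial.map_zero _).symm)
    intro f g hfg
    ext i
    have h2 := congrArg (PowerSeries.coeff i) hfg
    rw [PowerSeries.coeff_map, PowerSeries.coeff_map] at h2
    exact (starRingEnd ℂ).injective h2
  have hfw : F.fw d n A = @expn ι _ _ F.K _
      (((algebraMap ℂ F.K).comp (starRingEnd ℂ)).toAlgebra) d n F.lw *
        A.map (F.iw.comp (PowerSeries.map (starRingEnd ℂ))) := by
    unfold DF.fw
    congr 1
    unfold expn
    refine Finset.sum_congr rfl fun r _ => ?_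
    congr 1
    have h1 : (-n) ^ r = (n ^ r).map (starRingEnd ℂ) := by
      rw [← h.cnj]
      exact (map_pow (RingHom.mapMatrix (starRingEnd ℂ)) n r).symm
    ext i j
    rw [h1]
    simp only [Matrix.map_apply, Matrix.smul_apply, smul_eq_mul]
    show algebraMap ℂ F.K _ = algebraMap ℂ F.K ((starRingEnd ℂ) _)
    rw [map_mul (starRingEnd ℂ), map_inv₀ (starRingEnd ℂ), map_natCast (starRingEnd ℂ)]
  rw [hfw] at hc
  exact @Y6_core ι _ _ F.K _ (((algebraMap ℂ F.K).comp (starRingEnd ℂ)).toAlgebra)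
    (F.iw.comp (PowerSeries.map (starRingEnd ℂ))) hθ F.lw htr p d n A h.nil h.unit a s e e' hdet c
    hc

end DF

end Pool.Agent.LibZE25
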