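import Pool.Agent.LibZE25.Core
import Pool.Agent.LibZE25.Y1
import Pool.Agent.LibZE25.Y2
import Pool.Agent.LibZE25.Y3
import Pool.Agent.LibZE25.Y6
import Pool.Agent.LibZE25.Y20
import Pool.Agent.LibZE25.Y21

/-!
# The formal part of the argument: all Hodge classes
-/

open PowerSeries Filter Topology
open scoped ComplexConjugate

namespace Pool.Agent.LibZE25

variable {ι : Type} [Fintype ι] [DecidableEq ι]

/-- the vectors satisfying the formal conditions for `F^a` -/
def VF (p : ι → ℤ) (n : Matrix ι ι ℂ) (A : Matrix ι ι (PowerSeries ℂ)) (a : ℤ) :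
    Submodule ℂ (ι → ℂ) where
  carrier := {u | FF p n A a u}
  zero_mem' := fun r i _ => by simp [Matrix.mulVec, dotProduct]
  add_mem' := fun {u v} hu hv r i hi => by
    have h1 := hu r i hi
    have h2 := hv r i hi
    have e1 : (fun b => PowerSeries.C ((n ^ r).mulVec (u + v) b)) =
        (fun b => PowerSeries.C ((n ^ r).mulVec u b)) +
          fun b => PowerSeries.C ((n ^ r).mulVec v b) := by
      funext b
      rw [Matrix.mulVec_add, Pi.add_apply, map_add, Pi.add_apply]
    rw [e1, Matrix.mulVec_add, Pi.add_apply, h1, h2, add_zero]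
  smul_mem' := fun c u hu r i hi => by
    have h1 := hu r i hi
    have e1 : (fun b => PowerSeries.C ((n ^ r).mulVec (c • u) b)) =
        (PowerSeries.C c : PowerSeries ℂ) • (fun b => PowerSeries.C ((n ^ r).mulVec u b)) := by
      funext b
      rw [Matrix.mulVec_smul, Pi.smul_apply, smul_eq_mul, map_mul, Pi.smul_apply, smul_eq_mul]
    rw [e1, Matrix.mulVec_smul, Pi.smul_apply, h1, smul_zero]

/-- the same for the conjugate vectors -/
def VFc (p : ι → ℤ) (n : Matrix ι ι ℂ) (A : Matrix ι ι (PowerSeries ℂ)) (a : ℤ) :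
    Submodule ℂ (ι → ℂ) where
  carrier := {u | FF p n A a fun b => conj (u b)}
  zero_mem' := by
    have : (fun b : ι => conj ((0 : ι → ℂ) b)) = 0 := by
      funext b
      simp
    show FF p n A a _
    rw [this]
    exact (VF p n A a).zero_mem
  add_mem' := fun {u v} hu hv => by
    have : (fun b : ι => conj ((u + v) b)) = (fun b => conj (u b)) + fun b => conj (v b) := by
      funext b
      simp
    show FF p n A a _
    rw [this]
    exact (VF p n A a).add_mem hu hv
  smul_mem' := fun c u hu => by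
    have : (fun b : ι => conj ((c • u) b)) = conj c • fun b => conj (u b) := by
      funext b
      simp
    show FF p n A a _
    rw [this]
    exact (VF p n A a).smul_mem _ hu

theorem FF.anti {p : ι → ℤ} {n : Matrix ι ι ℂ} {A : Matrix ι ι (PowerSeries ℂ)} {a b : ℤ}
    (hab : a ≤ b) {u : ι → ℂ} (h : FF p n A b u) : FF p n A a u :=
  fun r i hi => h r i (by omega)

namespace DF

variable (F : DF) {wt p : ι → ℤ} {d : ℕ} {n : Matrix ι ι ℂ} {A : Matrix ι ι (PowerSeries ℂ)}

theorem NN_le (h : FData wt p d n A) (hwt : ∀ i, wt i ≤ 0) (m : ℕ)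
    (hcard : Fintype.card {i // wt i = 0} ≤ m)
    (h1 : ∀ l < 0, ∃ e : {j : {i // wt i = l} // -(m : ℤ) ≤ p j} ⊕
        {j : {i // wt i = l} // -(m : ℤ) ≤ p j} → {i // wt i = l},
      F.φ ((cat (fun i : {i // wt i = l} => p i) (-(m : ℤ)) (bk wt l (rz d n A))
        (bk wt l (rw' d n A))).submatrix e id).det ≠ 0) :
    F.NN p d n A 0 ≤ kSp F.K (VF p n A (1 - m) ⊓ VFc p n A (1 - m)) := by
  by_cases hne : F.NN p d n A 0 = ⊥
  · rw [hne]
    exact bot_le
  obtain ⟨j, hj, S, h0S, hSj, hSD⟩ := exists_hull F.D m (F.NN p d n A) hne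
    (fun j v hv => ⟨Submodule.span_mono (by
        rintro x ⟨i, hi, rfl⟩
        exact ⟨i, by push_cast; omega, rfl⟩) hv.1, Submodule.span_mono (by
        rintro x ⟨i, hi, rfl⟩
        exact ⟨i, by push_cast; omega, rfl⟩) hv.2⟩)
    (fun j v hv => F.NN_step h j v hv) ((F.NN_finrank h hwt m h1).trans hcard)
  refine (h0S.trans (span_const F.D S hSD)).trans ?_
  rw [Submodule.span_le]
  rintro e ⟨heS, heD⟩
  have h2 := F.descent_all h j e (hSj heS) heD
  refine Submodule.span_mono ?_ h2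
  rintro v ⟨u, hu1, hu2, rfl⟩
  exact ⟨u, ⟨FF.anti (by omega) hu1, FF.anti (by omega) hu2⟩, rfl⟩

/-- the formal part, for all Hodge classes -/
theorem core2 (h : FData wt p d n A) (hwt : ∀ i, wt i ≤ 0) (m : ℕ)
    (hcard : Fintype.card {i // wt i = 0} ≤ m)
    (h1 : ∀ l < 0, ∃ e : {j : {i // wt i = l} // -(m : ℤ) ≤ p j} ⊕
        {j : {i // wt i = l} // -(m : ℤ) ≤ p j} → {i // wt i = l},
      F.φ ((cat (fun i : {i // wt i = l} => p i) (-(m : ℤ)) (bk wt l (rz d n A))
        (bk wt l (rw' d n A))).submatrix e id).det ≠ 0)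
    {s : ℕ} (e : Fin s → ι → ℂ)
    (hspan : VF p n A (1 - m) ⊓ VFc p n A (1 - m) ≤
      (VF p n A (1 - m) ⊓ VFc p n A (1 - m) ⊓ VF p n A 0) ⊔ Submodule.span ℂ (Set.range e))
    {e' : Fin s → {i // p i < 0}}
    (hdet : ((PM d n A e).submatrix (fun b => (e' b : ι)) id).det ≠ 0) :
    F.NN p d n A 0 ≤ kSp F.K (VF p n A 0 ⊓ VFc p n A 0) := by
  have hle := F.NN_le h hwt m hcard h1
  -- elements of the span of `U` lie in the filtration
  have hz0 : kSp F.K (VF p n A (1 - m) ⊓ VFc p n A (1 - m) ⊓ VF p n A 0) ≤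
      colSp p (F.fz d n A) 0 := by
    refine Submodule.span_le.2 ?_
    rintro v ⟨u, hu, rfl⟩
    exact F.alg_mem_z h hu.2
  have hw0 : kSp F.K (VF p n A (1 - m) ⊓ VFc p n A (1 - m) ⊓ VFc p n A 0) ≤
      colSp p (F.fw d n A) 0 := by
    refine Submodule.span_le.2 ?_
    rintro v ⟨u, hu, rfl⟩
    have h2 := F.alg_mem_w h (u := fun b => conj (u b)) hu.2
    simpa using h2
  -- the span of the range
  have hsp : ∀ (g : Fin s → ι → ℂ) (x : ι → F.K),
      x ∈ kSp F.K (Submodule.span ℂ (Set.range g)) →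
      ∃ c : Fin s → F.K, x = fun i => ∑ b, c b * algebraMap ℂ F.K (g b i) := by
    intro g x hx
    refine Submodule.span_induction (p := fun x _ => ∃ c : Fin s → F.K,
      x = fun i => ∑ b, c b * algebraMap ℂ F.K (g b i)) ?_ ?_ ?_ ?_ hx
    · rintro x ⟨u, hu, rfl⟩
      rw [Submodule.mem_span_range_iff_exists_fun] at hu
      obtain ⟨c, rfl⟩ := hu
      refine ⟨fun b => algebraMap ℂ F.K (c b), ?_⟩
      funext i
      rw [Finset.sum_apply, map_sum]
      refine Finset.sum_congr rfl fun b _ => ?_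
      rw [Pi.smul_apply, smul_eq_mul, map_mul]
    · exact ⟨0, by funext i; simp⟩
    · rintro x y _ _ ⟨c, rfl⟩ ⟨c', rfl⟩
      refine ⟨c + c', ?_⟩
      funext i
      simp only [Pi.add_apply, add_mul, Finset.sum_add_distrib]
    · rintro a x _ ⟨c, rfl⟩
      refine ⟨a • c, ?_⟩
      funext i
      simp only [Pi.smul_apply, smul_eq_mul, Finset.mul_sum, mul_assoc]
  have hz : F.NN p d n A 0 ≤
      kSp F.K (VF p n A (1 - m) ⊓ VFc p n A (1 - m) ⊓ VF p n A 0) := by
    intro x hx
    have h2 : x ∈ kSp F.K ((VF p n A (1 - m) ⊓ VFc p n A (1 - m) ⊓ VF p n A 0) ⊔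
        Submodule.span ℂ (Set.range e)) := by
      refine Submodule.span_mono ?_ (hle hx)
      rintro v ⟨u, hu, rfl⟩
      exact ⟨u, hspan hu, rfl⟩
    rw [kSp_sup, Submodule.mem_sup] at h2
    obtain ⟨x0, hx0, x1, hx1, rfl⟩ := h2
    obtain ⟨c, rfl⟩ := hsp e x1 hx1
    have h3 : (fun i => ∑ b, c b * algebraMap ℂ F.K (e b i)) ∈ colSp p (F.fz d n A) 0 := by
      have h4 := Submodule.sub_mem _ (show _ ∈ colSp p (F.fz d n A) 0 by simpa using hx.1)
        (hz0 hx0)
      rwa [add_sub_cancel_left] at h4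
    have h5 := F.PM_inj_z h e hdet c h3
    have h6 : (fun i => ∑ b, c b * algebraMap ℂ F.K (e b i)) = (0 : ι → F.K) := by
      funext i
      rw [h5]
      simp
    rw [h6, add_zero]
    exact hx0
  have hw : F.NN p d n A 0 ≤
      kSp F.K (VF p n A (1 - m) ⊓ VFc p n A (1 - m) ⊓ VFc p n A 0) := by
    intro x hx
    have h2 : x ∈ kSp F.K ((VF p n A (1 - m) ⊓ VFc p n A (1 - m) ⊓ VFc p n A 0) ⊔
        Submodule.span ℂ (Set.range fun b i => conj (e b i))) := by
      refine Submodule.span_mono ?_ (hle hx)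
      rintro v ⟨u, hu, rfl⟩
      refine ⟨u, ?_, rfl⟩
      have h3 : (fun i => conj (u i)) ∈ VF p n A (1 - m) ⊓ VFc p n A (1 - m) := by
        refine ⟨hu.2, ?_⟩
        show FF p n A (1 - m) fun b => conj (conj (u b))
        have h4 : (fun b => conj (conj (u b))) = u := by
          funext b
          simp
        rw [h4]
        exact hu.1
      have h5 := hspan h3
      rw [Submodule.mem_sup] at h5
      obtain ⟨y, hy, t, ht, hyt⟩ := h5
      rw [Submodule.mem_span_range_iff_exists_fun] at ht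
      obtain ⟨c, rfl⟩ := ht
      rw [Submodule.mem_sup]
      refine ⟨fun i => conj (y i), ?_, fun i => conj ((∑ b, c b • e b) i), ?_, ?_⟩
      · have h6 : (fun b => conj (conj (y b))) = y := by
          funext b
          simp
        refine ⟨⟨hy.1.2, ?_⟩, ?_⟩
        · show FF p n A (1 - m) fun b => conj (conj (y b))
          rw [h6]
          exact hy.1.1
        · show FF p n A 0 fun b => conj (conj (y b))
          rw [h6]
          exact hy.2
      · rw [Submodule.mem_span_range_iff_exists_fun]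
        refine ⟨fun b => conj (c b), ?_⟩
        funext i
        simp
      · funext i
        have h7 := congrFun hyt i
        rw [Pi.add_apply, ← map_add, ← Pi.add_apply, h7]
        simp
    rw [kSp_sup, Submodule.mem_sup] at h2
    obtain ⟨x0, hx0, x1, hx1, rfl⟩ := h2
    obtain ⟨c, rfl⟩ := hsp _ x1 hx1
    have h3 : (fun i => ∑ b, c b * algebraMap ℂ F.K (conj (e b i))) ∈
        colSp p (F.fw d n A) 0 := by
      have h4 := Submodule.sub_mem _ (show _ ∈ colSp p (F.fw d n A) 0 by simpa using hx.2)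
        (hw0 hx0)
      rwa [add_sub_cancel_left] at h4
    have h5 := F.PM_inj_w h e hdet c h3
    have h6 : (fun i => ∑ b, c b * algebraMap ℂ F.K (conj (e b i))) = (0 : ι → F.K) := by
      funext i
      rw [h5]
      simp
    rw [h6, add_zero]
    exact hx0
  intro x hx
  have h2 : x ∈ kSp F.K (VF p n A (1 - m) ⊓ VFc p n A (1 - m) ⊓ VF p n A 0) ⊓
      kSp F.K (VF p n A (1 - m) ⊓ VFc p n A (1 - m) ⊓ VFc p n A 0) := ⟨hz hx, hw hx⟩
  rw [kSp_inf] at h2
  refine Submodule.span_mono ?_ h2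
  rintro v ⟨u, hu, rfl⟩
  exact ⟨u, ⟨hu.1.2, hu.2.2⟩, rfl⟩

end DF

end Pool.Agent.LibZE25
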