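import Pool.Agent.LibZE25.Y7
import Pool.Agent.LibZE25.Z21

/-!
# Frames of `F^0`, of its conjugate, and constant vectors, side by side
-/

namespace Pool.Agent.LibZE25

/-- the frames of `F^0` and of its conjugate and `s` more vectors side by side -/
def cat3 {B : Type} {κ : Type} (p : κ → ℤ) {s : ℕ} (M M' : Matrix κ κ B)
    (E : Matrix κ (Fin s) B) :
    Matrix κ (({j // (0 : ℤ) ≤ p j} ⊕ {j // (0 : ℤ) ≤ p j}) ⊕ Fin s) B :=
  fun i c => Sum.elim (fun c => cat p 0 M M' i c) (fun b => E i b) c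

end Pool.Agent.LibZE25
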