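import Pool.Agent.LibZE25.Core2
import Pool.Agent.LibZE25.VDefs

/-!
# The formal part of the argument, relative to the real sections of `F^{1-m}`
-/

open PowerSeries Filter Topology
open scoped ComplexConjugate

namespace Pool.Agent.LibZE25

variable {ι : Type} [Fintype ι] [DecidableEq ι]

omit [DecidableEq ι] [Fintype ι] in
/-- the span of constant vectors is stable under a derivation -/
theorem kSp_der {K : Type} [Field K] [Algebra ℂ K] (D : Derivation ℂ K K)
    (U : Submodule ℂ (ι → ℂ)) (v : ι → K) (hv : v ∈ kSp K U) :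
    (fun i => D (v i)) ∈ kSp K U := by
  refine Submodule.span_induction (p := fun v _ => (fun i => D (v i)) ∈ kSp K U) ?_ ?_ ?_ ?_ hv
  · rintro v ⟨u, hu, rfl⟩
    have : (fun i => D (algebraMap ℂ K (u i))) = (0 : ι → K) := by
      funext i
      simp
    rw [this]
    exact Submodule.zero_mem _
  · have : (fun i => D ((0 : ι → K) i)) = (0 : ι → K) := by
      funext i
      simp
    rw [this]
    exact Submodule.zero_mem _
  · intro x y _ _ hx hy
    have : (fun i => D ((x + y) i)) = (fun i => D (x i)) + fun i => D (y i) := by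
      funext i
      simp
    rw [this]
    exact Submodule.add_mem _ hx hy
  · intro a x hx hx'
    have : (fun i => D ((a • x) i)) = D a • x + a • fun i => D (x i) := by
      funext i
      simp only [Pi.smul_apply, smul_eq_mul, D.leibniz, Pi.add_apply]
      ring
    rw [this]
    exact Submodule.add_mem _ (Submodule.smul_mem _ _ hx) (Submodule.smul_mem _ _ hx')

namespace DF

variable (F : DF) {wt p : ι → ℤ} {d : ℕ} {n : Matrix ι ι ℂ} {A : Matrix ι ι (PowerSeries ℂ)}

theorem step_z (h : FData wt p d n A) (a : ℤ) (v : ι → F.K) (hv : v ∈ colSp p (F.fz d n A) a) :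
    (fun i => F.D (v i)) ∈ colSp p (F.fz d n A) (a - 1) := by
  obtain ⟨T, hT0, hT⟩ := h.tr
  exact Z26_step F.D F.iz F.iz_C F.tz F.lz F.D_iz F.D_lz h.nil hT0 hT _ v hv

theorem step_w (h : FData wt p d n A) (a : ℤ) (v : ι → F.K) (hv : v ∈ colSp p (F.fw d n A) a) :
    (fun i => F.D (v i)) ∈ colSp p (F.fw d n A) (a - 1) := by
  obtain ⟨T, hT0, hT⟩ := h.tr
  set cj : PowerSeries ℂ →+* PowerSeries ℂ := PowerSeries.map (starRingEnd ℂ) with hcj
  have e1 : F.fw d n A = expn d (-n) F.lw * (A.map cj).map F.iw := by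
    rw [fw, Matrix.map_map]
    rfl
  have hn' : (-n) ^ d = 0 := by rw [neg_pow, h.nil, mul_zero]
  have hT' : (-n).map (C : ℂ →+* PowerSeries ℂ) * A.map cj +
      ((A.map cj).map fun f => X * derivative ℂ f) = A.map cj * T.map cj := by
    have h1 := congrArg (fun M => Matrix.map M cj) hT
    simp only [Matrix.map_add _ (map_add cj), Matrix.map_mul] at h1
    rw [← h1]
    congr 1
    · congr 1
      rw [← h.cnj]
      ext i k : 2
      simp only [Matrix.map_apply, hcj, PowerSeries.map_C]
    · ext i k : 2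
      simp only [Matrix.map_apply, hcj, map_mul, PowerSeries.map_X]
      have hder : ∀ f : PowerSeries ℂ, derivative ℂ (PowerSeries.map (starRingEnd ℂ) f) =
          PowerSeries.map (starRingEnd ℂ) (derivative ℂ f) := by
        intro f
        ext m
        simp [PowerSeries.coeff_derivative]
      rw [hder]
  rw [e1]
  refine Z26_step F.D F.iw F.iw_C F.tw F.lw F.D_iw F.D_lw hn' (T := T.map cj) ?_ hT' _ v ?_
  · intro i k hik
    rw [Matrix.map_apply, hT0 i k hik, map_zero]
  · rw [← e1]
    exact hv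

/-- the subspaces `F^{-j} + U` on both sides -/
noncomputable def LL (p : ι → ℤ) (d : ℕ) (n : Matrix ι ι ℂ) (A : Matrix ι ι (PowerSeries ℂ))
    (U : Submodule ℂ (ι → ℂ)) (j : ℕ) : Submodule F.K (ι → F.K) :=
  (colSp p (F.fz d n A) (-(j : ℤ)) ⊔ kSp F.K U) ⊓ (colSp p (F.fw d n A) (-(j : ℤ)) ⊔ kSp F.K U)

omit [Fintype ι] [DecidableEq ι] in
theorem colSp_anti {K : Type} [Field K] {M : Matrix ι ι K} {a b : ℤ} (hab : a ≤ b) :
    colSp p M b ≤ colSp p M a := by
  refine Submodule.span_mono ?_
  rintro v ⟨j, hj, rfl⟩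
  exact ⟨j, hab.trans hj, rfl⟩

/-- the formal part, relative version -/
theorem core3 (h : FData wt p d n A) (hwt : ∀ i, wt i ≤ 0) (m : ℕ)
    (hcard : Fintype.card {i // wt i = 0} ≤ m)
    (h1 : ∀ l < 0, ∃ e : {j : {i // wt i = l} // -(m : ℤ) ≤ p j} ⊕
        {j : {i // wt i = l} // -(m : ℤ) ≤ p j} → {i // wt i = l},
      F.φ ((cat (fun i : {i // wt i = l} => p i) (-(m : ℤ)) (bk wt l (rz d n A))
        (bk wt l (rw' d n A))).submatrix e id).det ≠ 0) :
    F.LL p d n A (VF p n A (1 - m) ⊓ VFc p n A (1 - m)) 0 ≤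
      kSp F.K (VF p n A (1 - m) ⊓ VFc p n A (1 - m)) := by
  set U := VF p n A (1 - m) ⊓ VFc p n A (1 - m) with hU
  have hz : kSp F.K U ≤ colSp p (F.fz d n A) (1 - m) := by
    refine Submodule.span_le.2 ?_
    rintro v ⟨u, hu, rfl⟩
    exact F.alg_mem_z h hu.1
  have hw : kSp F.K U ≤ colSp p (F.fw d n A) (1 - m) := by
    refine Submodule.span_le.2 ?_
    rintro v ⟨u, hu, rfl⟩
    have h2 := F.alg_mem_w h (u := fun b => conj (u b)) hu.2
    simpa using h2
  by_cases hne : F.LL p d n A U 0 = ⊥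
  · rw [hne]
    exact bot_le
  have hm' : F.LL p d n A U m ≤ F.NN p d n A m := by
    refine inf_le_inf ?_ ?_
    · exact sup_le le_rfl (hz.trans (colSp_anti (by omega)))
    · exact sup_le le_rfl (hw.trans (colSp_anti (by omega)))
  obtain ⟨j, hj, S, h0S, hSj, hSD⟩ := exists_hull F.D m (F.LL p d n A U) hne
    (fun j => inf_le_inf
      (sup_le_sup_right (colSp_anti (by push_cast; omega)) _)
      (sup_le_sup_right (colSp_anti (by push_cast; omega)) _))
    (fun j v hv => by
      constructor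
      · obtain ⟨x, hx, y, hy, rfl⟩ := Submodule.mem_sup.1 hv.1
        have h3 : (fun i => F.D ((x + y) i)) = (fun i => F.D (x i)) + fun i => F.D (y i) := by
          funext i
          simp
        rw [h3]
        refine Submodule.add_mem_sup ?_ (kSp_der F.D U y hy)
        have h4 := F.step_z h _ x hx
        have h5 : -((j + 1 : ℕ) : ℤ) = -(j : ℤ) - 1 := by push_cast; ring
        rw [h5]
        exact h4
      · obtain ⟨x, hx, y, hy, rfl⟩ := Submodule.mem_sup.1 hv.2
        have h3 : (fun i => F.D ((x + y) i)) = (fun i => F.D (x i)) + fun i => F.D (y i) := by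
          funext i
          simp
        rw [h3]
        refine Submodule.add_mem_sup ?_ (kSp_der F.D U y hy)
        have h4 := F.step_w h _ x hx
        have h5 : -((j + 1 : ℕ) : ℤ) = -(j : ℤ) - 1 := by push_cast; ring
        rw [h5]
        exact h4)
    ((Submodule.finrank_mono hm').trans ((F.NN_finrank h hwt m h1).trans hcard))
  have hm1 : 1 ≤ m := by omega
  have hcast : -((m - 1 : ℕ) : ℤ) = 1 - (m : ℤ) := by
    push_cast [Nat.cast_sub hm1]
    ring
  have hjm : F.LL p d n A U j ≤ F.NN p d n A (m - 1) := by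
    unfold LL NN
    rw [hcast]
    refine inf_le_inf ?_ ?_
    · exact sup_le (colSp_anti (by omega)) hz
    · exact sup_le (colSp_anti (by omega)) hw
  refine (h0S.trans (span_const F.D S hSD)).trans ?_
  rw [Submodule.span_le]
  rintro e ⟨heS, heD⟩
  have h2 := F.descent_all h (m - 1) e (hjm (hSj heS)) heD
  rw [hcast] at h2
  refine Submodule.span_mono ?_ h2
  rintro v ⟨u, hu1, hu2, rfl⟩
  exact ⟨u, ⟨hu1, hu2⟩, rfl⟩

end DF

/-- dimensions -/
theorem finrank_inf_sup {K V : Type} [Field K] [AddCommGroup V] [Module K V]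
    [FiniteDimensional K V] (X Y Z : Submodule K V) {t k : ℕ}
    (hX : Module.finrank K (X ⊓ Z : Submodule K V) ≤ t)
    (hY : Module.finrank K (Y ⊓ Z : Submodule K V) ≤ t)
    (hk : Module.finrank K (X ⊔ Y ⊔ Z : Submodule K V) < k)
    (hkt : k + 2 * t ≤ Module.finrank K X + Module.finrank K Y + Module.finrank K Z) :
    Module.finrank K Z <
      Module.finrank K ((X ⊔ Z) ⊓ (Y ⊔ Z) : Submodule K V) := by
  have h1 := Submodule.finrank_sup_add_finrank_inf_eq X Z
  have h2 := Submodule.finrank_sup_add_finrank_inf_eq Y Z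
  have h3 := Submodule.finrank_sup_add_finrank_inf_eq (X ⊔ Z) (Y ⊔ Z)
  have h4 : (X ⊔ Z) ⊔ (Y ⊔ Z) = X ⊔ Y ⊔ Z := by
    rw [sup_sup_sup_comm, sup_idem]
  rw [h4] at h3
  omega

end Pool.Agent.LibZE25
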