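import Mathlib

/-!
# A derivation extends to the fraction field
-/

open scoped TensorProduct
open KaehlerDifferential

namespace Pool.Agent.LibZE25

theorem exists_fracDer {A : Type} [CommRing A] [IsDomain A] [Algebra ℂ A] (d : Derivation ℂ A A) :
    ∃ d' : Derivation ℂ (FractionRing A) (FractionRing A),
      ∀ a, d' (algebraMap A (FractionRing A) a) = algebraMap A (FractionRing A) (d a) := by
  have : Algebra.FormallyEtale A (FractionRing A) :=
    Algebra.FormallyEtale.of_isLocalization (Rₘ := FractionRing A) (nonZeroDivisors A)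
  obtain ⟨L, hL⟩ : ∃ L : Ω[A⁄ℂ] →ₗ[A] FractionRing A,
      L = (Algebra.linearMap A (FractionRing A)).comp d.liftKaehlerDifferential := ⟨_, rfl⟩
  obtain ⟨e, he⟩ : ∃ e : FractionRing A ⊗[A] Ω[A⁄ℂ] ≃ₗ[FractionRing A] Ω[FractionRing A⁄ℂ],
      e = KaehlerDifferential.tensorKaehlerEquivOfFormallyEtale ℂ A (FractionRing A) := ⟨_, rfl⟩
  refine ⟨((L.liftBaseChange (FractionRing A)).comp e.symm.toLinearMap).compDer
    (KaehlerDifferential.D ℂ (FractionRing A)), fun a => ?_⟩
  have h1 : e.symm (KaehlerDifferential.D ℂ (FractionRing A) (algebraMap A (FractionRing A) a)) =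
      1 ⊗ₜ KaehlerDifferential.D ℂ A a := by
    rw [he]
    exact KaehlerDifferential.tensorKaehlerEquivOfFormallyEtale_symm_D_algebraMap ℂ A _ a
  change (L.liftBaseChange (FractionRing A)) (e.symm (KaehlerDifferential.D ℂ (FractionRing A)
    (algebraMap A (FractionRing A) a))) = _
  rw [h1, LinearMap.liftBaseChange_tmul, one_smul, hL, LinearMap.comp_apply,
    Derivation.liftKaehlerDifferential_comp_D, Algebra.linearMap_apply]

end Pool.Agent.LibZE25
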