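import Pool.Agent.LibZE25.Z1
import Pool.Agent.LibZE25.Z2

/-!
# Real Hodge classes of mixed variations (MP_eeb1a4_ag): the formal ring

`kk = ℂ(Y)`, `RR = kk⟦z⟧⟦w⟧` with the derivations `Dz = z d/dz + d/dY`, `Dw = w d/dw + d/dY`.
-/

open PowerSeries

namespace Pool.Agent.LibZE25

/-- the derivation `c z d/dz + d` of `B⟦z⟧` -/
noncomputable def psDer {B : Type} [CommRing B] [Algebra ℂ B] (d : Derivation ℂ B B) (c : ℕ) :
    Derivation ℂ (PowerSeries B) (PowerSeries B) :=
  Derivation.mk' (psLin d c) (psLin_leibniz d c)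

theorem coeff_psDer {B : Type} [CommRing B] [Algebra ℂ B] (d : Derivation ℂ B B) (c : ℕ)
    (f : PowerSeries B) (n : ℕ) :
    coeff n (psDer d c f) = d (coeff n f) + (c * n : ℕ) • coeff n f := by
  show coeff n (PowerSeries.mk fun n => d (coeff n f) + (c * n : ℕ) • coeff n f) = _
  rw [coeff_mk]

/-- the field `ℂ(Y)` -/
abbrev kk : Type := FractionRing (Polynomial ℂ)

/-- `d/dY` -/
noncomputable def dk : Derivation ℂ kk kk :=
  (exists_fracDer (Polynomial.derivative' (R := ℂ))).choose

theorem dk_coe (f : Polynomial ℂ) :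
    dk (algebraMap _ kk f) = algebraMap _ kk (Polynomial.derivative f) :=
  (exists_fracDer (Polynomial.derivative' (R := ℂ))).choose_spec f

/-- the ring `ℂ(Y)⟦z⟧` -/
abbrev AA : Type := PowerSeries kk

/-- the ring `ℂ(Y)⟦z⟧⟦w⟧` -/
abbrev RR : Type := PowerSeries AA

/-- `z d/dz + d/dY` -/
noncomputable def Dz : Derivation ℂ RR RR := psDer (psDer dk 1) 0

/-- `w d/dw + d/dY` -/
noncomputable def Dw : Derivation ℂ RR RR := psDer (psDer dk 0) 1

theorem coeff_Dz (f : RR) (i j : ℕ) :
    coeff j (coeff i (Dz f)) = dk (coeff j (coeff i f)) + j • coeff j (coeff i f) := by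
  rw [Dz, coeff_psDer, zero_mul, zero_smul, add_zero, coeff_psDer, one_mul]

theorem coeff_Dw (f : RR) (i j : ℕ) :
    coeff j (coeff i (Dw f)) = dk (coeff j (coeff i f)) + i • coeff j (coeff i f) := by
  rw [Dw, coeff_psDer, one_mul, map_add, coeff_psDer, zero_mul, zero_smul, add_zero, map_nsmul]

/-- the variable `z` -/
noncomputable def zR : RR := C (X : AA)

/-- the variable `w` -/
noncomputable def wR : RR := X

/-- the element `Y` -/
noncomputable def YR : RR := C (C (algebraMap _ kk (Polynomial.X : Polynomial ℂ)))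

/-- power series in `z` -/
noncomputable def jz : PowerSeries ℂ →+* RR :=
  (C : AA →+* RR).comp (PowerSeries.map (algebraMap ℂ kk))

/-- power series in `w` -/
noncomputable def jw : PowerSeries ℂ →+* RR :=
  PowerSeries.map ((C : kk →+* AA).comp (algebraMap ℂ kk))

/-- A differential field over `ℂ` with a homomorphism `φ` from `RR`; `tz = D z / z`,
`tw = D w / w`, and `U` with `D U = tz - tw`, transcendental over the image of `RR`. -/
structure DF where
  /-- the field -/
  K : Type
  [fld : Field K]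
  [alg : Algebra ℂ K]
  /-- the derivation -/
  D : Derivation ℂ K K
  /-- the evaluation -/
  φ : RR →+* K
  φ_alg : ∀ c : ℂ, φ (algebraMap ℂ RR c) = algebraMap ℂ K c
  /-- `D z / z` -/
  tz : K
  /-- `D w / w` -/
  tw : K
  tz_ne : tz ≠ 0
  tw_ne : tw ≠ 0
  D_φ : ∀ f, D (φ f) = tz * φ (Dz f) + tw * φ (Dw f)
  /-- `log z - log w` -/
  U : K
  D_U : D U = tz - tw
  trans : ∀ g : Polynomial RR, Polynomial.eval₂ φ U g = 0 → ∀ i, φ (g.coeff i) = 0
  zR_ne : φ zR ≠ 0
  wR_ne : φ wR ≠ 0

attribute [instance] DF.fld DF.alg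

namespace DF

variable (F : DF)

/-- power series in `z` -/
noncomputable def iz : PowerSeries ℂ →+* F.K := F.φ.comp jz

/-- power series in `w` -/
noncomputable def iw : PowerSeries ℂ →+* F.K := F.φ.comp jw

/-- `log z` -/
noncomputable def lz : F.K := (F.φ YR + F.U) / 2

/-- `log w` -/
noncomputable def lw : F.K := (F.φ YR - F.U) / 2

end DF

end Pool.Agent.LibZE25
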