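import Pool.Agent.LibMW38.Gen3
import Pool.Agent.LibZE25.Y13

/-!
# The same for general index types and a general step `a`
-/

open Matrix Complex Filter Topology MeasureTheory
open UpperHalfPlane hiding I

namespace Pool.Agent.LibZE25

open MW38 SP38 US38

variable {κ : Type} [Fintype κ] {α : Type} [Fintype α] [DecidableEq α] {w a : ℤ} {p : α → ℤ}
  {Q : Matrix α α ℝ} {G : ℂ → Matrix α α ℂ} {ν : ℂ → α → ℂ}
  {Δ : Subgroup (Matrix.SpecialLinearGroup (Fin 2) ℝ)}
  {σ : κ → Matrix.SpecialLinearGroup (Fin 2) ℝ} {h : κ → ℝ} {D : Set ℍ}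

private theorem Y14_Fl (p : α → ℤ) (a b : ℤ) (H : Matrix α α ℂ) :
    Fl (fun j => p j - a) H b = Fl p H (a + b) := by
  unfold Fl
  congr 1
  ext v
  constructor
  · rintro ⟨j, hj, rfl⟩
    have hj' : b ≤ p j - a := hj
    exact ⟨j, by omega, rfl⟩
  · rintro ⟨j, hj, rfl⟩
    have hj' : b ≤ p j - a := by omega
    exact ⟨j, hj', rfl⟩

private theorem Y14_phs {H : Matrix α α ℂ} (h : PHS w p Q H) (a : ℤ) :
    PHS (w - 2 * a) (fun j => p j - a) Q H where
  unit := h.unit
  riem b c hbc u hu v hv := by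
    rw [Y14_Fl] at hu hv
    exact h.riem (a + b) (a + c) (by omega) u hu v hv
  pos b v hv hcv hv0 := by
    rw [Y14_Fl] at hv hcv
    have e1 : a + (w - 2 * a - b) = w - (a + b) := by ring
    rw [e1] at hcv
    have e2 : 2 * b - (w - 2 * a) = 2 * (a + b) - w := by ring
    rw [e2]
    exact h.pos (a + b) v hv hcv hv0

private theorem Y14_exp {m : ℕ} {A : Matrix (Fin m) (Fin m) ℂ} (hA : IsNilpotent A) (ζ : ℂ)
    (β : Fin m → ℂ) (x : Fin m) :
    (IsNilpotent.exp (ζ • Matrix.fromBlocks A 0 0 (0 : Matrix Unit Unit ℂ)) *ᵥ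
      Sum.elim β 1) (Sum.inl x) = (IsNilpotent.exp (ζ • A) *ᵥ β) x := by
  obtain ⟨k, hk⟩ := hA
  have hk1 : A ^ (k + 1) = 0 := by rw [pow_succ, hk, zero_mul]
  have hk2 : (Matrix.fromBlocks A 0 0 (0 : Matrix Unit Unit ℂ)) ^ (k + 1) = 0 := by
    rw [Matrix.fromBlocks_diagonal_pow, hk1, zero_pow (Nat.succ_ne_zero k)]
    exact Matrix.fromBlocks_zero
  rw [cus1_exp_eq _ hk1, cus1_exp_eq _ hk2]
  simp only [Matrix.fromBlocks_diagonal_pow]
  simp only [Matrix.mulVec, dotProduct, Fintype.sum_sum_type, Matrix.sum_apply,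
    Matrix.smul_apply, Matrix.fromBlocks_apply₁₁, Matrix.fromBlocks_apply₁₂, Sum.elim_inl,
    Matrix.zero_apply, smul_zero, Finset.sum_const_zero, zero_mul, add_zero]

theorem fp_pure (hc : IsCurve Δ σ h D) (hv : VarF w p Q G ν a)
    (hs : ∃ s : Equiv.Perm α, ∀ j, p (s j) = w - p j) (hd : DescF p Q G ν a Δ)
    (ha : ∀ i, AdmF p Q G ν a Δ (σ i)) {z₀ : ℂ} (hz₀ : 0 < z₀.im)
    (h0 : ν z₀ ∈ Fl p (G z₀) a) : ∀ z : ℂ, 0 < z.im → ν z ∈ Fl p (G z) a := by
  classical
  obtain ⟨s, hs⟩ := hs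
  set f : α ≃ Fin (Fintype.card α) := Fintype.equivFin α with hf
  set pa : α → ℤ := fun j => p j - a with hpa
  have hFl : ∀ (H : Matrix α α ℂ) (b : ℤ), Fl pa H b = Fl p H (a + b) := fun H b => Y14_Fl p a b H
  have hFl0 : ∀ H : Matrix α α ℂ, Fl pa H 0 = Fl p H a := fun H => by rw [hFl, add_zero]
  have hFl1 : ∀ H : Matrix α α ℂ, Fl pa H (-1) = Fl p H (a - 1) := fun H => by
    rw [hFl]
    rfl
  have hs' : ∀ j, (fun i => pa (f.symm i)) ((f.symm.trans (s.trans f)) j) =
      (w - 2 * a) - (fun i => pa (f.symm i)) j := by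
    intro j
    simp only [Equiv.trans_apply, Equiv.symm_apply_apply, hpa]
    rw [hs]
    ring
  have htrG : ∀ z : ℂ, 0 < z.im → ∀ j, (fun i => deriv (fun z => G z i j) z) ∈
      Fl pa (G z) (pa j - 1) := by
    intro z hz j
    have e1 : a + (pa j - 1) = p j - 1 := by
      simp only [hpa]
      ring
    rw [hFl, e1]
    exact hv.trG z hz j
  have htrn : ∀ z : ℂ, 0 < z.im → (fun i => deriv (fun z => ν z i) z) ∈
      Fl pa (G z) (-1) := by
    intro z hz
    rw [hFl1]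
    exact hv.trn z hz
  have hvar : IsVar (w - 2 * a) (fun i => pa (f.symm i)) (Matrix.reindex f f Q)
      (fun z => Matrix.reindex f f (G z)) (fun z i => ν z (f.symm i)) :=
    { phs := fun z hz => (Y14_phs (hv.phs z hz) a).reindex f
      holG := fun i j => hv.holG (f.symm i) (f.symm j)
      holn := fun i => hv.holn (f.symm i)
      trG := fun z hz j => (mem_Fl_reindex f _).1 (htrG z hz (f.symm j))
      trn := fun z hz => (mem_Fl_reindex f _).1 (htrn z hz) }
  have hmem : ∀ z : ℂ, 0 < z.im → (fun i => ν z (f.symm i)) ∈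
      Fil (fun i => pa (f.symm i)) (Matrix.reindex f f (G z)) (-1) := by
    intro z hz
    have h1 : ν z ∈ Fl pa (G z) (-1) := by
      rw [hFl1]
      exact hv.mem z hz
    exact (mem_Fl_reindex f _).1 h1
  have hdesc : Desc0 (fun i => pa (f.symm i)) (Matrix.reindex f f Q)
      (fun z => Matrix.reindex f f (G z)) (fun z i => ν z (f.symm i)) Δ := by
    intro δ hδ
    obtain ⟨γ, h1, h2, h3⟩ := hd δ hδ
    refine ⟨Matrix.reindex f f γ, gen2_isUnit f h1, ?_, fun z hz => ?_⟩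
    · have h4 : (Matrix.reindex f f γ)ᵀ = Matrix.reindex f f γᵀ := rfl
      rw [h4, gen2_mul, gen2_mul, h2]
    · obtain ⟨h5, h6⟩ := h3 ⟨z, hz⟩
      have hmob : mob δ z = ((δ • (⟨z, hz⟩ : ℍ) : ℍ) : ℂ) := mob_coe δ ⟨z, hz⟩
      rw [hmob]
      have h5' : ∀ b, Fl pa (G ((δ • (⟨z, hz⟩ : ℍ) : ℍ) : ℂ)) b =
          (Fl pa (G z) b).map (Matrix.mulVecLin (cm γ)) := by
        intro b
        rw [hFl, hFl]
        exact h5 (a + b)
      refine ⟨fun b => gen2_map f (h5' b), ?_⟩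
      rw [← hFl0] at h6
      have h7 := (mem_Fl_reindex f _).1 h6
      have h8 : (fun i => ν ((δ • (⟨z, hz⟩ : ℍ) : ℍ) : ℂ) (f.symm i)) -
          cm (Matrix.reindex f f γ) *ᵥ (fun i => ν z (f.symm i)) =
          fun i => (ν ((δ • (⟨z, hz⟩ : ℍ) : ℍ) : ℂ) - cm γ *ᵥ ν z) (f.symm i) := by
        have h9 : cm (Matrix.reindex f f γ) = Matrix.reindex f f (cm γ) := rfl
        rw [h9, gen2_mulVec]
        simp only [Equiv.symm_apply_apply]
        rfl
      rw [h8]
      exact h7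
  have hadm : ∀ i, AdmissibleAt (fun i => pa (f.symm i)) (Matrix.reindex f f Q)
      (fun z => Matrix.reindex f f (G z)) (fun z i => ν z (f.symm i)) Δ (σ i) := by
    intro i
    obtain ⟨t, N, Ψ, β, ε, h1, h2, h3, h4, h6, h7, h8, h9, h10⟩ := ha i
    have hcm : ∀ X : Matrix α α ℝ, cm (Matrix.reindex f f X) = Matrix.reindex f f (cm X) :=
      fun _ => rfl
    have hNn : IsNilpotent (Matrix.reindex f f N) := by
      obtain ⟨k, hk⟩ := h4
      refine ⟨k, ?_⟩
      have e1 := congrArg (Matrix.reindexAlgEquiv ℝ ℝ f) hk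
      rw [map_pow, map_zero] at e1
      exact e1
    have hcN : cm (Matrix.fromBlocks (Matrix.reindex f f N) 0 0 (0 : Matrix Unit Unit ℝ)) =
        Matrix.fromBlocks (cm (Matrix.reindex f f N)) 0 0 (0 : Matrix Unit Unit ℂ) := by
      ext x y
      rcases x with x | x <;> rcases y with y | y <;> simp [cm]
    refine ⟨t, Matrix.fromBlocks (Matrix.reindex f f N) 0 0 (0 : Matrix Unit Unit ℝ),
      fun q => Matrix.reindex f f (Ψ q), fun q i => β q (f.symm i), ε, h1, h2, h3, ?_, ?_, ?_,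
      fun i j => h7 (f.symm i) (f.symm j), fun i => h8 (f.symm i),
      fun q hq => gen2_isUnit f (h9 q hq), fun τ hτ => ?_⟩
    · obtain ⟨k, hk⟩ := hNn
      refine ⟨k + 1, ?_⟩
      rw [Matrix.fromBlocks_diagonal_pow, pow_succ, hk, zero_mul, zero_pow (Nat.succ_ne_zero k)]
      exact Matrix.fromBlocks_zero
    · intro j
      rcases j with j | j
      · rfl
      · rfl
    · have e1 : hb (Matrix.fromBlocks (Matrix.reindex f f N) 0 0 (0 : Matrix Unit Unit ℝ)) =
          Matrix.reindex f f N := rfl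
      have e2 : ∀ X : Matrix α α ℝ, (Matrix.reindex f f X)ᵀ = Matrix.reindex f f Xᵀ := fun _ => rfl
      rw [e1, gen2_exp, e2, gen2_mul, gen2_mul, h6]
    · obtain ⟨h11, h12⟩ := h10 τ hτ
      constructor
      · intro b
        have e1 : ((τ : ℂ) / t) • cm (hb (Matrix.fromBlocks (Matrix.reindex f f N) 0 0
            (0 : Matrix Unit Unit ℝ))) = Matrix.reindex f f (((τ : ℂ) / t) • cm N) := rfl
        rw [e1, gen2_exp, gen2_mul]
        have h14 : Fl pa (G ((σ i • τ : ℍ) : ℂ)) b =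
            Fl pa (IsNilpotent.exp (((τ : ℂ) / t) • cm N) *
              Ψ (Complex.exp (2 * Real.pi * I * ((τ : ℂ) / t)))) b := by
          rw [hFl, hFl]
          exact h11 (a + b)
        exact gen2_eq f h14
      · rw [← hFl0] at h12
        have h13 := (mem_Fl_reindex f _).1 h12
        refine (congrArg (fun v => v ∈ Fil (fun i => pa (f.symm i))
          (Matrix.reindex f f (G ((σ i • τ : ℍ) : ℂ))) 0) ?_).mpr h13
        funext x
        simp only [Pi.sub_apply]
        rw [hcN, Y14_exp (cus1_cm_nil hNn)]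
        have e1 : ((τ : ℂ) / t) • cm (Matrix.reindex f f N) =
            Matrix.reindex f f (((τ : ℂ) / t) • cm N) := rfl
        rw [e1, gen2_exp, gen2_mulVec]
        simp only [Equiv.symm_apply_apply]
  have h0' : (fun i => ν z₀ (f.symm i)) ∈
      Fil (fun i => pa (f.symm i)) (Matrix.reindex f f (G z₀)) 0 := by
    have h1 : ν z₀ ∈ Fl pa (G z₀) 0 := by
      rw [hFl0]
      exact h0
    exact (mem_Fl_reindex f _).1 h1
  intro z hz
  have hfin := fp_fin (s := f.symm.trans (s.trans f)) hc hvar hs' hmem hdesc hadm hz₀ h0' z hz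
  have h1 := (mem_Fl_reindex (p := pa) (G := G z) (a := 0) f (ν z)).2 hfin
  rw [hFl0] at h1
  exact h1

end Pool.Agent.LibZE25
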