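import Pool.Agent.LibMW38.LVar
import Pool.Agent.LibUS38.Fin
import Pool.Agent.LibZE25.ALoc

/-!
# Flat vectors in the Hodge filtration: definitions
-/

open Matrix Complex
open UpperHalfPlane hiding I
open scoped ComplexConjugate

namespace Pool.Agent.LibZE25

open MW38 SP38 US38

variable {ι : Type} [Fintype ι] [DecidableEq ι]

/-- the formal version of `u ∈ F^a` -/
def FF (p : ι → ℤ) (n : Matrix ι ι ℂ) (A : Matrix ι ι (PowerSeries ℂ)) (a : ℤ) (u : ι → ℂ) :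
    Prop :=
  ∀ (r : ℕ) (i : ι), p i < a →
    (A.adjugate.mulVec fun b => PowerSeries.C ((n ^ r).mulVec u b)) i = 0

/-- the coordinates of the vectors `e b`, up to a determinant, as polynomials in `log z` -/
noncomputable def PM (d : ℕ) (n : Matrix ι ι ℂ) (A : Matrix ι ι (PowerSeries ℂ)) {κ : Type}
    (e : κ → ι → ℂ) : Matrix ι κ (Polynomial (PowerSeries ℂ)) := fun i b =>
  ∑ r ∈ Finset.range d, Polynomial.monomial r (PowerSeries.C ((-1 : ℂ) ^ r / (r.factorial : ℂ)) *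
    (A.adjugate.mulVec fun a => PowerSeries.C ((n ^ r).mulVec (e b) a)) i)

section pure

variable {α : Type} [Fintype α] [DecidableEq α]

/-- a pure variation with a holomorphic section of `F^{a-1}` whose derivative is in `F^{a-1}` -/
structure VarF (w : ℤ) (p : α → ℤ) (Q : Matrix α α ℝ) (G : ℂ → Matrix α α ℂ)
    (ν : ℂ → α → ℂ) (a : ℤ) : Prop where
  phs : ∀ z : ℂ, 0 < z.im → PHS w p Q (G z)
  holG : ∀ i j, DifferentiableOn ℂ (fun z => G z i j) {z : ℂ | 0 < z.im}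
  holn : ∀ i, DifferentiableOn ℂ (fun z => ν z i) {z : ℂ | 0 < z.im}
  trG : ∀ z : ℂ, 0 < z.im → ∀ j, (fun i => deriv (fun z => G z i j) z) ∈ Fl p (G z) (p j - 1)
  mem : ∀ z : ℂ, 0 < z.im → ν z ∈ Fl p (G z) (a - 1)
  trn : ∀ z : ℂ, 0 < z.im → (fun i => deriv (fun z => ν z i) z) ∈ Fl p (G z) (a - 1)

/-- the section is invariant modulo `F^a` -/
def DescF (p : α → ℤ) (Q : Matrix α α ℝ) (G : ℂ → Matrix α α ℂ) (ν : ℂ → α → ℂ) (a : ℤ)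
    (Δ : Subgroup (Matrix.SpecialLinearGroup (Fin 2) ℝ)) : Prop :=
  ∀ δ ∈ Δ, ∃ γ : Matrix α α ℝ, IsUnit γ ∧ γᵀ * Q * γ = Q ∧ ∀ τ : ℍ,
    (∀ b, Fl p (G ((δ • τ : ℍ) : ℂ)) b = (Fl p (G (τ : ℂ)) b).map (Matrix.mulVecLin (cm γ))) ∧
    ν ((δ • τ : ℍ) : ℂ) - cm γ *ᵥ ν (τ : ℂ) ∈ Fl p (G ((δ • τ : ℍ) : ℂ)) a

/-- admissibility at the cusp -/
def AdmF (p : α → ℤ) (Q : Matrix α α ℝ) (G : ℂ → Matrix α α ℂ) (ν : ℂ → α → ℂ) (a : ℤ)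
    (Δ : Subgroup (Matrix.SpecialLinearGroup (Fin 2) ℝ))
    (σ : Matrix.SpecialLinearGroup (Fin 2) ℝ) : Prop :=
  ∃ (h : ℝ) (N : Matrix α α ℝ) (Ψ : ℂ → Matrix α α ℂ) (β : ℂ → α → ℂ) (ε : ℝ),
    0 < h ∧ σ * trans h * σ⁻¹ ∈ Δ ∧ 0 < ε ∧ IsNilpotent N ∧
    (IsNilpotent.exp N)ᵀ * Q * IsNilpotent.exp N = Q ∧
    (∀ i j, DifferentiableOn ℂ (fun q => Ψ q i j) (Metric.ball 0 ε)) ∧
    (∀ i, DifferentiableOn ℂ (fun q => β q i) (Metric.ball 0 ε)) ∧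
    (∀ q ∈ Metric.ball (0 : ℂ) ε, IsUnit (Ψ q)) ∧
    ∀ τ : ℍ, ‖Complex.exp (2 * Real.pi * I * ((τ : ℂ) / h))‖ < ε →
      (∀ b, Fl p (G ((σ • τ : ℍ) : ℂ)) b = Fl p (IsNilpotent.exp (((τ : ℂ) / h) • cm N) *
        Ψ (Complex.exp (2 * Real.pi * I * ((τ : ℂ) / h)))) b) ∧
      ν ((σ • τ : ℍ) : ℂ) - IsNilpotent.exp (((τ : ℂ) / h) • cm N) *ᵥ
        β (Complex.exp (2 * Real.pi * I * ((τ : ℂ) / h))) ∈ Fl p (G ((σ • τ : ℍ) : ℂ)) a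

end pure

/-- the function `|ν^{-1}|²` -/
noncomputable def N0 {m : ℕ} (w : ℤ) (K : ℕ) (Q : Matrix (Fin m) (Fin m) ℝ) (p : Fin m → ℤ)
    (s : Equiv.Perm (Fin m)) (G : ℂ → Matrix (Fin m) (Fin m) ℂ) (ν : ℂ → Fin m → ℂ) (z : ℂ) : ℂ :=
  hm (metr w K Q (PP p s (G z))) (PP p s (G z) (-1) *ᵥ ν z) (PP p s (G z) (-1) *ᵥ ν z)

/-- descent, the section is invariant modulo `F^0` -/
def Desc0 {m : ℕ} (p : Fin m → ℤ) (Q : Matrix (Fin m) (Fin m) ℝ)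
    (G : ℂ → Matrix (Fin m) (Fin m) ℂ) (ν : ℂ → Fin m → ℂ)
    (Δ : Subgroup (Matrix.SpecialLinearGroup (Fin 2) ℝ)) : Prop :=
  ∀ δ ∈ Δ, ∃ γ : Matrix (Fin m) (Fin m) ℝ, IsUnit γ ∧ γᵀ * Q * γ = Q ∧ ∀ z ∈ Hc 0,
    (∀ b, Fil p (G (mob δ z)) b = (Fil p (G z) b).map (Matrix.mulVecLin (cm γ))) ∧
    ν (mob δ z) - cm γ *ᵥ ν z ∈ Fil p (G (mob δ z)) 0

/-- `e` lies in `F^a + W_l` -/
def InC (wt p : ι → ℤ) (a l : ℤ) (e : ι → ℂ) (Φ : Matrix ι ι ℂ) : Prop :=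
  ∀ j, l < wt j → p j < a → (Φ⁻¹ *ᵥ e) j = 0

/-- the component in `Gr_l`, modulo `F^a` -/
noncomputable def nuC (wt : ι → ℤ) (l : ℤ) (e : ι → ℂ) (Φ : Matrix ι ι ℂ) :
    {i // wt i = l} → ℂ := blk wt l l Φ *ᵥ (fun i => (Φ⁻¹ *ᵥ e) i)

/-- `e` is invariant under the monodromy -/
def DescE (wt p : ι → ℤ) (Q : Matrix ι ι ℝ) (Φ : ℂ → Matrix ι ι ℂ) (e : ι → ℂ)
    (Δ : Subgroup (Matrix.SpecialLinearGroup (Fin 2) ℝ)) : Prop :=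
  ∀ δ ∈ Δ, ∃ γ : Matrix ι ι ℝ, Isom wt Q γ ∧ cm γ *ᵥ e = e ∧ ∀ (τ : ℍ) (a : ℤ),
    Fl p (Φ ((δ • τ : ℍ) : ℂ)) a = (Fl p (Φ (τ : ℂ)) a).map (Matrix.mulVecLin (cm γ))

/-- admissibility, `e` is invariant under the local monodromy -/
def AdmE (wt p : ι → ℤ) (Q : Matrix ι ι ℝ) (Φ : ℂ → Matrix ι ι ℂ) (e : ι → ℂ)
    (Δ : Subgroup (Matrix.SpecialLinearGroup (Fin 2) ℝ))
    (σ : Matrix.SpecialLinearGroup (Fin 2) ℝ) : Prop :=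
  ∃ (h : ℝ) (N : Matrix ι ι ℝ) (Ψ : ℂ → Matrix ι ι ℂ) (ε : ℝ),
    0 < h ∧ σ * trans h * σ⁻¹ ∈ Δ ∧ 0 < ε ∧ IsNilpotent N ∧ Tri wt N ∧
    Isom wt Q (IsNilpotent.exp N) ∧ cm N *ᵥ e = 0 ∧
    (∀ i j, DifferentiableOn ℂ (fun q => Ψ q i j) (Metric.ball 0 ε)) ∧
    (∀ q ∈ Metric.ball (0 : ℂ) ε, IsUnit (Ψ q) ∧ Tri wt (Ψ q)) ∧
    ∀ τ : ℍ, ‖Complex.exp (2 * Real.pi * I * ((τ : ℂ) / h))‖ < ε → ∀ a,
      Fl p (Φ ((σ • τ : ℍ) : ℂ)) a = Fl p (IsNilpotent.exp (((τ : ℂ) / h) • cm N) *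
        Ψ (Complex.exp (2 * Real.pi * I * ((τ : ℂ) / h)))) a

end Pool.Agent.LibZE25
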