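import Pool.Agent.LibMW38.LAdm
import Pool.Agent.LibZE25.YDefs

/-!
# Descent and admissibility of the graded component
-/

open Matrix Complex
open UpperHalfPlane hiding I

namespace Pool.Agent.LibZE25

open MW38 SP38 US38

variable {ι : Type} [Fintype ι] [DecidableEq ι] {wt p : ι → ℤ} {Q : Matrix ι ι ℝ}
  {Φ : ℂ → Matrix ι ι ℂ} {a l : ℤ} {e : ι → ℂ}
  {Δ : Subgroup (Matrix.SpecialLinearGroup (Fin 2) ℝ)}
  {σ : Matrix.SpecialLinearGroup (Fin 2) ℝ}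

theorem Y16_transfer {Φ₁ Φ₂ γ : Matrix ι ι ℂ} (hu1 : IsUnit Φ₁) (ht1 : Tri wt Φ₁)
    (hu2 : IsUnit Φ₂) (ht2 : Tri wt Φ₂) (hu : IsUnit γ) (ht : Tri wt γ)
    (hF : ∀ a, Fl p Φ₂ a = (Fl p Φ₁ a).map (Matrix.mulVecLin γ)) (h1 : InC wt p a l e Φ₁)
    (hγ : γ *ᵥ e = e) :
    nuC wt l e Φ₂ - blk wt l l γ *ᵥ nuC wt l e Φ₁ ∈
      Fl (fun i : {i // wt i = l} => p i) (blk wt l l Φ₂) a := by
  obtain ⟨C, hC, htC, h2, h3⟩ := trf_exists_C hu1 ht1 hu2 ht2 hu ht hF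
  have hd1 := (Matrix.isUnit_iff_isUnit_det _).1 hu1
  have hd2 := (Matrix.isUnit_iff_isUnit_det _).1 hu2
  set c₁ : ι → ℂ := Φ₁⁻¹ *ᵥ e with hc₁
  have e1 : e = Φ₂ *ᵥ (C *ᵥ c₁) := by
    have e0 : Φ₁ *ᵥ c₁ = e := by
      rw [hc₁, Matrix.mulVec_mulVec, Matrix.mul_nonsing_inv _ hd1, Matrix.one_mulVec]
    rw [Matrix.mulVec_mulVec, ← h2, ← Matrix.mulVec_mulVec, e0, hγ]
  have e2 : Φ₂⁻¹ *ᵥ e = C *ᵥ c₁ := by
    conv_lhs => rw [e1]
    rw [Matrix.mulVec_mulVec, Matrix.nonsing_inv_mul _ hd2, Matrix.one_mulVec]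
  -- the remainder
  set r : {i // wt i = l} → ℂ :=
    fun i => ∑ j ∈ Finset.univ.filter (fun j => l < wt j), C i j * c₁ j with hr
  have e5 : (fun i : {i // wt i = l} => (Φ₂⁻¹ *ᵥ e) i) =
      blk wt l l C *ᵥ (fun j : {j // wt j = l} => c₁ j) + r := by
    funext i
    rw [e2, ltrf_mulVec htC c₁ i, Pi.add_apply]
  have e6 : blk wt l l Φ₂ * blk wt l l C = blk wt l l γ * blk wt l l Φ₁ := by
    rw [← blk_mul_diag ht2 htC, ← h2, blk_mul_diag ht ht1]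
  rw [mem_Fl_iff_exists]
  refine ⟨r, ?_, ?_⟩
  · intro i hi
    rw [hr]
    refine Finset.sum_eq_zero fun j hj => ?_
    simp only [Finset.mem_filter, Finset.mem_univ, true_and] at hj
    by_cases hpj : p j < a
    · rw [hc₁, h1 j hj hpj, mul_zero]
    · rw [h3 i j (by omega), zero_mul]
  · rw [nuC, e5, Matrix.mulVec_add, Matrix.mulVec_mulVec, e6, nuC, Matrix.mulVec_mulVec]
    funext i
    simp only [Pi.sub_apply, Pi.add_apply]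
    ring

/-- transport of the condition -/
theorem Y16_inC_transfer {Φ₁ Φ₂ γ : Matrix ι ι ℂ} (hu1 : IsUnit Φ₁) (ht1 : Tri wt Φ₁)
    (hu2 : IsUnit Φ₂) (ht2 : Tri wt Φ₂) (hu' : IsUnit γ) (ht : Tri wt γ)
    (hF : ∀ a, Fl p Φ₂ a = (Fl p Φ₁ a).map (Matrix.mulVecLin γ)) (h1 : InC wt p a l e Φ₁) :
    InC wt p a l (γ *ᵥ e) Φ₂ := by
  obtain ⟨C, hC, htC, h2, h3⟩ := trf_exists_C hu1 ht1 hu2 ht2 hu' ht hF
  have hd1 := (Matrix.isUnit_iff_isUnit_det _).1 hu1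
  have hd2 := (Matrix.isUnit_iff_isUnit_det _).1 hu2
  have e1 : Φ₂⁻¹ *ᵥ (γ *ᵥ e) = C *ᵥ (Φ₁⁻¹ *ᵥ e) := by
    have e2 : γ *ᵥ e = (γ * Φ₁) *ᵥ (Φ₁⁻¹ *ᵥ e) := by
      have e3 : Φ₁ *ᵥ (Φ₁⁻¹ *ᵥ e) = e := by
        rw [Matrix.mulVec_mulVec, Matrix.mul_nonsing_inv _ hd1, Matrix.one_mulVec]
      rw [← Matrix.mulVec_mulVec, e3]
    rw [e2, h2, ← Matrix.mulVec_mulVec, Matrix.mulVec_mulVec _ Φ₂⁻¹ Φ₂,
      Matrix.nonsing_inv_mul _ hd2, Matrix.one_mulVec]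
  intro j hj hpj
  rw [e1, Matrix.mulVec, dotProduct]
  refine Finset.sum_eq_zero fun i _ => ?_
  by_cases hw : wt i < wt j
  · rw [htC j i hw, zero_mul]
  · by_cases hp : p j < p i
    · rw [h3 j i hp, zero_mul]
    · rw [h1 i (by omega) (by omega), mul_zero]

/-- the condition `InC` for the canonical extension -/
theorem Y16_inC {Φ₁ Φ₂ γ : Matrix ι ι ℂ} (hu1 : IsUnit Φ₁) (ht1 : Tri wt Φ₁)
    (hu2 : IsUnit Φ₂) (ht2 : Tri wt Φ₂) (hu : IsUnit γ) (ht : Tri wt γ)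
    (hF : ∀ a, Fl p Φ₂ a = Fl p (γ * Φ₁) a) (hγ : γ *ᵥ e = e)
    (h2 : InC wt p a l e Φ₂) : InC wt p a l e Φ₁ := by
  have h3 : InC wt p a l e (γ * Φ₁) := by
    have h4 := Y16_inC_transfer (γ := 1) hu2 ht2 (hu.mul hu1) (ht.mul ht1) isUnit_one Tri.one
      (fun a => by
        rw [Matrix.mulVecLin_one, Submodule.map_id, hF a]) h2
    rwa [Matrix.one_mulVec] at h4
  intro j hj hp
  have h4 := h3 j hj hp
  have hdet := (Matrix.isUnit_iff_isUnit_det _).1 hu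
  have h5 : (γ * Φ₁)⁻¹ *ᵥ e = Φ₁⁻¹ *ᵥ e := by
    conv_lhs => rw [← hγ]
    rw [Matrix.mul_inv_rev, Matrix.mulVec_mulVec, Matrix.mul_assoc,
      Matrix.nonsing_inv_mul _ hdet, Matrix.mul_one]
  rw [← h5]
  exact h4

/-- a nilpotent matrix killing `e`: its exponential fixes `e` -/
theorem Y16_exp_fix {M : Matrix ι ι ℂ} (hM : IsNilpotent M) (he : M *ᵥ e = 0) :
    IsNilpotent.exp M *ᵥ e = e := by
  obtain ⟨K, hK⟩ := hM
  have hK' : M ^ (K + 1) = 0 := by rw [pow_succ, hK, zero_mul]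
  rw [IsNilpotent.exp_eq_sum hK', Finset.sum_range_succ', Matrix.add_mulVec, Matrix.sum_mulVec]
  have h1 : ∀ r : ℕ, M ^ (r + 1) *ᵥ e = 0 := by
    intro r
    rw [pow_succ, ← Matrix.mulVec_mulVec, he, Matrix.mulVec_zero]
  rw [Finset.sum_eq_zero, zero_add]
  · rw [pow_zero, Nat.factorial_zero, Nat.cast_one, inv_one, one_smul, Matrix.one_mulVec]
  · intro r _
    rw [Matrix.smul_mulVec, h1, smul_zero]

theorem descF_nuC (h : VMHS wt p Q Φ) (hd : DescE wt p Q Φ e Δ)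
    (h2 : ∀ z : ℂ, 0 < z.im → InC wt p a l e (Φ z)) :
    DescF (fun i : {i // wt i = l} => p i) (blk wt l l Q) (fun z => blk wt l l (Φ z))
      (fun z => nuC wt l e (Φ z)) a Δ := by
  intro δ hδ
  obtain ⟨γ, ⟨hu, htr, hQ⟩, hγe, hF⟩ := hd δ hδ
  refine ⟨blk wt l l γ, htr.isUnit_blk hu l, hQ l, fun τ => ?_⟩
  have h1 := h.mhs (τ : ℂ) τ.im_pos
  have h2' := h.mhs ((δ • τ : ℍ) : ℂ) (δ • τ).im_pos
  refine ⟨fun b => ?_, ?_⟩
  · rw [← cm_blk]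
    exact Fl_blk_map h1.unit h1.tri h2'.unit h2'.tri (lDesc_cm_isUnit hu) htr.cm (hF τ) l b
  · rw [← cm_blk]
    exact Y16_transfer h1.unit h1.tri h2'.unit h2'.tri (lDesc_cm_isUnit hu) htr.cm (hF τ)
      (h2 _ τ.im_pos) hγe

theorem admF_nuC (h : VMHS wt p Q Φ) (ha : AdmE wt p Q Φ e Δ σ)
    (h2 : ∀ z : ℂ, 0 < z.im → InC wt p a l e (Φ z)) :
    AdmF (fun i : {i // wt i = l} => p i) (blk wt l l Q) (fun z => blk wt l l (Φ z))
      (fun z => nuC wt l e (Φ z)) a Δ σ := by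
  obtain ⟨r, N, Ψ, ε, hr, hσ, hε, hN, hT, ⟨_, _, hQ⟩, hNe, hΨ, hΨu, hF⟩ := ha
  have hcmN := adml_cm_nil hN
  refine ⟨r, blk wt l l N, fun q => blk wt l l (Ψ q),
    fun q => nuC wt l e (Ψ q), ε, hr, hσ, hε, blk_nil hN hT l, ?_,
    fun i j => hΨ i j, fun i => ?_, fun q hq => (hΨu q hq).2.isUnit_blk (hΨu q hq).1 l,
    fun τ hτ => ?_⟩
  · rw [← blk_exp_real hN hT]
    exact hQ l
  · unfold nuC
    simp only [Matrix.mulVec, dotProduct]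
    refine DifferentiableOn.fun_sum fun b _ => DifferentiableOn.mul (hΨ i b) ?_
    refine DifferentiableOn.fun_sum fun a _ => DifferentiableOn.mul_const ?_ _
    exact psiT_inv (fun a b => hΨ a b) (fun q hq => (hΨu q hq).1) b a
  · set ζ : ℂ := (τ : ℂ) / r with hζ
    set q : ℂ := Complex.exp (2 * Real.pi * I * ζ) with hq
    have hqm : q ∈ Metric.ball (0 : ℂ) ε := by rw [mem_ball_zero_iff]; exact hτ
    obtain ⟨hΨ1, hΨ2⟩ := hΨu q hqm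
    have h2' := h.mhs _ (σ • τ).im_pos
    have hγn : IsNilpotent (ζ • cm N) := adml_csmul_nil hcmN ζ
    have hγt' : Tri wt (ζ • cm N) := by
      intro i j hij
      rw [Matrix.smul_apply, hT.cm i j hij, smul_zero]
    have hγu : IsUnit (IsNilpotent.exp (ζ • cm N)) := IsNilpotent.isUnit_exp hγn
    have hγt : Tri wt (IsNilpotent.exp (ζ • cm N)) := Tri.exp hγn hγt'
    have hmap : ∀ a, Fl p (Φ ((σ • τ : ℍ) : ℂ)) a =
        (Fl p (Ψ q) a).map (Matrix.mulVecLin (IsNilpotent.exp (ζ • cm N))) := by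
      intro a
      rw [hF τ hτ a, ← Fl_mul]
    have hblk : blk wt l l (IsNilpotent.exp (ζ • cm N)) =
        IsNilpotent.exp (ζ • cm (blk wt l l N)) := by
      rw [blk_exp hγn hγt', ← cm_blk]; rfl
    have hfix : IsNilpotent.exp (ζ • cm N) *ᵥ e = e :=
      Y16_exp_fix hγn (by rw [Matrix.smul_mulVec, hNe, smul_zero])
    refine ⟨fun b => ?_, ?_⟩
    · rw [Fl_blk_map hΨ1 hΨ2 h2'.unit h2'.tri hγu hγt hmap l b, ← Fl_mul, hblk]
    · have hin : InC wt p a l e (Ψ q) :=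
        Y16_inC hΨ1 hΨ2 h2'.unit h2'.tri hγu hγt (fun a => hF τ hτ a) hfix (h2 _ (σ • τ).im_pos)
      have h3 := Y16_transfer hΨ1 hΨ2 h2'.unit h2'.tri hγu hγt hmap hin hfix
      rw [hblk] at h3
      exact h3

end Pool.Agent.LibZE25
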