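import Pool.Agent.LibMW38.Rig
import Pool.Agent.LibZE25.Y14
import Pool.Agent.LibZE25.Y15
import Pool.Agent.LibZE25.Y16

/-!
# The theorem of the fixed part
-/

open Matrix Complex
open UpperHalfPlane hiding I

namespace Pool.Agent.LibZE25

open MW38 SP38 US38

variable {κ : Type} [Fintype κ] {ι : Type} [Fintype ι] [DecidableEq ι] {wt p : ι → ℤ}
  {Q : Matrix ι ι ℝ} {Φ : ℂ → Matrix ι ι ℂ} {a : ℤ} {e : ι → ℂ}
  {Δ : Subgroup (Matrix.SpecialLinearGroup (Fin 2) ℝ)}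
  {σ : κ → Matrix.SpecialLinearGroup (Fin 2) ℝ} {h : κ → ℝ} {D : Set ℍ}

/-- one step of the theorem of the fixed part -/
theorem fp_step (hc : IsCurve Δ σ h D) (hv : VMHS wt p Q Φ) (hwt : ∀ i, wt i ≤ 0)
    (hs : ∃ s : Equiv.Perm ι, ∀ j, wt (s j) = wt j ∧ p (s j) = wt j - p j)
    (hd : DescE wt p Q Φ e Δ) (ha : ∀ i, AdmE wt p Q Φ e Δ (σ i))
    (h1 : ∀ z : ℂ, 0 < z.im → e ∈ Fl p (Φ z) (a - 1)) {z₀ : ℂ} (hz₀ : 0 < z₀.im)
    (h0 : e ∈ Fl p (Φ z₀) a) : ∀ z : ℂ, 0 < z.im → e ∈ Fl p (Φ z) a := by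
  have key : ∀ k : ℕ, ∀ z : ℂ, 0 < z.im → InC wt p a (-(k : ℤ)) e (Φ z) := by
    intro k
    induction k with
    | zero =>
      intro z _ j hj
      have := hwt j
      simp only [Nat.cast_zero, neg_zero] at hj
      omega
    | succ k ih =>
      intro z hz j hj hpj
      rcases lt_or_ge (-(k : ℤ)) (wt j) with h2 | h2
      · exact ih z hz j h2 hpj
      · have hl : wt j = -(k : ℤ) := by
          push_cast at hj
          omega
        have hF := fp_pure hc (varF_nuC hv h1 ih) (symm_blk hs _) (descF_nuC hv hd ih)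
          (fun i => admF_nuC hv (ha i) ih) hz₀ (by
            rw [mem_Fl_iff_exists]
            exact ⟨fun i => (((Φ z₀)⁻¹ *ᵥ e) i), fun i hi =>
              (mem_Fl_iff (hv.mhs z₀ hz₀).unit _).1 h0 i hi, rfl⟩) z hz
        have hu := (hv.mhs z hz).tri.isUnit_blk (hv.mhs z hz).unit (-(k : ℤ))
        rw [mem_Fl_iff hu] at hF
        have h3 := hF ⟨j, hl⟩ hpj
        have hdet := (Matrix.isUnit_iff_isUnit_det _).1 hu
        rw [nuC, Matrix.mulVec_mulVec, Matrix.nonsing_inv_mul _ hdet, Matrix.one_mulVec] at h3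
        exact h3
  obtain ⟨K, hK⟩ : ∃ K : ℕ, ∀ i, -(K : ℤ) < wt i := by
    refine ⟨(∑ i, (wt i).natAbs) + 1, fun i => ?_⟩
    have h2 : (wt i).natAbs ≤ ∑ i, (wt i).natAbs :=
      Finset.single_le_sum (f := fun i => (wt i).natAbs) (fun _ _ => Nat.zero_le _)
        (Finset.mem_univ i)
    push_cast
    have h3 : ((wt i).natAbs : ℤ) ≤ ∑ i, ((wt i).natAbs : ℤ) := by exact_mod_cast h2
    have h4 : -((wt i).natAbs : ℤ) ≤ wt i := by omega
    simp only [Int.natCast_natAbs] at *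
    omega
  intro z hz
  rw [mem_Fl_iff (hv.mhs z hz).unit]
  exact fun j hj => key K z hz j (hK j) hj

/-- the theorem of the fixed part -/
theorem fp_global (hc : IsCurve Δ σ h D) (hv : VMHS wt p Q Φ) (hwt : ∀ i, wt i ≤ 0)
    (hs : ∃ s : Equiv.Perm ι, ∀ j, wt (s j) = wt j ∧ p (s j) = wt j - p j)
    (hd : DescE wt p Q Φ e Δ) (ha : ∀ i, AdmE wt p Q Φ e Δ (σ i))
    (h1 : ∀ z : ℂ, 0 < z.im → e ∈ Fl p (Φ z) a) (b : ℤ) {z₀ : ℂ} (hz₀ : 0 < z₀.im)
    (h0 : e ∈ Fl p (Φ z₀) b) : ∀ z : ℂ, 0 < z.im → e ∈ Fl p (Φ z) b := by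
  rcases le_or_gt b a with hba | hba
  · exact fun z hz => Fl_anti hba (h1 z hz)
  obtain ⟨n, rfl⟩ : ∃ n : ℕ, b = a + n := ⟨(b - a).toNat, by omega⟩
  have key : ∀ k : ℕ, k ≤ n → ∀ z : ℂ, 0 < z.im → e ∈ Fl p (Φ z) (a + k) := by
    intro k
    induction k with
    | zero => intro _ z hz; simpa using h1 z hz
    | succ k ih =>
      intro hk
      refine fp_step hc hv hwt hs hd ha (fun z hz => ?_) hz₀ (Fl_anti ?_ h0)
      · have := ih (by omega) z hz
        convert this using 2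
        push_cast
        ring
      · push_cast
        omega
  exact key n le_rfl

end Pool.Agent.LibZE25
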