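import Pool.Agent.LibZE25.GloI

/-!
# The sub local system of real sections of `F^{1-m}`
-/

open Matrix Complex Filter Topology
open UpperHalfPlane hiding I

namespace Pool.Agent.LibZE25

open MW38 SP38 US38

variable {ι : Type} [Fintype ι] [DecidableEq ι] {wt p : ι → ℤ} {Q : Matrix ι ι ℝ}
  {Φ : ℂ → Matrix ι ι ℂ} {Δ : Subgroup (Matrix.SpecialLinearGroup (Fin 2) ℝ)} {m : ℕ}

/-- a real vector in `F^k` vanishes if no Hodge type is `≥ (k, k)` -/
theorem rigid_types {α : Type} [Fintype α] [DecidableEq α] {q : α → ℤ} {w k : ℤ}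
    {R : Matrix α α ℝ} {G : Matrix α α ℂ} (h : PHS w q R G)
    (hty : ∀ j, q j < k ∨ w - q j < k) {v : α → ℂ} (hr : cc v = v) (hv : v ∈ Fl q G k) :
    v = 0 := by
  set k' := max k (w - k + 1) with hk'
  have h1 : v ∈ Fl q G k' := by
    refine Submodule.span_mono ?_ hv
    rintro x ⟨j, hj, rfl⟩
    refine ⟨j, ?_, rfl⟩
    have := hty j
    rw [hk', max_le_iff]
    constructor
    · exact hj
    · omega
  have h2 : w < k' + k' := by
    have := le_max_left k (w - k + 1)
    have := le_max_right k (w - k + 1)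
    omega
  by_contra hne
  have h3 : cc v ∈ Fl q G (w - k') := by
    rw [hr]
    exact Fl_anti (by omega) h1
  have h4 := (h.pos k' v h1 h3 hne).1
  rw [hr, h.riem k' k' h2 v h1 v h1, mul_zero] at h4
  simp at h4

/-- a real vector of negative weights in `F^{1-m}` vanishes -/
theorem rigid_neg {G : Matrix ι ι ℂ} (h : MHS wt p Q G) (hwt : ∀ i, wt i ≤ 0)
    (hty : ∀ i, wt i < 0 → p i < -(m : ℤ) ∨ wt i - p i < -(m : ℤ)) {u : ι → ℝ}
    (hu : tC u ∈ Fl p G (1 - m)) (h0 : ∀ i, wt i = 0 → u i = 0) : u = 0 := by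
  by_contra hne
  obtain ⟨i₀, hi₀⟩ : ∃ i, u i ≠ 0 := by
    by_contra hcon
    push Not at hcon
    exact hne (funext hcon)
  obtain ⟨i, hi, hmax⟩ := Finset.exists_max_image (Finset.univ.filter fun i => u i ≠ 0) wt
    ⟨i₀, by simpa using hi₀⟩
  rw [Finset.mem_filter] at hi
  set l := wt i with hl
  have hhigh : ∀ j, l < wt j → u j = 0 := by
    intro j hj
    by_contra hne
    have := hmax j (by simpa using hne)
    omega
  have hl0 : l < 0 := by
    have h1 := hwt i
    have h2 : wt i ≠ 0 := fun h3 => hi.2 (h0 i h3)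
    omega
  set c := G⁻¹ *ᵥ tC u with hc
  have hdet : IsUnit G.det := (Matrix.isUnit_iff_isUnit_det G).mp h.unit
  have hGc : tC u = G *ᵥ c := by
    rw [hc, Matrix.mulVec_mulVec, Matrix.mul_nonsing_inv _ hdet, Matrix.one_mulVec]
  have hck : ∀ j, p j < 1 - (m : ℤ) → c j = 0 := (mem_Fl_iff h.unit _).1 hu
  have hinv := h.tri.inv h.unit
  have hcl : ∀ j, l < wt j → c j = 0 := by
    intro j hj
    rw [hc, Matrix.mulVec, dotProduct]
    refine Finset.sum_eq_zero fun a _ => ?_
    by_cases ha : wt a < wt j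
    · rw [hinv j a ha, zero_mul]
    · have : tC u a = 0 := by
        simp only [tC]
        rw [hhigh a (by omega)]
        simp
      rw [this, mul_zero]
  have hul : (fun a : {a // wt a = l} => (u a : ℂ)) = blk wt l l G *ᵥ fun a => c a := by
    funext a
    have h1 := congrFun hGc a.1
    simp only [tC] at h1
    rw [h1, Matrix.mulVec, dotProduct, Matrix.mulVec, dotProduct]
    have h2 : ∑ j, G a.1 j * c j = ∑ j ∈ Finset.univ.filter (fun j => wt j = l), G a.1 j * c j := by
      symm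
      refine Finset.sum_subset (Finset.subset_univ _) fun j _ hj => ?_
      rw [Finset.mem_filter, not_and] at hj
      have hj' := hj (Finset.mem_univ _)
      rcases lt_or_gt_of_ne hj' with h3 | h3
      · rw [h.tri a.1 j (by rw [a.2]; exact h3), zero_mul]
      · rw [hcl j h3, mul_zero]
    rw [h2]
    exact Finset.sum_subtype _ (by simp) fun x => G a.1 x * c x
  have hmem : (fun a : {a // wt a = l} => (u a : ℂ)) ∈
      Fl (fun a : {a // wt a = l} => p a) (blk wt l l G) (1 - m) := by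
    rw [mem_Fl_iff_exists]
    exact ⟨fun a => c a, fun j hj => hck j hj, hul⟩
  have hz := rigid_types (h.gr l) (k := 1 - (m : ℤ)) (fun j => by
    have := hty j.1 (by rw [j.2]; exact hl0)
    rw [j.2] at this
    rcases this with h1 | h1
    · left; omega
    · right; omega) (by
      funext a
      simp [cc]) hmem
  have h3 := congrFun hz ⟨i, rfl⟩
  simp only [Pi.zero_apply, Complex.ofReal_eq_zero] at h3
  exact hi.2 h3

/-- the real vectors in `F^a` at every point -/
def EE (p : ι → ℤ) (Φ : ℂ → Matrix ι ι ℂ) (a : ℤ) : Submodule ℝ (ι → ℝ) where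
  carrier := {u | ∀ τ : ℍ, tC u ∈ Fl p (Φ (τ : ℂ)) a}
  zero_mem' := fun τ => by
    have : tC (0 : ι → ℝ) = 0 := by
      funext i
      simp [tC]
    rw [this]
    exact Submodule.zero_mem _
  add_mem' := fun {u v} hu hv τ => by
    have : tC (u + v) = tC u + tC v := by
      funext i
      simp [tC]
    rw [this]
    exact Submodule.add_mem _ (hu τ) (hv τ)
  smul_mem' := fun c u hu τ => by
    have : tC (c • u) = (c : ℂ) • tC u := by
      funext i
      simp [tC]
    rw [this]
    exact Submodule.smul_mem _ _ (hu τ)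

omit [DecidableEq ι] in
theorem tC_mulVec (γ : Matrix ι ι ℝ) (u : ι → ℝ) : tC (γ *ᵥ u) = cm γ *ᵥ tC u := by
  funext i
  simp [tC, cm, Matrix.mulVec, dotProduct]

theorem EE_stable {a : ℤ} {δ : Matrix.SpecialLinearGroup (Fin 2) ℝ} {γ : Matrix ι ι ℝ}
    (hγ : ∀ (τ : ℍ) (a : ℤ), Fl p (Φ ((δ • τ : ℍ) : ℂ)) a =
      (Fl p (Φ (τ : ℂ)) a).map (Matrix.mulVecLin (cm γ))) {u : ι → ℝ} (hu : u ∈ EE p Φ a) :
    γ *ᵥ u ∈ EE p Φ a := by
  intro τ
  have h1 := hγ (δ⁻¹ • τ) a
  rw [smul_inv_smul] at h1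
  rw [h1, tC_mulVec]
  exact Submodule.mem_map_of_mem (f := Matrix.mulVecLin (cm γ)) (hu (δ⁻¹ • τ))

end Pool.Agent.LibZE25
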