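import Pool.Agent.LibMW38.BlkE
import Pool.Agent.LibMW38.Trf
import Pool.Agent.LibZE25.ALoc

/-!
# Local data at a cusp and at an interior point
-/

open Matrix Complex Filter Topology
open UpperHalfPlane hiding I

namespace Pool.Agent.LibZE25

open MW38 SP38 US38

variable {ι : Type} [Fintype ι] [DecidableEq ι] {wt p : ι → ℤ} {Q : Matrix ι ι ℝ}
  {Φ : ℂ → Matrix ι ι ℂ} {Δ : Subgroup (Matrix.SpecialLinearGroup (Fin 2) ℝ)}
  {σ : Matrix.SpecialLinearGroup (Fin 2) ℝ}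

private theorem Z40_det {U : Set ℂ} {A : ℂ → Matrix ι ι ℂ}
    (hA : ∀ i j, DifferentiableOn ℂ (fun z => A z i j) U) :
    DifferentiableOn ℂ (fun z => (A z).det) U := by
  simp only [Matrix.det_apply]
  refine DifferentiableOn.fun_sum fun σ _ => ?_
  refine DifferentiableOn.const_smul ?_ _
  exact DifferentiableOn.fun_finsetProd fun i _ => hA _ _

private theorem Z40_inv {U : Set ℂ} {A : ℂ → Matrix ι ι ℂ}
    (hA : ∀ i j, DifferentiableOn ℂ (fun z => A z i j) U) (hu : ∀ z ∈ U, IsUnit (A z))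
    (i j : ι) : DifferentiableOn ℂ (fun z => (A z)⁻¹ i j) U := by
  have h1 : ∀ z, (A z)⁻¹ i j = (A z).det⁻¹ * ((A z).updateRow j (Pi.single i 1)).det := by
    intro z
    rw [Matrix.inv_def, Ring.inverse_eq_inv', Matrix.smul_apply, smul_eq_mul,
      Matrix.adjugate_apply]
  simp only [h1]
  refine DifferentiableOn.mul ((Z40_det hA).inv fun z hz => ?_) (Z40_det fun k l => ?_)
  · exact ((Matrix.isUnit_iff_isUnit_det _).1 (hu z hz)).ne_zero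
  · by_cases hk : k = j
    · subst hk
      simp only [Matrix.updateRow_self]
      exact differentiableOn_const _
    · simp only [Matrix.updateRow_ne hk]
      exact hA k l

private theorem Z40_key {U : Set ℂ} (hU : IsOpen U) (hv : VMHS wt p Q Φ) {φ : ℂ → ℂ}
    (hφ : DifferentiableOn ℂ φ U) (hφU : ∀ ζ ∈ U, 0 < (φ ζ).im) {u : ℂ → ι → ℂ} {a : ℤ}
    (hu : ∀ i, DifferentiableOn ℂ (fun ζ => u ζ i) U)
    (hF : ∀ ζ ∈ U, u ζ ∈ Fl p (Φ (φ ζ)) a) {ζ : ℂ} (hζ : ζ ∈ U) :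
    (fun i => deriv (fun ζ => u ζ i) ζ) ∈ Fl p (Φ (φ ζ)) (a - 1) := by
  have hH : IsOpen {z : ℂ | 0 < z.im} := isOpen_lt continuous_const Complex.continuous_im
  have hG : ∀ i j, DifferentiableOn ℂ (fun ζ => Φ (φ ζ) i j) U := fun i j =>
    (hv.hol i j).comp hφ fun z hz => hφU z hz
  have hGu : ∀ ζ ∈ U, IsUnit (Φ (φ ζ)) := fun z hz => (hv.mhs _ (hφU z hz)).unit
  obtain ⟨c, hc⟩ : ∃ c : ℂ → ι → ℂ, ∀ z, c z = (Φ (φ z))⁻¹ *ᵥ u z := ⟨_, fun _ => rfl⟩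
  have hcd : ∀ j, DifferentiableOn ℂ (fun z => c z j) U := by
    intro j
    simp only [hc, Matrix.mulVec, dotProduct]
    exact DifferentiableOn.fun_sum fun k _ => (Z40_inv hG hGu j k).mul (hu k)
  have hc0 : ∀ j, p j < a → ∀ z ∈ U, c z j = 0 := by
    intro j hj z hz
    rw [hc]
    exact (MW38.mem_Fl_iff (hGu z hz) (u z)).1 (hF z hz) j hj
  have huc : ∀ z ∈ U, ∀ i, u z i = ∑ j, Φ (φ z) i j * c z j := by
    intro z hz i
    have h1 : Φ (φ z) *ᵥ c z = u z := by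
      rw [hc, Matrix.mulVec_mulVec, Matrix.mul_nonsing_inv _
        ((Matrix.isUnit_iff_isUnit_det _).1 (hGu z hz)), Matrix.one_mulVec]
    rw [← h1]
    rfl
  have hnhds : U ∈ 𝓝 ζ := hU.mem_nhds hζ
  have hder : ∀ i, deriv (fun z => u z i) ζ =
      ∑ j, (deriv (fun z => Φ z i j) (φ ζ) * deriv φ ζ * c ζ j +
        Φ (φ ζ) i j * deriv (fun z => c z j) ζ) := by
    intro i
    have h1 : (fun z => u z i) =ᶠ[𝓝 ζ] fun z => ∑ j, Φ (φ z) i j * c z j :=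
      eventually_of_mem hnhds fun z hz => huc z hz i
    rw [h1.deriv_eq]
    refine HasDerivAt.deriv ?_
    refine HasDerivAt.fun_sum fun j _ => ?_
    have h2 : HasDerivAt (fun z => Φ (φ z) i j) (deriv (fun z => Φ z i j) (φ ζ) * deriv φ ζ) ζ :=
      HasDerivAt.comp ζ (((hv.hol i j).differentiableAt (hH.mem_nhds (hφU ζ hζ))).hasDerivAt)
        ((hφ.differentiableAt hnhds).hasDerivAt)
    exact h2.mul ((hcd j).differentiableAt hnhds).hasDerivAt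
  have heq : (fun i => deriv (fun z => u z i) ζ) =
      ∑ j, ((deriv φ ζ * c ζ j) • (fun i => deriv (fun z => Φ z i j) (φ ζ)) +
        deriv (fun z => c z j) ζ • (fun i => Φ (φ ζ) i j)) := by
    funext i
    rw [hder i, Finset.sum_apply]
    refine Finset.sum_congr rfl fun j _ => ?_
    simp only [Pi.add_apply, Pi.smul_apply, smul_eq_mul]
    ring
  rw [heq]
  refine Submodule.sum_mem _ fun j _ => ?_
  by_cases hj : p j < a
  · have h1 : c ζ j = 0 := hc0 j hj ζ hζ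
    have h2 : deriv (fun z => c z j) ζ = 0 := by
      have h3 : (fun z => c z j) =ᶠ[𝓝 ζ] fun _ => (0 : ℂ) :=
        eventually_of_mem hnhds fun z hz => hc0 j hj z hz
      rw [h3.deriv_eq, deriv_const]
    rw [h1, h2, mul_zero, zero_smul, zero_smul, add_zero]
    exact Submodule.zero_mem _
  · refine Submodule.add_mem _ (Submodule.smul_mem _ _ ?_) (Submodule.smul_mem _ _ ?_)
    · exact MW38.Fl_anti (by omega) (hv.tr _ (hφU ζ hζ) j)
    · exact Submodule.subset_span ⟨j, by omega, rfl⟩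

/-- transversality does not depend on the choice of the period matrix and of the coordinate -/
private theorem Z40_tr_congr {U : Set ℂ} (hU : IsOpen U) (hv : VMHS wt p Q Φ) {φ : ℂ → ℂ}
    (hφ : DifferentiableOn ℂ φ U) (hφU : ∀ ζ ∈ U, 0 < (φ ζ).im)
    {G' : ℂ → Matrix ι ι ℂ}
    (hG' : ∀ i j, DifferentiableOn ℂ (fun ζ => G' ζ i j) U)
    (hF : ∀ ζ ∈ U, ∀ a, Fl p (Φ (φ ζ)) a = Fl p (G' ζ) a) {ζ : ℂ} (hζ : ζ ∈ U) (j : ι) :
    (fun i => deriv (fun ζ => G' ζ i j) ζ) ∈ Fl p (G' ζ) (p j - 1) := by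
  rw [← hF ζ hζ]
  refine Z40_key hU hv hφ hφU (u := fun ζ i => G' ζ i j) (fun i => hG' i j) ?_ hζ
  intro z hz
  rw [hF z hz]
  exact Submodule.subset_span ⟨j, le_refl _, rfl⟩

private theorem Z40_PHS_congr {α : Type} [Fintype α] [DecidableEq α] {w : ℤ} {q : α → ℤ}
    {R : Matrix α α ℝ} {G G' : Matrix α α ℂ} (h : PHS w q R G) (hu : IsUnit G')
    (hF : ∀ a, Fl q G a = Fl q G' a) : PHS w q R G' where
  unit := hu
  riem a b hab u hu' v hv := by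
    rw [← hF] at hu' hv
    exact h.riem a b hab u hu' v hv
  pos a v hv hv' hv0 := by
    rw [← hF] at hv hv'
    exact h.pos a v hv hv' hv0

private theorem Z40_MHS_congr {G G' : Matrix ι ι ℂ} (h : MHS wt p Q G) (hu : IsUnit G')
    (ht : Tri wt G') (hF : ∀ a, Fl p G a = Fl p G' a) : MHS wt p Q G' := by
  refine ⟨hu, ht, fun k => Z40_PHS_congr (h.gr k) (ht.isUnit_blk hu k) fun a => ?_⟩
  have h1 := Fl_blk_map (γ := 1) h.unit h.tri hu ht isUnit_one Tri.one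
    (fun a => by rw [← hF a, Matrix.mulVecLin_one, Submodule.map_id]) k a
  rw [h1, trf_blk_one, Matrix.mulVecLin_one, Submodule.map_id]

private theorem Z40_smul_nil {N : Matrix ι ι ℝ} (hN : IsNilpotent N) (ζ : ℂ) :
    IsNilpotent (ζ • cm N) := (cus1_cm_nil hN).smul ζ

private theorem Z40_tri {N : Matrix ι ι ℝ} (ht : Tri wt N) (ζ : ℂ) : Tri wt (ζ • cm N) := by
  intro i j hij
  rw [Matrix.smul_apply, ht.cm i j hij, smul_zero]

private theorem Z40_exp_diff {N : Matrix ι ι ℝ} (hN : IsNilpotent N) (i j : ι) :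
    Differentiable ℂ fun ζ : ℂ => IsNilpotent.exp (ζ • cm N) i j := by
  obtain ⟨n, hn⟩ := cus1_cm_nil hN
  have h1 : (fun ζ : ℂ => IsNilpotent.exp (ζ • cm N) i j) = fun ζ =>
      ∑ r ∈ Finset.range n, (r.factorial : ℚ)⁻¹ • (ζ ^ r * ((cm N) ^ r) i j) := by
    funext ζ
    have h2 : (ζ • cm N) ^ n = 0 := by rw [smul_pow, hn, smul_zero]
    rw [IsNilpotent.exp_eq_sum h2, Matrix.sum_apply]
    refine Finset.sum_congr rfl fun r _ => ?_
    rw [Matrix.smul_apply, smul_pow, Matrix.smul_apply, smul_eq_mul]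
  rw [h1]
  refine Differentiable.fun_sum fun r _ => ?_
  exact (((differentiable_id.pow r).mul (differentiable_const _))).const_smul _

omit [Fintype ι] [DecidableEq ι] in
private theorem Z40_cm_zero : cm (0 : Matrix ι ι ℝ) = 0 := by
  ext i j
  simp [cm]

private theorem Z40_GZ_zero (Ψ : ℂ → Matrix ι ι ℂ) (ζ : ℂ) : GZ 0 Ψ ζ = Ψ (qq ζ) := by
  unfold GZ
  rw [Z40_cm_zero, smul_zero, IsNilpotent.exp_zero, Matrix.one_mul]

/-- the local data at a cusp, explicit version -/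
theorem loc_cusp_of (hv : VMHS wt p Q Φ) {h : ℝ} {N : Matrix ι ι ℝ} {Ψ : ℂ → Matrix ι ι ℂ} {ε : ℝ}
    (hh : 0 < h) (hε : 0 < ε) (hnil : IsNilpotent N) (htri : Tri wt N)
    (hisom : Isom wt Q (IsNilpotent.exp N))
    (hP : ∀ i j, DifferentiableOn ℂ (fun q => Ψ q i j) (Metric.ball 0 ε))
    (hunit : ∀ q ∈ Metric.ball (0 : ℂ) ε, IsUnit (Ψ q) ∧ Tri wt (Ψ q))
    (hmain' : ∀ τ : ℍ, ‖qq ((τ : ℂ) / h)‖ < ε → ∀ a,
      Fl p (Φ ((σ • τ : ℍ) : ℂ)) a = Fl p (GZ N Ψ ((τ : ℂ) / h)) a) :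
    Loc wt p Q N Ψ (min ε 1) := by
  have hhC : (h : ℂ) ≠ 0 := by exact_mod_cast hh.ne'
  set ε' := min ε 1 with hε'
  have hε'0 : 0 < ε' := lt_min hε one_pos
  have hε'1 : ε' ≤ 1 := min_le_right _ _
  have hε'ε : ε' ≤ ε := min_le_left _ _
  have hsub : Metric.ball (0 : ℂ) ε' ⊆ Metric.ball 0 ε := Metric.ball_subset_ball hε'ε
  have him : ∀ ζ : ℂ, ‖qq ζ‖ < ε' → 0 < ((h : ℂ) * ζ).im := by
    intro ζ hζ
    have h1 := tra2_im_pos hε'1 hζ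
    simpa using mul_pos hh h1
  have hpt : ∀ ζ : ℂ, (hζ : ‖qq ζ‖ < ε') →
      (0 < (tra2_phi σ h ζ).im) ∧ ∀ a, Fl p (Φ (tra2_phi σ h ζ)) a = Fl p (GZ N Ψ ζ) a := by
    intro ζ hζ
    have hτ : (((⟨(h : ℂ) * ζ, him ζ hζ⟩ : ℍ)) : ℂ) = h * ζ := rfl
    have hdiv : (((⟨(h : ℂ) * ζ, him ζ hζ⟩ : ℍ)) : ℂ) / h = ζ := by
      rw [hτ]
      field_simp
    have hs := tra2_coe_smul σ _ hτ
    have := hmain' ⟨(h : ℂ) * ζ, him ζ hζ⟩ (by rw [hdiv]; exact lt_of_lt_of_le hζ hε'ε)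
    rw [hdiv, hs] at this
    refine ⟨?_, this⟩
    rw [← hs]
    exact UpperHalfPlane.im_pos _
  have hφ : DifferentiableOn ℂ (tra2_phi σ h) {ζ : ℂ | ‖qq ζ‖ < ε'} := by
    intro ζ hζ
    have hd := tra2_denom_ne σ (him ζ hζ)
    refine DifferentiableAt.differentiableWithinAt ?_
    unfold tra2_phi
    refine DifferentiableAt.div ?_ ?_ hd
    · fun_prop
    · fun_prop
  have hdqq := tra2_differentiable_qq
  have hmapq : Set.MapsTo qq {ζ : ℂ | ‖qq ζ‖ < ε'} (Metric.ball (0 : ℂ) ε) := by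
    intro ζ hζ
    have : ‖qq ζ‖ < ε := lt_of_lt_of_le hζ hε'ε
    simpa using this
  have hGhol : ∀ i j, DifferentiableOn ℂ (fun ζ => GZ N Ψ ζ i j) {ζ : ℂ | ‖qq ζ‖ < ε'} := by
    intro i j
    have h1 : (fun ζ => GZ N Ψ ζ i j) =
        fun ζ => ∑ k, IsNilpotent.exp (ζ • cm N) i k * Ψ (qq ζ) k j := by
      funext ζ
      simp [GZ, Matrix.mul_apply]
    rw [h1]
    refine DifferentiableOn.fun_sum fun k _ => ?_
    refine DifferentiableOn.mul (Z40_exp_diff hnil i k).differentiableOn ?_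
    exact (hP k j).comp hdqq.differentiableOn hmapq
  have hGunit : ∀ ζ ∈ {ζ : ℂ | ‖qq ζ‖ < ε'}, IsUnit (GZ N Ψ ζ) := by
    intro ζ hζ
    exact (IsNilpotent.isUnit_exp (Z40_smul_nil hnil ζ)).mul (hunit _ (hmapq hζ)).1
  have hGtri : ∀ ζ ∈ {ζ : ℂ | ‖qq ζ‖ < ε'}, Tri wt (GZ N Ψ ζ) := by
    intro ζ hζ
    exact (Tri.exp (Z40_smul_nil hnil ζ) (Z40_tri htri ζ)).mul (hunit _ (hmapq hζ)).2
  refine ⟨hε'0, hnil, htri, hisom, ?_, ?_, ?_, ?_⟩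
  · intro i j
    exact (hP i j).mono hsub
  · intro q hq
    exact hunit q (hsub hq)
  · intro ζ hζ
    exact Z40_MHS_congr (hv.mhs _ (hpt ζ hζ).1) (hGunit ζ hζ) (hGtri ζ hζ) (hpt ζ hζ).2
  · intro ζ hζ j
    exact Z40_tr_congr (tra2_isOpen_qq ε') hv hφ (fun ζ hζ => (hpt ζ hζ).1) hGhol
      (fun ζ hζ => (hpt ζ hζ).2) hζ j

theorem loc_cusp (hv : VMHS wt p Q Φ) (ha : Adm wt p Q Φ Δ σ) :
    ∃ (h : ℝ) (N : Matrix ι ι ℝ) (Ψ : ℂ → Matrix ι ι ℂ) (ε : ℝ),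
      0 < h ∧ σ * trans h * σ⁻¹ ∈ Δ ∧ Loc wt p Q N Ψ ε ∧
      ∀ τ : ℍ, ‖qq ((τ : ℂ) / h)‖ < ε → ∀ a,
        Fl p (Φ ((σ • τ : ℍ) : ℂ)) a = Fl p (GZ N Ψ ((τ : ℂ) / h)) a := by
  obtain ⟨h, N, Ψ, ε, hh, hmem, hε, hnil, htri, hisom, hP, hunit, hmain⟩ := ha
  have hmain' : ∀ τ : ℍ, ‖qq ((τ : ℂ) / h)‖ < ε →
        ∀ a, Fl p (Φ ((σ • τ : ℍ) : ℂ)) a = Fl p (GZ N Ψ ((τ : ℂ) / h)) a :=
    fun τ hτ => hmain τ hτ
  exact ⟨h, N, Ψ, min ε 1, hh, hmem, loc_cusp_of hv hh hε hnil htri hisom hP hunit hmain',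
    fun τ hτ => hmain' τ (lt_of_lt_of_le hτ (min_le_left _ _))⟩

theorem loc_interior (hv : VMHS wt p Q Φ) {z₀ : ℂ} {r : ℝ} (hr : 0 < r)
    (hball : ∀ q : ℂ, ‖q‖ < 1 → 0 < (z₀ + r * q).im) :
    Loc wt p Q 0 (fun q => Φ (z₀ + r * q)) 1 ∧
    ∀ ζ : ℂ, GZ 0 (fun q => Φ (z₀ + r * q)) ζ = Φ (z₀ + r * qq ζ) := by
  have _ := hr
  have hGG : ∀ ζ : ℂ, GZ 0 (fun q => Φ (z₀ + r * q)) ζ = Φ (z₀ + r * qq ζ) := fun ζ =>
    Z40_GZ_zero _ ζ
  have hmap : Set.MapsTo (fun q : ℂ => z₀ + r * q) (Metric.ball 0 1) {z : ℂ | 0 < z.im} := by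
    intro q hq
    exact hball q (by simpa using hq)
  have hlin : DifferentiableOn ℂ (fun q : ℂ => z₀ + r * q) (Metric.ball 0 1) := by
    fun_prop
  have hφ : DifferentiableOn ℂ (fun ζ : ℂ => z₀ + r * qq ζ) {ζ : ℂ | ‖qq ζ‖ < 1} := by
    have := tra2_differentiable_qq
    exact (Differentiable.differentiableOn (by fun_prop))
  have hφU : ∀ ζ ∈ {ζ : ℂ | ‖qq ζ‖ < 1}, 0 < (z₀ + r * qq ζ).im := fun ζ hζ => hball _ hζ
  have hmapU : Set.MapsTo (fun ζ : ℂ => z₀ + r * qq ζ) {ζ : ℂ | ‖qq ζ‖ < 1} {z : ℂ | 0 < z.im} :=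
    fun ζ hζ => hφU ζ hζ
  refine ⟨?_, hGG⟩
  refine ⟨one_pos, IsNilpotent.zero, fun i j _ => rfl, ?_, ?_, ?_, ?_, ?_⟩
  · rw [IsNilpotent.exp_zero]
    refine ⟨isUnit_one, Tri.one, fun k => ?_⟩
    rw [trf_blk_one, Matrix.transpose_one, Matrix.one_mul, Matrix.mul_one]
  · intro i j
    exact (hv.hol i j).comp hlin hmap
  · intro q hq
    exact ⟨(hv.mhs _ (hmap hq)).unit, (hv.mhs _ (hmap hq)).tri⟩
  · intro ζ hζ
    rw [hGG ζ]
    exact hv.mhs _ (hφU ζ hζ)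
  · intro ζ hζ j
    refine Z40_tr_congr (tra2_isOpen_qq 1) hv hφ hφU ?_ ?_ hζ j
    · intro i j
      have h1 : (fun ζ => GZ 0 (fun q => Φ (z₀ + r * q)) ζ i j) =
          (fun z => Φ z i j) ∘ (fun ζ : ℂ => z₀ + r * qq ζ) := by
        funext ζ
        rw [hGG ζ]
        rfl
      rw [h1]
      exact (hv.hol i j).comp hφ hmapU
    · intro ζ hζ a
      rw [hGG ζ]

end Pool.Agent.LibZE25
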