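import Pool.Agent.LibZE25.ALoc

/-!
# Analytic continuation of a Hodge class; descent
-/

open Matrix Complex Filter Topology
open UpperHalfPlane hiding I

namespace Pool.Agent.LibZE25

open MW38 SP38 US38

variable {ι : Type} [Fintype ι] [DecidableEq ι] {wt p : ι → ℤ} {Q : Matrix ι ι ℝ}
  {Φ : ℂ → Matrix ι ι ℂ} {Δ : Subgroup (Matrix.SpecialLinearGroup (Fin 2) ℝ)}

theorem Z42_det_diff {U : Set ℂ} {A : ℂ → Matrix ι ι ℂ}
    (hA : ∀ i j, DifferentiableOn ℂ (fun z => A z i j) U) :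
    DifferentiableOn ℂ (fun z => (A z).det) U := by
  have h1 : (fun z => (A z).det) = fun z => ∑ τ : Equiv.Perm ι,
      ((Equiv.Perm.sign τ : ℤ) : ℂ) * ∏ i, A z (τ i) i := by
    funext z
    rw [Matrix.det_apply']
  rw [h1]
  refine DifferentiableOn.fun_sum fun τ _ => ?_
  refine DifferentiableOn.mul (differentiableOn_const _) ?_
  exact DifferentiableOn.fun_finsetProd fun i _ => hA _ _

theorem Z42_adj_diff {U : Set ℂ} {A : ℂ → Matrix ι ι ℂ}
    (hA : ∀ i j, DifferentiableOn ℂ (fun z => A z i j) U) (i j : ι) :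
    DifferentiableOn ℂ (fun z => (A z).adjugate i j) U := by
  have h1 : (fun z => (A z).adjugate i j) = fun z =>
      ((A z).updateRow j (Pi.single i 1)).det := by
    funext z
    rw [Matrix.adjugate_apply]
  rw [h1]
  apply Z42_det_diff
  intro k l
  by_cases hk : k = j
  · subst hk
    simp only [Matrix.updateRow_self]
    exact differentiableOn_const _
  · simp only [Matrix.updateRow_ne hk]
    exact hA k l

theorem mem_of_open (hv : VMHS wt p Q Φ) {U : Set ℂ} (hU : IsOpen U) (hne : U.Nonempty)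
    (hsub : ∀ z ∈ U, 0 < z.im) {u : ι → ℂ} {a : ℤ} (hu : ∀ z ∈ U, u ∈ Fl p (Φ z) a) :
    ∀ z : ℂ, 0 < z.im → u ∈ Fl p (Φ z) a := by
  have hiff : ∀ z : ℂ, 0 < z.im → (u ∈ Fl p (Φ z) a ↔
      ∀ j, p j < a → ((Φ z).adjugate *ᵥ u) j = 0) := by
    intro z hz
    have hu := (hv.mhs z hz).unit
    have hdet : IsUnit (Φ z).det := (Matrix.isUnit_iff_isUnit_det _).1 hu
    rw [MW38.mem_Fl_iff hu]
    have hrel : (Φ z).adjugate = (Φ z).det • (Φ z)⁻¹ := by
      rw [Matrix.inv_def, smul_smul, Ring.mul_inverse_cancel _ hdet, one_smul]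
    have hd0 : (Φ z).det ≠ 0 := hdet.ne_zero
    constructor
    · intro h j hj
      rw [hrel, Matrix.smul_mulVec, Pi.smul_apply, h j hj, smul_zero]
    · intro h j hj
      have := h j hj
      rw [hrel, Matrix.smul_mulVec, Pi.smul_apply, smul_eq_mul] at this
      exact (mul_eq_zero.1 this).resolve_left hd0
  refine fun z hz => (hiff z hz).2 fun j hj => ?_
  obtain ⟨z₁, hz₁⟩ := hne
  have hf : DifferentiableOn ℂ (fun z => ((Φ z).adjugate *ᵥ u) j) {z : ℂ | 0 < z.im} := by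
    have h1 : (fun z => ((Φ z).adjugate *ᵥ u) j) = fun z =>
        ∑ k, (Φ z).adjugate j k * u k := by
      funext z
      simp [Matrix.mulVec, dotProduct]
    rw [h1]
    refine DifferentiableOn.fun_sum fun k _ => ?_
    exact DifferentiableOn.mul (Z42_adj_diff hv.hol j k) (differentiableOn_const _)
  have han := hf.analyticOnNhd glo1_isOpen_uhp
  have hev : (fun z => ((Φ z).adjugate *ᵥ u) j) =ᶠ[𝓝 z₁] 0 := by
    filter_upwards [hU.mem_nhds hz₁] with z hz
    exact (hiff z (hsub z hz)).1 (hu z hz) j hj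
  exact han.eqOn_zero_of_preconnected_of_eventuallyEq_zero glo1_preconnected_uhp
    (hsub z₁ hz₁) hev hz

theorem RC_smul (hd : Desc wt p Q Φ Δ) {δ : Matrix.SpecialLinearGroup (Fin 2) ℝ} (hδ : δ ∈ Δ)
    (τ : ℍ) {a : ℤ} (h : RC p (Φ (τ : ℂ)) a) : RC p (Φ ((δ • τ : ℍ) : ℂ)) a := by
  obtain ⟨γ, hγ, hF⟩ := hd δ hδ
  obtain ⟨u, hu0, hu⟩ := h
  have hdet : IsUnit γ.det := (Matrix.isUnit_iff_isUnit_det _).1 hγ.1
  refine ⟨γ *ᵥ u, ?_, ?_⟩
  · intro h0
    apply hu0
    have : γ⁻¹ *ᵥ (γ *ᵥ u) = u := by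
      rw [Matrix.mulVec_mulVec, Matrix.nonsing_inv_mul _ hdet, Matrix.one_mulVec]
    rw [← this, h0, Matrix.mulVec_zero]
  · rw [hF τ a, Submodule.mem_map]
    refine ⟨tC u, hu, ?_⟩
    rw [Matrix.mulVecLin_apply]
    funext i
    simp only [tC, Matrix.mulVec, dotProduct, cm, Matrix.map_apply, Complex.ofReal_sum,
      Complex.ofReal_mul]

end Pool.Agent.LibZE25
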