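import Pool.Agent.LibZE25.LocMain
import Pool.Agent.LibZE25.Z40
import Pool.Agent.LibZE25.Z42

/-!
# Accumulation at an interior point and at a cusp
-/

open Matrix Complex Filter Topology
open UpperHalfPlane hiding I

namespace Pool.Agent.LibZE25

open MW38 SP38 US38

variable {ι : Type} [Fintype ι] [DecidableEq ι] {wt p : ι → ℤ} {Q : Matrix ι ι ℝ}
  {Φ : ℂ → Matrix ι ι ℂ} {Δ : Subgroup (Matrix.SpecialLinearGroup (Fin 2) ℝ)}
  {σ : Matrix.SpecialLinearGroup (Fin 2) ℝ} {m : ℕ}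

/-- a constant real vector in `F^a` at every point -/
def HFlat (p : ι → ℤ) (Φ : ℂ → Matrix ι ι ℂ) (a : ℤ) : Prop :=
  ∃ u : ι → ℝ, u ≠ 0 ∧ ∀ z : ℂ, 0 < z.im → tC u ∈ Fl p (Φ z) a

/-- accumulation at an interior point -/
theorem hflat_of_interior (hv : VMHS wt p Q Φ) (hwt : ∀ i, wt i ≤ 0)
    (hs : ∃ s : Equiv.Perm ι, ∀ j, wt (s j) = wt j ∧ p (s j) = wt j - p j)
    (hm : Fintype.card {i // wt i = 0} ≤ m)
    (hty : ∀ i, wt i < 0 → p i < -(m : ℤ) ∨ wt i - p i < -(m : ℤ)) {z₀ : ℂ} (hz₀ : 0 < z₀.im)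
    (hfr : ∃ᶠ z in 𝓝[≠] z₀, RC p (Φ z) 0) : HFlat p Φ (1 - m) := by
  have hpi := Real.pi_pos
  set r := z₀.im with hr
  have hrC : (r : ℂ) ≠ 0 := by exact_mod_cast hz₀.ne'
  have hball : ∀ q : ℂ, ‖q‖ < 1 → 0 < (z₀ + r * q).im := by
    intro q hq
    have h1 : |q.im| < 1 := lt_of_le_of_lt (Complex.abs_im_le_norm q) hq
    have h2 : (z₀ + r * q).im = r * (1 + q.im) := by
      simp
      ring
    rw [h2]
    have := (abs_lt.1 h1).1
    exact mul_pos hz₀ (by linarith)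
  obtain ⟨hcd, hGG⟩ := loc_interior hv hz₀ hball
  -- every point of a punctured disc is `z₀ + r qq ζ`
  have hpt : ∀ (c : ℝ) (z : ℂ), z ≠ z₀ → ‖z - z₀‖ < r * Real.exp (-(2 * Real.pi * c)) →
      ∃ ζ : ℂ, z = z₀ + r * qq ζ ∧ 0 ≤ ζ.re ∧ ζ.re ≤ 1 ∧ c < ζ.im := by
    intro c z hz hzc
    have hq : (z - z₀) / r ≠ 0 := div_ne_zero (sub_ne_zero.2 hz) hrC
    obtain ⟨ζ, h1, h2, h3⟩ := glo1_qq_surj hq
    refine ⟨ζ, ?_, h2, h3, ?_⟩
    · rw [h1]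
      field_simp
      ring
    · have h4 : ‖qq ζ‖ < Real.exp (-(2 * Real.pi * c)) := by
        rw [h1, norm_div, Complex.norm_real, Real.norm_eq_abs, abs_of_pos hz₀, div_lt_iff₀ hz₀]
        linarith
      rw [norm_qq, Real.exp_lt_exp] at h4
      have h5 : 2 * Real.pi * c < 2 * Real.pi * ζ.im := by linarith
      exact lt_of_mul_lt_mul_left h5 (by positivity)
  have hfr' : ∃ᶠ ζ in strip, RC p (GZ 0 (fun q => Φ (z₀ + r * q)) ζ) 0 := by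
    intro hcon
    apply hfr
    unfold strip at hcon
    rw [Filter.eventually_inf_principal, Filter.eventually_comap] at hcon
    obtain ⟨c, hc⟩ := Filter.eventually_atTop.1 hcon
    have hrpos : 0 < r * Real.exp (-(2 * Real.pi * c)) := by positivity
    have hnhds : ∀ᶠ z in 𝓝[≠] z₀, ‖z - z₀‖ < r * Real.exp (-(2 * Real.pi * c)) := by
      apply eventually_nhdsWithin_of_eventually_nhds
      filter_upwards [Metric.ball_mem_nhds z₀ hrpos] with z hz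
      rwa [Metric.mem_ball, dist_eq_norm] at hz
    filter_upwards [hnhds, self_mem_nhdsWithin] with z hz hz'
    obtain ⟨ζ, h1, h2, h3, h4⟩ := hpt c z hz' hz
    have := hc ζ.im h4.le ζ rfl ⟨h2, h3⟩
    intro he
    apply this
    rw [hGG, ← h1]
    exact he
  obtain ⟨u, hu, c, huc⟩ := hcd.main hwt hs hm hty hfr'
  set c' := max c 0 with hc'
  have hρ : 0 < r * Real.exp (-(2 * Real.pi * c')) := by positivity
  have hρr : r * Real.exp (-(2 * Real.pi * c')) ≤ r := by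
    have : Real.exp (-(2 * Real.pi * c')) ≤ 1 := by
      rw [Real.exp_le_one_iff]
      have : 0 ≤ 2 * Real.pi * c' := by
        have : 0 ≤ c' := le_max_right _ _
        positivity
      linarith
    nlinarith
  refine ⟨u, hu, mem_of_open hv
    (U := Metric.ball z₀ (r * Real.exp (-(2 * Real.pi * c'))) ∩ {z₀}ᶜ)
    (Metric.isOpen_ball.inter isOpen_compl_singleton) ?_ ?_ ?_⟩
  · refine ⟨z₀ + ((r * Real.exp (-(2 * Real.pi * c')) / 2 : ℝ) : ℂ), ?_, ?_⟩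
    · rw [Metric.mem_ball, dist_eq_norm, add_sub_cancel_left, Complex.norm_real, Real.norm_eq_abs,
        abs_of_pos (by positivity)]
      linarith
    · simp only [Set.mem_compl_iff, Set.mem_singleton_iff, add_eq_left]
      exact_mod_cast (by positivity : (r * Real.exp (-(2 * Real.pi * c')) / 2 : ℝ) ≠ 0)
  · rintro z ⟨hz, -⟩
    rw [Metric.mem_ball, dist_eq_norm] at hz
    have h1 : ‖z - z₀‖ < r := lt_of_lt_of_le hz hρr
    have h2 : |(z - z₀).im| < r := lt_of_le_of_lt (Complex.abs_im_le_norm _) h1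
    have := (abs_lt.1 h2).1
    rw [Complex.sub_im] at this
    linarith
  · rintro z ⟨hz, hz'⟩
    rw [Metric.mem_ball, dist_eq_norm] at hz
    obtain ⟨ζ, h1, h2, h3, h4⟩ := hpt c' z hz' hz
    have := huc ζ (lt_of_le_of_lt (le_max_left _ _) h4)
    rw [hGG, ← h1] at this
    exact this

/-- accumulation at a cusp -/
theorem hflat_of_cusp (hv : VMHS wt p Q Φ) (hd : Desc wt p Q Φ Δ) (ha : Adm wt p Q Φ Δ σ)
    (hwt : ∀ i, wt i ≤ 0)
    (hs : ∃ s : Equiv.Perm ι, ∀ j, wt (s j) = wt j ∧ p (s j) = wt j - p j)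
    (hm : Fintype.card {i // wt i = 0} ≤ m)
    (hty : ∀ i, wt i < 0 → p i < -(m : ℤ) ∨ wt i - p i < -(m : ℤ))
    (hfr : ∀ y : ℝ, ∃ τ : ℍ, y < τ.im ∧ RC p (Φ ((σ • τ : ℍ) : ℂ)) 0) : HFlat p Φ (1 - m) := by
  obtain ⟨h, N, Ψ, ε, hh, hmem, hcd, hτ⟩ := loc_cusp hv ha
  -- the open set
  obtain ⟨y, hy⟩ : ∃ y : ℝ, ∀ ζ : ℂ, y < ζ.im → ‖qq ζ‖ < ε := by
    refine ⟨-Real.log ε / (2 * Real.pi), fun ζ hζ => ?_⟩
    rw [norm_qq, ← Real.lt_log_iff_exp_lt hcd.eps]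
    rw [div_lt_iff₀ (by positivity)] at hζ
    nlinarith
  have hfreq : ∃ᶠ ζ in strip, RC p (GZ N Ψ ζ) 0 := by
    intro hcon
    obtain ⟨y', hy'⟩ := glo2_strip hcon
    obtain ⟨τ, h1, h2⟩ := hfr ((max y y') * h)
    obtain ⟨δ, τ', hδ, h3, h4, h5, h6⟩ := glo2_move hh hmem τ
    have h7 : max y y' < ((τ' : ℂ) / h).im := by
      rw [Complex.div_ofReal_im, UpperHalfPlane.coe_im, h4, lt_div_iff₀ hh]
      exact h1
    apply hy' _ ((le_max_right _ _).trans h7.le) h5 h6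
    have h10 : RC p (Φ ((σ • τ' : ℍ) : ℂ)) 0 := by
      rw [← h3]
      exact RC_smul hd hδ _ h2
    obtain ⟨r, hr0, hr⟩ := h10
    refine ⟨r, hr0, ?_⟩
    rw [← hτ τ' (hy _ (lt_of_le_of_lt (le_max_left _ _) h7)) 0]
    exact hr
  obtain ⟨u, hu, c, huc⟩ := hcd.main hwt hs hm hty hfreq
  set Y : ℝ := max (max c y) 0 with hY
  set U : Set ℂ := {z : ℂ | ∃ hz : 0 < z.im, Y * h < (σ⁻¹ • (⟨z, hz⟩ : ℍ) : ℍ).im} with hU
  have hpt : ∀ z ∈ U, tC u ∈ Fl p (Φ z) (1 - m) := by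
    rintro z ⟨hz, h1⟩
    set τ : ℍ := σ⁻¹ • (⟨z, hz⟩ : ℍ) with hτdef
    have h2 : σ • τ = ⟨z, hz⟩ := by rw [hτdef, smul_inv_smul]
    have h3 : Y < ((τ : ℂ) / h).im := by
      rw [Complex.div_ofReal_im, UpperHalfPlane.coe_im, lt_div_iff₀ hh]
      exact h1
    have hyY : y ≤ Y := (le_max_right c y).trans (le_max_left _ _)
    have hcY : c ≤ Y := (le_max_left c y).trans (le_max_left _ _)
    have h4 := hy _ (lt_of_le_of_lt hyY h3)
    have h5 := huc _ (lt_of_le_of_lt hcY h3)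
    have h6 := hτ τ h4 (1 - m)
    rw [h2] at h6
    rw [← h6] at h5
    exact h5
  have hsub : ∀ z ∈ U, 0 < z.im := fun z hz => hz.1
  have hne : U.Nonempty := by
    have hpos : 0 < Y * h + 1 := by
      have : 0 ≤ Y := le_max_right _ _
      positivity
    set τ : ℍ := ⟨(Y * h + 1) * Complex.I, by simpa using hpos⟩ with hτdef
    refine ⟨((σ • τ : ℍ) : ℂ), (σ • τ : ℍ).im_pos, ?_⟩
    have h1 : (⟨((σ • τ : ℍ) : ℂ), (σ • τ : ℍ).im_pos⟩ : ℍ) = σ • τ := rfl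
    rw [h1, inv_smul_smul]
    have h2 : τ.im = Y * h + 1 := by
      rw [← UpperHalfPlane.coe_im, hτdef]
      simp
    rw [h2]
    linarith
  have hopen : IsOpen U := by
    have h1 : Continuous fun τ : ℍ => (σ⁻¹ • τ : ℍ).im :=
      UpperHalfPlane.continuous_im.comp (continuous_const_smul σ⁻¹)
    have h2 : IsOpen {τ : ℍ | Y * h < (σ⁻¹ • τ : ℍ).im} := isOpen_lt continuous_const h1
    have h3 : U = ((↑) : ℍ → ℂ) '' {τ : ℍ | Y * h < (σ⁻¹ • τ : ℍ).im} := by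
      ext z
      constructor
      · rintro ⟨hz, h4⟩
        exact ⟨⟨z, hz⟩, h4, rfl⟩
      · rintro ⟨τ, h4, rfl⟩
        exact ⟨τ.im_pos, h4⟩
    rw [h3]
    exact UpperHalfPlane.isOpenEmbedding_coe.isOpenMap _ h2
  exact ⟨u, hu, mem_of_open hv hopen hne hsub hpt⟩

theorem finite_compact (hv : VMHS wt p Q Φ) (hwt : ∀ i, wt i ≤ 0)
    (hs : ∃ s : Equiv.Perm ι, ∀ j, wt (s j) = wt j ∧ p (s j) = wt j - p j)
    (hm : Fintype.card {i // wt i = 0} ≤ m)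
    (hty : ∀ i, wt i < 0 → p i < -(m : ℤ) ∨ wt i - p i < -(m : ℤ))
    (hflat : ¬ HFlat p Φ (1 - m)) {K : Set ℍ} (hK : IsCompact K) :
    {τ : ℍ | τ ∈ K ∧ RC p (Φ (τ : ℂ)) 0}.Finite := by
  by_contra hinf
  obtain ⟨x, _, hx⟩ := Set.Infinite.exists_accPt_of_subset_isCompact hinf hK (fun τ hτ => hτ.1)
  apply hflat
  apply hflat_of_interior hv hwt hs hm hty (z₀ := (x : ℂ)) x.im_pos
  rw [accPt_iff_frequently_nhdsNE] at hx
  have ht : Tendsto ((↑) : ℍ → ℂ) (𝓝[≠] x) (𝓝[≠] (x : ℂ)) := by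
    apply tendsto_nhdsWithin_of_tendsto_nhds_of_eventually_within
    · exact (UpperHalfPlane.continuous_coe.tendsto x).mono_left nhdsWithin_le_nhds
    · filter_upwards [self_mem_nhdsWithin] with τ hτ
      intro he
      apply hτ
      exact UpperHalfPlane.ext (Set.mem_singleton_iff.mp he)
  exact ht.frequently (hx.mono fun τ hτ => hτ.2)

/-- finitely many points with a real Hodge class -/
theorem finite_points (hv : VMHS wt p Q Φ) (hd : Desc wt p Q Φ Δ)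
    {C : Set (Matrix.SpecialLinearGroup (Fin 2) ℝ)} (hfin : FiniteType Δ C)
    (ha : ∀ σ ∈ C, Adm wt p Q Φ Δ σ) (hwt : ∀ i, wt i ≤ 0)
    (hs : ∃ s : Equiv.Perm ι, ∀ j, wt (s j) = wt j ∧ p (s j) = wt j - p j)
    (hm : Fintype.card {i // wt i = 0} ≤ m)
    (hty : ∀ i, wt i < 0 → p i < -(m : ℤ) ∨ wt i - p i < -(m : ℤ))
    (hflat : ¬ HFlat p Φ (1 - m)) :
    ∃ S : Set ℍ, S.Finite ∧ ∀ τ : ℍ, RC p (Φ (τ : ℂ)) 0 → ∃ δ ∈ Δ, δ • τ ∈ S := by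
  obtain ⟨hC, K, c, hK, hc, hcov⟩ := hfin
  have hcusp : ∀ σ ∈ C, ∃ h y : ℝ, 0 < h ∧ σ * trans h * σ⁻¹ ∈ Δ ∧
      ∀ τ : ℍ, RC p (Φ ((σ • τ : ℍ) : ℂ)) 0 → τ.im ≤ y := by
    intro σ hσ
    obtain ⟨h, N, Ψ, ε, hh, hmem, _⟩ := loc_cusp hv (ha σ hσ)
    by_contra hcon
    apply hflat
    apply hflat_of_cusp hv hd (ha σ hσ) hwt hs hm hty
    intro y
    by_contra h2
    apply hcon
    refine ⟨h, y, hh, hmem, fun τ hτ => ?_⟩
    by_contra h3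
    exact h2 ⟨τ, not_le.mp h3, hτ⟩
  choose! h y hh hmem hy using hcusp
  set K' : Set ℍ := K ∪ ⋃ σ ∈ C, (fun τ : ℍ => σ • τ) ''
    {τ : ℍ | (0 ≤ ((τ : ℂ)).re ∧ ((τ : ℂ)).re ≤ h σ) ∧ c ≤ τ.im ∧ τ.im ≤ y σ} with hK'
  have hK'c : IsCompact K' := by
    apply hK.union
    apply hC.isCompact_biUnion
    intro σ _
    exact (glo3_box_compact (h σ) c (y σ) hc).image (continuous_const_smul σ)
  refine ⟨{τ : ℍ | τ ∈ K' ∧ RC p (Φ (τ : ℂ)) 0},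
    finite_compact hv hwt hs hm hty hflat hK'c, ?_⟩
  intro τ hτ
  obtain ⟨δ, hδ, h1⟩ := hcov τ
  rcases h1 with h1 | ⟨σ, hσ, h1⟩
  · exact ⟨δ, hδ, Or.inl h1, RC_smul hd hδ τ hτ⟩
  · set τ1 : ℍ := σ⁻¹ • (δ • τ) with hτ1
    obtain ⟨δ', τ', hδ', h3, h4, h5, h6⟩ := glo2_move (hh σ hσ) (hmem σ hσ) τ1
    have h7 : σ • τ1 = δ • τ := by rw [hτ1, smul_inv_smul]
    have h8 : RC p (Φ ((σ • τ' : ℍ) : ℂ)) 0 := by
      rw [← h3, h7]
      exact RC_smul hd hδ' _ (RC_smul hd hδ τ hτ)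
    refine ⟨δ' * δ, Δ.mul_mem hδ' hδ, ?_⟩
    rw [mul_smul, ← h7, h3]
    refine ⟨Or.inr ?_, h8⟩
    rw [Set.mem_iUnion₂]
    refine ⟨σ, hσ, τ', ⟨⟨?_, ?_⟩, ?_, hy σ hσ τ' h8⟩, rfl⟩
    · rw [Complex.div_ofReal_re] at h5
      have := mul_nonneg h5 (hh σ hσ).le
      rwa [div_mul_cancel₀ _ (hh σ hσ).ne'] at this
    · rw [Complex.div_ofReal_re, div_le_one (hh σ hσ)] at h6
      exact h6
    · rw [h4]
      exact h1.le

end Pool.Agent.LibZE25
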