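import Pool.Agent.LibZE25.Z21

/-!
# Minors of size `k` and the dimension of the kernel
-/

namespace Pool.Agent.LibZE25

theorem Y18_rank_le {K : Type} [Field K] {ι κ : Type} [Fintype ι] [Fintype κ] [DecidableEq ι]
    [DecidableEq κ] (M : Matrix ι κ K) {k : ℕ} (e : Fin k → ι) (c : Fin k → κ) :
    (M.submatrix e c).rank ≤ M.rank := by
  have h1 : M.submatrix e c = (1 : Matrix ι ι K).submatrix e id * M *
      (1 : Matrix κ κ K).submatrix id c := by
    ext i j
    simp [Matrix.mul_apply, Matrix.one_apply]
  rw [h1]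
  exact (Matrix.rank_mul_le_left _ _).trans (Matrix.rank_mul_le_right _ _)

theorem Y18_rank_ker {K : Type} [Field K] {ι κ : Type} [Fintype ι] [Fintype κ] [DecidableEq κ]
    (M : Matrix ι κ K) :
    M.rank + Module.finrank K (LinearMap.ker M.mulVecLin) = Fintype.card κ := by
  have h1 := LinearMap.finrank_range_add_finrank_ker M.mulVecLin
  rw [Module.finrank_fintype_fun_eq_card] at h1
  exact h1

theorem minors_of_ker {K : Type} [Field K] {ι κ : Type} [Fintype ι] [Fintype κ] [DecidableEq ι]
    [DecidableEq κ] (M : Matrix ι κ K) (k : ℕ)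
    (h : Fintype.card κ < Module.finrank K (LinearMap.ker M.mulVecLin) + k) (e : Fin k → ι)
    (c : Fin k → κ) : (M.submatrix e c).det = 0 := by
  by_contra hd
  have h1 := Y18_rank_ker M
  have h2 := Y18_rank_le M e c
  have h3 : IsUnit (M.submatrix e c) := by
    rw [Matrix.isUnit_iff_isUnit_det]
    exact isUnit_iff_ne_zero.2 hd
  rw [Matrix.rank_of_isUnit _ h3, Fintype.card_fin] at h2
  omega

theorem ker_of_minors {K : Type} [Field K] {ι κ : Type} [Fintype ι] [Fintype κ] [DecidableEq ι]
    [DecidableEq κ] (M : Matrix ι κ K) (k : ℕ)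
    (h : ∀ (e : Fin k → ι) (c : Fin k → κ), (M.submatrix e c).det = 0) :
    Fintype.card κ < Module.finrank K (LinearMap.ker M.mulVecLin) + k := by
  by_contra hcon
  have h1 := Y18_rank_ker M
  have h2 : k ≤ M.rank := by omega
  obtain ⟨κ', a, ha, hspan, hli⟩ := exists_linearIndependent' K M.col
  have hfin : Finite κ' := Finite.of_injective a ha
  have := Fintype.ofFinite κ'
  have h3 : Fintype.card κ' = M.rank := by
    rw [Matrix.rank_eq_finrank_span_cols, ← hspan, finrank_span_eq_card hli]
  have h4 : Fintype.card (Fin k) ≤ Fintype.card κ' := by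
    rw [Fintype.card_fin, h3]
    exact h2
  obtain ⟨f⟩ := Function.Embedding.nonempty_of_card_le h4
  have hli' : LinearIndependent K (M.submatrix id fun b => a (f b)).col := by
    have := hli.comp f f.injective
    exact this
  rw [← Matrix.mulVec_injective_iff] at hli'
  obtain ⟨e, he⟩ := exists_minor (M.submatrix id fun b => a (f b)) (fun v hv => by
    apply hli'
    rw [hv, Matrix.mulVec_zero])
  exact he (h e fun b => a (f b))

end Pool.Agent.LibZE25
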