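import Pool.Agent.LibZE25.VDefs
import Pool.Agent.LibZE25.Y18
import Pool.Agent.LibZE25.Z33

/-!
# A new real Hodge class makes minors vanish, relative version
-/

open Matrix Complex

namespace Pool.Agent.LibZE25

open MW38 SP38

variable {ι : Type} [Fintype ι] [DecidableEq ι] {p : ι → ℤ} {N : Matrix ι ι ℝ}
  {Ψ : ℂ → Matrix ι ι ℂ}

theorem V1_pow {A : Matrix ι ι ℝ} {E : Submodule ℝ (ι → ℝ)} (h : ∀ w ∈ E, A *ᵥ w ∈ E) (n : ℕ) :
    ∀ w ∈ E, (A ^ n) *ᵥ w ∈ E := by
  induction n with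
  | zero =>
    intro w hw
    rw [pow_zero, Matrix.one_mulVec]
    exact hw
  | succ n ih =>
    intro w hw
    rw [pow_succ, ← Matrix.mulVec_mulVec]
    exact ih _ (h w hw)

theorem V1_exp {A : Matrix ι ι ℝ} {E : Submodule ℝ (ι → ℝ)} (h : ∀ w ∈ E, A *ᵥ w ∈ E) :
    ∀ w ∈ E, (IsNilpotent.exp A) *ᵥ w ∈ E := by
  intro w hw
  unfold IsNilpotent.exp
  rw [Matrix.sum_mulVec]
  refine Submodule.sum_mem _ fun n _ => ?_
  have e : ((n.factorial : ℚ)⁻¹ • A ^ n) *ᵥ w = ((n.factorial : ℝ)⁻¹) • (A ^ n *ᵥ w) := by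
    rw [← Matrix.smul_mulVec]
    congr 1
    ext i j
    rw [Matrix.smul_apply, Matrix.smul_apply, Rat.smul_def, smul_eq_mul]
    push_cast
    rfl
  rw [e]
  exact E.smul_mem _ (V1_pow h n w hw)

omit [DecidableEq ι] in
theorem V1_tC_mem {s : ℕ} {v : Fin s → ι → ℝ} {w : ι → ℝ}
    (hw : w ∈ Submodule.span ℝ (Set.range v)) :
    tC w ∈ Submodule.span ℂ (Set.range fun b => tC (v b)) := by
  obtain ⟨g, rfl⟩ := (Submodule.mem_span_range_iff_exists_fun ℝ).1 hw
  refine (Submodule.mem_span_range_iff_exists_fun ℂ).2 ⟨fun b => (g b : ℂ), ?_⟩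
  funext i
  unfold tC
  rw [Finset.sum_apply, Finset.sum_apply]
  push_cast
  exact Finset.sum_congr rfl fun b _ => by
    rw [Pi.smul_apply, Pi.smul_apply, smul_eq_mul, smul_eq_mul, Complex.ofReal_mul]

omit [DecidableEq ι] in
theorem V1_mem_of_tC {s : ℕ} {v : Fin s → ι → ℝ} {w : ι → ℝ}
    (hw : tC w ∈ Submodule.span ℂ (Set.range fun b => tC (v b))) :
    w ∈ Submodule.span ℝ (Set.range v) := by
  obtain ⟨g, hg⟩ := (Submodule.mem_span_range_iff_exists_fun ℂ).1 hw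
  refine (Submodule.mem_span_range_iff_exists_fun ℝ).2 ⟨fun b => (g b).re, ?_⟩
  funext i
  have h1 := congrArg Complex.re (congrFun hg i)
  rw [Finset.sum_apply, Complex.re_sum] at h1
  rw [Finset.sum_apply]
  have h2 : (tC w i).re = w i := Complex.ofReal_re _
  rw [← h2, ← h1]
  refine Finset.sum_congr rfl fun b _ => ?_
  rw [Pi.smul_apply, Pi.smul_apply, smul_eq_mul, smul_eq_mul]
  unfold tC
  rw [Complex.mul_re, Complex.ofReal_re, Complex.ofReal_im, mul_zero, sub_zero]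

theorem V1_ker (R : Matrix ι ι ℂ) {s : ℕ} (v : Fin s → ι → ℝ) (c c' : ι → ℂ)
    (hc : ∀ j, p j < 0 → c j = 0) (hc' : ∀ j, p j < 0 → c' j = 0) (l : Fin s → ℂ)
    (h : R *ᵥ c + (fun i => (starRingEnd ℂ) ((R *ᵥ c') i)) = ∑ b, l b • tC (v b)) :
    (cat3 p R (R.map (starRingEnd ℂ)) (Matrix.of fun i b => (v b i : ℂ))).mulVec
      (Sum.elim (Sum.elim (fun j => c j) (fun j => (starRingEnd ℂ) (c' j))) (fun b => -l b)) = 0 := by
  funext i
  have e0 : (cat3 p R (R.map (starRingEnd ℂ)) (Matrix.of fun i b => (v b i : ℂ))).mulVec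
      (Sum.elim (Sum.elim (fun j => c j) (fun j => (starRingEnd ℂ) (c' j))) (fun b => -l b)) i =
      (∑ j : {j // (0 : ℤ) ≤ p j}, R i j * c j +
        ∑ j : {j // (0 : ℤ) ≤ p j}, (starRingEnd ℂ) (R i j) * (starRingEnd ℂ) (c' j)) +
        ∑ b, (v b i : ℂ) * -l b := by
    rw [Matrix.mulVec, dotProduct, Fintype.sum_sum_type, Fintype.sum_sum_type]
    rfl
  rw [e0]
  have e1 : ∑ j : {j // (0 : ℤ) ≤ p j}, R i j * c j = (R *ᵥ c) i :=
    Z33_sub (fun j => R i j * c j) (fun j hj => by rw [hc j hj, mul_zero])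
  have e2 : ∑ j : {j // (0 : ℤ) ≤ p j}, (starRingEnd ℂ) (R i j) * (starRingEnd ℂ) (c' j) =
      (starRingEnd ℂ) ((R *ᵥ c') i) := by
    rw [Z33_sub (fun j => (starRingEnd ℂ) (R i j) * (starRingEnd ℂ) (c' j))
      (fun j hj => by rw [hc' j hj, map_zero, mul_zero])]
    rw [Matrix.mulVec, dotProduct, map_sum]
    exact Finset.sum_congr rfl fun j _ => (map_mul _ _ _).symm
  have e3 := congrFun h i
  rw [Pi.add_apply, Finset.sum_apply] at e3
  rw [e1, e2, e3, ← Finset.sum_add_distrib]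
  refine Finset.sum_eq_zero fun b _ => ?_
  rw [Pi.smul_apply, smul_eq_mul]
  unfold tC
  ring

theorem minors3_zero (hN : IsNilpotent N) {s : ℕ} (v : Fin s → ι → ℝ)
    (hNv : ∀ b, N *ᵥ v b ∈ Submodule.span ℝ (Set.range v)) {ζ : ℂ} {u : ι → ℝ}
    (hu : u ∉ Submodule.span ℝ (Set.range v)) (hu0 : tC u ∈ Fl p (GZ N Ψ ζ) 0) {t : ℕ}
    (ht : t ≤ Module.finrank ℂ (Fl p (GZ N Ψ ζ) 0 ⊓
      Submodule.span ℂ (Set.range fun b => tC (v b)) : Submodule ℂ (ι → ℂ))) {k : ℕ}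
    (hk : 2 * Fintype.card {j // (0 : ℤ) ≤ p j} + s ≤ k + 2 * t) (e : Fin k → ι)
    (c : Fin k → ({j // (0 : ℤ) ≤ p j} ⊕ {j // (0 : ℤ) ≤ p j}) ⊕ Fin s) :
    ((cat3 p (RZ N Ψ ζ) ((RZ N Ψ ζ).map (starRingEnd ℂ))
      (Matrix.of fun i b => (v b i : ℂ))).submatrix e c).det = 0 := by
  classical
  have hT := (Z33_real hN ζ.re).2
  obtain ⟨T, hTd⟩ : ∃ T, T = IsNilpotent.exp (ζ.re • N) := ⟨_, rfl⟩
  rw [← hTd] at hT
  have hdet : IsUnit T.det := (Matrix.isUnit_iff_isUnit_det T).mp hT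
  have h2 : cm T⁻¹ * cm T = 1 := by
    have h3 := map_mul (Complex.ofRealHom.mapMatrix (m := ι)) T⁻¹ T
    rw [Matrix.nonsing_inv_mul T hdet, map_one] at h3
    exact h3.symm
  -- `T⁻¹` preserves the real span
  have hsn : IsNilpotent (ζ.re • N) := by
    obtain ⟨k, hk⟩ := hN
    exact ⟨k, by rw [smul_pow, hk, smul_zero]⟩
  have hNE : ∀ w ∈ Submodule.span ℝ (Set.range v), N *ᵥ w ∈ Submodule.span ℝ (Set.range v) := by
    intro w hw
    obtain ⟨g, rfl⟩ := (Submodule.mem_span_range_iff_exists_fun ℝ).1 hw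
    have e : N *ᵥ (∑ b, g b • v b) = ∑ b, g b • (N *ᵥ v b) := by
      rw [Matrix.mulVec_sum]
      exact Finset.sum_congr rfl fun b _ => Matrix.mulVec_smul N (g b) (v b)
    rw [e]
    exact Submodule.sum_mem _ fun b _ => Submodule.smul_mem _ _ (hNv b)
  have hTi : T⁻¹ = IsNilpotent.exp (-(ζ.re • N)) := by
    have h3 := IsNilpotent.exp_neg_mul_exp_self hsn
    rw [← hTd] at h3
    exact Matrix.inv_eq_left_inv h3
  have hTE : ∀ w ∈ Submodule.span ℝ (Set.range v), T⁻¹ *ᵥ w ∈ Submodule.span ℝ (Set.range v) := by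
    rw [hTi]
    refine V1_exp fun w hw => ?_
    rw [Matrix.neg_mulVec, Matrix.smul_mulVec]
    exact Submodule.neg_mem _ (Submodule.smul_mem _ _ (hNE w hw))
  have hTEC : ∀ w ∈ Submodule.span ℂ (Set.range fun b => tC (v b)),
      cm T⁻¹ *ᵥ w ∈ Submodule.span ℂ (Set.range fun b => tC (v b)) := by
    intro w hw
    obtain ⟨g, rfl⟩ := (Submodule.mem_span_range_iff_exists_fun ℂ).1 hw
    have e : cm T⁻¹ *ᵥ (∑ b, g b • tC (v b)) = ∑ b, g b • tC (T⁻¹ *ᵥ v b) := by
      rw [Matrix.mulVec_sum]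
      exact Finset.sum_congr rfl fun b _ => by rw [Matrix.mulVec_smul, Z33_tC]
    rw [e]
    exact Submodule.sum_mem _ fun b _ => Submodule.smul_mem _ _
      (V1_tC_mem (hTE _ (Submodule.subset_span ⟨b, rfl⟩)))
  -- the coordinates
  have hco : ∀ w ∈ Fl p (GZ N Ψ ζ) 0, ∃ c : ι → ℂ, (∀ j, p j < 0 → c j = 0) ∧
      w = GZ N Ψ ζ *ᵥ c ∧ cm T⁻¹ *ᵥ w = RZ N Ψ ζ *ᵥ c := by
    intro w hw
    obtain ⟨c, hc, hwc⟩ := (mem_Fl_iff_exists _).mp hw
    refine ⟨c, hc, hwc, ?_⟩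
    rw [hwc, Z33_GZ hN, Matrix.mulVec_mulVec, ← Matrix.mul_assoc, ← hTd, h2, Matrix.one_mul]
  -- the basis
  obtain ⟨W, hW⟩ : ∃ W : Submodule ℂ (ι → ℂ), W = (Fl p (GZ N Ψ ζ) 0 ⊓
      Submodule.span ℂ (Set.range fun b => tC (v b))) := ⟨_, rfl⟩
  rw [← hW] at ht
  obtain ⟨w, hw⟩ : ∃ w : Fin t → W, LinearIndependent ℂ w :=
    exists_linearIndependent_of_le_finrank ht
  have hwm : ∀ i, (w i : ι → ℂ) ∈ Fl p (GZ N Ψ ζ) 0 ∧
      (w i : ι → ℂ) ∈ Submodule.span ℂ (Set.range fun b => tC (v b)) := by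
    intro i
    have h : ∀ y : ι → ℂ, y ∈ W → y ∈ Fl p (GZ N Ψ ζ) 0 ∧
        y ∈ Submodule.span ℂ (Set.range fun b => tC (v b)) := by
      intro y hy
      rw [hW] at hy
      exact hy
    exact h _ (w i).2
  have hwl : LinearIndependent ℂ (fun i => (w i : ι → ℂ)) :=
    hw.map' W.subtype (Submodule.ker_subtype W)
  choose c hc hwc hwR using fun i => hco _ (hwm i).1
  choose l hl using fun i =>
    (Submodule.mem_span_range_iff_exists_fun ℂ).1 (hTEC _ (hwm i).2)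
  obtain ⟨cu, hcu, huc, huR⟩ := hco _ hu0
  rw [← Z33_tC] at huR
  -- the kernel vectors
  let M := cat3 p (RZ N Ψ ζ) ((RZ N Ψ ζ).map (starRingEnd ℂ))
    (Matrix.of fun i b => (v b i : ℂ))
  let kv : (Fin t ⊕ Fin t) ⊕ Unit →
      (({j // (0 : ℤ) ≤ p j} ⊕ {j // (0 : ℤ) ≤ p j}) ⊕ Fin s → ℂ) := fun x =>
    match x with
    | Sum.inl (Sum.inl i) => Sum.elim (Sum.elim (fun j => c i j) (fun _ => (starRingEnd ℂ) 0))
        (fun b => -l i b)
    | Sum.inl (Sum.inr i) => Sum.elim (Sum.elim (fun _ => 0) (fun j => (starRingEnd ℂ) (c i j)))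
        (fun b => -(starRingEnd ℂ) (l i b))
    | Sum.inr _ => Sum.elim (Sum.elim (fun j => cu j) (fun j => (starRingEnd ℂ) (-cu j)))
        (fun _ => -0)
  have hker : ∀ x, M.mulVec (kv x) = 0 := by
    rintro ((i | i) | x)
    · refine V1_ker (RZ N Ψ ζ) v (c i) (fun _ => 0) (hc i) (fun _ _ => rfl) (l i) ?_
      rw [hl i, hwR i]
      funext j
      have e : RZ N Ψ ζ *ᵥ (fun _ => (0 : ℂ)) = 0 := Matrix.mulVec_zero _
      rw [Pi.add_apply, e, Pi.zero_apply, map_zero, add_zero]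
    · refine V1_ker (RZ N Ψ ζ) v (fun _ => 0) (c i) (fun _ _ => rfl) (hc i)
        (fun b => (starRingEnd ℂ) (l i b)) ?_
      have e : RZ N Ψ ζ *ᵥ (fun _ => (0 : ℂ)) = 0 := Matrix.mulVec_zero _
      rw [e, zero_add, ← hwR i, ← hl i]
      funext j
      rw [Finset.sum_apply, Finset.sum_apply, map_sum]
      refine Finset.sum_congr rfl fun b _ => ?_
      rw [Pi.smul_apply, Pi.smul_apply, smul_eq_mul, smul_eq_mul, map_mul]
      unfold tC
      rw [Complex.conj_ofReal]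
    · refine V1_ker (RZ N Ψ ζ) v cu (fun j => -cu j) hcu (fun j hj => by rw [hcu j hj, neg_zero])
        (fun _ => 0) ?_
      have e : RZ N Ψ ζ *ᵥ (fun j => -cu j) = -(RZ N Ψ ζ *ᵥ cu) := Matrix.mulVec_neg _ _
      rw [e, ← huR]
      funext j
      rw [Pi.add_apply, Pi.neg_apply, map_neg]
      unfold tC
      rw [Complex.conj_ofReal, add_neg_cancel, Finset.sum_apply]
      symm
      refine Finset.sum_eq_zero fun b _ => ?_
      rw [Pi.smul_apply, zero_smul]
  -- sums of coordinates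
  have hGsum : ∀ g : Fin t → ℂ, (∀ j, ∑ i, g i * c i j = 0) → ∀ i, g i = 0 := by
    intro g hg
    have h1 : ∑ i, g i • (w i : ι → ℂ) = 0 := by
      have e : ∑ i, g i • (w i : ι → ℂ) = GZ N Ψ ζ *ᵥ (∑ i, g i • c i) := by
        rw [Matrix.mulVec_sum]
        exact Finset.sum_congr rfl fun i _ => by rw [Matrix.mulVec_smul, ← hwc i]
      rw [e]
      have e2 : (∑ i, g i • c i) = 0 := by
        funext j
        rw [Finset.sum_apply]
        exact hg j
      rw [e2, Matrix.mulVec_zero]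
    exact Fintype.linearIndependent_iff.1 hwl g h1
  have hli : LinearIndependent ℂ kv := by
    rw [Fintype.linearIndependent_iff]
    intro g hg
    rw [Fintype.sum_sum_type, Fintype.sum_sum_type] at hg
    have hU : ∑ x : Unit, g (Sum.inr x) • kv (Sum.inr x) = g (Sum.inr ()) • kv (Sum.inr ()) :=
      Fintype.sum_unique _
    rw [hU] at hg
    have h1 : ∀ j, ∑ i, g (Sum.inl (Sum.inl i)) * c i j + g (Sum.inr ()) * cu j = 0 := by
      intro j
      by_cases hj : (0 : ℤ) ≤ p j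
      · have h5 := congrFun hg (Sum.inl (Sum.inl ⟨j, hj⟩))
        rw [Pi.add_apply, Pi.add_apply, Finset.sum_apply, Finset.sum_apply] at h5
        have e1 : ∑ i, (g (Sum.inl (Sum.inl i)) • kv (Sum.inl (Sum.inl i)))
            (Sum.inl (Sum.inl ⟨j, hj⟩)) = ∑ i, g (Sum.inl (Sum.inl i)) * c i j := rfl
        have e2 : ∑ i, (g (Sum.inl (Sum.inr i)) • kv (Sum.inl (Sum.inr i)))
            (Sum.inl (Sum.inl ⟨j, hj⟩)) = 0 := by
          refine Finset.sum_eq_zero fun i _ => ?_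
          exact mul_zero _
        rw [e1, e2, add_zero] at h5
        exact h5
      · rw [hcu j (not_le.1 hj), mul_zero, add_zero]
        refine Finset.sum_eq_zero fun i _ => ?_
        rw [hc i j (not_le.1 hj), mul_zero]
    have hmu : g (Sum.inr ()) = 0 := by
      by_contra hmu
      apply hu
      apply V1_mem_of_tC
      have e : g (Sum.inr ()) • tC u = -∑ i, g (Sum.inl (Sum.inl i)) • (w i : ι → ℂ) := by
        rw [eq_neg_iff_add_eq_zero, add_comm]
        have e1 : ∑ i, g (Sum.inl (Sum.inl i)) • (w i : ι → ℂ) + g (Sum.inr ()) • tC u =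
            GZ N Ψ ζ *ᵥ (∑ i, g (Sum.inl (Sum.inl i)) • c i + g (Sum.inr ()) • cu) := by
          rw [Matrix.mulVec_add, Matrix.mulVec_sum, Matrix.mulVec_smul, ← huc]
          congr 1
          exact Finset.sum_congr rfl fun i _ => by rw [Matrix.mulVec_smul, ← hwc i]
        rw [e1]
        have e2 : (∑ i, g (Sum.inl (Sum.inl i)) • c i + g (Sum.inr ()) • cu) = 0 := by
          funext j
          rw [Pi.add_apply, Finset.sum_apply]
          exact h1 j
        rw [e2, Matrix.mulVec_zero]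
      have e3 : tC u = (g (Sum.inr ()))⁻¹ • (g (Sum.inr ()) • tC u) := by
        rw [smul_smul, inv_mul_cancel₀ hmu, one_smul]
      rw [e3, e]
      exact Submodule.smul_mem _ _ (Submodule.neg_mem _ (Submodule.sum_mem _ fun i _ =>
        Submodule.smul_mem _ _ (hwm i).2))
    have hal : ∀ i, g (Sum.inl (Sum.inl i)) = 0 := by
      refine hGsum _ fun j => ?_
      have := h1 j
      rw [hmu, zero_mul, add_zero] at this
      exact this
    have hbe : ∀ i, (starRingEnd ℂ) (g (Sum.inl (Sum.inr i))) = 0 := by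
      refine hGsum _ fun j => ?_
      by_cases hj : (0 : ℤ) ≤ p j
      · have h5 := congrFun hg (Sum.inl (Sum.inr ⟨j, hj⟩))
        rw [Pi.add_apply, Pi.add_apply, Finset.sum_apply, Finset.sum_apply] at h5
        have e1 : ∑ i, (g (Sum.inl (Sum.inl i)) • kv (Sum.inl (Sum.inl i)))
            (Sum.inl (Sum.inr ⟨j, hj⟩)) = 0 := by
          refine Finset.sum_eq_zero fun i _ => ?_
          rw [hal i, zero_smul]
          rfl
        have e2 : ∑ i, (g (Sum.inl (Sum.inr i)) • kv (Sum.inl (Sum.inr i)))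
            (Sum.inl (Sum.inr ⟨j, hj⟩)) =
            ∑ i, g (Sum.inl (Sum.inr i)) * (starRingEnd ℂ) (c i j) := rfl
        have e3 : (g (Sum.inr ()) • kv (Sum.inr ())) (Sum.inl (Sum.inr ⟨j, hj⟩)) = 0 := by
          rw [hmu, zero_smul]
          rfl
        rw [e1, e2, e3, zero_add, add_zero] at h5
        have h6 := congrArg (starRingEnd ℂ) h5
        rw [Pi.zero_apply, map_zero, map_sum] at h6
        rw [← h6]
        refine Finset.sum_congr rfl fun i _ => ?_
        rw [map_mul, Complex.conj_conj]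
      · refine Finset.sum_eq_zero fun i _ => ?_
        rw [hc i j (not_le.1 hj), mul_zero]
    rintro ((i | i) | x)
    · exact hal i
    · have := congrArg (starRingEnd ℂ) (hbe i)
      rwa [Complex.conj_conj, map_zero] at this
    · exact hmu
  have hli' : LinearIndependent ℂ (fun x => (⟨kv x, by
      rw [LinearMap.mem_ker, Matrix.mulVecLin_apply]
      exact hker x⟩ : LinearMap.ker M.mulVecLin)) :=
    LinearIndependent.of_comp (Submodule.subtype _) hli
  have hcard := hli'.fintype_card_le_finrank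
  rw [Fintype.card_sum, Fintype.card_sum, Fintype.card_fin, Fintype.card_unit] at hcard
  apply minors_of_ker
  rw [Fintype.card_sum, Fintype.card_sum, Fintype.card_fin]
  change _ < Module.finrank ℂ (LinearMap.ker M.mulVecLin) + k
  omega

end Pool.Agent.LibZE25
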