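import Pool.Agent.LibZE25.VDefs
import Pool.Agent.LibZE25.Y6
import Pool.Agent.LibZE25.Y18
import Pool.Agent.LibZE25.Z25
import Pool.Agent.LibZE25.Z22

/-!
# Vanishing minors and the dimension of the sum over the differential field

The sum is contained in the image of the column span of `M = (cat3 ..).map F.φ` under the matrix
`expn d n (F.U / 2)`, and the rank of `M` is less than `k`.
-/

open PowerSeries

namespace Pool.Agent.LibZE25

variable {ι : Type} [Fintype ι] [DecidableEq ι]

private theorem V2_pow_mem {s : ℕ} {n : Matrix ι ι ℂ} (v : Fin s → ι → ℂ)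
    (hn : ∀ b, n.mulVec (v b) ∈ Submodule.span ℂ (Set.range v)) (u : ι → ℂ)
    (hu : u ∈ Submodule.span ℂ (Set.range v)) (r : ℕ) :
    (n ^ r).mulVec u ∈ Submodule.span ℂ (Set.range v) := by
  have h1 : ∀ w ∈ Submodule.span ℂ (Set.range v), n.mulVec w ∈ Submodule.span ℂ (Set.range v) := by
    intro w hw
    have h2 : Submodule.span ℂ (Set.range v) ≤
        (Submodule.span ℂ (Set.range v)).comap n.mulVecLin := by
      rw [Submodule.span_le]
      rintro _ ⟨b, rfl⟩
      exact hn b
    exact h2 hw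
  induction r with
  | zero => simpa using hu
  | succ r ih =>
    rw [pow_succ', ← Matrix.mulVec_mulVec]
    exact h1 _ ih

namespace DF

variable (F : DF) {wt p : ι → ℤ} {d : ℕ} {n : Matrix ι ι ℂ} {A : Matrix ι ι (PowerSeries ℂ)}

theorem finrank_sup3_lt (h : FData wt p d n A) {s : ℕ} (v : Fin s → ι → ℂ)
    (hn : ∀ b, n.mulVec (v b) ∈ Submodule.span ℂ (Set.range v)) {k : ℕ}
    (h0 : ∀ (e : Fin k → ι)
      (c : Fin k → ({j // (0 : ℤ) ≤ p j} ⊕ {j // (0 : ℤ) ≤ p j}) ⊕ Fin s),
      F.φ ((cat3 p (rz d n A) (rw' d n A)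
        (Matrix.of fun i b => algebraMap ℂ RR (v b i))).submatrix e c).det = 0) :
    Module.finrank F.K (colSp p (F.fz d n A) 0 ⊔ colSp p (F.fw d n A) 0 ⊔
      kSp F.K (Submodule.span ℂ (Set.range v)) : Submodule F.K (ι → F.K)) < k := by
  classical
  obtain ⟨M, hM⟩ : ∃ M : Matrix ι (({j // (0 : ℤ) ≤ p j} ⊕ {j // (0 : ℤ) ≤ p j}) ⊕ Fin s) F.K,
      M = (cat3 p (rz d n A) (rw' d n A)
        (Matrix.of fun i b => algebraMap ℂ RR (v b i))).map F.φ := ⟨_, rfl⟩
  have hrank : M.rank < k := by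
    have h1 := ker_of_minors M k (by
      intro e c
      have h2 := h0 e c
      rw [RingHom.map_det] at h2
      rw [hM]
      exact h2)
    have h2 := Y18_rank_ker M
    omega
  have hcol : ∀ c, (fun i => M i c) ∈ LinearMap.range M.mulVecLin := by
    intro c
    refine ⟨Pi.single c 1, ?_⟩
    rw [Matrix.mulVecLin_apply, Matrix.mulVec_single_one]
    rfl
  obtain ⟨X, hX⟩ : ∃ X : Matrix ι ι F.K, X = expn d n (F.U / 2) := ⟨_, rfl⟩
  have hz : F.fz d n A = X * (rz d n A).map F.φ := by rw [hX]; exact (F.fz_eq h.nil).1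
  have hw : F.fw d n A = X * (rw' d n A).map F.φ := by rw [hX]; exact (F.fz_eq h.nil).2
  have hcolm : ∀ (B : Matrix ι ι F.K) (j : ι), (fun i => (X * B) i j) = X.mulVec fun i => B i j := by
    intro B j
    funext i
    rfl
  -- the constant vectors
  have hE : kSp F.K (Submodule.span ℂ (Set.range v)) ≤ LinearMap.range M.mulVecLin := by
    rw [kSp, Submodule.span_le]
    rintro _ ⟨u, hu, rfl⟩
    rw [Submodule.mem_span_range_iff_exists_fun] at hu
    obtain ⟨c, rfl⟩ := hu
    have h1 : (fun i => algebraMap ℂ F.K ((∑ b, c b • v b) i)) =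
        ∑ b, algebraMap ℂ F.K (c b) • (fun i => M i (Sum.inr b)) := by
      funext i
      rw [Finset.sum_apply, Finset.sum_apply, map_sum]
      refine Finset.sum_congr rfl fun b _ => ?_
      rw [Pi.smul_apply, Pi.smul_apply, smul_eq_mul, smul_eq_mul, map_mul, hM]
      congr 1
      show algebraMap ℂ F.K (v b i) = F.φ (algebraMap ℂ RR (v b i))
      rw [F.φ_alg]
    rw [SetLike.mem_coe, h1]
    exact Submodule.sum_mem _ fun b _ => Submodule.smul_mem _ _ (hcol _)
  have hle : colSp p (F.fz d n A) 0 ⊔ colSp p (F.fw d n A) 0 ⊔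
      kSp F.K (Submodule.span ℂ (Set.range v)) ≤
      (LinearMap.range M.mulVecLin).map X.mulVecLin := by
    refine sup_le (sup_le ?_ ?_) ?_
    · rw [colSp, Submodule.span_le]
      rintro _ ⟨j, hj, rfl⟩
      refine ⟨fun i => M i (Sum.inl (Sum.inl ⟨j, hj⟩)), hcol _, ?_⟩
      rw [hz, hcolm, Matrix.mulVecLin_apply, hM]
      rfl
    · rw [colSp, Submodule.span_le]
      rintro _ ⟨j, hj, rfl⟩
      refine ⟨fun i => M i (Sum.inl (Sum.inr ⟨j, hj⟩)), hcol _, ?_⟩
      rw [hw, hcolm, Matrix.mulVecLin_apply, hM]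
      rfl
    · rw [kSp, Submodule.span_le]
      rintro _ ⟨u, hu, rfl⟩
      refine ⟨(expn d n (-(F.U / 2))).mulVec fun i => algebraMap ℂ F.K (u i), hE ?_, ?_⟩
      · have h1 : ((expn d n (-(F.U / 2))).mulVec fun i => algebraMap ℂ F.K (u i)) =
            ∑ r ∈ Finset.range d, ((-(F.U / 2)) ^ r * algebraMap ℂ F.K ((r.factorial : ℂ)⁻¹)) •
              (fun i => algebraMap ℂ F.K ((n ^ r).mulVec u i)) := by
          funext i
          rw [Y6_expn_mulVec, Finset.sum_apply]
          refine Finset.sum_congr rfl fun r _ => ?_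
          rw [Pi.smul_apply, smul_eq_mul, mul_assoc]
        rw [h1]
        refine Submodule.sum_mem _ fun r _ => Submodule.smul_mem _ _ ?_
        exact Submodule.subset_span ⟨_, V2_pow_mem v hn u hu r, rfl⟩
      · rw [Matrix.mulVecLin_apply, Matrix.mulVec_mulVec, hX, ← expn_add h.nil, add_neg_cancel,
          expn_zero h.nil, Matrix.one_mulVec]
  calc Module.finrank F.K (colSp p (F.fz d n A) 0 ⊔ colSp p (F.fw d n A) 0 ⊔
      kSp F.K (Submodule.span ℂ (Set.range v)) : Submodule F.K (ι → F.K))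
      ≤ Module.finrank F.K ((LinearMap.range M.mulVecLin).map X.mulVecLin) :=
        Submodule.finrank_mono hle
    _ ≤ Module.finrank F.K (LinearMap.range M.mulVecLin) := Submodule.finrank_map_le _ _
    _ < k := hrank

end DF

end Pool.Agent.LibZE25
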