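import Pool.Agent.LibZE25.V4
import Pool.Agent.LibZE25.Y5
import Pool.Agent.LibZE25.Y6
import Pool.Agent.LibZE25.Y21
import Pool.Agent.LibZE25.LocMain

/-!
# The intersection with constant vectors is at least as large at points as over the field

The complement `U'` of `W = Fl p (GZ ζ₁) 0 ⊓ U` in `U` stays independent modulo `F^0` over the
differential field, for both frames.
-/

open Matrix Complex Filter Topology
open scoped ComplexConjugate

namespace Pool.Agent.LibZE25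

open MW38 SP38

variable {ι : Type} [Fintype ι] [DecidableEq ι] {wt p : ι → ℤ} {Q N : Matrix ι ι ℝ}
  {Ψ : ℂ → Matrix ι ι ℂ} {ε : ℝ}

omit [Fintype ι] [DecidableEq ι] in
private theorem V3_sp {K : Type} [Field K] [Algebra ℂ K] {s : ℕ} (g : Fin s → ι → ℂ) (x : ι → K)
    (hx : x ∈ kSp K (Submodule.span ℂ (Set.range g))) :
    ∃ c : Fin s → K, x = fun i => ∑ b, c b * algebraMap ℂ K (g b i) := by
  refine Submodule.span_induction (p := fun x _ => ∃ c : Fin s → K,
    x = fun i => ∑ b, c b * algebraMap ℂ K (g b i)) ?_ ?_ ?_ ?_ hx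
  · rintro x ⟨u, hu, rfl⟩
    rw [Submodule.mem_span_range_iff_exists_fun] at hu
    obtain ⟨c, rfl⟩ := hu
    refine ⟨fun b => algebraMap ℂ K (c b), ?_⟩
    funext i
    rw [Finset.sum_apply, map_sum]
    refine Finset.sum_congr rfl fun b _ => ?_
    rw [Pi.smul_apply, smul_eq_mul, map_mul]
  · exact ⟨0, by funext i; simp⟩
  · rintro x y _ _ ⟨c, rfl⟩ ⟨c', rfl⟩
    refine ⟨c + c', ?_⟩
    funext i
    simp only [Pi.add_apply, add_mul, Finset.sum_add_distrib]
  · rintro a x _ ⟨c, rfl⟩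
    refine ⟨a • c, ?_⟩
    funext i
    simp only [Pi.smul_apply, smul_eq_mul, Finset.mul_sum, mul_assoc]

omit [DecidableEq ι] in
/-- dimension count for a disjoint subspace -/
private theorem V3_dim {K : Type} [Field K] [Algebra ℂ K] (S : Submodule K (ι → K))
    (U U₁ : Submodule ℂ (ι → ℂ)) (h1 : U₁ ≤ U) (h2 : ∀ x ∈ S, x ∈ kSp K U₁ → x = 0) [DecidableEq ι] :
    Module.finrank K (S ⊓ kSp K U : Submodule K (ι → K)) + Module.finrank ℂ U₁ ≤
      Module.finrank ℂ U := by
  have h3 : kSp K U₁ ≤ kSp K U := by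
    refine Submodule.span_mono ?_
    rintro v ⟨u, hu, rfl⟩
    exact ⟨u, h1 hu, rfl⟩
  have h4 := Submodule.finrank_sup_add_finrank_inf_eq (S ⊓ kSp K U) (kSp K U₁)
  have h5 : (S ⊓ kSp K U) ⊓ kSp K U₁ = ⊥ := by
    rw [eq_bot_iff]
    intro x hx
    rw [Submodule.mem_bot]
    exact h2 x hx.1.1 hx.2
  rw [h5, finrank_bot, add_zero, kSp_finrank] at h4
  have h6 : (S ⊓ kSp K U) ⊔ kSp K U₁ ≤ kSp K U := sup_le inf_le_right h3
  have h7 := Submodule.finrank_mono h6
  rw [kSp_finrank] at h7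
  omega

theorem Loc.inf_finrank_le (h : Loc wt p Q N Ψ ε) {d : ℕ} (hd : N ^ d = 0) (F : DF)
    (U : Submodule ℂ (ι → ℂ)) (hU : ∀ u ∈ U, (fun b => conj (u b)) ∈ U) {ζ₁ : ℂ}
    (hζ : ‖qq ζ₁‖ < ε) :
    Module.finrank F.K (colSp p (F.fz d (nn N) (tA Ψ)) 0 ⊓ kSp F.K U :
      Submodule F.K (ι → F.K)) ≤
      Module.finrank ℂ (Fl p (GZ N Ψ ζ₁) 0 ⊓ U : Submodule ℂ (ι → ℂ)) ∧
    Module.finrank F.K (colSp p (F.fw d (nn N) (tA Ψ)) 0 ⊓ kSp F.K U :
      Submodule F.K (ι → F.K)) ≤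
      Module.finrank ℂ (Fl p (GZ N Ψ ζ₁) 0 ⊓ U : Submodule ℂ (ι → ℂ)) := by
  classical
  obtain ⟨W, hW⟩ : ∃ W : Submodule ℂ (ι → ℂ), W = Fl p (GZ N Ψ ζ₁) 0 ⊓ U := ⟨_, rfl⟩
  rw [← hW]
  have hWU : W ≤ U := by rw [hW]; exact inf_le_right
  obtain ⟨W', hW'⟩ := Submodule.exists_isCompl W
  obtain ⟨U', hU'⟩ : ∃ U' : Submodule ℂ (ι → ℂ), U' = W' ⊓ U := ⟨_, rfl⟩
  have hU'U : U' ≤ U := by rw [hU']; exact inf_le_right
  have hsup : W ⊔ U' = U := by
    apply le_antisymm (sup_le hWU hU'U)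
    intro v hv
    have h2 : v ∈ W ⊔ W' := by
      rw [hW'.sup_eq_top]
      trivial
    obtain ⟨x, hx, y, hy, rfl⟩ := Submodule.mem_sup.1 h2
    refine Submodule.mem_sup.2 ⟨x, hx, y, ?_, rfl⟩
    rw [hU']
    refine ⟨hy, ?_⟩
    have h3 := Submodule.sub_mem _ hv (hWU hx)
    rwa [add_sub_cancel_left] at h3
  have hdisj : ∀ v ∈ U', v ∈ W → v = 0 := fun v hv hv0 => by
    rw [hU'] at hv
    exact Submodule.disjoint_def.1 hW'.disjoint v hv0 hv.1
  have hinf : W ⊓ U' = ⊥ := by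
    rw [eq_bot_iff]
    intro v hv
    rw [Submodule.mem_bot]
    exact hdisj v hv.2 hv.1
  have hfin : Module.finrank ℂ W + Module.finrank ℂ U' = Module.finrank ℂ U := by
    have h2 := Submodule.finrank_sup_add_finrank_inf_eq W U'
    rw [hsup, hinf, finrank_bot, add_zero] at h2
    exact h2.symm
  have hbU := Module.finBasis ℂ U'
  obtain ⟨e, he⟩ : ∃ e : Fin (Module.finrank ℂ U') → ι → ℂ, e = fun b => (hbU b : ι → ℂ) :=
    ⟨_, rfl⟩
  have heU : ∀ b, e b ∈ U' := fun b => by rw [he]; exact (hbU b).2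
  have hspanU : Submodule.span ℂ (Set.range e) = U' := by
    have h2 := hbU.span_eq
    have h3 := congrArg (Submodule.map U'.subtype) h2
    rw [Submodule.map_span, Submodule.map_top, Submodule.range_subtype, ← Set.range_comp] at h3
    rw [he]
    exact h3
  have heind : LinearIndependent ℂ e := by
    rw [he]
    exact hbU.linearIndependent.map' U'.subtype (Submodule.ker_subtype U')
  have hinj : ∀ c : Fin (Module.finrank ℂ U') → ℂ,
      (∑ b, c b • e b) ∈ Fl p (GZ N Ψ ζ₁) 0 → c = 0 := by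
    intro c hc
    have h2 : (∑ b, c b • e b) ∈ U' := Submodule.sum_mem _ fun b _ =>
      Submodule.smul_mem _ _ (heU b)
    have h3 : (∑ b, c b • e b) ∈ W := by
      rw [hW]
      exact ⟨hc, hU'U h2⟩
    exact funext (Fintype.linearIndependent_iff.1 heind c (hdisj _ h2 h3))
  obtain ⟨e', he'⟩ := exists_PM_minor h hd (a := 0) e (h.inj_spread e hζ hinj)
  have hFD := h.fdata hd
  constructor
  · have h2 := V3_dim (colSp p (F.fz d (nn N) (tA Ψ)) 0) U U' hU'U (by
      intro x hx hx'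
      rw [← hspanU] at hx'
      obtain ⟨c, rfl⟩ := V3_sp e x hx'
      have h3 := F.PM_inj_z hFD e he' c hx
      rw [h3]
      funext i
      simp)
    omega
  · obtain ⟨e₁, he₁⟩ : ∃ e₁ : Fin (Module.finrank ℂ U') → ι → ℂ, e₁ = fun b i => conj (e b i) :=
      ⟨_, rfl⟩
    have hind₁ : LinearIndependent ℂ e₁ := by
      rw [Fintype.linearIndependent_iff]
      intro c hc b
      have h2 : ∑ b, conj (c b) • e b = 0 := by
        funext i
        have h3 := congrArg conj (congrFun hc i)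
        rw [Finset.sum_apply, map_sum, Pi.zero_apply, map_zero] at h3
        rw [Finset.sum_apply, Pi.zero_apply, ← h3]
        refine Finset.sum_congr rfl fun b _ => ?_
        rw [Pi.smul_apply, Pi.smul_apply, smul_eq_mul, smul_eq_mul, map_mul, he₁]
        simp only [Complex.conj_conj]
      have h3 := Fintype.linearIndependent_iff.1 heind (fun b => conj (c b)) h2 b
      have h4 : conj (c b) = 0 := h3
      rwa [map_eq_zero] at h4
    have hle : Submodule.span ℂ (Set.range e₁) ≤ U := by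
      rw [Submodule.span_le]
      rintro _ ⟨b, rfl⟩
      rw [he₁]
      exact hU _ (hU'U (heU b))
    have h2 := V3_dim (colSp p (F.fw d (nn N) (tA Ψ)) 0) U (Submodule.span ℂ (Set.range e₁)) hle (by
      intro x hx hx'
      obtain ⟨c, rfl⟩ := V3_sp e₁ x hx'
      have h3 := F.PM_inj_w hFD e he' c (by rw [he₁] at hx; exact hx)
      rw [h3]
      funext i
      simp)
    rw [finrank_span_eq_card hind₁, Fintype.card_fin] at h2
    omega

end Pool.Agent.LibZE25
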