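import Pool.Agent.LibZE25.Z22

/-!
# Dimension of the span of some columns of an invertible matrix
-/

namespace Pool.Agent.LibZE25

theorem colSp_finrank {K : Type} [Field K] {ι : Type} [Fintype ι] [DecidableEq ι] {p : ι → ℤ}
    {A : Matrix ι ι K} (hA : IsUnit A) (a : ℤ) :
    Module.finrank K (colSp p A a) = Fintype.card {j // a ≤ p j} := by
  have hli : LinearIndependent K A.col := Matrix.linearIndependent_cols_of_isUnit hA
  have hli' : LinearIndependent K (fun j : {j // a ≤ p j} => A.col j) :=
    hli.comp _ Subtype.val_injective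
  have h1 : colSp p A a = Submodule.span K (Set.range fun j : {j // a ≤ p j} => A.col j) := by
    unfold colSp
    congr 1
    ext v
    constructor
    · rintro ⟨j, hj, rfl⟩
      exact ⟨⟨j, hj⟩, rfl⟩
    · rintro ⟨j, rfl⟩
      exact ⟨j.1, j.2, rfl⟩
  rw [h1, finrank_span_eq_card hli']

end Pool.Agent.LibZE25
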