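import Pool.Agent.LibZE25.Z40

/-!
# The local monodromy kills real vectors which lie in `F^a` near a cusp, modulo lower weights
-/

open Matrix Complex Filter Topology

namespace Pool.Agent.LibZE25

open MW38 SP38

variable {ι : Type} [Fintype ι] [DecidableEq ι] {wt p : ι → ℤ} {Q N : Matrix ι ι ℝ}
  {Ψ : ℂ → Matrix ι ι ℂ} {ε : ℝ}

omit [DecidableEq ι] in
private theorem Y17_tC_mulVec (γ : Matrix ι ι ℝ) (u : ι → ℝ) :
    tC (γ *ᵥ u) = cm γ *ᵥ tC u := by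
  funext i
  simp [tC, cm, Matrix.mulVec, dotProduct]

/-- a vector valued polynomial which is in a subspace at all natural numbers -/
private theorem Y17_poly (X : Matrix ι ι ℂ) {d : ℕ} (hd : X ^ (d + 2) = 0) (w : ι → ℂ)
    (L : (ι → ℂ) →ₗ[ℂ] ℂ)
    (hL : ∀ k : ℕ, L (IsNilpotent.exp ((-(k : ℂ)) • X) *ᵥ w) = 0) : L (X *ᵥ w) = 0 := by
  set P : Polynomial ℂ := ∑ r ∈ Finset.range (d + 2),
    Polynomial.C (L (X ^ r *ᵥ w) / (r.factorial : ℂ)) * Polynomial.X ^ r with hP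
  have hev : ∀ k : ℕ, P.eval (-(k : ℂ)) = 0 := by
    intro k
    rw [← hL k, cus1_exp_eq X hd, Matrix.sum_mulVec, map_sum, hP, Polynomial.eval_finsetSum]
    refine Finset.sum_congr rfl fun r _ => ?_
    rw [Matrix.smul_mulVec, map_smul, smul_eq_mul, Polynomial.eval_mul, Polynomial.eval_C,
      Polynomial.eval_pow, Polynomial.eval_X]
    ring
  have hinf : Set.Infinite {x : ℂ | P.IsRoot x} := by
    refine Set.infinite_of_injective_forall_mem (f := fun k : ℕ => -(k : ℂ)) ?_ hev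
    intro a b hab
    exact Nat.cast_injective (neg_injective hab)
  have hP0 : P = 0 := Polynomial.eq_zero_of_infinite_isRoot P hinf
  have h1 : P.coeff 1 = L (X *ᵥ w) := by
    rw [hP, Polynomial.finsetSum_coeff]
    simp only [Polynomial.coeff_C_mul_X_pow]
    rw [Finset.sum_eq_single 1]
    · simp
    · intro b _ hb
      rw [if_neg (Ne.symm hb)]
    · intro h
      exact absurd (Finset.mem_range.2 (by omega)) h
  rw [← h1, hP0, Polynomial.coeff_zero]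

theorem Loc.N_mem (h : Loc wt p Q N Ψ ε) {u : ι → ℝ} {a : ℤ} {c : ℝ}
    (hu : ∀ ζ : ℂ, c < ζ.im → tC u ∈ Fl p (GZ N Ψ ζ) a) :
    ∃ c' : ℝ, ∀ ζ : ℂ, c' < ζ.im → tC (N *ᵥ u) ∈ Fl p (GZ N Ψ ζ) a := by
  obtain ⟨d, hd⟩ := cus1_cm_nil h.nil
  have hd2 : (cm N) ^ (d + 2) = 0 := by rw [pow_add, hd, zero_mul]
  refine ⟨max c (-Real.log ε / (2 * Real.pi)), fun ζ hζ => ?_⟩
  have hζc : c < ζ.im := lt_of_le_of_lt (le_max_left _ _) hζ
  have hζε : ‖qq ζ‖ < ε := by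
    have h1 : -Real.log ε / (2 * Real.pi) < ζ.im := lt_of_le_of_lt (le_max_right _ _) hζ
    rw [div_lt_iff₀ (by positivity)] at h1
    rw [norm_qq, ← Real.lt_log_iff_exp_lt h.eps]
    linarith
  have hG : IsUnit (GZ N Ψ ζ) := (h.mhs ζ hζε).unit
  rw [mem_Fl_iff hG]
  intro j hj
  rw [Y17_tC_mulVec]
  refine Y17_poly (cm N) hd2 (tC u)
    ((LinearMap.proj j).comp (Matrix.mulVecLin (GZ N Ψ ζ)⁻¹)) fun k => ?_
  have h2 : tC u ∈ Fl p (GZ N Ψ (ζ + k)) a := hu (ζ + k) (by simpa using hζc)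
  rw [mem_Fl_iff_exists] at h2
  obtain ⟨w, hw, hw'⟩ := h2
  have h3 : GZ N Ψ (ζ + k) = IsNilpotent.exp ((k : ℂ) • cm N) * GZ N Ψ ζ := by
    unfold GZ
    rw [qq_add_nat, add_comm ζ, cus1_exp_add (cus1_cm_nil h.nil), Matrix.mul_assoc]
  have h4 : IsNilpotent.exp ((-(k : ℂ)) • cm N) *ᵥ tC u = GZ N Ψ ζ *ᵥ w := by
    rw [hw', h3, ← Matrix.mulVec_mulVec, Matrix.mulVec_mulVec,
      ← cus1_exp_add (cus1_cm_nil h.nil), neg_add_cancel, zero_smul, IsNilpotent.exp_zero,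
      Matrix.one_mulVec]
  have h5 : IsNilpotent.exp ((-(k : ℂ)) • cm N) *ᵥ tC u ∈ Fl p (GZ N Ψ ζ) a := by
    rw [mem_Fl_iff_exists]
    exact ⟨w, hw, h4⟩
  exact (mem_Fl_iff hG _).1 h5 j hj

end Pool.Agent.LibZE25
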