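import Pool.Agent.LibZE25.ADefs

/-!
# Sums, constants, `Y`
-/

open PowerSeries Filter Topology

namespace Pool.Agent.LibZE25

variable {q : ℕ → ℂ}

theorem Z13_trun_add (P P' : ℕ → ℕ → Polynomial ℂ) (M : ℕ) (q : ℂ) :
    trun (fun i j => P i j + P' i j) M q = trun P M q + trun P' M q := by
  unfold trun
  rw [← Finset.sum_add_distrib]
  refine Finset.sum_congr rfl fun i _ => ?_
  rw [← Finset.sum_add_distrib]
  refine Finset.sum_congr rfl fun j _ => ?_
  rw [Polynomial.eval_add]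
  ring

theorem Z13_log (hq : Tendsto q atTop (𝓝 0)) (hq0 : ∀ n, q n ≠ 0) :
    ∀ᶠ n in atTop, 1 ≤ |Real.log ‖q n‖| := by
  have h : Tendsto (fun n => ‖q n‖) atTop (𝓝 0) := by simpa using hq.norm
  filter_upwards [h.eventually (gt_mem_nhds (Real.exp_pos (-1)))] with n hn
  have h0 : 0 < ‖q n‖ := norm_pos_iff.mpr (hq0 n)
  have h1 : Real.log ‖q n‖ < -1 := (Real.log_lt_iff_lt_exp h0).mpr hn
  rw [abs_of_neg (by linarith)]
  linarith

theorem Asym.add (hq : Tendsto q atTop (𝓝 0)) (hq0 : ∀ n, q n ≠ 0) {f g : RR} {F G : ℕ → ℂ}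
    (hf : Asym q f F) (hg : Asym q g G) : Asym q (f + g) fun n => F n + G n := by
  obtain ⟨P, hP, hb⟩ := hf
  obtain ⟨P', hP', hb'⟩ := hg
  refine ⟨fun i j => P i j + P' i j,
    fun i j => by rw [map_add, map_add, hP, hP', map_add], fun M => ?_⟩
  obtain ⟨C, D, h⟩ := hb M
  obtain ⟨C', D', h'⟩ := hb' M
  refine ⟨|C| + |C'|, D + D', ?_⟩
  filter_upwards [h, h', Z13_log hq hq0] with n hn hn' hl
  rw [Z13_trun_add]
  have e : F n + G n - (trun P M (q n) + trun P' M (q n)) =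
      (F n - trun P M (q n)) + (G n - trun P' M (q n)) := by ring
  rw [e]
  refine (norm_add_le _ _).trans ?_
  have hx : 0 ≤ ‖q n‖ ^ M := by positivity
  have h1 : |Real.log ‖q n‖| ^ D ≤ |Real.log ‖q n‖| ^ (D + D') :=
    pow_le_pow_right₀ hl (Nat.le_add_right _ _)
  have h2 : |Real.log ‖q n‖| ^ D' ≤ |Real.log ‖q n‖| ^ (D + D') :=
    pow_le_pow_right₀ hl (Nat.le_add_left _ _)
  have k1 : C * |Real.log ‖q n‖| ^ D ≤ |C| * |Real.log ‖q n‖| ^ (D + D') :=
    mul_le_mul (le_abs_self C) h1 (by positivity) (abs_nonneg _)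
  have k2 : C' * |Real.log ‖q n‖| ^ D' ≤ |C'| * |Real.log ‖q n‖| ^ (D + D') :=
    mul_le_mul (le_abs_self C') h2 (by positivity) (abs_nonneg _)
  calc ‖F n - trun P M (q n)‖ + ‖G n - trun P' M (q n)‖
      ≤ C * |Real.log ‖q n‖| ^ D * ‖q n‖ ^ M + C' * |Real.log ‖q n‖| ^ D' * ‖q n‖ ^ M :=
        add_le_add hn hn'
    _ ≤ |C| * |Real.log ‖q n‖| ^ (D + D') * ‖q n‖ ^ M +
          |C'| * |Real.log ‖q n‖| ^ (D + D') * ‖q n‖ ^ M :=
        add_le_add (mul_le_mul_of_nonneg_right k1 hx) (mul_le_mul_of_nonneg_right k2 hx)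
    _ = (|C| + |C'|) * |Real.log ‖q n‖| ^ (D + D') * ‖q n‖ ^ M := by ring

/-- the coefficient family of a polynomial in `Y` -/
noncomputable def Z13_P (p : Polynomial ℂ) (i j : ℕ) : Polynomial ℂ :=
  if i = 0 then (if j = 0 then p else 0) else 0

theorem Z13_coeff (p : Polynomial ℂ) (i j : ℕ) :
    coeff j (coeff i (C (C (algebraMap (Polynomial ℂ) kk p)) : RR)) =
      algebraMap (Polynomial ℂ) kk (Z13_P p i j) := by
  unfold Z13_P
  rw [coeff_C]
  split_ifs with h h'
  · rw [coeff_C, if_pos h']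
  · rw [coeff_C, if_neg h', map_zero]
  · rw [map_zero, map_zero]

theorem Z13_alg (c : ℂ) : algebraMap ℂ RR c =
    C (C (algebraMap (Polynomial ℂ) kk (Polynomial.C c))) := by
  rw [PowerSeries.algebraMap_apply, PowerSeries.algebraMap_apply, Polynomial.C_eq_algebraMap,
    ← IsScalarTower.algebraMap_apply ℂ (Polynomial ℂ) kk]

theorem Z13_trun_succ (p : Polynomial ℂ) (M : ℕ) (q : ℂ) :
    trun (Z13_P p) (M + 1) q = p.eval (yy q) := by
  unfold trun
  rw [Finset.sum_eq_single_of_mem 0 (Finset.mem_range.mpr (Nat.succ_pos M))]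
  · rw [Finset.sum_eq_single_of_mem 0 (Finset.mem_range.mpr (by omega))]
    · unfold Z13_P
      rw [if_pos rfl, if_pos rfl, pow_zero, pow_zero, mul_one, mul_one]
    · intro j _ hj
      unfold Z13_P
      rw [if_pos rfl, if_neg hj, Polynomial.eval_zero, zero_mul, zero_mul]
  · intro i _ hi
    refine Finset.sum_eq_zero fun j _ => ?_
    unfold Z13_P
    rw [if_neg hi, Polynomial.eval_zero, zero_mul, zero_mul]

theorem Z13_trun_zero (P : ℕ → ℕ → Polynomial ℂ) (q : ℂ) : trun P 0 q = 0 := by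
  unfold trun
  rw [Finset.range_zero, Finset.sum_empty]

theorem Z13_gen (p : Polynomial ℂ) (C₀ : ℝ) (D₀ : ℕ)
    (h : ∀ n, ‖p.eval (yy (q n))‖ ≤ C₀ * |Real.log ‖q n‖| ^ D₀) :
    Asym q (C (C (algebraMap (Polynomial ℂ) kk p)) : RR) fun n => p.eval (yy (q n)) := by
  refine ⟨Z13_P p, Z13_coeff p, fun M => ?_⟩
  cases M with
  | zero =>
    refine ⟨C₀, D₀, Filter.Eventually.of_forall fun n => ?_⟩
    rw [Z13_trun_zero, sub_zero, pow_zero, mul_one]
    exact h n
  | succ M =>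
    refine ⟨0, 0, Filter.Eventually.of_forall fun n => ?_⟩
    rw [Z13_trun_succ, sub_self, norm_zero, zero_mul, zero_mul]

theorem Asym.const (c : ℂ) : Asym q (algebraMap ℂ RR c) fun _ => c := by
  rw [Z13_alg]
  have h := Z13_gen (q := q) (Polynomial.C c) ‖c‖ 0
    (fun n => by rw [Polynomial.eval_C, pow_zero, mul_one])
  simpa only [Polynomial.eval_C] using h

theorem Asym.Y : Asym q YR fun n => yy (q n) := by
  have h := Z13_gen (q := q) Polynomial.X 2 1 (fun n => by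
    rw [Polynomial.eval_X, pow_one, yy, norm_mul, Complex.norm_real, Real.norm_eq_abs]
    norm_num)
  simp only [Polynomial.eval_X] at h
  exact h

theorem Asym.sum (hq : Tendsto q atTop (𝓝 0)) (hq0 : ∀ n, q n ≠ 0) {α : Type} (s : Finset α)
    {f : α → RR} {F : α → ℕ → ℂ} (h : ∀ a ∈ s, Asym q (f a) (F a)) :
    Asym q (∑ a ∈ s, f a) fun n => ∑ a ∈ s, F a n := by
  classical
  induction s using Finset.induction_on with
  | empty =>
    have h0 := Asym.const (q := q) 0
    rw [map_zero] at h0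
    simpa only [Finset.sum_empty] using h0
  | insert a s ha ih =>
    have h1 := Asym.add hq hq0 (h a (Finset.mem_insert_self a s))
      (ih fun b hb => h b (Finset.mem_insert_of_mem hb))
    simpa only [Finset.sum_insert ha] using h1

end Pool.Agent.LibZE25
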