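import Pool.Agent.LibZE25.Core3
import Pool.Agent.LibZE25.LocMain
import Pool.Agent.LibZE25.V1
import Pool.Agent.LibZE25.V2
import Pool.Agent.LibZE25.V3
import Pool.Agent.LibZE25.V6
import Pool.Agent.LibZE25.Y9
import Pool.Agent.LibZE25.Y17
import Pool.Agent.LibZE25.Z13

/-!
# The local theorem: Hodge classes near a puncture are real sections of `F^{1-m}`
-/

open Matrix Complex Filter Topology
open scoped ComplexConjugate

namespace Pool.Agent.LibZE25

open MW38 SP38

variable {ι : Type} [Fintype ι] [DecidableEq ι] {wt p : ι → ℤ} {Q N : Matrix ι ι ℝ}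
  {Ψ : ℂ → Matrix ι ι ℂ} {ε : ℝ}

/-- Hodge classes near a puncture are real sections of `F^{1-m}` -/
theorem Loc.main3 (h : Loc wt p Q N Ψ ε) (hwt : ∀ i, wt i ≤ 0)
    (hs : ∃ s : Equiv.Perm ι, ∀ j, wt (s j) = wt j ∧ p (s j) = wt j - p j)
    {m : ℕ} (hm : Fintype.card {i // wt i = 0} ≤ m)
    (hty : ∀ i, wt i < 0 → p i < -(m : ℤ) ∨ wt i - p i < -(m : ℤ))
    (E : Submodule ℝ (ι → ℝ))
    (hE : ∀ u : ι → ℝ, (∃ c : ℝ, ∀ ζ : ℂ, c < ζ.im → tC u ∈ Fl p (GZ N Ψ ζ) (1 - m)) → u ∈ E)
    (hE' : ∃ c : ℝ, ∀ u ∈ E, ∀ ζ : ℂ, c < ζ.im → tC u ∈ Fl p (GZ N Ψ ζ) (1 - m))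
    (hfr : ∃ᶠ ζ in strip, ∃ u : ι → ℝ, u ∉ E ∧ tC u ∈ Fl p (GZ N Ψ ζ) 0) : False := by
  have hcg : (strip : Filter ℂ).IsCountablyGenerated := by
    unfold strip
    infer_instance
  obtain ⟨cE, hcE⟩ := hE'
  obtain ⟨y, hy⟩ : ∃ y : ℝ, ∀ ζ : ℂ, y < ζ.im → ‖qq ζ‖ < ε := by
    refine ⟨-Real.log ε / (2 * Real.pi), fun ζ hζ => ?_⟩
    rw [norm_qq, ← Real.lt_log_iff_exp_lt h.eps]
    rw [div_lt_iff₀ (by positivity)] at hζ
    nlinarith
  have hstr : ∀ᶠ ζ in strip, ‖qq ζ‖ < ε := by
    unfold strip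
    rw [Filter.eventually_inf_principal, Filter.eventually_comap]
    filter_upwards [Filter.eventually_gt_atTop y] with x hx ζ hζ _
    exact hy ζ (by rw [hζ]; exact hx)
  obtain ⟨ζ, hζ, hRC⟩ := Filter.exists_seq_forall_of_frequently (hfr.and_eventually hstr)
  have hq : Tendsto (fun n => qq (ζ n)) atTop (𝓝 0) := tendsto_qq.comp hζ
  have hq0 : ∀ n, qq (ζ n) ≠ 0 := fun n => Complex.exp_ne_zero _
  obtain ⟨d, hd⟩ := h.nil
  obtain ⟨F, hF⟩ := exists_DF_seq hq hq0
  set f := Fintype.card {j // (0 : ℤ) ≤ p j} with hf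
  -- a basis
  have hb := Module.finBasis ℝ E
  set s := Module.finrank ℝ E with hsE
  set v : Fin s → ι → ℝ := fun b => (hb b : ι → ℝ) with hv
  have hspan : Submodule.span ℝ (Set.range v) = E := by
    have h2 := hb.span_eq
    have h3 := congrArg (Submodule.map E.subtype) h2
    rw [Submodule.map_span, Submodule.map_top, Submodule.range_subtype, ← Set.range_comp] at h3
    exact h3
  have hvind : LinearIndependent ℝ v :=
    hb.linearIndependent.map' E.subtype (Submodule.ker_subtype E)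
  have hvE : ∀ b, v b ∈ E := fun b => (hb b).2
  have hNE : ∀ u ∈ E, N *ᵥ u ∈ E := fun u hu => hE _ (h.N_mem (fun ζ hζ => hcE u hu ζ hζ))
  have htCind : LinearIndependent ℂ (fun b => tC (v b)) := by
    rw [Fintype.linearIndependent_iff] at hvind ⊢
    intro g hg
    have hre : ∑ b, (g b).re • v b = 0 := by
      funext i
      have h2 := congrArg Complex.re (congrFun hg i)
      simp only [Finset.sum_apply, Pi.smul_apply, smul_eq_mul, tC, Complex.re_sum,
        Complex.mul_re, Complex.ofReal_re, Complex.ofReal_im, mul_zero, sub_zero, Pi.zero_apply,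
        Complex.zero_re] at h2 ⊢
      exact h2
    have him : ∑ b, (g b).im • v b = 0 := by
      funext i
      have h2 := congrArg Complex.im (congrFun hg i)
      simp only [Finset.sum_apply, Pi.smul_apply, smul_eq_mul, tC, Complex.im_sum,
        Complex.mul_im, Complex.ofReal_re, Complex.ofReal_im, mul_zero, zero_add, Pi.zero_apply,
        Complex.zero_im] at h2 ⊢
      exact h2
    intro b
    exact Complex.ext (hvind _ hre b) (hvind _ him b)
  set Ec : Submodule ℂ (ι → ℂ) := Submodule.span ℂ (Set.range fun b => tC (v b)) with hEc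
  have hEcr : Module.finrank ℂ Ec = s := by
    rw [hEc, finrank_span_eq_card htCind, Fintype.card_fin]
  have htCE : ∀ u ∈ E, tC u ∈ Ec := by
    intro u hu
    rw [← hspan] at hu
    refine Submodule.span_induction (p := fun u _ => tC u ∈ Ec) ?_ ?_ ?_ ?_ hu
    · rintro _ ⟨b, rfl⟩
      exact Submodule.subset_span ⟨b, rfl⟩
    · have : tC (0 : ι → ℝ) = 0 := by
        funext i
        simp [tC]
      rw [this]
      exact Submodule.zero_mem _
    · intro x y _ _ hx hy
      have : tC (x + y) = tC x + tC y := by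
        funext i
        simp [tC]
      rw [this]
      exact Submodule.add_mem _ hx hy
    · intro a x _ hx
      have : tC (a • x) = (a : ℂ) • tC x := by
        funext i
        simp [tC]
      rw [this]
      exact Submodule.smul_mem _ _ hx
  -- the complexification of `E`
  have hU : VF p (nn N) (tA Ψ) (1 - m) ⊓ VFc p (nn N) (tA Ψ) (1 - m) = Ec := by
    apply le_antisymm
    · intro u hu
      obtain ⟨c₁, hc₁⟩ := h.of_formal hu.1
      obtain ⟨c₂, hc₂⟩ := h.of_formal hu.2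
      have h8 : u = tC (fun b => (u b).re) + I • tC (fun b => (u b).im) := by
        funext b
        simp only [tC, Pi.add_apply, Pi.smul_apply, smul_eq_mul]
        rw [mul_comm]
        exact (Complex.re_add_im (u b)).symm
      rw [h8]
      refine Submodule.add_mem _ (htCE _ (hE _ ⟨max c₁ c₂, fun ζ hζ => ?_⟩))
        (Submodule.smul_mem _ _ (htCE _ (hE _ ⟨max c₁ c₂, fun ζ hζ => ?_⟩)))
      · have e1 : tC (fun b => (u b).re) = (1 / 2 : ℂ) • (u + fun b => conj (u b)) := by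
          funext b
          simp only [tC, Pi.smul_apply, Pi.add_apply, smul_eq_mul, Complex.add_conj]
          push_cast
          ring
        rw [e1]
        exact Submodule.smul_mem _ _ (Submodule.add_mem _
          (hc₁ ζ (lt_of_le_of_lt (le_max_left _ _) hζ))
          (hc₂ ζ (lt_of_le_of_lt (le_max_right _ _) hζ)))
      · have e1 : tC (fun b => (u b).im) = (1 / (2 * I) : ℂ) • (u - fun b => conj (u b)) := by
          funext b
          simp only [tC, Pi.smul_apply, Pi.sub_apply, smul_eq_mul, Complex.sub_conj]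
          push_cast
          field_simp [Complex.I_ne_zero]
        rw [e1]
        exact Submodule.smul_mem _ _ (Submodule.sub_mem _
          (hc₁ ζ (lt_of_le_of_lt (le_max_left _ _) hζ))
          (hc₂ ζ (lt_of_le_of_lt (le_max_right _ _) hζ)))
    · rw [hEc, Submodule.span_le]
      rintro _ ⟨b, rfl⟩
      have h2 : FF p (nn N) (tA Ψ) (1 - m) (tC (v b)) :=
        h.to_formal ⟨cE, fun ζ hζ => hcE _ (hvE b) ζ hζ⟩
      refine ⟨h2, ?_⟩
      show FF p (nn N) (tA Ψ) (1 - m) fun a => conj (tC (v b) a)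
      have h3 : (fun a => conj (tC (v b) a)) = tC (v b) := by
        funext a
        simp [tC]
      rw [h3]
      exact h2
  -- the smallest intersection
  set t : ℕ → ℕ := fun n =>
    Module.finrank ℂ (Fl p (GZ N Ψ (ζ n)) 0 ⊓ Ec : Submodule ℂ (ι → ℂ)) with ht
  set n₀ := Function.argmin t with hn₀
  have htmin : ∀ n, t n₀ ≤ t n := fun n => Function.argmin_le t n
  set k := 2 * f + s - 2 * t n₀ with hk
  have hmin : ∀ (n : ℕ) (e : Fin k → ι)
      (c : Fin k → ({j // (0 : ℤ) ≤ p j} ⊕ {j // (0 : ℤ) ≤ p j}) ⊕ Fin s),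
      ((cat3 p (RZ N Ψ (ζ n)) ((RZ N Ψ (ζ n)).map (starRingEnd ℂ))
        (Matrix.of fun i b => (v b i : ℂ))).submatrix e c).det = 0 := by
    intro n e c
    obtain ⟨⟨u, hu, hu'⟩, hn⟩ := hRC n
    refine minors3_zero ⟨d, hd⟩ v (fun b => ?_) (u := u) ?_ hu' (t := t n₀) (htmin n) ?_ e c
    · rw [hspan]
      exact hNE _ (hvE b)
    · rw [hspan]
      exact hu
    · rw [hk]
      omega
  have h0 : ∀ (e : Fin k → ι)
      (c : Fin k → ({j // (0 : ℤ) ≤ p j} ⊕ {j // (0 : ℤ) ≤ p j}) ⊕ Fin s),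
      F.φ ((cat3 p (rz d (nn N) (tA Ψ)) (rw' d (nn N) (tA Ψ))
        (Matrix.of fun i b => algebraMap ℂ RR (tC (v b) i))).submatrix e c).det = 0 := by
    intro e c
    apply hF
    have h1 := Asym.det hq hq0
      (f := (cat3 p (rz d (nn N) (tA Ψ)) (rw' d (nn N) (tA Ψ))
        (Matrix.of fun i b => algebraMap ℂ RR (tC (v b) i))).submatrix e c)
      (F := fun n => (cat3 p (RZ N Ψ (ζ n)) ((RZ N Ψ (ζ n)).map (starRingEnd ℂ))
        (Matrix.of fun i b => (v b i : ℂ))).submatrix e c)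
      (by
        intro a b
        simp only [Matrix.submatrix_apply]
        rcases c b with (b | b) | b
        · exact (asym_rz hd h.analyticAt hq (e a) b).1
        · exact (asym_rz hd h.analyticAt hq (e a) b).2
        · exact Asym.const _)
    have h2 : (fun n => ((cat3 p (RZ N Ψ (ζ n)) ((RZ N Ψ (ζ n)).map (starRingEnd ℂ))
        (Matrix.of fun i b => (v b i : ℂ))).submatrix e c).det) = fun _ => 0 := by
      funext n
      exact hmin n e c
    rw [h2] at h1
    exact h1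
  have h1 : ∀ l < 0, ∃ e : {j : {i // wt i = l} // -(m : ℤ) ≤ p j} ⊕
        {j : {i // wt i = l} // -(m : ℤ) ≤ p j} → {i // wt i = l},
      F.φ ((cat (fun i : {i // wt i = l} => p i) (-(m : ℤ)) (bk wt l (rz d (nn N) (tA Ψ)))
        (bk wt l (rw' d (nn N) (tA Ψ)))).submatrix e id).det ≠ 0 := by
    intro l hl
    obtain ⟨y, hy⟩ := h.nondeg_blk hs (l := l) (k := -(m : ℤ)) (fun i hi => by
      have := hty i (by omega)
      rw [hi] at this
      exact this)
    obtain ⟨e, he⟩ := exists_minor_coeff (p := p) hd hy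
    exact ⟨e, F.φ_ne_zero he⟩
  -- the dimensions
  have hconj : ∀ u ∈ Ec, (fun b => conj (u b)) ∈ Ec := by
    intro u hu
    rw [← hU] at hu ⊢
    refine ⟨hu.2, ?_⟩
    show FF p (nn N) (tA Ψ) (1 - m) fun b => conj (conj (u b))
    have h4 : (fun b => conj (conj (u b))) = u := by
      funext b
      simp
    rw [h4]
    exact hu.1
  have hnv : ∀ b, (nn N).mulVec (tC (v b)) ∈ Ec := by
    intro b
    rw [nn, Matrix.smul_mulVec, ← Z33_tC]
    exact Submodule.smul_mem _ _ (htCE _ (hNE _ (hvE b)))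
  have hlt := F.finrank_sup3_lt (h.fdata hd) (fun b => tC (v b)) hnv h0
  obtain ⟨hz, hw⟩ := h.inf_finrank_le hd F Ec hconj (ζ₁ := ζ n₀) (hRC n₀).2
  obtain ⟨huz, huw⟩ := F.isUnit_fz (p := p) (h.fdata hd)
  have hfz := colSp_finrank (p := p) huz 0
  have hfw := colSp_finrank (p := p) huw 0
  have hkE : Module.finrank F.K (kSp F.K Ec) = s := by rw [kSp_finrank, hEcr]
  have hlt' := finrank_inf_sup (colSp p (F.fz d (nn N) (tA Ψ)) 0)
    (colSp p (F.fw d (nn N) (tA Ψ)) 0) (kSp F.K Ec) hz hw hlt (by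
      rw [hfz, hfw, hkE]
      have h2 : t n₀ = Module.finrank ℂ (Fl p (GZ N Ψ (ζ n₀)) 0 ⊓ Ec :
        Submodule ℂ (ι → ℂ)) := rfl
      rw [← h2]
      have h3 : 0 < k := lt_of_le_of_lt (Nat.zero_le _) hlt
      omega)
  have hle := F.core3 (h.fdata hd) hwt m hm h1
  rw [hU] at hle
  have h4 := Submodule.finrank_mono hle
  have h5 : F.LL p d (nn N) (tA Ψ) Ec 0 = (colSp p (F.fz d (nn N) (tA Ψ)) 0 ⊔ kSp F.K Ec) ⊓
      (colSp p (F.fw d (nn N) (tA Ψ)) 0 ⊔ kSp F.K Ec) := by
    unfold DF.LL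
    simp
  rw [h5] at h4
  omega

end Pool.Agent.LibZE25
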