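import Pool.Agent.LibZE25.Fin
import Pool.Agent.LibZE25.LocMain3

/-!
# Hodge classes outside of the real sections of `F^{1-m}`: accumulation at an interior point and at
a cusp
-/

open Matrix Complex Filter Topology
open UpperHalfPlane hiding I
open scoped ComplexConjugate

namespace Pool.Agent.LibZE25

open MW38 SP38 US38

variable {ι : Type} [Fintype ι] [DecidableEq ι] {wt p : ι → ℤ} {Q : Matrix ι ι ℝ}
  {Φ : ℂ → Matrix ι ι ℂ} {Δ : Subgroup (Matrix.SpecialLinearGroup (Fin 2) ℝ)}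
  {σ : Matrix.SpecialLinearGroup (Fin 2) ℝ} {m : ℕ}

/-- a real Hodge class which is not in `F^k` everywhere -/
def RK (p : ι → ℤ) (Φ : ℂ → Matrix ι ι ℂ) (k : ℤ) (G : Matrix ι ι ℂ) : Prop :=
  ∃ u : ι → ℝ, u ∉ EE p Φ k ∧ tC u ∈ Fl p G 0

/-- accumulation at an interior point -/
theorem no_interior3 (hv : VMHS wt p Q Φ) (hwt : ∀ i, wt i ≤ 0)
    (hs : ∃ s : Equiv.Perm ι, ∀ j, wt (s j) = wt j ∧ p (s j) = wt j - p j)
    (hm : Fintype.card {i // wt i = 0} ≤ m)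
    (hty : ∀ i, wt i < 0 → p i < -(m : ℤ) ∨ wt i - p i < -(m : ℤ))
    {z₀ : ℂ} (hz₀ : 0 < z₀.im) (hfr : ∃ᶠ z in 𝓝[≠] z₀, RK p Φ (1 - m) (Φ z)) : False := by
  have hpi := Real.pi_pos
  set r := z₀.im with hr
  have hrC : (r : ℂ) ≠ 0 := by exact_mod_cast hz₀.ne'
  have hball : ∀ q : ℂ, ‖q‖ < 1 → 0 < (z₀ + r * q).im := by
    intro q hq
    have h1 : |q.im| < 1 := lt_of_le_of_lt (Complex.abs_im_le_norm q) hq
    have h2 : (z₀ + r * q).im = r * (1 + q.im) := by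
      simp
      ring
    rw [h2]
    have := (abs_lt.1 h1).1
    exact mul_pos hz₀ (by linarith)
  obtain ⟨hcd, hGG⟩ := loc_interior hv hz₀ hball
  -- every point of a punctured disc is `z₀ + r qq ζ`
  have hpt : ∀ (c : ℝ) (z : ℂ), z ≠ z₀ → ‖z - z₀‖ < r * Real.exp (-(2 * Real.pi * c)) →
      ∃ ζ : ℂ, z = z₀ + r * qq ζ ∧ 0 ≤ ζ.re ∧ ζ.re ≤ 1 ∧ c < ζ.im := by
    intro c z hz hzc
    have hq : (z - z₀) / r ≠ 0 := div_ne_zero (sub_ne_zero.2 hz) hrC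
    obtain ⟨ζ, h1, h2, h3⟩ := glo1_qq_surj hq
    refine ⟨ζ, ?_, h2, h3, ?_⟩
    · rw [h1]
      field_simp
      ring
    · have h4 : ‖qq ζ‖ < Real.exp (-(2 * Real.pi * c)) := by
        rw [h1, norm_div, Complex.norm_real, Real.norm_eq_abs, abs_of_pos hz₀, div_lt_iff₀ hz₀]
        linarith
      rw [norm_qq, Real.exp_lt_exp] at h4
      have h5 : 2 * Real.pi * c < 2 * Real.pi * ζ.im := by linarith
      exact lt_of_mul_lt_mul_left h5 (by positivity)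
  have hfr' : ∃ᶠ ζ in strip, ∃ u : ι → ℝ, u ∉ EE p Φ (1 - m) ∧
      tC u ∈ Fl p (GZ 0 (fun q => Φ (z₀ + r * q)) ζ) 0 := by
    intro hcon
    apply hfr
    unfold strip at hcon
    rw [Filter.eventually_inf_principal, Filter.eventually_comap] at hcon
    obtain ⟨c, hc⟩ := Filter.eventually_atTop.1 hcon
    have hrpos : 0 < r * Real.exp (-(2 * Real.pi * c)) := by positivity
    have hnhds : ∀ᶠ z in 𝓝[≠] z₀, ‖z - z₀‖ < r * Real.exp (-(2 * Real.pi * c)) := by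
      apply eventually_nhdsWithin_of_eventually_nhds
      filter_upwards [Metric.ball_mem_nhds z₀ hrpos] with z hz
      rwa [Metric.mem_ball, dist_eq_norm] at hz
    filter_upwards [hnhds, self_mem_nhdsWithin] with z hz hz'
    obtain ⟨ζ, h1, h2, h3, h4⟩ := hpt c z hz' hz
    have := hc ζ.im h4.le ζ rfl ⟨h2, h3⟩
    intro he
    apply this
    rw [hGG, ← h1]
    exact he
  -- from a neighbourhood of the puncture to every point
  have hext : ∀ (e : ι → ℂ) (a : ℤ), (∃ c : ℝ, ∀ ζ : ℂ, c < ζ.im →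
      e ∈ Fl p (GZ 0 (fun q => Φ (z₀ + r * q)) ζ) a) → ∀ z : ℂ, 0 < z.im → e ∈ Fl p (Φ z) a := by
    rintro e a ⟨c, huc⟩
    set c' := max c 0 with hc'
    have hρ : 0 < r * Real.exp (-(2 * Real.pi * c')) := by positivity
    have hρr : r * Real.exp (-(2 * Real.pi * c')) ≤ r := by
      have : Real.exp (-(2 * Real.pi * c')) ≤ 1 := by
        rw [Real.exp_le_one_iff]
        have : 0 ≤ 2 * Real.pi * c' := by
          have : 0 ≤ c' := le_max_right _ _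
          positivity
        linarith
      nlinarith
    refine mem_of_open hv
      (U := Metric.ball z₀ (r * Real.exp (-(2 * Real.pi * c'))) ∩ {z₀}ᶜ)
      (Metric.isOpen_ball.inter isOpen_compl_singleton) ?_ ?_ ?_
    · refine ⟨z₀ + ((r * Real.exp (-(2 * Real.pi * c')) / 2 : ℝ) : ℂ), ?_, ?_⟩
      · rw [Metric.mem_ball, dist_eq_norm, add_sub_cancel_left, Complex.norm_real,
          Real.norm_eq_abs, abs_of_pos (by positivity)]
        linarith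
      · simp only [Set.mem_compl_iff, Set.mem_singleton_iff, add_eq_left]
        exact_mod_cast (by positivity : (r * Real.exp (-(2 * Real.pi * c')) / 2 : ℝ) ≠ 0)
    · rintro z ⟨hz, -⟩
      rw [Metric.mem_ball, dist_eq_norm] at hz
      have h1 : ‖z - z₀‖ < r := lt_of_lt_of_le hz hρr
      have h2 : |(z - z₀).im| < r := lt_of_le_of_lt (Complex.abs_im_le_norm _) h1
      have := (abs_lt.1 h2).1
      rw [Complex.sub_im] at this
      linarith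
    · rintro z ⟨hz, hz'⟩
      rw [Metric.mem_ball, dist_eq_norm] at hz
      obtain ⟨ζ, h1, h2, h3, h4⟩ := hpt c' z hz' hz
      have := huc ζ (lt_of_le_of_lt (le_max_left _ _) h4)
      rw [hGG, ← h1] at this
      exact this
  -- and back
  have hback : ∀ (e : ι → ℂ) (a : ℤ), (∀ z : ℂ, 0 < z.im → e ∈ Fl p (Φ z) a) →
      ∀ ζ : ℂ, 0 < ζ.im → e ∈ Fl p (GZ 0 (fun q => Φ (z₀ + r * q)) ζ) a := by
    intro e a he ζ hζ
    rw [hGG]
    refine he _ (hball _ ?_)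
    rw [norm_qq, Real.exp_lt_one_iff]
    nlinarith
  refine hcd.main3 hwt hs hm hty (EE p Φ (1 - m)) ?_ ?_ hfr'
  · intro u hu τ
    exact hext _ _ hu _ τ.im_pos
  · exact ⟨0, fun u hu => hback _ _ fun z hz => hu ⟨z, hz⟩⟩

/-- transport of new Hodge classes by the monodromy -/
theorem RK_smul (hd : Desc wt p Q Φ Δ) {δ : Matrix.SpecialLinearGroup (Fin 2) ℝ} (hδ : δ ∈ Δ)
    (τ : ℍ) (h : RK p Φ (1 - m) (Φ (τ : ℂ))) : RK p Φ (1 - m) (Φ ((δ • τ : ℍ) : ℂ)) := by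
  obtain ⟨γ, hγ, hF⟩ := hd δ hδ
  obtain ⟨u, hu0, hu⟩ := h
  have hdet : IsUnit (cm γ).det := by
    have h1 : (cm γ).det = ((γ.det : ℝ) : ℂ) := by
      have := RingHom.map_det (Complex.ofRealHom) γ
      exact this.symm
    rw [h1]
    have := (Matrix.isUnit_iff_isUnit_det _).1 hγ.1
    exact this.map Complex.ofRealHom
  refine ⟨γ *ᵥ u, fun h1 => hu0 fun τ' => ?_, ?_⟩
  · have h2 := h1 (δ • τ')
    rw [hF, tC_mulVec] at h2
    obtain ⟨v, hv, hv'⟩ := h2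
    have h3 : v = tC u := by
      have h4 := congrArg (fun x => (cm γ)⁻¹ *ᵥ x) hv'
      simp only [Matrix.mulVecLin_apply, Matrix.mulVec_mulVec, Matrix.nonsing_inv_mul _ hdet,
        Matrix.one_mulVec] at h4
      exact h4
    rw [← h3]
    exact hv
  · rw [hF, tC_mulVec]
    exact Submodule.mem_map_of_mem (f := Matrix.mulVecLin (cm γ)) hu

/-- accumulation at a cusp -/
theorem no_cusp3 (hv : VMHS wt p Q Φ) (hd : Desc wt p Q Φ Δ) (ha : Adm wt p Q Φ Δ σ)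
    (hwt : ∀ i, wt i ≤ 0)
    (hs : ∃ s : Equiv.Perm ι, ∀ j, wt (s j) = wt j ∧ p (s j) = wt j - p j)
    (hm : Fintype.card {i // wt i = 0} ≤ m)
    (hty : ∀ i, wt i < 0 → p i < -(m : ℤ) ∨ wt i - p i < -(m : ℤ))
    (hfr : ∀ y : ℝ, ∃ τ : ℍ, y < τ.im ∧ RK p Φ (1 - m) (Φ ((σ • τ : ℍ) : ℂ))) : False := by
  obtain ⟨h, N, Ψ, ε, hh, hmem, hcd, hτ⟩ := loc_cusp hv ha
  -- the open set
  obtain ⟨y, hy⟩ : ∃ y : ℝ, ∀ ζ : ℂ, y < ζ.im → ‖qq ζ‖ < ε := by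
    refine ⟨-Real.log ε / (2 * Real.pi), fun ζ hζ => ?_⟩
    rw [norm_qq, ← Real.lt_log_iff_exp_lt hcd.eps]
    rw [div_lt_iff₀ (by positivity)] at hζ
    nlinarith
  have hfreq : ∃ᶠ ζ in strip, ∃ u : ι → ℝ, u ∉ EE p Φ (1 - m) ∧ tC u ∈ Fl p (GZ N Ψ ζ) 0 := by
    intro hcon
    obtain ⟨y', hy'⟩ := glo2_strip hcon
    obtain ⟨τ, h1, h2⟩ := hfr ((max y y') * h)
    obtain ⟨δ, τ', hδ, h3, h4, h5, h6⟩ := glo2_move hh hmem τ
    have h7 : max y y' < ((τ' : ℂ) / h).im := by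
      rw [Complex.div_ofReal_im, UpperHalfPlane.coe_im, h4, lt_div_iff₀ hh]
      exact h1
    apply hy' _ ((le_max_right _ _).trans h7.le) h5 h6
    have h10 : RK p Φ (1 - m) (Φ ((σ • τ' : ℍ) : ℂ)) := by
      rw [← h3]
      exact RK_smul hd hδ _ h2
    obtain ⟨r, hr0, hr⟩ := h10
    refine ⟨r, hr0, ?_⟩
    rw [← hτ τ' (hy _ (lt_of_le_of_lt (le_max_left _ _) h7)) 0]
    exact hr
  -- from a neighbourhood of the cusp to every point
  have hext : ∀ (e : ι → ℂ) (a : ℤ), (∃ c : ℝ, ∀ ζ : ℂ, c < ζ.im → e ∈ Fl p (GZ N Ψ ζ) a) →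
      ∀ z : ℂ, 0 < z.im → e ∈ Fl p (Φ z) a := by
    rintro e a ⟨c, huc⟩
    set Y : ℝ := max (max c y) 0 with hY
    set U : Set ℂ := {z : ℂ | ∃ hz : 0 < z.im, Y * h < (σ⁻¹ • (⟨z, hz⟩ : ℍ) : ℍ).im} with hU
    have hpt : ∀ z ∈ U, e ∈ Fl p (Φ z) a := by
      rintro z ⟨hz, h1⟩
      set τ : ℍ := σ⁻¹ • (⟨z, hz⟩ : ℍ) with hτdef
      have h2 : σ • τ = ⟨z, hz⟩ := by rw [hτdef, smul_inv_smul]
      have h3 : Y < ((τ : ℂ) / h).im := by
        rw [Complex.div_ofReal_im, UpperHalfPlane.coe_im, lt_div_iff₀ hh]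
        exact h1
      have hyY : y ≤ Y := (le_max_right c y).trans (le_max_left _ _)
      have hcY : c ≤ Y := (le_max_left c y).trans (le_max_left _ _)
      have h4 := hy _ (lt_of_le_of_lt hyY h3)
      have h5 := huc _ (lt_of_le_of_lt hcY h3)
      have h6 := hτ τ h4 a
      rw [h2] at h6
      rw [← h6] at h5
      exact h5
    have hsub : ∀ z ∈ U, 0 < z.im := fun z hz => hz.1
    have hne : U.Nonempty := by
      have hpos : 0 < Y * h + 1 := by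
        have : 0 ≤ Y := le_max_right _ _
        positivity
      set τ : ℍ := ⟨(Y * h + 1) * Complex.I, by simpa using hpos⟩ with hτdef
      refine ⟨((σ • τ : ℍ) : ℂ), (σ • τ : ℍ).im_pos, ?_⟩
      have h1 : (⟨((σ • τ : ℍ) : ℂ), (σ • τ : ℍ).im_pos⟩ : ℍ) = σ • τ := rfl
      rw [h1, inv_smul_smul]
      have h2 : τ.im = Y * h + 1 := by
        rw [← UpperHalfPlane.coe_im, hτdef]
        simp
      rw [h2]
      linarith
    have hopen : IsOpen U := by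
      have h1 : Continuous fun τ : ℍ => (σ⁻¹ • τ : ℍ).im :=
        UpperHalfPlane.continuous_im.comp (continuous_const_smul σ⁻¹)
      have h2 : IsOpen {τ : ℍ | Y * h < (σ⁻¹ • τ : ℍ).im} := isOpen_lt continuous_const h1
      have h3 : U = ((↑) : ℍ → ℂ) '' {τ : ℍ | Y * h < (σ⁻¹ • τ : ℍ).im} := by
        ext z
        constructor
        · rintro ⟨hz, h4⟩
          exact ⟨⟨z, hz⟩, h4, rfl⟩
        · rintro ⟨τ, h4, rfl⟩
          exact ⟨τ.im_pos, h4⟩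
      rw [h3]
      exact UpperHalfPlane.isOpenEmbedding_coe.isOpenMap _ h2
    exact mem_of_open hv hopen hne hsub hpt
  -- and back
  have hback : ∀ ζ : ℂ, max y 0 < ζ.im → ∃ z : ℂ, 0 < z.im ∧
      ∀ a, Fl p (Φ z) a = Fl p (GZ N Ψ ζ) a := by
    intro ζ hζ
    have h0 : 0 < ζ.im := lt_of_le_of_lt (le_max_right _ _) hζ
    have hpos : 0 < ((h : ℂ) * ζ).im := by
      simpa using mul_pos hh h0
    have hhC : (h : ℂ) ≠ 0 := by exact_mod_cast hh.ne'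
    have h1 : ((⟨(h : ℂ) * ζ, hpos⟩ : ℍ) : ℂ) / h = ζ := by
      show ((h : ℂ) * ζ) / h = ζ
      field_simp
    refine ⟨((σ • (⟨(h : ℂ) * ζ, hpos⟩ : ℍ) : ℍ) : ℂ), UpperHalfPlane.im_pos _, fun a => ?_⟩
    have h2 := hτ ⟨(h : ℂ) * ζ, hpos⟩ (by
      rw [h1]
      exact hy _ (lt_of_le_of_lt (le_max_left _ _) hζ)) a
    rw [h1] at h2
    exact h2
  refine hcd.main3 hwt hs hm hty (EE p Φ (1 - m)) ?_ ?_ hfreq
  · intro u hu τ
    exact hext _ _ hu _ τ.im_pos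
  · refine ⟨max y 0, fun u hu ζ' hζ' => ?_⟩
    obtain ⟨z', hz', hFl'⟩ := hback ζ' hζ'
    rw [← hFl']
    exact hu ⟨z', hz'⟩

theorem finite_compact3 (hv : VMHS wt p Q Φ) (hwt : ∀ i, wt i ≤ 0)
    (hs : ∃ s : Equiv.Perm ι, ∀ j, wt (s j) = wt j ∧ p (s j) = wt j - p j)
    (hm : Fintype.card {i // wt i = 0} ≤ m)
    (hty : ∀ i, wt i < 0 → p i < -(m : ℤ) ∨ wt i - p i < -(m : ℤ))
    {K : Set ℍ} (hK : IsCompact K) :
    {τ : ℍ | τ ∈ K ∧ RK p Φ (1 - m) (Φ (τ : ℂ))}.Finite := by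
  by_contra hinf
  obtain ⟨x, _, hx⟩ := Set.Infinite.exists_accPt_of_subset_isCompact hinf hK (fun τ hτ => hτ.1)
  apply no_interior3 hv hwt hs hm hty (z₀ := (x : ℂ)) x.im_pos
  rw [accPt_iff_frequently_nhdsNE] at hx
  have ht : Tendsto ((↑) : ℍ → ℂ) (𝓝[≠] x) (𝓝[≠] (x : ℂ)) := by
    apply tendsto_nhdsWithin_of_tendsto_nhds_of_eventually_within
    · exact (UpperHalfPlane.continuous_coe.tendsto x).mono_left nhdsWithin_le_nhds
    · filter_upwards [self_mem_nhdsWithin] with τ hτ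
      intro he
      apply hτ
      exact UpperHalfPlane.ext (Set.mem_singleton_iff.mp he)
  exact ht.frequently (hx.mono fun τ hτ => hτ.2)

/-- finitely many points with a new real Hodge class -/
theorem finite_points3 (hv : VMHS wt p Q Φ) (hd : Desc wt p Q Φ Δ)
    {C : Set (Matrix.SpecialLinearGroup (Fin 2) ℝ)} (hfin : FiniteType Δ C)
    (ha : ∀ σ ∈ C, Adm wt p Q Φ Δ σ) (hwt : ∀ i, wt i ≤ 0)
    (hs : ∃ s : Equiv.Perm ι, ∀ j, wt (s j) = wt j ∧ p (s j) = wt j - p j)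
    (hm : Fintype.card {i // wt i = 0} ≤ m)
    (hty : ∀ i, wt i < 0 → p i < -(m : ℤ) ∨ wt i - p i < -(m : ℤ)) :
    ∃ S : Set ℍ, S.Finite ∧ ∀ τ : ℍ, RK p Φ (1 - m) (Φ (τ : ℂ)) → ∃ δ ∈ Δ, δ • τ ∈ S := by
  obtain ⟨hC, K, c, hK, hc, hcov⟩ := hfin
  have hcusp : ∀ σ ∈ C, ∃ h y : ℝ, 0 < h ∧ σ * trans h * σ⁻¹ ∈ Δ ∧
      ∀ τ : ℍ, RK p Φ (1 - m) (Φ ((σ • τ : ℍ) : ℂ)) → τ.im ≤ y := by
    intro σ hσ
    obtain ⟨h, N, Ψ, ε, hh, hmem, _⟩ := loc_cusp hv (ha σ hσ)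
    by_contra hcon
    apply no_cusp3 hv hd (ha σ hσ) hwt hs hm hty
    intro y
    by_contra h2
    apply hcon
    refine ⟨h, y, hh, hmem, fun τ hτ => ?_⟩
    by_contra h3
    exact h2 ⟨τ, not_le.mp h3, hτ⟩
  choose! h y hh hmem hy using hcusp
  set K' : Set ℍ := K ∪ ⋃ σ ∈ C, (fun τ : ℍ => σ • τ) ''
    {τ : ℍ | (0 ≤ ((τ : ℂ)).re ∧ ((τ : ℂ)).re ≤ h σ) ∧ c ≤ τ.im ∧ τ.im ≤ y σ} with hK'
  have hK'c : IsCompact K' := by
    apply hK.union
    apply hC.isCompact_biUnion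
    intro σ _
    exact (glo3_box_compact (h σ) c (y σ) hc).image (continuous_const_smul σ)
  refine ⟨{τ : ℍ | τ ∈ K' ∧ RK p Φ (1 - m) (Φ (τ : ℂ))},
    finite_compact3 hv hwt hs hm hty hK'c, ?_⟩
  intro τ hτ
  obtain ⟨δ, hδ, h1⟩ := hcov τ
  rcases h1 with h1 | ⟨σ, hσ, h1⟩
  · exact ⟨δ, hδ, Or.inl h1, RK_smul hd hδ τ hτ⟩
  · set τ1 : ℍ := σ⁻¹ • (δ • τ) with hτ1
    obtain ⟨δ', τ', hδ', h3, h4, h5, h6⟩ := glo2_move (hh σ hσ) (hmem σ hσ) τ1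
    have h7 : σ • τ1 = δ • τ := by rw [hτ1, smul_inv_smul]
    have h8 : RK p Φ (1 - m) (Φ ((σ • τ' : ℍ) : ℂ)) := by
      rw [← h3, h7]
      exact RK_smul hd hδ' _ (RK_smul hd hδ τ hτ)
    refine ⟨δ' * δ, Δ.mul_mem hδ' hδ, ?_⟩
    rw [mul_smul, ← h7, h3]
    refine ⟨Or.inr ?_, h8⟩
    rw [Set.mem_iUnion₂]
    refine ⟨σ, hσ, τ', ⟨⟨?_, ?_⟩, ?_, hy σ hσ τ' h8⟩, rfl⟩
    · rw [Complex.div_ofReal_re] at h5
      have := mul_nonneg h5 (hh σ hσ).le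
      rwa [div_mul_cancel₀ _ (hh σ hσ).ne'] at this
    · rw [Complex.div_ofReal_re, div_le_one (hh σ hσ)] at h6
      exact h6
    · rw [h4]
      exact h1.le

end Pool.Agent.LibZE25
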