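import Pool.Agent.LibMW38.Defs

/-!
# Real Hodge classes of mixed variations (MP_eeb1a4_ag): vectors whose image in `Gr_0` is
invariant under the monodromy
-/

open Matrix Complex
open UpperHalfPlane hiding I

namespace Pool.Agent.LibZE25

open MW38 SP38

variable {ι : Type} [Fintype ι] [DecidableEq ι]

/-- the variation descends to `Δ \ ℍ`, and the image of `u` in `Gr_0` is invariant under the
monodromy -/
def DescU (wt p : ι → ℤ) (Q : Matrix ι ι ℝ) (Φ : ℂ → Matrix ι ι ℂ)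
    (Δ : Subgroup (Matrix.SpecialLinearGroup (Fin 2) ℝ)) (u : ι → ℝ) : Prop :=
  ∀ δ ∈ Δ, ∃ γ : Matrix ι ι ℝ, Isom wt Q γ ∧ (∀ i, wt i = 0 → (γ *ᵥ u) i = u i) ∧
    ∀ (τ : ℍ) (a : ℤ),
      Fl p (Φ ((δ • τ : ℍ) : ℂ)) a = (Fl p (Φ (τ : ℂ)) a).map (Matrix.mulVecLin (cm γ))

/-- admissibility at the cusp `σ ∞` (see `MW38.Adm`), and the image of `u` in `Gr_0` is killed by
the logarithm `N` of the monodromy -/
def AdmU (wt p : ι → ℤ) (Q : Matrix ι ι ℝ) (Φ : ℂ → Matrix ι ι ℂ)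
    (Δ : Subgroup (Matrix.SpecialLinearGroup (Fin 2) ℝ))
    (σ : Matrix.SpecialLinearGroup (Fin 2) ℝ) (u : ι → ℝ) : Prop :=
  ∃ (h : ℝ) (N : Matrix ι ι ℝ) (Ψ : ℂ → Matrix ι ι ℂ) (ε : ℝ),
    0 < h ∧ σ * trans h * σ⁻¹ ∈ Δ ∧ 0 < ε ∧ IsNilpotent N ∧ Tri wt N ∧
    Isom wt Q (IsNilpotent.exp N) ∧ (∀ i, wt i = 0 → (N *ᵥ u) i = 0) ∧
    (∀ i j, DifferentiableOn ℂ (fun q => Ψ q i j) (Metric.ball 0 ε)) ∧
    (∀ q ∈ Metric.ball (0 : ℂ) ε, IsUnit (Ψ q) ∧ Tri wt (Ψ q)) ∧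
    ∀ τ : ℍ, ‖Complex.exp (2 * Real.pi * I * ((τ : ℂ) / h))‖ < ε → ∀ a,
      Fl p (Φ ((σ • τ : ℍ) : ℂ)) a = Fl p (IsNilpotent.exp (((τ : ℂ) / h) • cm N) *
        Ψ (Complex.exp (2 * Real.pi * I * ((τ : ℂ) / h)))) a

end Pool.Agent.LibZE25
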