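import Pool.Agent.LibZE25.FPg
import Pool.Agent.LibZE25.GloI3
import Pool.Agent.LibZE25.UDefs

/-!
# Theorem H: outside finitely many points every real Hodge class is a section of `F^{1-m}`
-/

open Matrix Complex Filter Topology
open UpperHalfPlane hiding I
open scoped ComplexConjugate

namespace Pool.Agent.LibZE25

open MW38 SP38 US38

variable {κ : Type} [Fintype κ] {ι : Type} [Fintype ι] [DecidableEq ι] {wt p : ι → ℤ}
  {Q : Matrix ι ι ℝ} {Φ : ℂ → Matrix ι ι ℂ}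
  {Δ : Subgroup (Matrix.SpecialLinearGroup (Fin 2) ℝ)}
  {σ : κ → Matrix.SpecialLinearGroup (Fin 2) ℝ} {h : κ → ℝ} {D : Set ℍ} {m : ℕ}

/-- a curve is of finite type -/
theorem finiteType_of_curve' (hc : IsCurve Δ σ h D) : FiniteType Δ (Set.range σ) := by
  obtain ⟨K, hK, hcov⟩ := hc.cpt
  refine ⟨Set.finite_range σ, K, 1, hK, one_pos, fun τ => ?_⟩
  obtain ⟨δ, hδ, h1⟩ := hcov τ
  refine ⟨δ, hδ, h1.imp id ?_⟩
  rintro ⟨i, hi⟩
  exact ⟨σ i, ⟨i, rfl⟩, hi⟩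

/-- the monodromy fixes the real sections of `F^{1-m}` with invariant image in `Gr_0` -/
theorem DescU.descE (hv : VMHS wt p Q Φ) (hwt : ∀ i, wt i ≤ 0)
    (hty : ∀ i, wt i < 0 → p i < -(m : ℤ) ∨ wt i - p i < -(m : ℤ)) {u : ι → ℝ}
    (hd : DescU wt p Q Φ Δ u) (hu : u ∈ EE p Φ (1 - m)) : DescE wt p Q Φ (tC u) Δ := by
  intro δ hδ
  obtain ⟨γ, hγ, hT, hF⟩ := hd δ hδ
  refine ⟨γ, hγ, ?_, hF⟩
  have h3 : γ *ᵥ u - u ∈ EE p Φ (1 - m) := Submodule.sub_mem _ (EE_stable hF hu) hu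
  have h4 := rigid_neg (hv.mhs _ (UpperHalfPlane.I : ℍ).im_pos) hwt hty
    (h3 UpperHalfPlane.I) (fun i hi => by
      rw [Pi.sub_apply, hT i hi, sub_self])
  rw [← tC_mulVec, sub_eq_zero.1 h4]

/-- the local monodromy kills the real sections of `F^{1-m}` with invariant image in `Gr_0` -/
theorem AdmU.admE {σ : Matrix.SpecialLinearGroup (Fin 2) ℝ} (hv : VMHS wt p Q Φ)
    (hwt : ∀ i, wt i ≤ 0)
    (hty : ∀ i, wt i < 0 → p i < -(m : ℤ) ∨ wt i - p i < -(m : ℤ)) {u : ι → ℝ}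
    (ha : AdmU wt p Q Φ Δ σ u) (hu : u ∈ EE p Φ (1 - m)) :
    AdmE wt p Q Φ (tC u) Δ σ := by
  obtain ⟨h, N, Ψ, ε, hh, hmem, hε, hnil, htri, hisom, hT, hP, hunit, hmain⟩ := ha
  have hmain' : ∀ τ : ℍ, ‖qq ((τ : ℂ) / h)‖ < ε →
        ∀ a, Fl p (Φ ((σ • τ : ℍ) : ℂ)) a = Fl p (GZ N Ψ ((τ : ℂ) / h)) a :=
    fun τ hτ => hmain τ hτ
  have hcd := loc_cusp_of hv hh hε hnil htri hisom hP hunit hmain'
  refine ⟨h, N, Ψ, ε, hh, hmem, hε, hnil, htri, hisom, ?_, hP, hunit, hmain⟩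
  obtain ⟨y, hy⟩ : ∃ y : ℝ, ∀ ζ : ℂ, y < ζ.im → ‖qq ζ‖ < min ε 1 := by
    refine ⟨-Real.log (min ε 1) / (2 * Real.pi), fun ζ hζ => ?_⟩
    rw [norm_qq, ← Real.lt_log_iff_exp_lt hcd.eps]
    rw [div_lt_iff₀ (by positivity)] at hζ
    nlinarith
  obtain ⟨c', hc'⟩ := hcd.N_mem (u := u) (a := 1 - m) (c := max y 0) (by
    intro ζ hζ
    have h0 : 0 < ζ.im := lt_of_le_of_lt (le_max_right _ _) hζ
    have hpos : 0 < ((h : ℂ) * ζ).im := by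
      simpa using mul_pos hh h0
    have hhC : (h : ℂ) ≠ 0 := by exact_mod_cast hh.ne'
    have h1 : ((⟨(h : ℂ) * ζ, hpos⟩ : ℍ) : ℂ) / h = ζ := by
      show ((h : ℂ) * ζ) / h = ζ
      field_simp
    have h2 := hmain' ⟨(h : ℂ) * ζ, hpos⟩ (by
      rw [h1]
      exact (hy _ (lt_of_le_of_lt (le_max_left _ _) hζ)).trans_le (min_le_left _ _)) (1 - m)
    rw [h1] at h2
    rw [← h2]
    exact hu _)
  set ζ : ℂ := ((max c' y + 1 : ℝ) : ℂ) * I with hζ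
  have hζim : ζ.im = max c' y + 1 := by simp [hζ]
  have h3 := hc' ζ (by
    rw [hζim]
    have := le_max_left c' y
    linarith)
  have h4 := hcd.mhs ζ (hy ζ (by
    rw [hζim]
    have := le_max_right c' y
    linarith))
  have h5 := rigid_neg h4 hwt hty h3 hT
  rw [← tC_mulVec, h5]
  funext i
  simp [tC]

/-- outside finitely many points every real Hodge class is a section of `F^{1-m}`, and a global
Hodge class if its image in `Gr_0` is invariant -/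
theorem main3 (hc : IsCurve Δ σ h D) (hv : VMHS wt p Q Φ) (hd : Desc wt p Q Φ Δ)
    (ha : ∀ i, Adm wt p Q Φ Δ (σ i)) (hwt : ∀ i, wt i ≤ 0)
    (hs : ∃ s : Equiv.Perm ι, ∀ j, wt (s j) = wt j ∧ p (s j) = wt j - p j)
    (hm : Fintype.card {i // wt i = 0} ≤ m)
    (hty : ∀ i, wt i < 0 → p i < -(m : ℤ) ∨ wt i - p i < -(m : ℤ)) :
    ∃ S : Set ℍ, S.Finite ∧ ∀ (τ : ℍ) (u : ι → ℝ), tC u ∈ Fl p (Φ (τ : ℂ)) 0 →
      (∃ δ ∈ Δ, δ • τ ∈ S) ∨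
      ((∀ τ' : ℍ, tC u ∈ Fl p (Φ (τ' : ℂ)) (1 - m)) ∧
        (DescU wt p Q Φ Δ u → (∀ i, AdmU wt p Q Φ Δ (σ i) u) →
          ∀ τ' : ℍ, tC u ∈ Fl p (Φ (τ' : ℂ)) 0)) := by
  obtain ⟨S, hS, h1⟩ := finite_points3 hv hd (finiteType_of_curve' hc)
    (by
      rintro _ ⟨i, rfl⟩
      exact ha i) hwt hs hm hty
  refine ⟨S, hS, fun τ u hu => ?_⟩
  by_cases h2 : u ∈ EE p Φ (1 - m)
  · refine Or.inr ⟨h2, fun hdu hau τ' => ?_⟩
    exact fp_global hc hv hwt hs (hdu.descE hv hwt hty h2)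
      (fun i => (hau i).admE hv hwt hty h2) (fun z hz => h2 ⟨z, hz⟩) 0 τ.im_pos hu _ τ'.im_pos
  · exact Or.inl (h1 τ ⟨u, h2, hu⟩)

end Pool.Agent.LibZE25
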