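import Pool.Agent.LibZE25.ALoc
import Pool.Agent.LibZE25.Z21
import Pool.Agent.LibZE25.Z40
import Pool.Agent.LibZE25.Z42

/-!
# Independence modulo `F^a` at one point gives independence at points near the puncture
-/

open Matrix Complex Filter Topology

namespace Pool.Agent.LibZE25

open MW38 SP38

variable {ι : Type} [Fintype ι] [DecidableEq ι] {wt p : ι → ℤ} {Q N : Matrix ι ι ℝ}
  {Ψ : ℂ → Matrix ι ι ℂ} {ε : ℝ}

theorem V4_exp_diff {N : Matrix ι ι ℝ} (hN : IsNilpotent N) (i j : ι) :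
    Differentiable ℂ fun ζ : ℂ => IsNilpotent.exp (ζ • cm N) i j := by
  obtain ⟨n, hn⟩ := cus1_cm_nil hN
  have h1 : (fun ζ : ℂ => IsNilpotent.exp (ζ • cm N) i j) = fun ζ =>
      ∑ r ∈ Finset.range n, (r.factorial : ℚ)⁻¹ • (ζ ^ r * ((cm N) ^ r) i j) := by
    funext ζ
    have h2 : (ζ • cm N) ^ n = 0 := by rw [smul_pow, hn, smul_zero]
    rw [IsNilpotent.exp_eq_sum h2, Matrix.sum_apply]
    refine Finset.sum_congr rfl fun r _ => ?_
    rw [Matrix.smul_apply, smul_pow, Matrix.smul_apply, smul_eq_mul]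
  rw [h1]
  refine Differentiable.fun_sum fun r _ => ?_
  exact (((differentiable_id.pow r).mul (differentiable_const _))).const_smul _

theorem V4_GZ_diff (h : Loc wt p Q N Ψ ε) (i j : ι) :
    DifferentiableOn ℂ (fun ζ => GZ N Ψ ζ i j) {ζ : ℂ | ‖qq ζ‖ < ε} := by
  have h1 : (fun ζ => GZ N Ψ ζ i j) =
      fun ζ => ∑ k, IsNilpotent.exp (ζ • cm N) i k * Ψ (qq ζ) k j := by
    funext ζ
    simp [GZ, Matrix.mul_apply]
  rw [h1]
  have hmapq : Set.MapsTo qq {ζ : ℂ | ‖qq ζ‖ < ε} (Metric.ball (0 : ℂ) ε) := by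
    intro ζ hζ
    have : ‖qq ζ‖ < ε := hζ
    simpa using this
  refine DifferentiableOn.fun_sum fun k _ => ?_
  refine DifferentiableOn.mul (V4_exp_diff h.nil i k).differentiableOn ?_
  exact (h.hol k j).comp tra2_differentiable_qq.differentiableOn hmapq

theorem V4_half (hε : 0 < ε) (ζ : ℂ) :
    ‖qq ζ‖ < ε ↔ -(Real.log ε / (2 * Real.pi)) < ζ.im := by
  have hpi := Real.pi_pos
  rw [norm_qq, ← Real.lt_log_iff_exp_lt hε, ← neg_div, div_lt_iff₀ (by positivity)]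
  constructor
  · intro h
    linarith
  · intro h
    linarith

/-- the matrix of the coefficients of index `< a` -/
noncomputable def V4_B (p : ι → ℤ) (a : ℤ) {s : ℕ} (e : Fin s → ι → ℂ) (G : Matrix ι ι ℂ) :
    Matrix {i // p i < a} (Fin s) ℂ :=
  Matrix.of fun i b => (G.adjugate *ᵥ e b) i

theorem V4_B_iff {a : ℤ} {s : ℕ} (e : Fin s → ι → ℂ) {G : Matrix ι ι ℂ} (hG : IsUnit G)
    (c : Fin s → ℂ) :
    (∑ b, c b • e b) ∈ Fl p G a ↔ (V4_B p a e G).mulVec c = 0 := by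
  have hdet : IsUnit G.det := (Matrix.isUnit_iff_isUnit_det _).1 hG
  have hd0 : G.det ≠ 0 := hdet.ne_zero
  have hrel : G.adjugate = G.det • G⁻¹ := by
    rw [Matrix.inv_def, smul_smul, Ring.mul_inverse_cancel _ hdet, one_smul]
  have hB : ∀ i : {i // p i < a}, (V4_B p a e G).mulVec c i =
      (G.adjugate *ᵥ (∑ b, c b • e b)) i := by
    intro i
    rw [Matrix.mulVec_sum, Finset.sum_apply]
    simp only [Matrix.mulVec_smul, Pi.smul_apply, smul_eq_mul]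
    change ∑ b, (G.adjugate *ᵥ e b) i * c b = _
    exact Finset.sum_congr rfl fun b _ => mul_comm _ _
  rw [MW38.mem_Fl_iff hG]
  constructor
  · intro h
    funext i
    rw [hB i, hrel, Matrix.smul_mulVec, Pi.smul_apply, h i i.2, smul_zero]
    rfl
  · intro h j hj
    have h1 := congrFun h ⟨j, hj⟩
    rw [hB ⟨j, hj⟩, hrel, Matrix.smul_mulVec, Pi.smul_apply, smul_eq_mul] at h1
    exact (mul_eq_zero.1 h1).resolve_left hd0

theorem Loc.inj_spread (h : Loc wt p Q N Ψ ε) {a : ℤ} {s : ℕ} (e : Fin s → ι → ℂ) {ζ₁ : ℂ}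
    (hζ : ‖qq ζ₁‖ < ε)
    (hinj : ∀ c : Fin s → ℂ, (∑ b, c b • e b) ∈ Fl p (GZ N Ψ ζ₁) a → c = 0) (y : ℝ) :
    ∃ ζ : ℂ, y < ζ.im ∧ ∀ c : Fin s → ℂ, (∑ b, c b • e b) ∈ Fl p (GZ N Ψ ζ) a → c = 0 := by
  by_contra hcon
  push Not at hcon
  have hunit : ∀ ζ : ℂ, ‖qq ζ‖ < ε → IsUnit (GZ N Ψ ζ) := fun ζ hζ => (h.mhs ζ hζ).unit
  obtain ⟨e', he'⟩ := exists_minor (V4_B p a e (GZ N Ψ ζ₁)) fun v hv =>
    hinj v ((V4_B_iff e (hunit ζ₁ hζ) v).2 hv)
  -- the minor is holomorphic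
  have hadj : ∀ i j, DifferentiableOn ℂ (fun ζ => (GZ N Ψ ζ).adjugate i j) {ζ : ℂ | ‖qq ζ‖ < ε} :=
    fun i j => Z42_adj_diff (V4_GZ_diff h) i j
  have hg : DifferentiableOn ℂ (fun ζ => ((V4_B p a e (GZ N Ψ ζ)).submatrix e' id).det)
      {ζ : ℂ | ‖qq ζ‖ < ε} := by
    apply Z42_det_diff
    intro i j
    have h1 : (fun ζ => (V4_B p a e (GZ N Ψ ζ)).submatrix e' id i j) = fun ζ =>
        ∑ k, (GZ N Ψ ζ).adjugate (e' i) k * e j k := by
      funext ζ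
      simp [V4_B, Matrix.mulVec, dotProduct]
    rw [h1]
    refine DifferentiableOn.fun_sum fun k _ => ?_
    exact DifferentiableOn.mul (hadj _ k) (differentiableOn_const _)
  have hopen : IsOpen {ζ : ℂ | ‖qq ζ‖ < ε} := tra2_isOpen_qq ε
  have hset : {ζ : ℂ | ‖qq ζ‖ < ε} = {ζ : ℂ | -(Real.log ε / (2 * Real.pi)) < ζ.im} := by
    ext ζ
    exact V4_half h.eps ζ
  have hpre : IsPreconnected {ζ : ℂ | ‖qq ζ‖ < ε} := by
    rw [hset]
    exact (convex_halfSpace_im_gt _).isPreconnected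
  obtain ⟨ζ₂, hζ₂⟩ : ∃ ζ₂ : ℂ, ζ₂ = ⟨0, max y (-(Real.log ε / (2 * Real.pi))) + 1⟩ := ⟨_, rfl⟩
  have him : ζ₂.im = max y (-(Real.log ε / (2 * Real.pi))) + 1 := by rw [hζ₂]
  have h2 : ‖qq ζ₂‖ < ε := by
    rw [V4_half h.eps, him]
    have := le_max_right y (-(Real.log ε / (2 * Real.pi)))
    linarith
  have h3 : y < ζ₂.im := by
    rw [him]
    have := le_max_left y (-(Real.log ε / (2 * Real.pi)))
    linarith
  have hev : (fun ζ => ((V4_B p a e (GZ N Ψ ζ)).submatrix e' id).det) =ᶠ[𝓝 ζ₂] 0 := by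
    have hy : IsOpen {ζ : ℂ | y < ζ.im} := isOpen_lt continuous_const Complex.continuous_im
    filter_upwards [hopen.mem_nhds h2, hy.mem_nhds h3] with ζ hζH hζy
    obtain ⟨c, hc, hc0⟩ := hcon ζ hζy
    by_contra hne
    exact hc0 (mulVec_inj_of_minor _ hne c ((V4_B_iff e (hunit ζ hζH) c).1 hc))
  exact he' ((hg.analyticOnNhd hopen).eqOn_zero_of_preconnected_of_eventuallyEq_zero hpre h2 hev hζ)

end Pool.Agent.LibZE25
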