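import Pool.Agent.LibZE25.Y10
import Pool.Agent.LibZE25.YDefs

/-!
# The function `N0`
-/

open Matrix Complex
open scoped ComplexOrder ContDiff

namespace Pool.Agent.LibZE25

open SP38 US38

variable {m : ℕ} {w : ℤ} {K : ℕ} {p : Fin m → ℤ} {s : Equiv.Perm (Fin m)}
  {Q : Matrix (Fin m) (Fin m) ℝ} {G : ℂ → Matrix (Fin m) (Fin m) ℂ} {ν : ℂ → Fin m → ℂ}

theorem N0_props (hv : IsVar w p Q G ν) (hs : ∀ j, p (s j) = w - p j) (hK : ∀ j, |p j| ≤ K)
    (hν : ∀ z : ℂ, 0 < z.im → ν z ∈ Fil p (G z) (-1)) :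
    SmS (Hc 0) (N0 w K Q p s G ν) ∧
    (∀ z ∈ Hc 0, (N0 w K Q p s G ν z).im = 0 ∧ 0 ≤ (N0 w K Q p s G ν z).re) ∧
    (∀ z ∈ Hc 0, N0 w K Q p s G ν z = 0 ↔ ν z ∈ Fil p (G z) 0) ∧
    ∀ ε : ℝ, 0 < ε → ∀ z ∈ Hc 0, 0 ≤ rho (jj (N0 w K Q p s G ν) (fun _ => 0) ε) z := by
  have hΩ : IsOpen (Hc 0) := isOpen_Hc 0
  obtain ⟨θ, hθ⟩ := exists_PV (K := K) (G := G) hΩ hv.holG (fun z hz => hv.phs z hz) hs
    (fun z hz => hv.trG z hz) hK
  have hd : ∀ i, ∀ z ∈ Hc 0, DifferentiableAt ℂ (fun z => ν z i) z := fun i z hz =>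
    (hv.holn i).differentiableAt (hΩ.mem_nhds hz)
  have hdd : ∀ i, DifferentiableOn ℂ (fun z => deriv (fun z => ν z i) z) (Hc 0) :=
    fun i => (hv.holn i).deriv hΩ
  have hsm : SmV (Hc 0) ν := fun i => SmS.of_holo hΩ (hv.holn i)
  have hsu : SmV (Hc 0) (fun z i => deriv (fun z => ν z i) z) := fun i => SmS.of_holo hΩ (hdd i)
  have hPD : ∀ z ∈ Hc 0, (metr w K Q (PP p s (G z))).PosDef := fun z hz => (hθ.hd z hz).posDef
  have hx : SmV (Hc 0) (fun z => PP p s (G z) (-1) *ᵥ ν z) := SmV.mulVec (hθ.sm (-1)) hsm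
  refine ⟨?_, ?_, ?_, ?_⟩
  · exact SmS_hm hΩ hθ hx hx
  · intro z hz
    have h1 : N0 w K Q p s G ν z =
        (qf (metr w K Q (PP p s (G z))) (PP p s (G z) (-1) *ᵥ ν z) : ℂ) := hm_self (hPD z hz) _
    rw [h1, Complex.ofReal_im, Complex.ofReal_re]
    exact ⟨rfl, qf_nonneg (hPD z hz) _⟩
  · intro z hz
    have h1 : N0 w K Q p s G ν z =
        (qf (metr w K Q (PP p s (G z))) (PP p s (G z) (-1) *ᵥ ν z) : ℂ) := hm_self (hPD z hz) _
    have h2 : N0 w K Q p s G ν z = 0 ↔ PP p s (G z) (-1) *ᵥ ν z = 0 := by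
      rw [h1, Complex.ofReal_eq_zero]
      constructor
      · intro h
        by_contra hne
        exact absurd h (qf_pos (hPD z hz) hne).ne'
      · intro h
        rw [h]
        simp [qf]
    rw [h2, (hv.phs z hz).mem_Fil_iff_PP hs 0 _]
    have h3 := ((hv.phs z hz).mem_Fil_iff_PP hs (-1) _).mp (hν z hz)
    constructor
    · intro h b hb
      rcases eq_or_ne b (-1) with h4 | h4
      · rw [h4]; exact h
      · exact h3 b (by omega)
    · intro h
      exact h (-1) (by omega)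
  · intro ε hε z hz
    have h := rho_hol (w := w) (K := K) (Q := Q) (P := fun z => PP p s (G z)) (θ := θ) (v := ν)
      (u := fun z i => deriv (fun z => ν z i) z) (a := -1) hΩ hθ hsm hsu
      (fun z hz => by
        funext i
        exact dz_of_holo (hd i z hz))
      (fun z hz => by
        funext i
        exact dzb_of_holo (hd i z hz))
      (fun z hz => ((hv.phs z hz).mem_Fil_iff_PP hs (-1) _).mp (hν z hz) _ (by norm_num))
      (fun z hz => ((hv.phs z hz).mem_Fil_iff_PP hs (-1) _).mp (hv.trn z hz) _ (by norm_num))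
      hε hz
    exact h

end Pool.Agent.LibZE25
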