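import Pool.Agent.LibZE25.YDefs
import Pool.Agent.LibZE25.Z11
import Pool.Agent.LibZE25.Z22
import Pool.Agent.LibZE25.Z25

/-!
# Vectors satisfying the formal conditions lie in the filtration over the differential field; spans
-/

open PowerSeries
open scoped ComplexConjugate

namespace Pool.Agent.LibZE25

variable {ι : Type} [Fintype ι] [DecidableEq ι]

private theorem Y7_gen {K : Type} [Field K] [Algebra ℂ K] (i : PowerSeries ℂ →+* K)
    (hiC : ∀ c : ℂ, i (C c) = algebraMap ℂ K c) (l : K) (B : Matrix ι ι (PowerSeries ℂ))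
    (N : Matrix ι ι ℂ) (d : ℕ) (hN : N ^ d = 0) (hB : IsUnit (B.map i)) (p : ι → ℤ) (a : ℤ)
    (u : ι → ℂ) (hu : ∀ (r : ℕ) (j : ι), p j < a →
      (B.adjugate.mulVec fun b => C ((N ^ r).mulVec u b)) j = 0) :
    (fun j => algebraMap ℂ K (u j)) ∈ colSp p (expn d N l * B.map i) a := by
  have hdet : IsUnit (B.map i).det := (Matrix.isUnit_iff_isUnit_det _).1 hB
  have h1 : expn d N l * expn d N (-l) = 1 := by
    rw [← expn_add hN, add_neg_cancel, expn_zero hN]
  refine mem_colSp_iff_exists.2 ⟨(B.map i)⁻¹.mulVec ((expn d N (-l)).mulVec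
    fun j => algebraMap ℂ K (u j)), ?_, ?_⟩
  · intro j hj
    rw [Matrix.inv_def, Matrix.smul_mulVec, Pi.smul_apply]
    have e1 : (B.map i).adjugate = B.adjugate.map i := (RingHom.map_adjugate i B).symm
    rw [e1]
    have e3 : ∀ x, (expn d N (-l)).mulVec (fun j => algebraMap ℂ K (u j)) x =
        ∑ r ∈ Finset.range d, (-l) ^ r * algebraMap ℂ K (r.factorial : ℂ)⁻¹ *
          i (C ((N ^ r).mulVec u x)) := by
      intro x
      simp only [Matrix.mulVec, dotProduct, expn, Matrix.sum_apply, Matrix.smul_apply,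
        Matrix.map_apply, smul_eq_mul, map_mul, map_sum, hiC, Finset.sum_mul, Finset.mul_sum]
      rw [Finset.sum_comm]
      refine Finset.sum_congr rfl fun r _ => Finset.sum_congr rfl fun x _ => ?_
      ring
    have e2 : ((B.adjugate.map i).mulVec ((expn d N (-l)).mulVec
        fun j => algebraMap ℂ K (u j))) j =
        ∑ r ∈ Finset.range d, (-l) ^ r * algebraMap ℂ K (r.factorial : ℂ)⁻¹ *
          i ((B.adjugate.mulVec fun b => C ((N ^ r).mulVec u b)) j) := by
      have e4 : ∀ w : ι → K, ((B.adjugate.map i).mulVec w) j = ∑ x, i (B.adjugate j x) * w x :=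
        fun w => rfl
      have e5 : ∀ w : ι → PowerSeries ℂ, (B.adjugate.mulVec w) j = ∑ x, B.adjugate j x * w x :=
        fun w => rfl
      rw [e4]
      simp only [e3, e5, map_sum, map_mul, Finset.mul_sum]
      rw [Finset.sum_comm]
      refine Finset.sum_congr rfl fun r _ => Finset.sum_congr rfl fun x _ => ?_
      ring
    rw [e2]
    rw [Finset.sum_eq_zero, smul_zero]
    intro r _
    rw [hu r j hj, map_zero, mul_zero]
  · rw [Matrix.mulVec_mulVec, Matrix.mul_assoc, Matrix.mul_nonsing_inv _ hdet, Matrix.mul_one,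
      Matrix.mulVec_mulVec, h1, Matrix.one_mulVec]

namespace DF

variable (F : DF) {wt p : ι → ℤ} {d : ℕ} {n : Matrix ι ι ℂ} {A : Matrix ι ι (PowerSeries ℂ)}

theorem alg_mem_z (h : FData wt p d n A) {a : ℤ} {u : ι → ℂ} (hu : FF p n A a u) :
    (fun i => algebraMap ℂ F.K (u i)) ∈ colSp p (F.fz d n A) a :=
  Y7_gen F.iz F.iz_C F.lz A n d h.nil (h.unit.map (RingHom.mapMatrix F.iz)) p a u hu

theorem alg_mem_w (h : FData wt p d n A) {a : ℤ} {u : ι → ℂ} (hu : FF p n A a u) :
    (fun i => algebraMap ℂ F.K (conj (u i))) ∈ colSp p (F.fw d n A) a := by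
  set σ : PowerSeries ℂ →+* PowerSeries ℂ := PowerSeries.map (starRingEnd ℂ) with hσ
  have hfw : F.fw d n A = expn d (-n) F.lw * (A.map σ).map F.iw := by
    rw [DF.fw]
    congr 1
  have hnd' : (-n) ^ d = 0 := by rw [neg_pow, h.nil, mul_zero]
  rw [hfw]
  refine Y7_gen F.iw F.iw_C F.lw (A.map σ) (-n) d hnd'
    ((h.unit.map (RingHom.mapMatrix σ)).map (RingHom.mapMatrix F.iw)) p a
    (fun i => conj (u i)) ?_
  intro r j hj
  have h1 := congrArg σ (hu r j hj)
  rw [map_zero] at h1
  rw [← h1]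
  have h4 : (A.map σ).adjugate = A.adjugate.map σ := (RingHom.map_adjugate σ A).symm
  rw [h4]
  simp only [Matrix.mulVec, dotProduct, map_sum, map_mul, Matrix.map_apply]
  refine Finset.sum_congr rfl fun x _ => ?_
  congr 1
  refine Finset.sum_congr rfl fun y _ => ?_
  have h5 : ((-n) ^ r) x y = conj ((n ^ r) x y) := by
    have h6 := map_pow (RingHom.mapMatrix (m := ι) (starRingEnd ℂ)) n r
    have h7 : RingHom.mapMatrix (m := ι) (starRingEnd ℂ) n = -n := by
      rw [RingHom.mapMatrix_apply, h.cnj]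
    rw [h7] at h6
    rw [← h6]
    rfl
  rw [h5, hσ, PowerSeries.map_C, PowerSeries.map_C]

end DF

/-- the span over a larger field of a complex subspace -/
def kSp (K : Type) [Field K] [Algebra ℂ K] (U : Submodule ℂ (ι → ℂ)) : Submodule K (ι → K) :=
  Submodule.span K {v | ∃ u ∈ U, v = fun i => algebraMap ℂ K (u i)}

theorem span_disjoint {K : Type} [Field K] [Algebra ℂ K] {U₁ U₂ : Submodule ℂ (ι → ℂ)}
    (h : Disjoint U₁ U₂) : Disjoint (kSp K U₁) (kSp K U₂) := by
  obtain ⟨W, hW, hc⟩ := h.symm.exists_isCompl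
  set P : Matrix ι ι ℂ := LinearMap.toMatrix' (U₁.projection W hc.symm) with hP
  have hPv : ∀ v : ι → ℂ, P.mulVec v = U₁.projection W hc.symm v := by
    intro v
    rw [hP, LinearMap.toMatrix'_mulVec]
  have hmap : ∀ v : ι → ℂ, (P.map (algebraMap ℂ K)).mulVec (fun i => algebraMap ℂ K (v i)) =
      fun i => algebraMap ℂ K (P.mulVec v i) := by
    intro v
    funext i
    exact (RingHom.map_mulVec (algebraMap ℂ K) P v i).symm
  have h1 : kSp K U₁ ≤ LinearMap.ker ((P.map (algebraMap ℂ K)).mulVecLin - LinearMap.id) := by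
    rw [kSp, Submodule.span_le]
    rintro _ ⟨u, hu, rfl⟩
    rw [SetLike.mem_coe, LinearMap.mem_ker, LinearMap.sub_apply, Matrix.mulVecLin_apply, hmap,
      hPv, Submodule.projection_apply_left hc.symm ⟨u, hu⟩, LinearMap.id_apply, sub_self]
  have h2 : kSp K U₂ ≤ LinearMap.ker (P.map (algebraMap ℂ K)).mulVecLin := by
    rw [kSp, Submodule.span_le]
    rintro _ ⟨u, hu, rfl⟩
    rw [SetLike.mem_coe, LinearMap.mem_ker, Matrix.mulVecLin_apply, hmap, hPv,
      (Submodule.projection_apply_eq_zero_iff hc.symm).2 (hW hu)]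
    funext i
    simp
  rw [Submodule.disjoint_def]
  intro v hv1 hv2
  have h3 := h1 hv1
  have h4 := h2 hv2
  rw [LinearMap.mem_ker, LinearMap.sub_apply, LinearMap.id_apply] at h3
  rw [LinearMap.mem_ker] at h4
  rw [h4, zero_sub, neg_eq_zero] at h3
  exact h3

end Pool.Agent.LibZE25
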