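import Mathlib

/-!
# Leibniz rule for `f ↦ (d f_n + c n f_n)_n`
-/

open PowerSeries

namespace Pool.Agent.LibZE25

/-- the map `f ↦ (d f_n + c n f_n)_n` on power series -/
noncomputable def psLin {B : Type} [CommRing B] [Algebra ℂ B] (d : Derivation ℂ B B) (c : ℕ) :
    PowerSeries B →ₗ[ℂ] PowerSeries B where
  toFun f := PowerSeries.mk fun n => d (coeff n f) + (c * n : ℕ) • coeff n f
  map_add' f g := by
    ext n
    simp only [coeff_mk, map_add, smul_add]
    abel
  map_smul' r f := by
    ext n
    simp only [coeff_mk, RingHom.id_apply]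
    have h : ∀ (g : PowerSeries B), coeff n (r • g) = r • coeff n g := fun g => by
      rw [← algebraMap_smul B r g, PowerSeries.coeff_smul, algebraMap_smul]
    rw [h, h, coeff_mk, d.map_smul, smul_add]
    congr 1
    rw [smul_comm]

theorem psLin_leibniz {B : Type} [CommRing B] [Algebra ℂ B] (d : Derivation ℂ B B) (c : ℕ)
    (f g : PowerSeries B) : psLin d c (f * g) = f • psLin d c g + g • psLin d c f := by
  have hc : ∀ (h : PowerSeries B) (n : ℕ),
      coeff n (psLin d c h) = d (coeff n h) + (c * n : ℕ) • coeff n h := fun h n => by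
    simp only [psLin, LinearMap.coe_mk, AddHom.coe_mk, coeff_mk]
  ext n
  rw [smul_eq_mul, smul_eq_mul, mul_comm g (psLin d c f), map_add, hc, PowerSeries.coeff_mul,
    PowerSeries.coeff_mul, PowerSeries.coeff_mul, map_sum, Finset.smul_sum,
    ← Finset.sum_add_distrib, ← Finset.sum_add_distrib]
  refine Finset.sum_congr rfl fun x hx => ?_
  have hx' : x.1 + x.2 = n := by simpa using hx
  rw [hc, hc, d.leibniz, ← hx']
  simp only [smul_eq_mul, nsmul_eq_mul]
  push_cast
  ring

end Pool.Agent.LibZE25
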