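import Pool.Agent.LibZE25.Z14

/-!
# The truncation lemma
-/

open PowerSeries Filter Topology
open scoped ComplexConjugate

namespace Pool.Agent.LibZE25

variable {q : ℕ → ℂ}

private theorem Z15_log (hq : Tendsto q atTop (𝓝 0)) (hq0 : ∀ n, q n ≠ 0) :
    Tendsto (fun n => -Real.log ‖q n‖) atTop atTop := by
  have h1 : Tendsto (fun n => ‖q n‖) atTop (𝓝[≠] 0) := by
    rw [tendsto_nhdsWithin_iff]
    refine ⟨?_, Filter.Eventually.of_forall fun n => norm_ne_zero_iff.2 (hq0 n)⟩
    have := hq.norm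
    rwa [norm_zero] at this
  exact tendsto_neg_atBot_atTop.comp (Real.tendsto_log_nhdsNE_zero.comp h1)

private theorem Z15_one (hq : Tendsto q atTop (𝓝 0)) (hq0 : ∀ n, q n ≠ 0) :
    ∀ᶠ n in atTop, 1 ≤ |Real.log ‖q n‖| ∧ ‖q n‖ ≤ 1 := by
  have h1 := (Z15_log hq hq0).eventually (eventually_ge_atTop 1)
  have h2 : ∀ᶠ n in atTop, ‖q n‖ < 1 := by
    have := hq.norm
    rw [norm_zero] at this
    exact this.eventually (gt_mem_nhds one_pos)
  filter_upwards [h1, h2] with n h3 h4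
  exact ⟨h3.trans (neg_le_abs _), h4.le⟩

/-- bounds of order `M` -/
private def Z15_Big (q : ℕ → ℂ) (M : ℕ) (u : ℕ → ℂ) : Prop :=
  ∃ (C : ℝ) (D : ℕ), ∀ᶠ n in atTop, ‖u n‖ ≤ C * |Real.log ‖q n‖| ^ D * ‖q n‖ ^ M

private theorem Z15_Big_zero (M : ℕ) : Z15_Big q M fun _ => 0 := by
  refine ⟨0, 0, Filter.Eventually.of_forall fun n => ?_⟩
  rw [norm_zero, zero_mul, zero_mul]

private theorem Z15_Big_add (hq : Tendsto q atTop (𝓝 0)) (hq0 : ∀ n, q n ≠ 0) {M : ℕ}
    {u v : ℕ → ℂ} (hu : Z15_Big q M u) (hv : Z15_Big q M v) :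
    Z15_Big q M fun n => u n + v n := by
  obtain ⟨C, D, hu⟩ := hu
  obtain ⟨C', D', hv⟩ := hv
  refine ⟨|C| + |C'|, D + D', ?_⟩
  filter_upwards [hu, hv, Z15_one hq hq0] with n h1 h2 h3
  obtain ⟨h3, -⟩ := h3
  have hM : 0 ≤ ‖q n‖ ^ M := pow_nonneg (norm_nonneg _) _
  have hL : 0 ≤ |Real.log ‖q n‖| := abs_nonneg _
  have h4 : C * |Real.log ‖q n‖| ^ D ≤ |C| * |Real.log ‖q n‖| ^ (D + D') :=
    mul_le_mul (le_abs_self _) (pow_le_pow_right₀ h3 (by omega)) (pow_nonneg hL _) (abs_nonneg _)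
  have h5 : C' * |Real.log ‖q n‖| ^ D' ≤ |C'| * |Real.log ‖q n‖| ^ (D + D') :=
    mul_le_mul (le_abs_self _) (pow_le_pow_right₀ h3 (by omega)) (pow_nonneg hL _) (abs_nonneg _)
  calc ‖u n + v n‖ ≤ ‖u n‖ + ‖v n‖ := norm_add_le _ _
    _ ≤ C * |Real.log ‖q n‖| ^ D * ‖q n‖ ^ M + C' * |Real.log ‖q n‖| ^ D' * ‖q n‖ ^ M :=
        add_le_add h1 h2
    _ ≤ |C| * |Real.log ‖q n‖| ^ (D + D') * ‖q n‖ ^ M +
        |C'| * |Real.log ‖q n‖| ^ (D + D') * ‖q n‖ ^ M :=
        add_le_add (mul_le_mul_of_nonneg_right h4 hM) (mul_le_mul_of_nonneg_right h5 hM)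
    _ = (|C| + |C'|) * |Real.log ‖q n‖| ^ (D + D') * ‖q n‖ ^ M := by ring

private theorem Z15_Big_sum (hq : Tendsto q atTop (𝓝 0)) (hq0 : ∀ n, q n ≠ 0) {M : ℕ}
    {α : Type} (s : Finset α) {u : α → ℕ → ℂ} (h : ∀ a ∈ s, Z15_Big q M (u a)) :
    Z15_Big q M fun n => ∑ a ∈ s, u a n := by
  classical
  induction s using Finset.induction_on with
  | empty =>
    simp only [Finset.sum_empty]
    exact Z15_Big_zero M
  | insert a s ha ih =>
    have h1 := Z15_Big_add hq hq0 (h a (Finset.mem_insert_self _ _))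
      (ih fun b hb => h b (Finset.mem_insert_of_mem hb))
    simp only [Finset.sum_insert ha]
    exact h1

/-- polynomials in `Y` grow at most like a power of the logarithm -/
private theorem Z15_poly (hq : Tendsto q atTop (𝓝 0)) (hq0 : ∀ n, q n ≠ 0) (P : Polynomial ℂ) :
    ∃ (C : ℝ) (D : ℕ), 0 ≤ C ∧ ∀ᶠ n in atTop, ‖P.eval (yy (q n))‖ ≤ C * |Real.log ‖q n‖| ^ D := by
  refine ⟨∑ i ∈ Finset.range (P.natDegree + 1), ‖P.coeff i‖ * 2 ^ i, P.natDegree,
    Finset.sum_nonneg fun i _ => by positivity, ?_⟩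
  filter_upwards [Z15_one hq hq0] with n h
  rw [Polynomial.eval_eq_sum_range, Finset.sum_mul]
  refine (norm_sum_le _ _).trans (Finset.sum_le_sum fun i hi => ?_)
  have hi' : i ≤ P.natDegree := by
    rw [Finset.mem_range] at hi
    omega
  have hy : ‖yy (q n)‖ = 2 * |Real.log ‖q n‖| := by
    rw [yy, norm_mul, Complex.norm_real, Real.norm_eq_abs]
    norm_num
  rw [norm_mul, norm_pow, hy, mul_pow, ← mul_assoc]
  exact mul_le_mul_of_nonneg_left (pow_le_pow_right₀ h.1 hi') (by positivity)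

private theorem Z15_term (hq : Tendsto q atTop (𝓝 0)) (hq0 : ∀ n, q n ≠ 0) (P : Polynomial ℂ)
    {M i j : ℕ} (hM : M ≤ i + j) :
    Z15_Big q M fun n => P.eval (yy (q n)) * conj (q n) ^ i * q n ^ j := by
  obtain ⟨C, D, hC, h⟩ := Z15_poly hq hq0 P
  refine ⟨C, D, ?_⟩
  filter_upwards [h, Z15_one hq hq0] with n h1 h2
  rw [norm_mul, norm_mul, norm_pow, norm_pow, RCLike.norm_conj, mul_assoc, ← pow_add]
  exact mul_le_mul h1 (pow_le_pow_of_le_one (norm_nonneg _) h2.2 hM)
    (pow_nonneg (norm_nonneg _) _) (mul_nonneg hC (pow_nonneg (abs_nonneg _) _))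

private theorem Z15_trun (P : ℕ → ℕ → Polynomial ℂ) {M K : ℕ} (hK : M ≤ K) (x : ℂ) :
    trun P M x = ∑ i ∈ Finset.range K, ∑ j ∈ Finset.range K,
      if i + j < M then (P i j).eval (yy x) * conj x ^ i * x ^ j else 0 := by
  unfold trun
  have h1 : ∀ i, i < M → ∑ j ∈ Finset.range (M - i), (P i j).eval (yy x) * conj x ^ i * x ^ j =
      ∑ j ∈ Finset.range K, if i + j < M then (P i j).eval (yy x) * conj x ^ i * x ^ j else 0 := by
    intro i hi
    have hsub : Finset.range (M - i) ⊆ Finset.range K := by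
      intro j hj
      rw [Finset.mem_range] at hj ⊢
      omega
    rw [← Finset.sum_subset hsub]
    · refine Finset.sum_congr rfl fun j hj => ?_
      rw [Finset.mem_range] at hj
      rw [if_pos (by omega)]
    · intro j _ hj
      rw [Finset.mem_range] at hj
      rw [if_neg (by omega)]
  rw [Finset.sum_congr rfl fun i hi => h1 i (Finset.mem_range.1 hi)]
  refine Finset.sum_subset ?_ ?_
  · intro j hj
    rw [Finset.mem_range] at hj ⊢
    omega
  · intro i _ hi
    rw [Finset.mem_range] at hi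
    refine Finset.sum_eq_zero fun j _ => ?_
    rw [if_neg (by omega)]

/-- expansions which are polynomials -/
private theorem Z15_asym (hq : Tendsto q atTop (𝓝 0)) (hq0 : ∀ n, q n ≠ 0) (f : RR)
    (P : ℕ → ℕ → Polynomial ℂ)
    (hf : ∀ i j, coeff j (coeff i f) = algebraMap (Polynomial ℂ) kk (P i j)) (M0 : ℕ)
    (hP : ∀ i j, M0 ≤ i + j → P i j = 0) : Asym q f fun n => trun P M0 (q n) := by
  refine ⟨P, hf, fun M => ?_⟩
  have key : Z15_Big q M fun n => trun P M0 (q n) - trun P M (q n) := by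
    have e : (fun n => trun P M0 (q n) - trun P M (q n)) = fun n =>
        ∑ i ∈ Finset.range (max M M0), ∑ j ∈ Finset.range (max M M0),
          ((if i + j < M0 then (P i j).eval (yy (q n)) * conj (q n) ^ i * (q n) ^ j else 0) -
            (if i + j < M then (P i j).eval (yy (q n)) * conj (q n) ^ i * (q n) ^ j else 0)) := by
      funext n
      rw [Z15_trun P (le_max_right M M0), Z15_trun P (le_max_left M M0), ← Finset.sum_sub_distrib]
      refine Finset.sum_congr rfl fun i _ => ?_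
      rw [← Finset.sum_sub_distrib]
    rw [e]
    refine Z15_Big_sum hq hq0 _ fun i _ => Z15_Big_sum hq hq0 _ fun j _ => ?_
    by_cases h0 : i + j < M0
    · by_cases h1 : i + j < M
      · simp only [if_pos h0, if_pos h1, sub_self]
        exact Z15_Big_zero M
      · simp only [if_pos h0, if_neg h1, sub_zero]
        exact Z15_term hq hq0 (P i j) (not_lt.1 h1)
    · have hz : P i j = 0 := hP i j (not_lt.1 h0)
      simp only [hz, Polynomial.eval_zero, zero_mul, ite_self, sub_self]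
      exact Z15_Big_zero M
  exact key

private theorem Z15_decay (hq : Tendsto q atTop (𝓝 0)) (hq0 : ∀ n, q n ≠ 0) (C : ℝ) (D : ℕ) :
    Tendsto (fun n => C * |Real.log ‖q n‖| ^ D * ‖q n‖) atTop (𝓝 0) := by
  have h1 := (Real.tendsto_pow_mul_exp_neg_atTop_nhds_zero D).comp (Z15_log hq hq0)
  have h2 := h1.const_mul C
  rw [mul_zero] at h2
  refine h2.congr' ?_
  filter_upwards [(Z15_log hq hq0).eventually (eventually_ge_atTop 0)] with n hn
  have h3 : |Real.log ‖q n‖| = -Real.log ‖q n‖ := abs_of_nonpos (by linarith)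
  change C * ((-Real.log ‖q n‖) ^ D * Real.exp (-(-Real.log ‖q n‖))) = _
  rw [h3, neg_neg, Real.exp_log (norm_pos_iff.2 (hq0 n)), mul_assoc]

private theorem Z15_lower (hq : Tendsto q atTop (𝓝 0)) (hq0 : ∀ n, q n ≠ 0) (c : Polynomial ℂ)
    (hc : c ≠ 0) : ∃ c₀ : ℝ, 0 < c₀ ∧ ∀ᶠ n in atTop, c₀ ≤ ‖c.eval (yy (q n))‖ := by
  by_cases hd : 0 < c.degree
  · have h1 : Tendsto (fun n => ‖yy (q n)‖) atTop atTop := by
      have h2 := (Z15_log hq hq0).const_mul_atTop (two_pos : (0 : ℝ) < 2)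
      refine tendsto_atTop_mono (fun n => ?_) h2
      rw [yy, norm_mul, Complex.norm_real, Real.norm_eq_abs, Complex.norm_ofNat]
      exact mul_le_mul_of_nonneg_left (neg_le_abs _) zero_le_two
    have h2 := Polynomial.tendsto_norm_atTop c hd h1
    exact ⟨1, one_pos, h2.eventually (eventually_ge_atTop 1)⟩
  · have h1 := Polynomial.eq_C_of_degree_le_zero (not_lt.1 hd)
    have h2 : c.coeff 0 ≠ 0 := by
      intro h
      rw [h, map_zero] at h1
      exact hc h1
    refine ⟨‖c.coeff 0‖, norm_pos_iff.2 h2, Filter.Eventually.of_forall fun n => ?_⟩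
    rw [h1, Polynomial.eval_C, Polynomial.coeff_C_zero]

private theorem Z15_coeff_mul_zero {M : ℕ} (f g : RR)
    (hf : ∀ i j, i + j < M → coeff j (coeff i f) = 0) (i j : ℕ) (hij : i + j < M) :
    coeff j (coeff i (f * g)) = 0 := by
  rw [PowerSeries.coeff_mul, map_sum]
  refine Finset.sum_eq_zero fun x hx => ?_
  rw [PowerSeries.coeff_mul]
  refine Finset.sum_eq_zero fun y hy => ?_
  rw [Finset.HasAntidiagonal.mem_antidiagonal] at hx hy
  rw [hf x.1 y.1 (by omega), zero_mul]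

theorem zw_pow_notMem_span (hq : Tendsto q atTop (𝓝 0)) (hq0 : ∀ n, q n ≠ 0) (S : Set RR)
    (hS : ∀ f ∈ S, Asym q f fun _ => 0) (N : ℕ) : (zR * wR) ^ N ∉ Ideal.span S := by
  classical
  intro hmem
  obtain ⟨k, g, f, hsum⟩ := Submodule.mem_span_set'.1 hmem
  -- a common denominator
  obtain ⟨c, hc⟩ := IsLocalization.exist_integer_multiples (nonZeroDivisors (Polynomial ℂ))
    ((Finset.univ : Finset (Fin k)) ×ˢ (Finset.range (2 * N + 1) ×ˢ Finset.range (2 * N + 1)))
    (fun x : Fin k × ℕ × ℕ => (coeff x.2.2 (coeff x.2.1 (g x.1)) : kk))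
  have hc0 : (c : Polynomial ℂ) ≠ 0 := nonZeroDivisors.coe_ne_zero c
  have hP : ∀ (a : Fin k) (i j : ℕ), ∃ P : Polynomial ℂ, (i + j < 2 * N + 1 →
      algebraMap (Polynomial ℂ) kk P =
        algebraMap (Polynomial ℂ) kk (c : Polynomial ℂ) * coeff j (coeff i (g a))) ∧
      (2 * N + 1 ≤ i + j → P = 0) := by
    intro a i j
    by_cases h : i + j < 2 * N + 1
    · obtain ⟨P, hP⟩ := hc (a, i, j) (by
        rw [Finset.mem_product, Finset.mem_product, Finset.mem_range, Finset.mem_range]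
        exact ⟨Finset.mem_univ _, by change i < 2 * N + 1; omega, by change j < 2 * N + 1; omega⟩)
      refine ⟨P, fun _ => ?_, fun h' => by omega⟩
      rw [hP, Algebra.smul_def]
    · exact ⟨0, fun h' => absurd h' h, fun _ => rfl⟩
  choose P hP1 hP2 using hP
  -- the truncations
  obtain ⟨G, hG⟩ : ∃ G : Fin k → RR, ∀ a i j, coeff j (coeff i (G a)) =
      algebraMap (Polynomial ℂ) kk (-P a i j) :=
    ⟨fun a => PowerSeries.mk fun i => PowerSeries.mk fun j =>
      algebraMap (Polynomial ℂ) kk (-P a i j), fun a i j => by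
        rw [PowerSeries.coeff_mk, PowerSeries.coeff_mk]⟩
  obtain ⟨cR, hcR⟩ : ∃ cR : RR, cR = C (C (algebraMap (Polynomial ℂ) kk (c : Polynomial ℂ))) :=
    ⟨_, rfl⟩
  have hcRmul : ∀ (u : RR) (i j : ℕ), coeff j (coeff i (cR * u)) =
      algebraMap (Polynomial ℂ) kk (c : Polynomial ℂ) * coeff j (coeff i u) := by
    intro u i j
    rw [hcR, PowerSeries.coeff_C_mul, PowerSeries.coeff_C_mul]
  -- the monomial
  have hmon : Asym q (cR * (zR * wR) ^ N) fun n =>
      (c : Polynomial ℂ).eval (yy (q n)) * conj (q n) ^ N * q n ^ N := by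
    obtain ⟨P0, hP0⟩ : ∃ P0 : ℕ → ℕ → Polynomial ℂ, ∀ i j, P0 i j =
        if i = N ∧ j = N then (c : Polynomial ℂ) else 0 := ⟨_, fun _ _ => rfl⟩
    have h1 := Z15_asym hq hq0 (cR * (zR * wR) ^ N) P0 ?_ (2 * N + 1) ?_
    · have e : (fun n => trun P0 (2 * N + 1) (q n)) = fun n =>
          (c : Polynomial ℂ).eval (yy (q n)) * conj (q n) ^ N * q n ^ N := by
        funext n
        unfold trun
        rw [Finset.sum_eq_single N]
        · rw [Finset.sum_eq_single N]
          · rw [hP0, if_pos ⟨rfl, rfl⟩]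
          · intro j _ hj
            rw [hP0, if_neg (fun h => hj h.2), Polynomial.eval_zero, zero_mul, zero_mul]
          · intro h
            exact absurd (Finset.mem_range.2 (by omega)) h
        · intro i _ hi
          refine Finset.sum_eq_zero fun j _ => ?_
          rw [hP0, if_neg (fun h => hi h.1), Polynomial.eval_zero, zero_mul, zero_mul]
        · intro h
          exact absurd (Finset.mem_range.2 (by omega)) h
      rw [← e]
      exact h1
    · intro i j
      rw [hP0, hcRmul, zR, wR, mul_pow, ← map_pow, PowerSeries.coeff_C_mul,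
        PowerSeries.coeff_X_pow]
      by_cases hi : i = N
      · rw [if_pos hi, mul_one, PowerSeries.coeff_X_pow]
        by_cases hj : j = N
        · rw [if_pos hj, if_pos ⟨hi, hj⟩, mul_one]
        · rw [if_neg hj, if_neg (fun h => hj h.2), mul_zero, map_zero]
      · rw [if_neg hi, mul_zero, map_zero, mul_zero, if_neg (fun h => hi h.1), map_zero]
    · intro i j hij
      rw [hP0, if_neg]
      rintro ⟨h1, h2⟩
      omega
  -- the products
  have hprod : Asym q (∑ a : Fin k, G a * (f a : RR)) fun n =>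
      ∑ a : Fin k, trun (fun i j => -P a i j) (2 * N + 1) (q n) * 0 := by
    refine Asym.sum hq hq0 Finset.univ fun a _ => ?_
    refine Asym.mul hq hq0 ?_ (hS _ (f a).2)
    refine Z15_asym hq hq0 (G a) (fun i j => -P a i j) (hG a) (2 * N + 1) fun i j hij => ?_
    rw [hP2 a i j hij, neg_zero]
  obtain ⟨PE, hPE, hB⟩ := Asym.add hq hq0 hmon hprod
  -- the coefficients vanish
  have hcoef : ∀ i j, i + j < 2 * N + 1 → coeff j (coeff i
      (cR * (zR * wR) ^ N + ∑ a : Fin k, G a * (f a : RR))) = 0 := by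
    intro i j hij
    have e : cR * (zR * wR) ^ N + ∑ a : Fin k, G a * (f a : RR) =
        ∑ a : Fin k, (cR * g a + G a) * (f a : RR) := by
      rw [← hsum, Finset.mul_sum, ← Finset.sum_add_distrib]
      refine Finset.sum_congr rfl fun a _ => ?_
      rw [smul_eq_mul]
      ring
    rw [e, map_sum, map_sum]
    refine Finset.sum_eq_zero fun a _ => ?_
    refine Z15_coeff_mul_zero (M := 2 * N + 1) _ _ (fun i' j' h' => ?_) i j hij
    rw [map_add, map_add, hcRmul, hG, map_neg, hP1 a i' j' h', add_neg_cancel]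
  have hPE0 : ∀ i j, i + j < 2 * N + 1 → PE i j = 0 := by
    intro i j hij
    have h1 := hPE i j
    rw [hcoef i j hij] at h1
    exact IsFractionRing.injective (Polynomial ℂ) kk (by rw [← h1, map_zero])
  obtain ⟨C', D, hCD⟩ := hB (2 * N + 1)
  have htr : ∀ x, trun PE (2 * N + 1) x = 0 := by
    intro x
    unfold trun
    refine Finset.sum_eq_zero fun i hi => Finset.sum_eq_zero fun j hj => ?_
    rw [Finset.mem_range] at hi hj
    rw [hPE0 i j (by omega), Polynomial.eval_zero, zero_mul, zero_mul]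
  obtain ⟨c₀, hc₀, hlow⟩ := Z15_lower hq hq0 (c : Polynomial ℂ) hc0
  have hdec := (Z15_decay hq hq0 C' D).eventually (gt_mem_nhds hc₀)
  obtain ⟨n, h1, h2, h3⟩ := (hCD.and (hlow.and hdec)).exists
  have hqn : 0 < ‖q n‖ := norm_pos_iff.2 (hq0 n)
  simp only [htr, sub_zero, mul_zero, Finset.sum_const_zero, add_zero] at h1
  rw [norm_mul, norm_mul, norm_pow, norm_pow, RCLike.norm_conj, mul_assoc, ← pow_add,
    pow_succ, ← mul_assoc, mul_assoc _ (‖q n‖ ^ (2 * N)), mul_comm (‖q n‖ ^ (2 * N)),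
    ← mul_assoc, ← two_mul] at h1
  have h4 := le_of_mul_le_mul_right h1 (pow_pos hqn _)
  linarith

end Pool.Agent.LibZE25
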