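import Pool.Agent.LibZE25.Der

/-!
# No rational function satisfies `c' = a c`
-/

namespace Pool.Agent.LibZE25

open Polynomial in
theorem Z3_poly {a : ℤ} (ha : a ≠ 0) {p q : ℂ[X]} (hq : q ≠ 0)
    (h : derivative p * q - p * derivative q = a • (p * q)) : p = 0 := by
  by_contra hp
  have haC : ((a : ℤ) : ℂ) ≠ 0 := Int.cast_ne_zero.2 ha
  have h1 : a • (p * q) = C ((a : ℤ) : ℂ) * (p * q) := by
    rw [zsmul_eq_mul, C_eq_intCast]
  have h2 : (C ((a : ℤ) : ℂ) * (p * q)).degree = p.degree + q.degree := by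
    rw [degree_mul, degree_C haC, zero_add, degree_mul]
  have hpb : p.degree ≠ ⊥ := fun h => hp (degree_eq_bot.1 h)
  have hqb : q.degree ≠ ⊥ := fun h => hq (degree_eq_bot.1 h)
  have h3 : (derivative p * q).degree < p.degree + q.degree := by
    rw [degree_mul]
    exact WithBot.add_lt_add_right hqb (degree_derivative_lt hp)
  have h4 : (p * derivative q).degree < p.degree + q.degree := by
    rw [degree_mul]
    exact WithBot.add_lt_add_left hpb (degree_derivative_lt hq)
  have h5 : (derivative p * q - p * derivative q).degree < p.degree + q.degree :=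
    lt_of_le_of_lt (degree_sub_le _ _) (max_lt h3 h4)
  rw [h, h1, h2] at h5
  exact lt_irrefl _ h5

theorem dk_eq_smul {a : ℤ} (ha : a ≠ 0) {c : kk} (h : dk c = a • c) : c = 0 := by
  obtain ⟨p, q, hq, hc⟩ := IsFractionRing.div_surjective (A := Polynomial ℂ) c
  have hq0 : q ≠ 0 := nonZeroDivisors.ne_zero hq
  have hιq : algebraMap (Polynomial ℂ) kk q ≠ 0 := by
    intro h0
    exact hq0 ((IsFractionRing.injective (Polynomial ℂ) kk) (h0.trans (map_zero _).symm))
  have hcq : c * algebraMap (Polynomial ℂ) kk q = algebraMap (Polynomial ℂ) kk p := by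
    rw [← hc, div_mul_cancel₀ _ hιq]
  have h1 := congrArg dk hcq
  rw [Derivation.leibniz, dk_coe, dk_coe, h, smul_eq_mul, smul_eq_mul] at h1
  have h2 : algebraMap (Polynomial ℂ) kk
      (Polynomial.derivative p * q - p * Polynomial.derivative q) =
      algebraMap (Polynomial ℂ) kk (a • (p * q)) := by
    rw [map_sub, map_mul, map_mul, map_zsmul, map_mul, ← h1, ← hcq, zsmul_eq_mul, zsmul_eq_mul]
    ring
  have h3 := IsFractionRing.injective (Polynomial ℂ) kk h2
  rw [← hc, Z3_poly ha hq0 h3, map_zero, zero_div]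

end Pool.Agent.LibZE25
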