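import Pool.Agent.LibSP38.Mon1
import Pool.Agent.LibSP38.Glo1

/-!
# `F^k` and its conjugate are orthogonal for the Hodge metric
-/

open Matrix Complex Filter Topology
open scoped ComplexOrder ContDiff

namespace Pool.Agent.LibZE25

open SP38

variable {m : ℕ} {w : ℤ} {p : Fin m → ℤ} {Q : Matrix (Fin m) (Fin m) ℝ}
  {G : Matrix (Fin m) (Fin m) ℂ} {s : Equiv.Perm (Fin m)} {K : ℕ}

theorem qf_add_of_types (h : IsPHS w p Q G) (hs : ∀ j, p (s j) = w - p j) (hK : ∀ j, |p j| ≤ K)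
    {k : ℤ} (hty : ∀ j, p j < k ∨ w - p j < k) {u v : Fin m → ℂ} (hu : u ∈ Fil p G k)
    (hv : cj v ∈ Fil p G k) :
    qf (metr w K Q (PP p s G)) (u + v) =
      qf (metr w K Q (PP p s G)) u + qf (metr w K Q (PP p s G)) v := by
  have hd := h.hd hs hK
  have hu' := (h.mem_Fil_iff_PP hs k u).1 hu
  have hv' := (h.mem_Fil_iff_PP hs k (cj v)).1 hv
  have hv'' : ∀ a, w - a < k → PP p s G a *ᵥ v = 0 := by
    intro a ha
    have h1 := hd.hd1_cj a v
    rw [hv' (w - a) ha] at h1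
    have h2 := congrArg cj h1
    rw [hd1_cj_cj] at h2
    rw [h2]
    funext i
    simp [cj]
  have hqf0 : qf (metr w K Q (PP p s G)) 0 = 0 := by
    simp [qf]
  rw [hd.qf_sum (u + v), hd.qf_sum u, hd.qf_sum v, ← Finset.sum_add_distrib]
  refine Finset.sum_congr rfl fun a _ => ?_
  rw [Matrix.mulVec_add]
  by_cases ha : ∃ j, p j = a
  · obtain ⟨j, rfl⟩ := ha
    rcases hty j with h1 | h1
    · rw [hu' _ h1, zero_add, hqf0, zero_add]
    · rw [hv'' _ h1, add_zero, hqf0, add_zero]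
  · push Not at ha
    rw [PP_eq_zero G ha, Matrix.zero_mulVec, Matrix.zero_mulVec, add_zero, hqf0, add_zero]

end Pool.Agent.LibZE25
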