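import Pool.Agent.LibZE25.Der

/-!
# The derivations `Dz`, `Dw` on power series in one variable
-/

open PowerSeries

namespace Pool.Agent.LibZE25

theorem coeff_jz (f : PowerSeries ℂ) (i j : ℕ) :
    coeff j (coeff i (jz f)) = if i = 0 then algebraMap ℂ kk (coeff j f) else 0 := by
  unfold jz
  rw [RingHom.comp_apply, coeff_C]
  split_ifs with h
  · rw [coeff_map]
  · rw [map_zero]

theorem coeff_jw (f : PowerSeries ℂ) (i j : ℕ) :
    coeff j (coeff i (jw f)) = if j = 0 then algebraMap ℂ kk (coeff i f) else 0 := by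
  unfold jw
  rw [coeff_map, RingHom.comp_apply, coeff_C]

theorem Z4_XD (f : PowerSeries ℂ) (n : ℕ) : coeff n (X * derivative ℂ f) = n * coeff n f := by
  cases n with
  | zero => simp
  | succ n =>
    rw [coeff_succ_X_mul, coeff_derivative]
    push_cast
    ring

theorem Dz_jz (f : PowerSeries ℂ) : Dz (jz f) = jz (X * derivative ℂ f) := by
  ext i j : 2
  rw [coeff_Dz, coeff_jz, coeff_jz]
  split_ifs with h
  · rw [Derivation.map_algebraMap, zero_add, Z4_XD, map_mul, map_natCast, nsmul_eq_mul]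
  · rw [map_zero, nsmul_zero, add_zero]

theorem Dz_jw (f : PowerSeries ℂ) : Dz (jw f) = 0 := by
  ext i j : 2
  rw [coeff_Dz, coeff_jw]
  split_ifs with h
  · rw [Derivation.map_algebraMap, h, zero_smul, add_zero, map_zero, map_zero]
  · rw [map_zero, nsmul_zero, add_zero, map_zero, map_zero]

theorem Dw_jw (f : PowerSeries ℂ) : Dw (jw f) = jw (X * derivative ℂ f) := by
  ext i j : 2
  rw [coeff_Dw, coeff_jw, coeff_jw]
  split_ifs with h
  · rw [Derivation.map_algebraMap, zero_add, Z4_XD, map_mul, map_natCast, nsmul_eq_mul]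
  · rw [map_zero, nsmul_zero, add_zero]

theorem Dw_jz (f : PowerSeries ℂ) : Dw (jz f) = 0 := by
  ext i j : 2
  rw [coeff_Dw, coeff_jz]
  split_ifs with h
  · rw [Derivation.map_algebraMap, h, zero_smul, add_zero, map_zero, map_zero]
  · rw [map_zero, nsmul_zero, add_zero, map_zero, map_zero]

theorem Z4_coeff_YR (i j : ℕ) : coeff j (coeff i YR) =
    if i = 0 then (if j = 0 then algebraMap _ kk (Polynomial.X : Polynomial ℂ) else 0) else 0 := by
  unfold YR
  rw [coeff_C]
  split_ifs with h h'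
  · rw [coeff_C, if_pos h']
  · rw [coeff_C, if_neg h']
  · rw [map_zero]

theorem Z4_dk_X : dk (algebraMap _ kk (Polynomial.X : Polynomial ℂ)) = 1 := by
  rw [dk_coe, Polynomial.derivative_X, map_one]

theorem Z4_coeff_one (i j : ℕ) : coeff j (coeff i (1 : RR)) =
    if i = 0 then (if j = 0 then (1 : kk) else 0) else 0 := by
  rw [coeff_one]
  split_ifs with h h'
  · rw [coeff_one, if_pos h']
  · rw [coeff_one, if_neg h']
  · rw [map_zero]

theorem D_YR : Dz YR = 1 ∧ Dw YR = 1 := by
  constructor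
  · ext i j : 2
    rw [coeff_Dz, Z4_coeff_YR, Z4_coeff_one]
    split_ifs with h h'
    · rw [Z4_dk_X, h', zero_smul, add_zero]
    · rw [map_zero, nsmul_zero, add_zero]
    · rw [map_zero, nsmul_zero, add_zero]
  · ext i j : 2
    rw [coeff_Dw, Z4_coeff_YR, Z4_coeff_one]
    split_ifs with h h'
    · rw [Z4_dk_X, h, zero_smul, add_zero]
    · rw [map_zero, nsmul_zero, add_zero]
    · rw [map_zero, nsmul_zero, add_zero]

theorem Dz_Dw (f : RR) : Dz (Dw f) = Dw (Dz f) := by
  ext i j : 2
  rw [coeff_Dz, coeff_Dw, coeff_Dw, coeff_Dz]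
  rw [map_add, map_add, map_nsmul, map_nsmul]
  simp only [nsmul_eq_mul]
  ring

theorem jz_C (c : ℂ) : jz (C c) = algebraMap ℂ RR c := by
  unfold jz
  rw [RingHom.comp_apply, map_C, PowerSeries.algebraMap_apply, PowerSeries.algebraMap_apply]

theorem jw_C (c : ℂ) : jw (C c) = algebraMap ℂ RR c := by
  unfold jw
  rw [map_C, RingHom.comp_apply, PowerSeries.algebraMap_apply, PowerSeries.algebraMap_apply]

end Pool.Agent.LibZE25
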