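import Pool.Agent.LibZE25.Der

/-!
# Existence of a nonzero prime containing `I`, not containing `z`, `w`
-/

open PowerSeries

namespace Pool.Agent.LibZE25

/-- the value at `z = w`, coefficient of degree `d` -/
noncomputable def Z8_s (d : ℕ) (g : RR) : kk :=
  ∑ p ∈ Finset.HasAntidiagonal.antidiagonal d, coeff p.2 (coeff p.1 g)

theorem Z8_w (d : ℕ) (f : RR) : Z8_s (d + 1) (f * wR) = Z8_s d f := by
  unfold Z8_s wR
  rw [Finset.Nat.sum_antidiagonal_succ]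
  rw [coeff_zero_mul_X, map_zero, zero_add]
  refine Finset.sum_congr rfl fun p _ => ?_
  rw [coeff_succ_mul_X]

theorem Z8_z (d : ℕ) (f : RR) : Z8_s (d + 1) (f * zR) = Z8_s d f := by
  unfold Z8_s zR
  rw [Finset.Nat.sum_antidiagonal_succ']
  rw [coeff_mul_C, coeff_zero_mul_X, zero_add]
  refine Finset.sum_congr rfl fun p _ => ?_
  rw [coeff_mul_C, coeff_succ_mul_X]

theorem Z8_sub (d : ℕ) (f g : RR) : Z8_s d (f - g) = Z8_s d f - Z8_s d g := by
  unfold Z8_s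
  rw [← Finset.sum_sub_distrib]
  refine Finset.sum_congr rfl fun p _ => ?_
  rw [map_sub, map_sub]

theorem Z8_zero (f : RR) (d : ℕ) : Z8_s d (f * (wR - zR)) = 0 := by
  rw [mul_sub, Z8_sub]
  cases d with
  | zero =>
    unfold Z8_s wR zR
    rw [Finset.Nat.antidiagonal_zero, Finset.sum_singleton, Finset.sum_singleton,
      coeff_zero_mul_X, map_zero, coeff_mul_C, coeff_zero_mul_X, sub_zero]
  | succ d => rw [Z8_w, Z8_z, sub_self]

theorem Z8_one (N : ℕ) : Z8_s (N + N) ((zR * wR) ^ N) = 1 := by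
  unfold Z8_s
  have h : ∀ i j : ℕ, coeff j (coeff i ((zR * wR) ^ N)) = if i = N ∧ j = N then (1 : kk) else 0 := by
    intro i j
    rw [mul_pow]
    unfold zR wR
    rw [← map_pow, coeff_C_mul, coeff_X_pow]
    by_cases h1 : i = N
    · rw [if_pos h1, mul_one, coeff_X_pow]
      by_cases h2 : j = N
      · rw [if_pos h2, if_pos ⟨h1, h2⟩]
      · rw [if_neg h2, if_neg (fun h => h2 h.2)]
    · rw [if_neg h1, mul_zero, map_zero, if_neg (fun h => h1 h.1)]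
  rw [Finset.sum_eq_single (N, N)]
  · rw [h, if_pos ⟨rfl, rfl⟩]
  · intro p _ hp
    rw [h, if_neg]
    rintro ⟨h1, h2⟩
    exact hp (Prod.ext h1 h2)
  · intro hn
    exact (hn (Finset.HasAntidiagonal.mem_antidiagonal.2 rfl)).elim

/-- `(z w)^N` is not a multiple of `w - z` -/
theorem zw_pow_notMem (N : ℕ) : (zR * wR) ^ N ∉ Ideal.span {wR - zR} := by
  intro h
  obtain ⟨f, hf⟩ := Ideal.mem_span_singleton'.1 h
  have h1 := Z8_one N
  rw [← hf, Z8_zero] at h1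
  exact zero_ne_one h1

/-- an ideal containing no power of `z w` is contained in a nonzero prime not containing `z`, `w` -/
theorem exists_prime (I : Ideal RR) (hI : ∀ N : ℕ, (zR * wR) ^ N ∉ I) :
    ∃ 𝔭 : Ideal RR, 𝔭.IsPrime ∧ I ≤ 𝔭 ∧ 𝔭 ≠ ⊥ ∧ zR ∉ 𝔭 ∧ wR ∉ 𝔭 := by
  have key : ∀ J : Ideal RR, J ≠ ⊥ → (∀ N : ℕ, (zR * wR) ^ N ∉ J) →
      ∃ 𝔭 : Ideal RR, 𝔭.IsPrime ∧ J ≤ 𝔭 ∧ 𝔭 ≠ ⊥ ∧ zR ∉ 𝔭 ∧ wR ∉ 𝔭 := by
    intro J hJ hJN
    have hdis : Disjoint (J : Set RR) (Submonoid.powers (zR * wR) : Set RR) := by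
      rw [Set.disjoint_left]
      rintro x hx ⟨N, rfl⟩
      exact hJN N hx
    obtain ⟨𝔭, h1, h2, h3⟩ := Ideal.exists_le_prime_disjoint J (Submonoid.powers (zR * wR)) hdis
    have hzw : zR * wR ∉ 𝔭 := by
      intro h
      exact Set.disjoint_left.1 h3 h (Submonoid.mem_powers _)
    refine ⟨𝔭, h1, h2, ?_, ?_, ?_⟩
    · rintro rfl
      exact hJ (le_bot_iff.1 h2)
    · intro h
      exact hzw (Ideal.mul_mem_right _ _ h)
    · intro h
      exact hzw (Ideal.mul_mem_left _ _ h)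
  by_cases hb : I = ⊥
  · have h1 : Ideal.span {wR - zR} ≠ (⊥ : Ideal RR) := by
      intro h
      rw [Ideal.span_singleton_eq_bot, sub_eq_zero] at h
      have h2 := congrArg (fun g : RR => coeff 0 (coeff 1 g)) h
      simp only [wR, zR, coeff_one_X, coeff_C] at h2
      norm_num at h2
    obtain ⟨𝔭, h2, h3, h4⟩ := key _ h1 zw_pow_notMem
    exact ⟨𝔭, h2, by rw [hb]; exact bot_le, h4⟩
  · exact key I hb hI

end Pool.Agent.LibZE25
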